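import Mathlib

/-!
# Events with summable logarithmic frequencies have density zero

If `∑_j P(E_j) / (j+1) < ∞`, then almost surely only `o(J)` of the events `E_j`, `j < J`, occur.
-/

open MeasureTheory Filter Topology

namespace Pool.Agent.Lib.P4a7640B

open scoped Classical in
/-- a set of integers with a finite sum of reciprocals has density zero -/
lemma dens_of_summable {S : Set ℕ}
    (h : Summable fun j : ℕ => (if j ∈ S then (1 : ℝ) else 0) / ((j : ℝ) + 1)) :
    Tendsto (fun J : ℕ => (((Finset.range J).filter fun j => j ∈ S).card : ℝ) / J) atTop (𝓝 0) := by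
  rw [Metric.tendsto_atTop]
  intro δ hδ
  obtain ⟨s, hs⟩ := summable_iff_vanishing_norm.1 h (δ / 2) (by positivity)
  obtain ⟨j₀, hj₀⟩ : ∃ j₀ : ℕ, s ⊆ Finset.range j₀ := by
    refine ⟨s.sup id + 1, fun j hj => Finset.mem_range.2 ?_⟩
    exact Nat.lt_succ_of_le (Finset.le_sup (f := id) hj)
  obtain ⟨J₀, hJ₀⟩ := exists_nat_gt (2 * (j₀ : ℝ) / δ)
  refine ⟨max J₀ 1, fun J hJ => ?_⟩
  have hJ1 : 1 ≤ J := (le_max_right _ _).trans hJ
  have hJ0 : (0 : ℝ) < J := by exact_mod_cast hJ1
  have hJ2 : 2 * (j₀ : ℝ) / δ < J := hJ₀.trans_le (by exact_mod_cast (le_max_left _ _).trans hJ)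
  set T := (Finset.range J).filter fun j => j ∈ S with hT
  set U := T.filter fun j => j₀ ≤ j with hU
  have hdis : Disjoint U s := by
    rw [Finset.disjoint_left]
    intro j hj hjs
    have h1 := Finset.mem_range.1 (hj₀ hjs)
    have h2 := (Finset.mem_filter.1 hj).2
    omega
  have h1 := hs U hdis
  have h2 : ((U.card : ℕ) : ℝ) / J ≤
      ∑ j ∈ U, (if j ∈ S then (1 : ℝ) else 0) / ((j : ℝ) + 1) := by
    rw [Finset.card_eq_sum_ones, Nat.cast_sum, Finset.sum_div]
    refine Finset.sum_le_sum fun j hj => ?_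
    have h3 := Finset.mem_filter.1 (Finset.mem_filter.1 hj).1
    rw [if_pos h3.2, Nat.cast_one]
    apply div_le_div_of_nonneg_left zero_le_one (by positivity)
    have h4 := Finset.mem_range.1 h3.1
    exact_mod_cast h4
  have h5 : ((U.card : ℕ) : ℝ) / J < δ / 2 := by
    refine lt_of_le_of_lt h2 (lt_of_le_of_lt (le_abs_self _) ?_)
    rw [← Real.norm_eq_abs]
    exact h1
  have h6 : T.card ≤ j₀ + U.card := by
    have h7 : T ⊆ Finset.range j₀ ∪ U := by
      intro j hj
      rw [Finset.mem_union, Finset.mem_range]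
      rcases lt_or_ge j j₀ with h8 | h8
      · exact Or.inl h8
      · exact Or.inr (Finset.mem_filter.2 ⟨hj, h8⟩)
    calc T.card ≤ (Finset.range j₀ ∪ U).card := Finset.card_le_card h7
      _ ≤ (Finset.range j₀).card + U.card := Finset.card_union_le _ _
      _ = j₀ + U.card := by rw [Finset.card_range]
  have h9 : ((T.card : ℕ) : ℝ) / J ≤ (j₀ : ℝ) / J + ((U.card : ℕ) : ℝ) / J := by
    rw [← add_div]
    apply div_le_div_of_nonneg_right _ hJ0.le
    exact_mod_cast h6
  have h10 : (j₀ : ℝ) / J < δ / 2 := by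
    rw [div_lt_iff₀ hδ] at hJ2
    rw [div_lt_iff₀ hJ0]
    linarith
  rw [Real.dist_eq, sub_zero, abs_of_nonneg (by positivity)]
  linarith

open scoped Classical in
/-- events with `∑_j P(E_j) / (j+1) < ∞`: almost surely only `o(J)` of them occur for `j < J` -/
theorem ae_dens {Ω : Type*} [MeasurableSpace Ω] (P : Measure Ω) [IsProbabilityMeasure P]
    {E : ℕ → Set Ω} (hE : ∀ j, MeasurableSet (E j))
    (h : Summable fun j : ℕ => P.real (E j) / ((j : ℝ) + 1)) :
    ∀ᵐ ω ∂P, Tendsto (fun J : ℕ => (((Finset.range J).filter fun j => ω ∈ E j).card : ℝ) / J)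
      atTop (𝓝 0) := by
  set F : ℕ → Ω → ENNReal := fun j => (E j).indicator fun _ => ENNReal.ofReal (1 / ((j : ℝ) + 1))
    with hF
  have hFm : ∀ j, Measurable (F j) := fun j => measurable_const.indicator (hE j)
  have hint : ∀ j, ∫⁻ ω, F j ω ∂P = ENNReal.ofReal (P.real (E j) / ((j : ℝ) + 1)) := by
    intro j
    rw [hF]
    simp only
    rw [lintegral_indicator (hE j), setLIntegral_const, mul_comm, measureReal_def, ← ENNReal.ofReal_toReal
      (measure_ne_top P (E j)), ← ENNReal.ofReal_mul ENNReal.toReal_nonneg,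
      ENNReal.toReal_ofReal ENNReal.toReal_nonneg]
    congr 1
    ring
  have hfin : ∫⁻ ω, ∑' j, F j ω ∂P ≠ ⊤ := by
    rw [lintegral_tsum fun j => (hFm j).aemeasurable]
    simp only [hint]
    rw [← ENNReal.ofReal_tsum_of_nonneg (fun j => by positivity) h]
    exact ENNReal.ofReal_ne_top
  have hae := ae_lt_top (Measurable.ennreal_tsum hFm) hfin
  filter_upwards [hae] with ω hω
  have h1 : Summable fun j : ℕ => (if j ∈ {j | ω ∈ E j} then (1 : ℝ) else 0) / ((j : ℝ) + 1) := by
    have h2 : ∀ j, (if j ∈ {j | ω ∈ E j} then (1 : ℝ) else 0) / ((j : ℝ) + 1) = (F j ω).toReal := by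
      intro j
      rw [hF]
      simp only [Set.mem_setOf_eq]
      by_cases hj : ω ∈ E j
      · rw [if_pos hj, Set.indicator_of_mem hj, ENNReal.toReal_ofReal (by positivity)]
      · rw [if_neg hj, Set.indicator_of_notMem hj, zero_div, ENNReal.toReal_zero]
    simp only [h2]
    exact ENNReal.summable_toReal hω.ne
  exact dens_of_summable h1

end Pool.Agent.Lib.P4a7640B
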