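import Mathlib
import Pool.Agent.Lib.P4a7640N2.WeightC

/-!
# Betting on the signs of a multiplicative function: definitions

`DL a b` is the list of the primes in `(a, b]`, in decreasing order. `GB θ F k d` is the average of `F`
over the signs at the primes of the dyadic blocks `k, k+1, ..., k+d-1`.
-/

open Filter Topology

namespace Pool.Agent.Lib.P4a7640B

open Pool.Agent.Lib.P4a7640 Pool.Agent.Lib.P4a7640N Pool.Agent.Lib.P4a7640Ces

/-- the primes in `(a, b]`, in decreasing order -/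
def DL (a b : ℕ) : List ℕ := ((List.range' (a + 1) (b - a)).reverse).filter fun p => decide p.Prime

/-- the average over the signs at the primes of the blocks `k, ..., k + d - 1` -/
noncomputable def GB (θ : ℕ → ℝ) (F : SS → ℝ) : ℕ → ℕ → SS → ℝ
  | _, 0 => F
  | k, d + 1 => AVL θ (DL (2 ^ k) (2 ^ (k + 1))) (GB θ F (k + 1) d)

/-- `F` depends only on the signs at the primes `≤ M` -/
def DepOn (M : ℕ) (F : SS → ℝ) : Prop :=
  ∀ x y : SS, (∀ p : ℕ, p.Prime → p ≤ M → x p = y p) → F x = F y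

/-- the indicator function of a set of sign sequences -/
noncomputable def ind (B : Set SS) (x : SS) : ℝ := by
  classical
  exact if x ∈ B then 1 else 0

/-- the first block at the scale `N`: `2 ^ k0 J N ≥ rt J N` -/
def k0 (J N : ℕ) : ℕ := Nat.clog 2 (rt J N)

/-- the last block at the scale `N`: `2 ^ KN N ≥ 2 * N` -/
def KN (N : ℕ) : ℕ := Nat.clog 2 (2 * N)

/-- the weighted correlation with the signs below `rt (J + 1) N` changed on `D`; the weight may depend
on the set of shifts -/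
noncomputable def FF (W : Finset ℕ → ℕ → ℝ) (g : SS) (H D : Finset ℕ) (N : ℕ) : SS → ℝ :=
  FC (fun n => W H n * prodSeq (rnd g) H n * prodSeq (rnd (sD D)) H n) H N

/-- the bad event of the block `k` -/
def Bad (θ : ℕ → ℝ) (W : Finset ℕ → ℕ → ℝ) (g : SS) (r J : ℕ) (t : ℝ) (k : ℕ) : Set SS :=
  {x | ∃ N : ℕ, 1 ≤ N ∧ k0 J N ≤ k ∧ k < KN N ∧ ∃ H : Finset ℕ, H ⊆ Finset.range (N + 1) ∧ H.card = r ∧
    ∃ D : Finset ℕ, D ⊆ Finset.Icc 1 (rt (J + 1) N) ∧
      t / ((k : ℝ) + 1) ≤ |GB θ (FF W g H D N) k (KN N - k) x -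
        GB θ (FF W g H D N) (k + 1) (KN N - (k + 1)) x|}

/-- a betting strategy at the odds `θ` on the signs at the primes (`θ p` is the probability of `-1`):
`K n x ≥ 0` is the capital after the signs `x p`, `p ≤ n`, are known -/
def IsStrategy (θ : ℕ → ℝ) (K : ℕ → SS → ℝ) : Prop :=
  (∀ x, K 0 x = 1) ∧ (∀ n x, 0 ≤ K n x) ∧
  (∀ n x y, (∀ p : ℕ, p.Prime → p ≤ n → x p = y p) → K n x = K n y) ∧
  (∀ n x, ¬ (n + 1).Prime → K (n + 1) x = K n x) ∧
  (∀ p x, p.Prime → (1 - θ p) * K p (Function.update x p 1) +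
    θ p * K p (Function.update x p (-1)) = K (p - 1) x)

/-- the capital is exponentially large infinitely often -/
def Wins (K : ℕ → SS → ℝ) (x : SS) : Prop :=
  ∃ η : ℝ, 0 < η ∧ ∃ᶠ M : ℕ in atTop, Real.exp (η * Nat.primeCounting M) ≤ K M x

/-- Chowla's conjecture with the weight `w`, ordinary averages, uniformly in all shifts up to `N` -/
def ChowlaU (w : ℕ → ℝ) (f : ℕ → ℤˣ) : Prop :=
  ∀ (r : ℕ) (ε : ℝ), 0 < r → 0 < ε → ∀ᶠ N : ℕ in atTop, ∀ H : Finset ℕ, H ⊆ Finset.range (N + 1) →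
    H.card = r → |∑ n ∈ Finset.Icc 1 N, w n * ∏ h ∈ H, ((f (n + h) : ℤ) : ℝ)| ≤ ε * N

/-- `f` is in the slow class of `y`: the sum of `1 / p` over the primes `p` with `√N < p ≤ N` and
`f p ≠ y p` tends to `0` -/
def SlowTo (f y : ℕ → ℤˣ) : Prop :=
  Tendsto (fun N : ℕ => ∑ p ∈ (Finset.Icc 1 N).filter
    (fun p : ℕ => p.Prime ∧ N < p ^ 2 ∧ f p ≠ y p), (1 : ℝ) / p) atTop (𝓝 0)

/-- the weight with a periodic sign pattern -/
def uS (R : ℕ) (S : Finset ℕ) (n : ℕ) : ℤˣ := if n % R ∈ S then -1 else 1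

end Pool.Agent.Lib.P4a7640B
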