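import Mathlib
import Pool.Agent.Lib.P4a7640B.Par

/-!
# Averages over lists of coordinates: pointwise bounded differences inequality

Everything is pointwise, there is no measure and no measurability.
-/

open Filter Topology

namespace Pool.Agent.Lib.P4a7640B

open Pool.Agent.Lib.P4a7640 Pool.Agent.Lib.P4a7640N Pool.Agent.Lib.P4a7640Ces

lemma AVL_append (θ : ℕ → ℝ) (L₁ L₂ : List ℕ) (Φ : SS → ℝ) :
    AVL θ (L₁ ++ L₂) Φ = AVL θ L₂ (AVL θ L₁ Φ) := by
  induction L₁ generalizing Φ with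
  | nil => rfl
  | cons p L ih => exact ih (AV θ p Φ)

lemma AVL_mono {θ : ℕ → ℝ} (hθ0 : ∀ p, 0 ≤ θ p) (hθ1 : ∀ p, θ p ≤ 1) (L : List ℕ) {Φ Ψ : SS → ℝ}
    (h : ∀ x, Φ x ≤ Ψ x) (x : SS) : AVL θ L Φ x ≤ AVL θ L Ψ x := by
  induction L generalizing Φ Ψ with
  | nil => exact h x
  | cons p L ih =>
    refine ih (Φ := AV θ p Φ) (Ψ := AV θ p Ψ) fun y => ?_
    unfold AV
    have h1 : 0 ≤ 1 - θ p := by linarith [hθ1 p]
    exact add_le_add (mul_le_mul_of_nonneg_left (h _) h1)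
      (mul_le_mul_of_nonneg_left (h _) (hθ0 p))

lemma AVL_const (θ : ℕ → ℝ) (L : List ℕ) (c : ℝ) (x : SS) : AVL θ L (fun _ => c) x = c := by
  induction L with
  | nil => rfl
  | cons p L ih =>
    have h : AV θ p (fun _ : SS => c) = fun _ => c := by
      funext y
      unfold AV
      ring
    show AVL θ L (AV θ p (fun _ => c)) x = c
    rw [h]
    exact ih

lemma AVL_le {θ : ℕ → ℝ} (hθ0 : ∀ p, 0 ≤ θ p) (hθ1 : ∀ p, θ p ≤ 1) (L : List ℕ) {Φ : SS → ℝ} {c : ℝ}
    (h : ∀ x, Φ x ≤ c) (x : SS) : AVL θ L Φ x ≤ c := by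
  have h1 := AVL_mono hθ0 hθ1 L (Φ := Φ) (Ψ := fun _ => c) h x
  rwa [AVL_const] at h1

lemma AVL_nonneg {θ : ℕ → ℝ} (hθ0 : ∀ p, 0 ≤ θ p) (hθ1 : ∀ p, θ p ≤ 1) (L : List ℕ) {Φ : SS → ℝ}
    (h : ∀ x, 0 ≤ Φ x) (x : SS) : 0 ≤ AVL θ L Φ x := by
  have h1 := AVL_mono hθ0 hθ1 L (Φ := fun _ => (0 : ℝ)) (Ψ := Φ) h x
  rwa [AVL_const] at h1

lemma ind_of_mem {B : Set SS} {x : SS} (h : x ∈ B) : ind B x = 1 := by
  unfold ind
  simp [h]

lemma ind_of_notMem {B : Set SS} {x : SS} (h : x ∉ B) : ind B x = 0 := by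
  unfold ind
  simp [h]

lemma ind_nonneg (B : Set SS) (x : SS) : 0 ≤ ind B x := by
  by_cases h : x ∈ B
  · rw [ind_of_mem h]
    exact zero_le_one
  · rw [ind_of_notMem h]

lemma ind_le_one (B : Set SS) (x : SS) : ind B x ≤ 1 := by
  by_cases h : x ∈ B
  · rw [ind_of_mem h]
  · rw [ind_of_notMem h]
    exact zero_le_one

private lemma AVL_add_pt (θ : ℕ → ℝ) (L : List ℕ) (Φ Ψ : SS → ℝ) (x : SS) :
    AVL θ L (fun y => Φ y + Ψ y) x = AVL θ L Φ x + AVL θ L Ψ x := by
  induction L generalizing Φ Ψ with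
  | nil => rfl
  | cons p L ih =>
    have h : AV θ p (fun y => Φ y + Ψ y) = fun y => AV θ p Φ y + AV θ p Ψ y := by
      funext y
      unfold AV
      ring
    show AVL θ L (AV θ p (fun y => Φ y + Ψ y)) x = _
    rw [h]
    exact ih _ _

private lemma AVL_const_mul_pt (θ : ℕ → ℝ) (L : List ℕ) (c : ℝ) (Φ : SS → ℝ) (x : SS) :
    AVL θ L (fun y => c * Φ y) x = c * AVL θ L Φ x := by
  induction L generalizing Φ with
  | nil => rfl
  | cons p L ih =>
    have h : AV θ p (fun y => c * Φ y) = fun y => c * AV θ p Φ y := by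
      funext y
      unfold AV
      ring
    show AVL θ L (AV θ p (fun y => c * Φ y)) x = _
    rw [h]
    exact ih _

/-- the union bound -/
lemma AVL_ind_biUnion {θ : ℕ → ℝ} (hθ0 : ∀ p, 0 ≤ θ p) (hθ1 : ∀ p, θ p ≤ 1) (L : List ℕ) {ι : Type*}
    (s : Finset ι) (B : ι → Set SS) (x : SS) :
    AVL θ L (ind (⋃ i ∈ s, B i)) x ≤ ∑ i ∈ s, AVL θ L (ind (B i)) x := by
  classical
  induction s using Finset.induction_on with
  | empty =>
    rw [Finset.sum_empty]
    refine AVL_le hθ0 hθ1 L (fun y => ?_) x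
    rw [ind_of_notMem (by simp)]
  | insert a s ha ih =>
    rw [Finset.sum_insert ha]
    calc AVL θ L (ind (⋃ i ∈ insert a s, B i)) x
        ≤ AVL θ L (fun y => ind (B a) y + ind (⋃ i ∈ s, B i) y) x := by
          refine AVL_mono hθ0 hθ1 L (fun y => ?_) x
          by_cases h : y ∈ ⋃ i ∈ insert a s, B i
          · rw [ind_of_mem h]
            rw [Finset.set_biUnion_insert] at h
            rcases h with h | h
            · rw [ind_of_mem h]
              linarith [ind_nonneg (⋃ i ∈ s, B i) y]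
            · rw [ind_of_mem h]
              linarith [ind_nonneg (B a) y]
          · rw [ind_of_notMem h]
            exact add_nonneg (ind_nonneg _ _) (ind_nonneg _ _)
      _ = AVL θ L (ind (B a)) x + AVL θ L (ind (⋃ i ∈ s, B i)) x := AVL_add_pt θ L _ _ x
      _ ≤ _ := by linarith

lemma AVL_ind_mono {θ : ℕ → ℝ} (hθ0 : ∀ p, 0 ≤ θ p) (hθ1 : ∀ p, θ p ≤ 1) (L : List ℕ) {B C : Set SS}
    (h : B ⊆ C) (x : SS) : AVL θ L (ind B) x ≤ AVL θ L (ind C) x := by
  refine AVL_mono hθ0 hθ1 L (fun y => ?_) x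
  by_cases hy : y ∈ B
  · rw [ind_of_mem hy, ind_of_mem (h hy)]
  · rw [ind_of_notMem hy]
    exact ind_nonneg _ _

lemma exp_moment_pt {θ : ℕ → ℝ} (hθ0 : ∀ p, 0 ≤ θ p) (hθ1 : ∀ p, θ p ≤ 1) (l : ℝ) (c : ℕ → ℝ)
    (L : List ℕ) : L.Nodup → ∀ (Φ : SS → ℝ), (∀ p ∈ L, BD p Φ (c p)) → ∀ x : SS,
    AVL θ L (fun y => Real.exp (l * (Φ y - AVL θ L Φ y))) x ≤
      Real.exp (l ^ 2 * (L.map fun p => c p ^ 2).sum / 2) := by
  induction L with
  | nil =>
    intro _ Φ _ x
    simp [AVL]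
  | cons p L ih =>
    intro hnd Φ hBD x
    have hpL : p ∉ L := (List.nodup_cons.mp hnd).1
    have hndL : L.Nodup := (List.nodup_cons.mp hnd).2
    have hBD' : ∀ q ∈ L, BD q (AV θ p Φ) (c q) := by
      intro q hq
      have hqp : q ≠ p := by
        rintro rfl
        exact hpL hq
      exact BD_AV hθ0 hθ1 hqp (hBD q (List.mem_cons_of_mem _ hq))
    have ih' := ih hndL (AV θ p Φ) hBD' x
    set G : SS → ℝ := fun x => Real.exp (l * (AV θ p Φ x - AVL θ L (AV θ p Φ) x)) with hG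
    have hGpos : ∀ x, 0 < G x := fun x => Real.exp_pos _
    have hGind : Indep p G := by
      intro x a
      rw [hG]
      simp only
      rw [indep_AV_self θ p Φ x a, indep_AVL θ L (indep_AV_self θ p Φ) x a]
    set E : SS → ℝ := fun x => Real.exp (l * (Φ x - AV θ p Φ x)) with hE
    have hprod : (fun y => Real.exp (l * (Φ y - AVL θ (p :: L) Φ y))) = fun y => E y * G y := by
      funext y
      rw [hE, hG]
      simp only
      rw [← Real.exp_add]
      congr 1
      show l * (Φ y - AVL θ L (AV θ p Φ) y) = _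
      ring
    have hAV : ∀ x, AV θ p (fun x => E x * G x) x ≤ Real.exp (l ^ 2 * c p ^ 2 / 2) * G x := by
      intro x
      have h1 : AV θ p (fun x => E x * G x) x = AV θ p E x * G x := by
        unfold AV
        simp only
        rw [hGind x 1, hGind x (-1)]
        ring
      rw [h1]
      apply mul_le_mul_of_nonneg_right _ (hGpos x).le
      set Δ := Φ (Function.update x p 1) - Φ (Function.update x p (-1)) with hΔ
      have h2 : AV θ p E x = (1 - θ p) * Real.exp (l * (θ p * Δ)) +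
          θ p * Real.exp (l * (-((1 - θ p) * Δ))) := by
        have e1 : Φ (Function.update x p 1) - AV θ p Φ x = θ p * Δ := by
          unfold AV
          rw [hΔ]
          ring
        have e2 : Φ (Function.update x p (-1)) - AV θ p Φ x = -((1 - θ p) * Δ) := by
          unfold AV
          rw [hΔ]
          ring
        show (1 - θ p) * E (Function.update x p 1) + θ p * E (Function.update x p (-1)) = _
        rw [hE]
        simp only
        rw [indep_AV_self θ p Φ x 1, indep_AV_self θ p Φ x (-1), e1, e2]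
      rw [h2]
      refine (two_point (hθ0 p) (hθ1 p)).trans ?_
      apply Real.exp_le_exp.mpr
      have h3 : Δ ^ 2 ≤ c p ^ 2 := by
        have h4 := hBD p (List.mem_cons_self) x
        rw [← sq_abs Δ]
        exact pow_le_pow_left₀ (abs_nonneg _) h4 2
      have h5 : 0 ≤ l ^ 2 := sq_nonneg l
      nlinarith
    calc AVL θ (p :: L) (fun y => Real.exp (l * (Φ y - AVL θ (p :: L) Φ y))) x
        = AVL θ L (AV θ p (fun y => E y * G y)) x := by rw [hprod]; rfl
      _ ≤ AVL θ L (fun y => Real.exp (l ^ 2 * c p ^ 2 / 2) * G y) x :=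
          AVL_mono hθ0 hθ1 L hAV x
      _ = Real.exp (l ^ 2 * c p ^ 2 / 2) * AVL θ L G x := AVL_const_mul_pt θ L _ _ x
      _ ≤ Real.exp (l ^ 2 * c p ^ 2 / 2) *
          Real.exp (l ^ 2 * (L.map fun p => c p ^ 2).sum / 2) :=
          mul_le_mul_of_nonneg_left ih' (Real.exp_pos _).le
      _ = _ := by
          rw [← Real.exp_add, List.map_cons, List.sum_cons]
          congr 1
          ring

/-- the bounded differences inequality, conditionally on every past -/
theorem mcd {θ : ℕ → ℝ} (hθ0 : ∀ p, 0 ≤ θ p) (hθ1 : ∀ p, θ p ≤ 1) {c : ℕ → ℝ} {L : List ℕ}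
    (hL : L.Nodup) {Φ : SS → ℝ} (hBD : ∀ p ∈ L, BD p Φ (c p)) {V ε : ℝ}
    (hV : (L.map fun p => c p ^ 2).sum ≤ V) (hV0 : 0 < V) (hε : 0 < ε) (x : SS) :
    AVL θ L (ind {y | ε ≤ |Φ y - AVL θ L Φ y|}) x ≤ 2 * Real.exp (-(ε ^ 2 / (2 * V))) := by
  have hmom : ∀ l : ℝ, l ^ 2 = (ε / V) ^ 2 →
      AVL θ L (fun y => Real.exp (l * (Φ y - AVL θ L Φ y))) x ≤ Real.exp (ε ^ 2 / (2 * V)) := by
    intro l hl2
    refine (exp_moment_pt hθ0 hθ1 l c L hL Φ hBD x).trans ?_
    apply Real.exp_le_exp.mpr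
    rw [hl2]
    calc (ε / V) ^ 2 * (L.map fun p => c p ^ 2).sum / 2 ≤ (ε / V) ^ 2 * V / 2 := by gcongr
      _ = ε ^ 2 / (2 * V) := by field_simp
  have hpt : ∀ y, ind {y | ε ≤ |Φ y - AVL θ L Φ y|} y ≤
      Real.exp (-(ε ^ 2 / V)) * (Real.exp (ε / V * (Φ y - AVL θ L Φ y)) +
        Real.exp (-(ε / V) * (Φ y - AVL θ L Φ y))) := by
    intro y
    by_cases hy : y ∈ {y | ε ≤ |Φ y - AVL θ L Φ y|}
    · rw [ind_of_mem hy]
      have hy' : ε ≤ |Φ y - AVL θ L Φ y| := hy
      set t := Φ y - AVL θ L Φ y with ht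
      have h1 : 0 < ε / V := by positivity
      have h2 : Real.exp (ε ^ 2 / V) ≤ Real.exp (ε / V * t) + Real.exp (-(ε / V) * t) := by
        rcases le_abs.mp hy' with h | h
        · have h3 : Real.exp (ε ^ 2 / V) ≤ Real.exp (ε / V * t) := by
            apply Real.exp_le_exp.mpr
            calc ε ^ 2 / V = ε / V * ε := by ring
              _ ≤ ε / V * t := mul_le_mul_of_nonneg_left h h1.le
          linarith [Real.exp_pos (-(ε / V) * t)]
        · have h3 : Real.exp (ε ^ 2 / V) ≤ Real.exp (-(ε / V) * t) := by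
            apply Real.exp_le_exp.mpr
            calc ε ^ 2 / V = ε / V * ε := by ring
              _ ≤ ε / V * (-t) := mul_le_mul_of_nonneg_left h h1.le
              _ = -(ε / V) * t := by ring
          linarith [Real.exp_pos (ε / V * t)]
      calc (1 : ℝ) = Real.exp (-(ε ^ 2 / V)) * Real.exp (ε ^ 2 / V) := by
            rw [← Real.exp_add, neg_add_cancel, Real.exp_zero]
        _ ≤ _ := mul_le_mul_of_nonneg_left h2 (Real.exp_pos _).le
    · rw [ind_of_notMem hy]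
      positivity
  have h1 := hmom (ε / V) rfl
  have h2 := hmom (-(ε / V)) (by ring)
  calc AVL θ L (ind {y | ε ≤ |Φ y - AVL θ L Φ y|}) x
      ≤ AVL θ L (fun y => Real.exp (-(ε ^ 2 / V)) * (Real.exp (ε / V * (Φ y - AVL θ L Φ y)) +
        Real.exp (-(ε / V) * (Φ y - AVL θ L Φ y)))) x := AVL_mono hθ0 hθ1 L hpt x
    _ = Real.exp (-(ε ^ 2 / V)) * (AVL θ L (fun y => Real.exp (ε / V * (Φ y - AVL θ L Φ y))) x +
        AVL θ L (fun y => Real.exp (-(ε / V) * (Φ y - AVL θ L Φ y))) x) := by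
        rw [AVL_const_mul_pt, AVL_add_pt]
    _ ≤ Real.exp (-(ε ^ 2 / V)) * (Real.exp (ε ^ 2 / (2 * V)) + Real.exp (ε ^ 2 / (2 * V))) :=
        mul_le_mul_of_nonneg_left (add_le_add h1 h2) (Real.exp_pos _).le
    _ = 2 * (Real.exp (-(ε ^ 2 / V)) * Real.exp (ε ^ 2 / (2 * V))) := by ring
    _ = 2 * Real.exp (-(ε ^ 2 / (2 * V))) := by
        rw [← Real.exp_add]
        congr 2
        field_simp
        ring

end Pool.Agent.Lib.P4a7640B
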