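import Mathlib
import Pool.Agent.Lib.P4a7640B.Par

/-!
# The lists of primes `DL a b`, and how many primes there are in a dyadic block
-/

open Filter Topology

namespace Pool.Agent.Lib.P4a7640B

open Pool.Agent.Lib.P4a7640 Pool.Agent.Lib.P4a7640N Pool.Agent.Lib.P4a7640Ces

lemma mem_DL {a b p : ℕ} : p ∈ DL a b ↔ a < p ∧ p ≤ b ∧ p.Prime := by
  unfold DL
  rw [List.mem_filter, List.mem_reverse, List.mem_range'_1, decide_eq_true_eq]
  constructor
  · rintro ⟨⟨h1, h2⟩, h3⟩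
    exact ⟨by omega, by omega, h3⟩
  · rintro ⟨h1, h2, h3⟩
    exact ⟨⟨by omega, by omega⟩, h3⟩

lemma nodup_DL (a b : ℕ) : (DL a b).Nodup := by
  unfold DL
  exact (List.nodup_reverse.2 List.nodup_range').filter _

lemma DL_append {a m b : ℕ} (h1 : a ≤ m) (h2 : m ≤ b) : DL a b = DL m b ++ DL a m := by
  unfold DL
  rw [← List.filter_append, ← List.reverse_append]
  congr 2
  have e : b - a = (m - a) + (b - m) := by omega
  have e2 : m + 1 = a + 1 + (m - a) := by omega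
  rw [e, e2]
  exact List.range'_append_1.symm

lemma DL_of_le {a b : ℕ} (h : b ≤ a) : DL a b = [] := by
  unfold DL
  rw [Nat.sub_eq_zero_of_le h]
  rfl

lemma DL_one_aux (n : ℕ) : DL n (n + 1) = if (n + 1).Prime then [n + 1] else [] := by
  unfold DL
  rw [show n + 1 - n = 1 by omega]
  split_ifs with h <;> simp [h]

/-- one step down: `DL n b = DL (n+1) b ++ [n+1]` if `n + 1` is a prime `≤ b` -/
lemma DL_prime {n b : ℕ} (h : n + 1 ≤ b) (hp : (n + 1).Prime) : DL n b = DL (n + 1) b ++ [n + 1] := by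
  rw [DL_append (Nat.le_succ n) h, DL_one_aux, if_pos hp]

lemma DL_not_prime {n b : ℕ} (hp : ¬ (n + 1).Prime) : DL n b = DL (n + 1) b := by
  rcases Nat.lt_or_ge n b with h | h
  · rw [DL_append (Nat.le_succ n) h, DL_one_aux, if_neg hp, List.append_nil]
  · rw [DL_of_le h, DL_of_le (by omega)]

lemma length_DL {k : ℕ} (hk : 1 ≤ k) : ((DL (2 ^ k) (2 ^ (k + 1))).length : ℝ) ≤ 4 * 2 ^ k / k := by
  have hk0 : (0 : ℝ) < k := by exact_mod_cast hk
  have hl2 : (0 : ℝ) < Real.log 2 := Real.log_pos one_lt_two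
  have h1 : ((DL (2 ^ k) (2 ^ (k + 1))).length : ℝ) * (k * Real.log 2) ≤
      Chebyshev.theta ((2 ^ (k + 1) : ℕ) : ℝ) := by
    rw [Chebyshev.theta_eq_sum_Icc, Nat.floor_natCast, ← List.toFinset_card_of_nodup (nodup_DL _ _),
      ← nsmul_eq_mul, ← Finset.sum_const]
    refine le_trans (Finset.sum_le_sum (g := fun p : ℕ => Real.log p) ?_)
      (Finset.sum_le_sum_of_subset_of_nonneg ?_ ?_)
    · intro p hp
      rw [List.mem_toFinset, mem_DL] at hp
      have h2 : ((2 : ℝ) ^ k) ≤ p := by exact_mod_cast hp.1.le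
      rw [← Real.log_pow]
      exact Real.log_le_log (by positivity) h2
    · intro p hp
      rw [List.mem_toFinset, mem_DL] at hp
      rw [Finset.mem_filter, Finset.mem_Icc]
      exact ⟨⟨Nat.zero_le _, hp.2.1⟩, hp.2.2⟩
    · intro p hp _
      rw [Finset.mem_filter] at hp
      exact Real.log_nonneg (by exact_mod_cast hp.2.one_lt.le)
  have h2 := Chebyshev.theta_le_log4_mul_x (x := ((2 ^ (k + 1) : ℕ) : ℝ)) (Nat.cast_nonneg _)
  have h3 : Real.log 4 = 2 * Real.log 2 := by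
    rw [show (4 : ℝ) = 2 ^ 2 by norm_num, Real.log_pow]
    norm_num
  rw [h3] at h2
  push_cast at h1 h2
  have h4 := h1.trans h2
  rw [le_div_iff₀ hk0]
  have h5 : ((DL (2 ^ k) (2 ^ (k + 1))).length : ℝ) * k * Real.log 2 ≤ 4 * 2 ^ k * Real.log 2 := by
    calc ((DL (2 ^ k) (2 ^ (k + 1))).length : ℝ) * k * Real.log 2
        = ((DL (2 ^ k) (2 ^ (k + 1))).length : ℝ) * (k * Real.log 2) := by ring
      _ ≤ 2 * Real.log 2 * 2 ^ (k + 1) := h4
      _ = 4 * 2 ^ k * Real.log 2 := by ring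
  exact le_of_mul_le_mul_right h5 hl2

lemma primeCounting_le {k : ℕ} (hk : 1 ≤ k) :
    (Nat.primeCounting (2 ^ (k + 1)) : ℝ) ≤ 16 * 2 ^ k / k := by
  have hk0 : (0 : ℝ) < k := by exact_mod_cast hk
  have hl2 : (0 : ℝ) < Real.log 2 := Real.log_pos one_lt_two
  have hx : (1 : ℝ) < ((2 ^ (k + 1) : ℕ) : ℝ) := by
    exact_mod_cast Nat.one_lt_two_pow (by omega)
  have h1 := Chebyshev.pi_le_log4_mul_div hx
  rw [Nat.floor_natCast] at h1
  have h3 : Real.log 4 = 2 * Real.log 2 := by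
    rw [show (4 : ℝ) = 2 ^ 2 by norm_num, Real.log_pow]
    norm_num
  have h4 : Real.log √((2 ^ (k + 1) : ℕ) : ℝ) = (k + 1) * Real.log 2 / 2 := by
    rw [Real.log_sqrt (Nat.cast_nonneg _)]
    push_cast
    rw [Real.log_pow]
    push_cast
    ring
  rw [h3, h4] at h1
  have h5 : 2 * Real.log 2 * ((2 ^ (k + 1) : ℕ) : ℝ) / ((k + 1) * Real.log 2 / 2) =
      8 * 2 ^ k / (k + 1) := by
    push_cast
    field_simp
    ring
  rw [h5] at h1
  have h6 : (8 * 2 ^ k / (k + 1) : ℝ) ≤ 8 * 2 ^ k / k := by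
    apply div_le_div_of_nonneg_left (by positivity) hk0 (by linarith)
  have h7 : √((2 ^ (k + 1) : ℕ) : ℝ) ≤ 8 * 2 ^ k / k := by
    rw [Real.sqrt_le_left (by positivity), div_pow, le_div_iff₀ (by positivity)]
    have h8 : k ^ 2 ≤ 32 * 2 ^ k := by
      have h9 : ∀ m : ℕ, m ^ 2 ≤ 4 * 2 ^ m := by
        intro m
        induction m using Nat.strong_induction_on with
        | _ m ih =>
          rcases Nat.lt_or_ge m 4 with h | h
          · interval_cases m <;> norm_num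
          · obtain ⟨j, rfl⟩ : ∃ j, m = j + 1 := ⟨m - 1, by omega⟩
            have := ih j (by omega)
            have e : 2 ^ (j + 1) = 2 * 2 ^ j := by ring
            rw [e]
            nlinarith
      exact (h9 k).trans (by
        have := Nat.two_pow_pos k
        omega)
    have h9 : ((k : ℝ)) ^ 2 ≤ 32 * 2 ^ k := by exact_mod_cast h8
    push_cast
    calc (2 : ℝ) ^ (k + 1) * (k : ℝ) ^ 2 ≤ 2 ^ (k + 1) * (32 * 2 ^ k) := by
          apply mul_le_mul_of_nonneg_left h9 (by positivity)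
      _ = (8 * 2 ^ k) ^ 2 := by ring
  calc (Nat.primeCounting (2 ^ (k + 1)) : ℝ) ≤ 8 * 2 ^ k / (k + 1) + √((2 ^ (k + 1) : ℕ) : ℝ) := h1
    _ ≤ 8 * 2 ^ k / k + 8 * 2 ^ k / k := add_le_add h6 h7
    _ = 16 * 2 ^ k / k := by ring

end Pool.Agent.Lib.P4a7640B
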