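import Mathlib
import Pool.Agent.Lib.P4a7640B.Avl
import Pool.Agent.Lib.P4a7640B.Dl

/-!
# Averages over dyadic blocks

`DepOn_AVL`: averaging over all primes of `(a, b]` a function that depends on the primes `≤ b` gives a
function that depends on the primes `≤ a`. `telescope`: the difference between a function and its average over
several blocks is bounded by the sum of the differences of the averages over neighbouring block ranges.
-/

open Filter Topology

namespace Pool.Agent.Lib.P4a7640B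

open Pool.Agent.Lib.P4a7640 Pool.Agent.Lib.P4a7640N Pool.Agent.Lib.P4a7640Ces

/-- averaging over the coordinate `p` removes the dependence on `p` -/
private lemma blk_step (θ : ℕ → ℝ) (p : ℕ) {S : Set ℕ} {F : SS → ℝ}
    (hF : ∀ x y : SS, (∀ q ∈ S, x q = y q) → F x = F y) :
    ∀ x y : SS, (∀ q ∈ S, q ≠ p → x q = y q) → AV θ p F x = AV θ p F y := by
  intro x y h
  have h1 : ∀ c : ℤˣ, F (Function.update x p c) = F (Function.update y p c) := by
    intro c
    refine hF _ _ fun q hq => ?_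
    by_cases hqp : q = p
    · subst hqp
      rw [Function.update_self, Function.update_self]
    · rw [Function.update_of_ne hqp, Function.update_of_ne hqp]
      exact h q hq hqp
  unfold AV
  rw [h1 1, h1 (-1)]

/-- averaging over the coordinates of a list removes the dependence on them -/
private lemma blk_list (θ : ℕ → ℝ) (L : List ℕ) : ∀ {S : Set ℕ} {F : SS → ℝ},
    (∀ x y : SS, (∀ q ∈ S, x q = y q) → F x = F y) →
    ∀ x y : SS, (∀ q ∈ S, q ∉ L → x q = y q) → AVL θ L F x = AVL θ L F y := by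
  induction L with
  | nil =>
    intro S F hF x y h
    exact hF x y fun q hq => h q hq List.not_mem_nil
  | cons p L ih =>
    intro S F hF x y h
    have h1 : ∀ x y : SS, (∀ q ∈ S \ {p}, x q = y q) → AV θ p F x = AV θ p F y := by
      intro x y h2
      exact blk_step θ p hF x y fun q hq hqp => h2 q ⟨hq, hqp⟩
    have h3 := ih h1 x y fun q hq hqL => by
      refine h q hq.1 fun hmem => ?_
      rcases List.mem_cons.1 hmem with h4 | h4
      · exact hq.2 h4
      · exact hqL h4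
    exact h3

lemma DepOn_AVL (θ : ℕ → ℝ) {a b : ℕ} (hab : a ≤ b) {F : SS → ℝ} (hF : DepOn b F) :
    DepOn a (AVL θ (DL a b) F) := by
  intro x y h
  refine blk_list θ (DL a b) (S := {p | p.Prime ∧ p ≤ b}) (fun x y h1 => ?_) x y fun q hq hqL => ?_
  · exact hF x y fun p hp hpb => h1 p ⟨hp, hpb⟩
  · refine h q hq.1 ?_
    by_contra hlt
    exact hqL (mem_DL.2 ⟨not_le.1 hlt, hq.2, hq.1⟩)

/-- averaging over some further coordinates keeps the dependence -/
lemma DepOn_AVL_self (θ : ℕ → ℝ) (L : List ℕ) {M : ℕ} {F : SS → ℝ} (hF : DepOn M F) :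
    DepOn M (AVL θ L F) := by
  intro x y h
  refine blk_list θ L (S := {p | p.Prime ∧ p ≤ M}) (fun x y h1 => ?_) x y fun q hq _ => ?_
  · exact hF x y fun p hp hpb => h1 p ⟨hp, hpb⟩
  · exact h q hq.1 hq.2

lemma DepOn_mono {M M' : ℕ} (h : M ≤ M') {F : SS → ℝ} (hF : DepOn M F) : DepOn M' F :=
  fun x y hxy => hF x y fun p hp hpM => hxy p hp (hpM.trans h)

lemma GB_eq (θ : ℕ → ℝ) (F : SS → ℝ) (k d : ℕ) : GB θ F k d = AVL θ (DL (2 ^ k) (2 ^ (k + d))) F := by
  induction d generalizing k with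
  | zero =>
    have h1 : DL (2 ^ k) (2 ^ (k + 0)) = [] := DL_of_le le_rfl
    rw [h1]
    rfl
  | succ d ih =>
    have h1 : 2 ^ k ≤ 2 ^ (k + 1) := Nat.pow_le_pow_right (by norm_num) (by omega)
    have h2 : 2 ^ (k + 1) ≤ 2 ^ (k + (d + 1)) := Nat.pow_le_pow_right (by norm_num) (by omega)
    have h3 : k + (d + 1) = k + 1 + d := by omega
    rw [DL_append h1 h2, AVL_append, h3, ← ih (k + 1)]
    rfl

lemma BD_AVL {θ : ℕ → ℝ} (hθ0 : ∀ p, 0 ≤ θ p) (hθ1 : ∀ p, θ p ≤ 1) {p : ℕ} {L : List ℕ} (hp : p ∉ L)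
    {F : SS → ℝ} {c : ℝ} (h : BD p F c) : BD p (AVL θ L F) c := by
  induction L generalizing F with
  | nil => exact h
  | cons q L ih =>
    have h1 : p ≠ q := fun h2 => hp (h2 ▸ List.mem_cons_self)
    have h2 : p ∉ L := fun h3 => hp (List.mem_cons_of_mem _ h3)
    exact ih h2 (BD_AV hθ0 hθ1 h1 h)

lemma BD_GB {θ : ℕ → ℝ} (hθ0 : ∀ p, 0 ≤ θ p) (hθ1 : ∀ p, θ p ≤ 1) {p : ℕ} {F : SS → ℝ} {c : ℝ}
    (h : BD p F c) (k d : ℕ) (hp : p ≤ 2 ^ k) : BD p (GB θ F k d) c := by
  rw [GB_eq]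
  refine BD_AVL hθ0 hθ1 (fun hmem => ?_) h
  have h1 := (mem_DL.1 hmem).1
  omega

lemma DepOn_GB {θ : ℕ → ℝ} {F : SS → ℝ} {k d : ℕ} (hF : DepOn (2 ^ (k + d)) F) :
    DepOn (2 ^ k) (GB θ F k d) := by
  rw [GB_eq]
  exact DepOn_AVL θ (Nat.pow_le_pow_right (by norm_num) (by omega)) hF

/-- `rnd x n` depends only on the signs at the prime divisors of `n` -/
private lemma blk_rnd {x y : SS} {M n : ℕ} (hn0 : n ≠ 0) (hn : n ≤ M)
    (h : ∀ p : ℕ, p.Prime → p ≤ M → x p = y p) : rnd x n = rnd y n := by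
  unfold rnd Finsupp.prod
  refine Finset.prod_congr rfl fun p hp => ?_
  rw [Nat.support_factorization] at hp
  have h1 : p ≤ n := Nat.le_of_dvd (Nat.pos_of_ne_zero hn0) (Nat.dvd_of_mem_primeFactors hp)
  show x p ^ n.factorization p = y p ^ n.factorization p
  rw [h p (Nat.prime_of_mem_primeFactors hp) (h1.trans hn)]

/-- `FF` depends only on the primes `≤ 2 * N` (`n + h ≤ 2 N`, `rnd x` uses only prime factors) -/
lemma DepOn_FF (W : Finset ℕ → ℕ → ℝ) (g : SS) {H : Finset ℕ} (D : Finset ℕ) {N : ℕ}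
    (hH : H ⊆ Finset.range (N + 1)) {M : ℕ} (hM : 2 * N ≤ M) : DepOn M (FF W g H D N) := by
  intro x y hxy
  unfold FF FC
  congr 1
  refine Finset.sum_congr rfl fun n hn => ?_
  congr 1
  refine Finset.prod_congr rfl fun h hh => ?_
  have h1 := Finset.mem_Icc.1 hn
  have h2 := Finset.mem_range.1 (hH hh)
  rw [blk_rnd (M := M) (by omega) (by omega) hxy]

lemma le_two_pow_KN (N : ℕ) : 2 * N ≤ 2 ^ KN N := Nat.le_pow_clog (by norm_num) _

lemma telescope (θ : ℕ → ℝ) (F : SS → ℝ) (x : SS) (k d : ℕ) :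
    |F x - GB θ F k d x| ≤ ∑ i ∈ Finset.range d,
      |GB θ F (k + i) (d - i) x - GB θ F (k + i + 1) (d - (i + 1)) x| := by
  induction d generalizing k with
  | zero =>
    have h1 : GB θ F k 0 x = F x := rfl
    rw [h1, sub_self, abs_zero, Finset.sum_range_zero]
  | succ d ih =>
    rw [Finset.sum_range_succ']
    have h1 := ih (k + 1)
    have h2 : ∀ i, |GB θ F (k + (i + 1)) (d + 1 - (i + 1)) x -
        GB θ F (k + (i + 1) + 1) (d + 1 - (i + 1 + 1)) x| =
        |GB θ F (k + 1 + i) (d - i) x - GB θ F (k + 1 + i + 1) (d - (i + 1)) x| := by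
      intro i
      have e1 : k + (i + 1) = k + 1 + i := by omega
      have e2 : d + 1 - (i + 1) = d - i := by omega
      have e3 : d + 1 - (i + 1 + 1) = d - (i + 1) := by omega
      rw [e1, e2, e3]
    rw [Finset.sum_congr rfl fun i _ => h2 i]
    have h3 : |GB θ F (k + 0) (d + 1 - 0) x - GB θ F (k + 0 + 1) (d + 1 - (0 + 1)) x| =
        |GB θ F (k + 1) d x - GB θ F k (d + 1) x| := by
      have e3 : d + 1 - (0 + 1) = d := by omega
      rw [Nat.add_zero, Nat.sub_zero, e3, abs_sub_comm]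
    rw [h3]
    calc |F x - GB θ F k (d + 1) x|
        ≤ |F x - GB θ F (k + 1) d x| + |GB θ F (k + 1) d x - GB θ F k (d + 1) x| := abs_sub_le _ _ _
      _ ≤ _ := by gcongr

end Pool.Agent.Lib.P4a7640B
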