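import Mathlib
import Pool.Agent.Lib.P4a7640B.Blk

/-!
# The betting strategy

For `ι = ℕ` (then any countable `ι` by a surjection `ℕ → ι`, or no bets at all if `ι` is empty): choose `kq q ≥ max q 1`
such that the bound `hB q` holds for `k ≥ kq q` and `exp (-(η q 2^k / (2 k))) ≤ (1/2)^(2k+3)`.
`a q k = exp (η q 2^k / (2 k))`,
`gain q k n x = AVL θ (DL (max n (2^k)) (2^(k+1))) (ind (B q k)) x - AVL θ (DL (2^k) (2^(k+1))) (ind (B q k)) x`,
`K n x = 1 + ∑_{k < n+1} ∑_{q < k+1, kq q ≤ k} a q k * gain q k n x` (the gain is `0` for `n ≤ 2^k`, and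
`ind (B q k) x - (stake)` for `n ≥ 2^(k+1)`).
-/

open Filter Topology

namespace Pool.Agent.Lib.P4a7640B

open Pool.Agent.Lib.P4a7640 Pool.Agent.Lib.P4a7640N Pool.Agent.Lib.P4a7640Ces

/-- the conditional probability of `B`, the signs at the primes `≤ n` given (frozen below `2 ^ k`) -/
noncomputable def betM (θ : ℕ → ℝ) (B : Set SS) (k n : ℕ) : SS → ℝ :=
  AVL θ (DL (max n (2 ^ k)) (2 ^ (k + 1))) (ind B)

/-- the gain of the unit bet on `B` -/
noncomputable def betG (θ : ℕ → ℝ) (B : Set SS) (k n : ℕ) (x : SS) : ℝ :=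
  betM θ B k n x - betM θ B k 0 x

lemma bet_M_of_le (θ : ℕ → ℝ) (B : Set SS) {k n : ℕ} (h : n ≤ 2 ^ k) :
    betM θ B k n = betM θ B k 0 := by
  unfold betM
  rw [max_eq_right h, max_eq_right (Nat.zero_le _)]

lemma bet_M_zero (θ : ℕ → ℝ) (B : Set SS) (k : ℕ) :
    betM θ B k 0 = AVL θ (DL (2 ^ k) (2 ^ (k + 1))) (ind B) := by
  unfold betM
  rw [max_eq_right (Nat.zero_le _)]

lemma bet_M_of_ge (θ : ℕ → ℝ) (B : Set SS) {k n : ℕ} (h : 2 ^ (k + 1) ≤ n) :
    betM θ B k n = ind B := by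
  unfold betM
  rw [DL_of_le (h.trans (le_max_left _ _))]
  rfl

lemma bet_M_nonneg {θ : ℕ → ℝ} (hθ0 : ∀ p, 0 ≤ θ p) (hθ1 : ∀ p, θ p ≤ 1) (B : Set SS) (k n : ℕ)
    (x : SS) : 0 ≤ betM θ B k n x :=
  AVL_nonneg hθ0 hθ1 _ (ind_nonneg B) x

lemma bet_M_dep (θ : ℕ → ℝ) {B : Set SS} {k : ℕ} (hB : DepOn (2 ^ (k + 1)) (ind B)) {n : ℕ}
    (hn : 2 ^ k ≤ n) : DepOn n (betM θ B k n) := by
  unfold betM
  rw [max_eq_left hn]
  rcases le_total n (2 ^ (k + 1)) with h | h
  · exact DepOn_AVL θ h hB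
  · rw [DL_of_le h]
    exact DepOn_mono h hB

lemma bet_M_dep0 (θ : ℕ → ℝ) {B : Set SS} {k : ℕ} (hB : DepOn (2 ^ (k + 1)) (ind B)) :
    DepOn (2 ^ k) (betM θ B k 0) := by
  rw [bet_M_zero]
  exact DepOn_AVL θ (Nat.pow_le_pow_right two_pos (Nat.le_succ k)) hB

lemma bet_G_of_le (θ : ℕ → ℝ) (B : Set SS) {k n : ℕ} (h : n ≤ 2 ^ k) (x : SS) :
    betG θ B k n x = 0 := by
  unfold betG
  rw [bet_M_of_le θ B h, sub_self]

lemma bet_G_dep (θ : ℕ → ℝ) {B : Set SS} {k : ℕ} (hB : DepOn (2 ^ (k + 1)) (ind B)) (n : ℕ) :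
    DepOn n (betG θ B k n) := by
  intro x y hxy
  rcases le_total n (2 ^ k) with h | h
  · rw [bet_G_of_le θ B h, bet_G_of_le θ B h]
  · unfold betG
    rw [bet_M_dep θ hB h x y hxy,
      bet_M_dep0 θ hB x y (fun p hp hpk => hxy p hp (hpk.trans h))]

lemma bet_G_not_prime (θ : ℕ → ℝ) (B : Set SS) (k : ℕ) {n : ℕ} (hn : ¬ (n + 1).Prime) (x : SS) :
    betG θ B k (n + 1) x = betG θ B k n x := by
  rcases le_or_gt (n + 1) (2 ^ k) with h | h
  · rw [bet_G_of_le θ B h, bet_G_of_le θ B ((Nat.le_succ n).trans h)]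
  · have h1 : 2 ^ k ≤ n := Nat.lt_succ_iff.mp h
    unfold betG
    have e : betM θ B k (n + 1) = betM θ B k n := by
      unfold betM
      rw [max_eq_left h.le, max_eq_left h1, ← DL_not_prime hn]
    rw [e]

lemma bet_AV_of_dep {θ : ℕ → ℝ} {F : SS → ℝ} {m p : ℕ} (hF : DepOn m F) (hp : m < p) (x : SS) :
    AV θ p F x = F x := by
  have h : ∀ a : ℤˣ, F (Function.update x p a) = F x := fun a => hF _ _ fun q _ hq => by
    rw [Function.update_of_ne (by omega)]
  unfold AV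
  rw [h 1, h (-1)]
  ring

lemma bet_G_AV (θ : ℕ → ℝ) {B : Set SS} {k : ℕ} (hB : DepOn (2 ^ (k + 1)) (ind B)) {p : ℕ}
    (hp : p.Prime) (x : SS) :
    (1 - θ p) * betG θ B k p (Function.update x p 1) +
      θ p * betG θ B k p (Function.update x p (-1)) = betG θ B k (p - 1) x := by
  have hp1 : p - 1 + 1 = p := Nat.sub_add_cancel hp.one_lt.le
  rcases le_or_gt p (2 ^ k) with h | h
  · rw [bet_G_of_le θ B h, bet_G_of_le θ B h, bet_G_of_le θ B ((Nat.sub_le p 1).trans h)]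
    ring
  · have h1 : 2 ^ k ≤ p - 1 := by omega
    have hM0 : AV θ p (betM θ B k 0) x = betM θ B k 0 x := bet_AV_of_dep (bet_M_dep0 θ hB) h x
    have hM : AV θ p (betM θ B k p) x = betM θ B k (p - 1) x := by
      rcases le_or_gt p (2 ^ (k + 1)) with h2 | h2
      · have e : betM θ B k (p - 1) = AV θ p (betM θ B k p) := by
          have hp2 : (p - 1 + 1).Prime := by rwa [hp1]
          have h3 : p - 1 + 1 ≤ 2 ^ (k + 1) := by rwa [hp1]
          have h4 := DL_prime h3 hp2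
          rw [hp1] at h4
          unfold betM
          rw [max_eq_left h1, max_eq_left h.le, h4, AVL_append]
          rfl
        rw [e]
      · rw [bet_M_of_ge θ B h2.le, bet_M_of_ge θ B (by omega)]
        exact bet_AV_of_dep hB h2 x
    unfold AV at hM hM0
    unfold betG
    rw [← hM, ← hM0]
    ring

/-- the strategy: finite sums of bets -/
noncomputable def betK (θ : ℕ → ℝ) (B : ℕ → ℕ → Set SS) (a : ℕ → ℕ → ℝ) (kq : ℕ → ℕ) (n : ℕ)
    (x : SS) : ℝ :=
  1 + ∑ k ∈ Finset.range (n + 1), ∑ q ∈ (Finset.range (k + 1)).filter (fun q => kq q ≤ k),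
    a q k * betG θ (B q k) k n x

lemma bet_stake_small {η : ℝ} (hη : 0 < η) :
    ∀ᶠ k : ℕ in atTop, Real.exp (-(η * 2 ^ k / (2 * k))) ≤ (1 / 2 : ℝ) ^ (2 * k + 3) := by
  have h1 : Tendsto (fun n : ℕ => (n : ℝ) ^ 2 / (2 : ℝ) ^ n) atTop (𝓝 0) :=
    tendsto_pow_const_div_const_pow_of_one_lt 2 one_lt_two
  have h2 : ∀ᶠ n : ℕ in atTop, (n : ℝ) ^ 2 / (2 : ℝ) ^ n < η / 20 :=
    h1.eventually_lt_const (by positivity)
  filter_upwards [h2, eventually_ge_atTop 1] with k hk hk1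
  have hkr : (1 : ℝ) ≤ k := by exact_mod_cast hk1
  have h3 : (k : ℝ) ^ 2 < η / 20 * 2 ^ k := by
    rwa [div_lt_iff₀ (by positivity)] at hk
  have h4 : (2 * k + 3 : ℝ) ≤ η * 2 ^ k / (2 * k) := by
    rw [le_div_iff₀ (by positivity)]
    nlinarith
  have h5 : Real.exp (-1) ≤ 1 / 2 := by
    rw [Real.exp_neg, one_div]
    apply inv_anti₀ two_pos
    have := Real.add_one_le_exp (1 : ℝ)
    linarith
  calc Real.exp (-(η * 2 ^ k / (2 * k))) ≤ Real.exp (((2 * k + 3 : ℕ) : ℝ) * (-1)) := by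
        apply Real.exp_le_exp.mpr
        push_cast
        linarith
    _ = Real.exp (-1) ^ (2 * k + 3) := by rw [Real.exp_nat_mul]
    _ ≤ (1 / 2 : ℝ) ^ (2 * k + 3) := pow_le_pow_left₀ (Real.exp_pos _).le h5 _

/-- the total of the stakes is at most `1 / 2` -/
lemma bet_stakes_le {s : ℕ → ℕ → ℝ} {kq : ℕ → ℕ}
    (hs : ∀ q k, kq q ≤ k → s q k ≤ (1 / 2 : ℝ) ^ (2 * k + 3)) (n : ℕ) :
    ∑ k ∈ Finset.range n, ∑ q ∈ (Finset.range (k + 1)).filter (fun q => kq q ≤ k), s q k ≤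
      1 / 2 := by
  have h1 : ∀ k : ℕ, ∑ q ∈ (Finset.range (k + 1)).filter (fun q => kq q ≤ k), s q k ≤
      (1 / 2 : ℝ) ^ (k + 2) := by
    intro k
    calc ∑ q ∈ (Finset.range (k + 1)).filter (fun q => kq q ≤ k), s q k
        ≤ ∑ q ∈ (Finset.range (k + 1)).filter (fun q => kq q ≤ k), (1 / 2 : ℝ) ^ (2 * k + 3) :=
          Finset.sum_le_sum fun q hq => hs q k (Finset.mem_filter.mp hq).2
      _ ≤ ∑ _q ∈ Finset.range (k + 1), (1 / 2 : ℝ) ^ (2 * k + 3) :=
          Finset.sum_le_sum_of_subset_of_nonneg (Finset.filter_subset _ _)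
            fun _ _ _ => by positivity
      _ = ((k + 1 : ℕ) : ℝ) * (1 / 2 : ℝ) ^ (2 * k + 3) := by
          rw [Finset.sum_const, Finset.card_range, nsmul_eq_mul]
      _ ≤ (2 : ℝ) ^ (k + 1) * (1 / 2 : ℝ) ^ (2 * k + 3) := by
          apply mul_le_mul_of_nonneg_right _ (by positivity)
          exact_mod_cast (Nat.lt_two_pow_self (n := k + 1)).le
      _ = (1 / 2 : ℝ) ^ (k + 2) := by
          have e : 2 * k + 3 = (k + 1) + (k + 2) := by ring
          rw [e, pow_add (1 / 2 : ℝ) (k + 1) (k + 2), ← mul_assoc, ← mul_pow]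
          norm_num
  have h2 : ∀ n : ℕ, ∑ k ∈ Finset.range n, (1 / 2 : ℝ) ^ (k + 2) = 1 / 2 - (1 / 2 : ℝ) ^ (n + 1) := by
    intro n
    induction n with
    | zero => norm_num
    | succ n ih =>
      rw [Finset.sum_range_succ, ih]
      ring
  calc _ ≤ ∑ k ∈ Finset.range n, (1 / 2 : ℝ) ^ (k + 2) := Finset.sum_le_sum fun k _ => h1 k
    _ = 1 / 2 - (1 / 2 : ℝ) ^ (n + 1) := h2 n
    _ ≤ 1 / 2 := by
        have : (0 : ℝ) ≤ (1 / 2 : ℝ) ^ (n + 1) := by positivity
        linarith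

lemma bet_exists_strategy_nat {θ : ℕ → ℝ} (hθ0 : ∀ p, 0 ≤ θ p) (hθ1 : ∀ p, θ p ≤ 1)
    (B : ℕ → ℕ → Set SS) (hdep : ∀ q k, DepOn (2 ^ (k + 1)) (ind (B q k))) (η : ℕ → ℝ)
    (hη : ∀ q, 0 < η q) (hB : ∀ q, ∀ᶠ k : ℕ in atTop, ∀ x : SS,
      AVL θ (DL (2 ^ k) (2 ^ (k + 1))) (ind (B q k)) x ≤ Real.exp (-(η q * 2 ^ k / k))) :
    ∃ K : ℕ → SS → ℝ, IsStrategy θ K ∧ ∀ (q : ℕ) (x : SS), (∃ᶠ k : ℕ in atTop, x ∈ B q k) →
      ∃ᶠ M : ℕ in atTop, Real.exp (η q / 32 * Nat.primeCounting M) ≤ K M x := by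
  have hk : ∀ q : ℕ, ∃ m : ℕ, q ≤ m ∧ 1 ≤ m ∧ ∀ k : ℕ, m ≤ k →
      (∀ x : SS, AVL θ (DL (2 ^ k) (2 ^ (k + 1))) (ind (B q k)) x ≤
        Real.exp (-(η q * 2 ^ k / k))) ∧
      Real.exp (-(η q * 2 ^ k / (2 * k))) ≤ (1 / 2 : ℝ) ^ (2 * k + 3) := by
    intro q
    obtain ⟨m, hm⟩ := eventually_atTop.mp ((hB q).and (bet_stake_small (hη q)))
    exact ⟨max (max q 1) m, (le_max_left q 1).trans (le_max_left _ _),
      (le_max_right q 1).trans (le_max_left _ _), fun k hk => hm k ((le_max_right _ _).trans hk)⟩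
  choose kq hkq1 hkq2 hkq3 using hk
  set a : ℕ → ℕ → ℝ := fun q k => Real.exp (η q * 2 ^ k / (2 * k)) with ha
  have ha0 : ∀ q k, 0 < a q k := fun q k => Real.exp_pos _
  -- the stakes
  have hstake : ∀ x : SS, ∀ q k, kq q ≤ k →
      a q k * betM θ (B q k) k 0 x ≤ (1 / 2 : ℝ) ^ (2 * k + 3) := by
    intro x q k hqk
    have h1 := (hkq3 q k hqk).1 x
    rw [← bet_M_zero] at h1
    have hk1 : (1 : ℝ) ≤ k := by exact_mod_cast (hkq2 q).trans hqk
    calc a q k * betM θ (B q k) k 0 x ≤ a q k * Real.exp (-(η q * 2 ^ k / k)) :=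
          mul_le_mul_of_nonneg_left h1 (ha0 q k).le
      _ = Real.exp (-(η q * 2 ^ k / (2 * k))) := by
          rw [ha]
          simp only
          rw [← Real.exp_add]
          congr 1
          field_simp
          ring
      _ ≤ _ := (hkq3 q k hqk).2
  -- a lower bound for the capital
  have hlow : ∀ (n : ℕ) (x : SS), 1 / 2 + ∑ k ∈ Finset.range (n + 1),
      ∑ q ∈ (Finset.range (k + 1)).filter (fun q => kq q ≤ k), a q k * betM θ (B q k) k n x ≤
      betK θ B a kq n x := by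
    intro n x
    have h1 := bet_stakes_le (s := fun q k => a q k * betM θ (B q k) k 0 x) (kq := kq)
      (hstake x) (n + 1)
    have h2 : betK θ B a kq n x = 1 + ∑ k ∈ Finset.range (n + 1),
        ∑ q ∈ (Finset.range (k + 1)).filter (fun q => kq q ≤ k), a q k * betM θ (B q k) k n x -
        ∑ k ∈ Finset.range (n + 1),
          ∑ q ∈ (Finset.range (k + 1)).filter (fun q => kq q ≤ k), a q k * betM θ (B q k) k 0 x := by
      unfold betK betG
      simp only [mul_sub, Finset.sum_sub_distrib]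
      ring
    rw [h2]
    linarith
  refine ⟨betK θ B a kq, ⟨?_, ?_, ?_, ?_, ?_⟩, ?_⟩
  · intro x
    unfold betK
    have h : ∑ k ∈ Finset.range (0 + 1), ∑ q ∈ (Finset.range (k + 1)).filter (fun q => kq q ≤ k),
        a q k * betG θ (B q k) k 0 x = 0 :=
      Finset.sum_eq_zero fun k _ => Finset.sum_eq_zero fun q _ => by
        rw [bet_G_of_le θ (B q k) (Nat.zero_le _), mul_zero]
    rw [h, add_zero]
  · intro n x
    refine le_trans ?_ (hlow n x)
    have h : 0 ≤ ∑ k ∈ Finset.range (n + 1),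
        ∑ q ∈ (Finset.range (k + 1)).filter (fun q => kq q ≤ k), a q k * betM θ (B q k) k n x :=
      Finset.sum_nonneg fun k _ => Finset.sum_nonneg fun q _ =>
        mul_nonneg (ha0 q k).le (bet_M_nonneg hθ0 hθ1 _ _ _ _)
    linarith
  · intro n x y hxy
    unfold betK
    congr 1
    exact Finset.sum_congr rfl fun k _ => Finset.sum_congr rfl fun q _ => by
      rw [bet_G_dep θ (hdep q k) n x y hxy]
  · intro n x hn
    unfold betK
    rw [Finset.sum_range_succ _ (n + 1)]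
    have h : ∑ q ∈ (Finset.range (n + 1 + 1)).filter (fun q => kq q ≤ n + 1),
        a q (n + 1) * betG θ (B q (n + 1)) (n + 1) (n + 1) x = 0 :=
      Finset.sum_eq_zero fun q _ => by
        rw [bet_G_of_le θ (B q (n + 1)) Nat.lt_two_pow_self.le, mul_zero]
    rw [h, add_zero]
    congr 1
    exact Finset.sum_congr rfl fun k _ => Finset.sum_congr rfl fun q _ => by
      rw [bet_G_not_prime θ (B q k) k hn x]
  · intro p x hp
    have hp1 : p - 1 + 1 = p := Nat.sub_add_cancel hp.one_lt.le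
    have h1 : betK θ B a kq (p - 1) x = 1 + ∑ k ∈ Finset.range (p + 1),
        ∑ q ∈ (Finset.range (k + 1)).filter (fun q => kq q ≤ k),
          a q k * betG θ (B q k) k (p - 1) x := by
      unfold betK
      rw [hp1, Finset.sum_range_succ _ p]
      have h : ∑ q ∈ (Finset.range (p + 1)).filter (fun q => kq q ≤ p),
          a q p * betG θ (B q p) p (p - 1) x = 0 :=
        Finset.sum_eq_zero fun q _ => by
          rw [bet_G_of_le θ (B q p) ((Nat.sub_le p 1).trans Nat.lt_two_pow_self.le), mul_zero]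
      rw [h, add_zero]
    have h2 : ∑ k ∈ Finset.range (p + 1),
        ∑ q ∈ (Finset.range (k + 1)).filter (fun q => kq q ≤ k),
          a q k * betG θ (B q k) k (p - 1) x =
        (1 - θ p) * ∑ k ∈ Finset.range (p + 1),
          ∑ q ∈ (Finset.range (k + 1)).filter (fun q => kq q ≤ k),
            a q k * betG θ (B q k) k p (Function.update x p 1) +
        θ p * ∑ k ∈ Finset.range (p + 1),
          ∑ q ∈ (Finset.range (k + 1)).filter (fun q => kq q ≤ k),
            a q k * betG θ (B q k) k p (Function.update x p (-1)) := by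
      simp only [Finset.mul_sum, ← Finset.sum_add_distrib]
      exact Finset.sum_congr rfl fun k _ => Finset.sum_congr rfl fun q _ => by
        rw [← bet_G_AV θ (hdep q k) hp x]
        ring
    rw [h1, h2]
    unfold betK
    ring
  · intro q x hfr
    have ht : Tendsto (fun k : ℕ => 2 ^ (k + 1)) atTop (atTop : Filter ℕ) :=
      (tendsto_pow_atTop_atTop_of_one_lt one_lt_two).comp (tendsto_add_atTop_nat 1)
    refine ht.frequently ?_
    refine (hfr.and_eventually (eventually_ge_atTop (kq q))).mono ?_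
    rintro k ⟨hx, hqk⟩
    have hk1 : 1 ≤ k := (hkq2 q).trans hqk
    have hk1' : (1 : ℝ) ≤ k := by exact_mod_cast hk1
    have h1 := hlow (2 ^ (k + 1)) x
    have h2 : a q k ≤ ∑ j ∈ Finset.range (2 ^ (k + 1) + 1),
        ∑ q ∈ (Finset.range (j + 1)).filter (fun q => kq q ≤ j),
          a q j * betM θ (B q j) j (2 ^ (k + 1)) x := by
      have h3 : a q k * betM θ (B q k) k (2 ^ (k + 1)) x = a q k := by
        rw [bet_M_of_ge θ (B q k) le_rfl, ind_of_mem hx, mul_one]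
      have hn : ∀ j q', 0 ≤ a q' j * betM θ (B q' j) j (2 ^ (k + 1)) x := fun j q' =>
        mul_nonneg (ha0 q' j).le (bet_M_nonneg hθ0 hθ1 _ _ _ _)
      calc a q k = a q k * betM θ (B q k) k (2 ^ (k + 1)) x := h3.symm
        _ ≤ ∑ q ∈ (Finset.range (k + 1)).filter (fun q => kq q ≤ k),
            a q k * betM θ (B q k) k (2 ^ (k + 1)) x :=
          Finset.single_le_sum
            (f := fun q => a q k * betM θ (B q k) k (2 ^ (k + 1)) x) (fun q' _ => hn k q')
            (Finset.mem_filter.mpr ⟨Finset.mem_range.mpr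
              (Nat.lt_succ_of_le ((hkq1 q).trans hqk)), hqk⟩)
        _ ≤ _ :=
          Finset.single_le_sum
            (f := fun j => ∑ q ∈ (Finset.range (j + 1)).filter (fun q => kq q ≤ j),
              a q j * betM θ (B q j) j (2 ^ (k + 1)) x)
            (fun j _ => Finset.sum_nonneg fun q' _ => hn j q')
            (Finset.mem_range.mpr (by
              have h5 : k + 1 < 2 ^ (k + 1) := Nat.lt_two_pow_self
              omega))
    have h4 : Real.exp (η q / 32 * (Nat.primeCounting (2 ^ (k + 1)) : ℝ)) ≤ a q k := by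
      rw [ha]
      apply Real.exp_le_exp.mpr
      have h5 := primeCounting_le hk1
      have h6 := hη q
      calc η q / 32 * (Nat.primeCounting (2 ^ (k + 1)) : ℝ)
          ≤ η q / 32 * (16 * 2 ^ k / k) := mul_le_mul_of_nonneg_left h5 (by positivity)
        _ = η q * 2 ^ k / (2 * k) := by
            field_simp
            ring
    linarith

/-- one strategy beats countably many families of rare block events, with the rates of the events -/
theorem exists_strategy_rate {θ : ℕ → ℝ} (hθ0 : ∀ p, 0 ≤ θ p) (hθ1 : ∀ p, θ p ≤ 1) {ι : Type}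
    [Countable ι] (B : ι → ℕ → Set SS) (hdep : ∀ q k, DepOn (2 ^ (k + 1)) (ind (B q k)))
    (η : ι → ℝ) (hη : ∀ q, 0 < η q) (hB : ∀ q, ∀ᶠ k : ℕ in atTop, ∀ x : SS,
      AVL θ (DL (2 ^ k) (2 ^ (k + 1))) (ind (B q k)) x ≤ Real.exp (-(η q * 2 ^ k / k))) :
    ∃ K : ℕ → SS → ℝ, IsStrategy θ K ∧ ∀ (q : ι) (x : SS), (∃ᶠ k : ℕ in atTop, x ∈ B q k) →
      ∃ᶠ M : ℕ in atTop, Real.exp (η q / 32 * Nat.primeCounting M) ≤ K M x := by
  rcases isEmpty_or_nonempty ι with hι | hι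
  · refine ⟨fun _ _ => 1, ⟨fun _ => rfl, fun _ _ => zero_le_one, fun _ _ _ _ => rfl,
      fun _ _ _ => rfl, fun p _ _ => ?_⟩, fun q => (hι.false q).elim⟩
    ring
  · obtain ⟨e, he⟩ := exists_surjective_nat ι
    obtain ⟨K, hK, hW⟩ := bet_exists_strategy_nat hθ0 hθ1 (fun q => B (e q)) (fun q => hdep (e q))
      (fun q => η (e q)) (fun q => hη (e q)) (fun q => hB (e q))
    refine ⟨K, hK, fun q x hx => ?_⟩
    obtain ⟨m, rfl⟩ := he q
    exact hW m x hx

theorem exists_strategy {θ : ℕ → ℝ} (hθ0 : ∀ p, 0 ≤ θ p) (hθ1 : ∀ p, θ p ≤ 1) {ι : Type} [Countable ι]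
    (B : ι → ℕ → Set SS) (hdep : ∀ q k, DepOn (2 ^ (k + 1)) (ind (B q k))) (η : ι → ℝ)
    (hη : ∀ q, 0 < η q) (hB : ∀ q, ∀ᶠ k : ℕ in atTop, ∀ x : SS,
      AVL θ (DL (2 ^ k) (2 ^ (k + 1))) (ind (B q k)) x ≤ Real.exp (-(η q * 2 ^ k / k))) :
    ∃ K : ℕ → SS → ℝ, IsStrategy θ K ∧ ∀ (q : ι) (x : SS), (∃ᶠ k : ℕ in atTop, x ∈ B q k) →
      Wins K x := by
  obtain ⟨K, hK, h⟩ := exists_strategy_rate hθ0 hθ1 B hdep η hη hB
  refine ⟨K, hK, fun q x hx => ⟨η q / 32, ?_, h q x hx⟩⟩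
  have := hη q
  positivity

/-- the greedy sequence: the capital of a strategy never rises along it -/
theorem exists_greedy {θ : ℕ → ℝ} (hθ0 : ∀ p, 0 ≤ θ p) (hθ1 : ∀ p, θ p ≤ 1) {K : ℕ → SS → ℝ}
    (hK : IsStrategy θ K) : ∃ x : SS, ∀ M, K M x ≤ 1 := by
  obtain ⟨hK0, -, hKd, hKn, hKp⟩ := hK
  -- one step
  have hstep : ∀ n (x : SS), ∃ u : ℤˣ, K (n + 1) (Function.update x (n + 1) u) ≤ K n x := by
    intro n x
    by_cases hp : (n + 1).Prime
    · have h1 := hKp (n + 1) x hp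
      rw [Nat.add_sub_cancel] at h1
      by_contra hcon
      push Not at hcon
      have h2 := hcon 1
      have h3 := hcon (-1)
      have h4 := hθ0 (n + 1)
      have h5 := hθ1 (n + 1)
      rcases eq_or_lt_of_le h4 with h6 | h6
      · rw [← h6, sub_zero, one_mul, zero_mul, add_zero] at h1
        linarith
      · have h7 : 0 < θ (n + 1) * (K (n + 1) (Function.update x (n + 1) (-1)) - K n x) :=
          mul_pos h6 (by linarith)
        have h8 : 0 ≤ (1 - θ (n + 1)) * (K (n + 1) (Function.update x (n + 1) 1) - K n x) :=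
          mul_nonneg (by linarith) (by linarith)
        nlinarith
    · refine ⟨1, le_of_eq ?_⟩
      rw [hKn n _ hp]
      refine hKd n _ _ fun q _ hq => ?_
      rw [Function.update_of_ne (by omega)]
  choose u hu using hstep
  -- the sequence of finite approximations
  set X : ℕ → SS := fun n => Nat.rec (fun _ => 1) (fun n x => Function.update x (n + 1) (u n x)) n
    with hX
  have hX1 : ∀ n, X (n + 1) = Function.update (X n) (n + 1) (u n (X n)) := fun n => rfl
  have hstab : ∀ n m q : ℕ, q ≤ n → X (n + m) q = X n q := by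
    intro n m
    induction m with
    | zero => intro q _; rfl
    | succ m ih =>
      intro q hq
      rw [← add_assoc, hX1, Function.update_of_ne (by omega)]
      exact ih q hq
  refine ⟨fun q => X q q, fun M => ?_⟩
  have h1 : K M (fun q => X q q) = K M (X M) := by
    refine hKd M _ _ fun q _ hq => ?_
    have := hstab q (M - q) q le_rfl
    rw [Nat.add_sub_cancel' hq] at this
    exact this.symm
  rw [h1]
  induction M with
  | zero => exact (hK0 _).le
  | succ M ih =>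
    rw [hX1]
    refine (hu M (X M)).trans (ih ?_)
    refine hKd M _ _ fun q _ hq => ?_
    have := hstab q (M - q) q le_rfl
    rw [Nat.add_sub_cancel' hq] at this
    exact this.symm

end Pool.Agent.Lib.P4a7640B
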