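import Mathlib
import Pool.Agent.Lib.P4a7640B.Bet

/-!
# The betting strategy wins after every bad block

The same strategy as in `Pool.Agent.Lib.P4a7640B.Bet`: the stakes are fixed, so for every `q` and all large `k` the
capital at `2^(k+1)` is at least `exp (η q / 32 * π(2^(k+1)))` as soon as `x ∈ B q k`.
-/

open Filter Topology

namespace Pool.Agent.Lib.P4a7640B

open Pool.Agent.Lib.P4a7640 Pool.Agent.Lib.P4a7640N Pool.Agent.Lib.P4a7640Ces

/-- one strategy: the capital is large after EVERY bad block, from some block on -/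
lemma bet_exists_strategy_natE {θ : ℕ → ℝ} (hθ0 : ∀ p, 0 ≤ θ p) (hθ1 : ∀ p, θ p ≤ 1)
    (B : ℕ → ℕ → Set SS) (hdep : ∀ q k, DepOn (2 ^ (k + 1)) (ind (B q k))) (η : ℕ → ℝ)
    (hη : ∀ q, 0 < η q) (hB : ∀ q, ∀ᶠ k : ℕ in atTop, ∀ x : SS,
      AVL θ (DL (2 ^ k) (2 ^ (k + 1))) (ind (B q k)) x ≤ Real.exp (-(η q * 2 ^ k / k))) :
    ∃ K : ℕ → SS → ℝ, IsStrategy θ K ∧ ∀ q : ℕ, ∀ᶠ k : ℕ in atTop, ∀ x ∈ B q k,
      Real.exp (η q / 32 * Nat.primeCounting (2 ^ (k + 1))) ≤ K (2 ^ (k + 1)) x := by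
  have hk : ∀ q : ℕ, ∃ m : ℕ, q ≤ m ∧ 1 ≤ m ∧ ∀ k : ℕ, m ≤ k →
      (∀ x : SS, AVL θ (DL (2 ^ k) (2 ^ (k + 1))) (ind (B q k)) x ≤
        Real.exp (-(η q * 2 ^ k / k))) ∧
      Real.exp (-(η q * 2 ^ k / (2 * k))) ≤ (1 / 2 : ℝ) ^ (2 * k + 3) := by
    intro q
    obtain ⟨m, hm⟩ := eventually_atTop.mp ((hB q).and (bet_stake_small (hη q)))
    exact ⟨max (max q 1) m, (le_max_left q 1).trans (le_max_left _ _),
      (le_max_right q 1).trans (le_max_left _ _), fun k hk => hm k ((le_max_right _ _).trans hk)⟩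
  choose kq hkq1 hkq2 hkq3 using hk
  set a : ℕ → ℕ → ℝ := fun q k => Real.exp (η q * 2 ^ k / (2 * k)) with ha
  have ha0 : ∀ q k, 0 < a q k := fun q k => Real.exp_pos _
  -- the stakes
  have hstake : ∀ x : SS, ∀ q k, kq q ≤ k →
      a q k * betM θ (B q k) k 0 x ≤ (1 / 2 : ℝ) ^ (2 * k + 3) := by
    intro x q k hqk
    have h1 := (hkq3 q k hqk).1 x
    rw [← bet_M_zero] at h1
    have hk1 : (1 : ℝ) ≤ k := by exact_mod_cast (hkq2 q).trans hqk
    calc a q k * betM θ (B q k) k 0 x ≤ a q k * Real.exp (-(η q * 2 ^ k / k)) :=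
          mul_le_mul_of_nonneg_left h1 (ha0 q k).le
      _ = Real.exp (-(η q * 2 ^ k / (2 * k))) := by
          rw [ha]
          simp only
          rw [← Real.exp_add]
          congr 1
          field_simp
          ring
      _ ≤ _ := (hkq3 q k hqk).2
  -- a lower bound for the capital
  have hlow : ∀ (n : ℕ) (x : SS), 1 / 2 + ∑ k ∈ Finset.range (n + 1),
      ∑ q ∈ (Finset.range (k + 1)).filter (fun q => kq q ≤ k), a q k * betM θ (B q k) k n x ≤
      betK θ B a kq n x := by
    intro n x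
    have h1 := bet_stakes_le (s := fun q k => a q k * betM θ (B q k) k 0 x) (kq := kq)
      (hstake x) (n + 1)
    have h2 : betK θ B a kq n x = 1 + ∑ k ∈ Finset.range (n + 1),
        ∑ q ∈ (Finset.range (k + 1)).filter (fun q => kq q ≤ k), a q k * betM θ (B q k) k n x -
        ∑ k ∈ Finset.range (n + 1),
          ∑ q ∈ (Finset.range (k + 1)).filter (fun q => kq q ≤ k), a q k * betM θ (B q k) k 0 x := by
      unfold betK betG
      simp only [mul_sub, Finset.sum_sub_distrib]
      ring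
    rw [h2]
    linarith
  refine ⟨betK θ B a kq, ⟨?_, ?_, ?_, ?_, ?_⟩, ?_⟩
  · intro x
    unfold betK
    have h : ∑ k ∈ Finset.range (0 + 1), ∑ q ∈ (Finset.range (k + 1)).filter (fun q => kq q ≤ k),
        a q k * betG θ (B q k) k 0 x = 0 :=
      Finset.sum_eq_zero fun k _ => Finset.sum_eq_zero fun q _ => by
        rw [bet_G_of_le θ (B q k) (Nat.zero_le _), mul_zero]
    rw [h, add_zero]
  · intro n x
    refine le_trans ?_ (hlow n x)
    have h : 0 ≤ ∑ k ∈ Finset.range (n + 1),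
        ∑ q ∈ (Finset.range (k + 1)).filter (fun q => kq q ≤ k), a q k * betM θ (B q k) k n x :=
      Finset.sum_nonneg fun k _ => Finset.sum_nonneg fun q _ =>
        mul_nonneg (ha0 q k).le (bet_M_nonneg hθ0 hθ1 _ _ _ _)
    linarith
  · intro n x y hxy
    unfold betK
    congr 1
    exact Finset.sum_congr rfl fun k _ => Finset.sum_congr rfl fun q _ => by
      rw [bet_G_dep θ (hdep q k) n x y hxy]
  · intro n x hn
    unfold betK
    rw [Finset.sum_range_succ _ (n + 1)]
    have h : ∑ q ∈ (Finset.range (n + 1 + 1)).filter (fun q => kq q ≤ n + 1),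
        a q (n + 1) * betG θ (B q (n + 1)) (n + 1) (n + 1) x = 0 :=
      Finset.sum_eq_zero fun q _ => by
        rw [bet_G_of_le θ (B q (n + 1)) Nat.lt_two_pow_self.le, mul_zero]
    rw [h, add_zero]
    congr 1
    exact Finset.sum_congr rfl fun k _ => Finset.sum_congr rfl fun q _ => by
      rw [bet_G_not_prime θ (B q k) k hn x]
  · intro p x hp
    have hp1 : p - 1 + 1 = p := Nat.sub_add_cancel hp.one_lt.le
    have h1 : betK θ B a kq (p - 1) x = 1 + ∑ k ∈ Finset.range (p + 1),
        ∑ q ∈ (Finset.range (k + 1)).filter (fun q => kq q ≤ k),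
          a q k * betG θ (B q k) k (p - 1) x := by
      unfold betK
      rw [hp1, Finset.sum_range_succ _ p]
      have h : ∑ q ∈ (Finset.range (p + 1)).filter (fun q => kq q ≤ p),
          a q p * betG θ (B q p) p (p - 1) x = 0 :=
        Finset.sum_eq_zero fun q _ => by
          rw [bet_G_of_le θ (B q p) ((Nat.sub_le p 1).trans Nat.lt_two_pow_self.le), mul_zero]
      rw [h, add_zero]
    have h2 : ∑ k ∈ Finset.range (p + 1),
        ∑ q ∈ (Finset.range (k + 1)).filter (fun q => kq q ≤ k),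
          a q k * betG θ (B q k) k (p - 1) x =
        (1 - θ p) * ∑ k ∈ Finset.range (p + 1),
          ∑ q ∈ (Finset.range (k + 1)).filter (fun q => kq q ≤ k),
            a q k * betG θ (B q k) k p (Function.update x p 1) +
        θ p * ∑ k ∈ Finset.range (p + 1),
          ∑ q ∈ (Finset.range (k + 1)).filter (fun q => kq q ≤ k),
            a q k * betG θ (B q k) k p (Function.update x p (-1)) := by
      simp only [Finset.mul_sum, ← Finset.sum_add_distrib]
      exact Finset.sum_congr rfl fun k _ => Finset.sum_congr rfl fun q _ => by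
        rw [← bet_G_AV θ (hdep q k) hp x]
        ring
    rw [h1, h2]
    unfold betK
    ring
  · intro q
    filter_upwards [eventually_ge_atTop (kq q)] with k hqk x hx
    have hk1 : 1 ≤ k := (hkq2 q).trans hqk
    have hk1' : (1 : ℝ) ≤ k := by exact_mod_cast hk1
    have h1 := hlow (2 ^ (k + 1)) x
    have h2 : a q k ≤ ∑ j ∈ Finset.range (2 ^ (k + 1) + 1),
        ∑ q ∈ (Finset.range (j + 1)).filter (fun q => kq q ≤ j),
          a q j * betM θ (B q j) j (2 ^ (k + 1)) x := by
      have h3 : a q k * betM θ (B q k) k (2 ^ (k + 1)) x = a q k := by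
        rw [bet_M_of_ge θ (B q k) le_rfl, ind_of_mem hx, mul_one]
      have hn : ∀ j q', 0 ≤ a q' j * betM θ (B q' j) j (2 ^ (k + 1)) x := fun j q' =>
        mul_nonneg (ha0 q' j).le (bet_M_nonneg hθ0 hθ1 _ _ _ _)
      calc a q k = a q k * betM θ (B q k) k (2 ^ (k + 1)) x := h3.symm
        _ ≤ ∑ q ∈ (Finset.range (k + 1)).filter (fun q => kq q ≤ k),
            a q k * betM θ (B q k) k (2 ^ (k + 1)) x :=
          Finset.single_le_sum
            (f := fun q => a q k * betM θ (B q k) k (2 ^ (k + 1)) x) (fun q' _ => hn k q')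
            (Finset.mem_filter.mpr ⟨Finset.mem_range.mpr
              (Nat.lt_succ_of_le ((hkq1 q).trans hqk)), hqk⟩)
        _ ≤ _ :=
          Finset.single_le_sum
            (f := fun j => ∑ q ∈ (Finset.range (j + 1)).filter (fun q => kq q ≤ j),
              a q j * betM θ (B q j) j (2 ^ (k + 1)) x)
            (fun j _ => Finset.sum_nonneg fun q' _ => hn j q')
            (Finset.mem_range.mpr (by
              have h5 : k + 1 < 2 ^ (k + 1) := Nat.lt_two_pow_self
              omega))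
    have h4 : Real.exp (η q / 32 * (Nat.primeCounting (2 ^ (k + 1)) : ℝ)) ≤ a q k := by
      rw [ha]
      apply Real.exp_le_exp.mpr
      have h5 := primeCounting_le hk1
      have h6 := hη q
      calc η q / 32 * (Nat.primeCounting (2 ^ (k + 1)) : ℝ)
          ≤ η q / 32 * (16 * 2 ^ k / k) := mul_le_mul_of_nonneg_left h5 (by positivity)
        _ = η q * 2 ^ k / (2 * k) := by
            field_simp
            ring
    linarith

/-- one strategy, for countably many families of rare block events: it wins after every bad block, from some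
block on -/
theorem exists_strategyE {θ : ℕ → ℝ} (hθ0 : ∀ p, 0 ≤ θ p) (hθ1 : ∀ p, θ p ≤ 1) {ι : Type}
    [Countable ι] (B : ι → ℕ → Set SS) (hdep : ∀ q k, DepOn (2 ^ (k + 1)) (ind (B q k)))
    (η : ι → ℝ) (hη : ∀ q, 0 < η q) (hB : ∀ q, ∀ᶠ k : ℕ in atTop, ∀ x : SS,
      AVL θ (DL (2 ^ k) (2 ^ (k + 1))) (ind (B q k)) x ≤ Real.exp (-(η q * 2 ^ k / k))) :
    ∃ K : ℕ → SS → ℝ, IsStrategy θ K ∧ ∀ q : ι, ∀ᶠ k : ℕ in atTop, ∀ x ∈ B q k,
      Real.exp (η q / 32 * Nat.primeCounting (2 ^ (k + 1))) ≤ K (2 ^ (k + 1)) x := by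
  rcases isEmpty_or_nonempty ι with hι | hι
  · refine ⟨fun _ _ => 1, ⟨fun _ => rfl, fun _ _ => zero_le_one, fun _ _ _ _ => rfl,
      fun _ _ _ => rfl, fun p _ _ => ?_⟩, fun q => (hι.false q).elim⟩
    ring
  · obtain ⟨e, he⟩ := exists_surjective_nat ι
    obtain ⟨K, hK, hW⟩ := bet_exists_strategy_natE hθ0 hθ1 (fun q => B (e q)) (fun q => hdep (e q))
      (fun q => η (e q)) (fun q => hη (e q)) (fun q => hB (e q))
    refine ⟨K, hK, fun q => ?_⟩
    obtain ⟨m, rfl⟩ := he q
    exact hW m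

end Pool.Agent.Lib.P4a7640B
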