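import Mathlib
import Pool.Agent.Lib.P4a7640B.Par

/-!
# Comparison with nearby sign sequences, uniformly in all shifts up to `N`

`compareU`: as `compareC` in `N2/ScaleC.lean` with `E` = the primes in `(T, 2N]` with `y p ≠ z p` (`n + h ≤ 2N`), and
`#{n ≤ N : p ∣ n + h} ≤ 2N / p`; here `z = g x` and `rnd z = rnd g * rnd x` (`prodSeq (rnd (g x)) = prodSeq (rnd g) *
prodSeq (rnd x)`). `slow_U`: `ES_many` and the condition at the scale `2N` (`rt 1 (2N) ≤ N` for `N ≥ 2`, so
`ES y z N (2N) ≤ ES y z (rt 1 (2N)) (2N)`).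
-/

open Filter Topology

namespace Pool.Agent.Lib.P4a7640B

open Pool.Agent.Lib.P4a7640 Pool.Agent.Lib.P4a7640N Pool.Agent.Lib.P4a7640Ces Pool.Agent.Lib.P4a7640N2

private lemma cmpU_aux {u : ℕ → ℝ} (hu : ∀ n, |u n| ≤ 1) {f g : ℕ → ℤˣ} {H E : Finset ℕ} {N : ℕ}
    (hN : 1 ≤ N)
    (h : ∀ n ∈ Finset.Icc 1 N, ∀ j ∈ H, f (n + j) ≠ g (n + j) → ∃ p ∈ E, p ∣ n + j) :
    |(∑ n ∈ Finset.Icc 1 N, u n * prodSeq f H n) / (N : ℝ) -
      (∑ n ∈ Finset.Icc 1 N, u n * prodSeq g H n) / (N : ℝ)| ≤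
      (∑ j ∈ H, ∑ p ∈ E, 2 * (((Finset.Icc 1 N).filter fun n => p ∣ n + j).card : ℝ)) / N := by
  have hl : (0:ℝ) < N := by exact_mod_cast hN
  have hpt : ∀ n ∈ Finset.Icc 1 N, |prodSeq f H n - prodSeq g H n| ≤
      ∑ j ∈ H, ∑ p ∈ E, (if p ∣ n + j then (2:ℝ) else 0) := by
    intro n hn
    have hnn : ∀ j ∈ H, 0 ≤ ∑ p ∈ E, (if p ∣ n + j then (2:ℝ) else 0) := fun j _ =>
      Finset.sum_nonneg fun p _ => by split_ifs <;> norm_num
    by_cases hall : ∀ j ∈ H, f (n + j) = g (n + j)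
    · have h1 : prodSeq f H n = prodSeq g H n := by
        unfold prodSeq
        exact Finset.prod_congr rfl fun j hj => by rw [hall j hj]
      rw [h1, sub_self, abs_zero]
      exact Finset.sum_nonneg hnn
    · push Not at hall
      obtain ⟨j, hj, hne⟩ := hall
      obtain ⟨p, hp, hpd⟩ := h n hn j hj hne
      have h2 : (2:ℝ) ≤ ∑ p ∈ E, (if p ∣ n + j then (2:ℝ) else 0) := by
        have := Finset.single_le_sum (f := fun p => if p ∣ n + j then (2:ℝ) else 0)
          (fun q _ => by split_ifs <;> norm_num) hp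
        simpa [hpd] using this
      calc |prodSeq f H n - prodSeq g H n| ≤ |prodSeq f H n| + |prodSeq g H n| := abs_sub _ _
        _ = 2 := by rw [abs_prodSeq, abs_prodSeq]; norm_num
        _ ≤ ∑ p ∈ E, (if p ∣ n + j then (2:ℝ) else 0) := h2
        _ ≤ _ := Finset.single_le_sum (f := fun j => ∑ p ∈ E, (if p ∣ n + j then (2:ℝ) else 0))
            hnn hj
  rw [← sub_div, ← Finset.sum_sub_distrib, abs_div, abs_of_pos hl]
  apply div_le_div_of_nonneg_right _ hl.le
  calc |∑ n ∈ Finset.Icc 1 N, (u n * prodSeq f H n - u n * prodSeq g H n)|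
      ≤ ∑ n ∈ Finset.Icc 1 N, |u n * prodSeq f H n - u n * prodSeq g H n| :=
        Finset.abs_sum_le_sum_abs _ _
    _ ≤ ∑ n ∈ Finset.Icc 1 N, (∑ j ∈ H, ∑ p ∈ E, (if p ∣ n + j then (2:ℝ) else 0)) := by
        refine Finset.sum_le_sum fun n hn => ?_
        rw [← mul_sub, abs_mul]
        calc |u n| * |prodSeq f H n - prodSeq g H n|
            ≤ 1 * |prodSeq f H n - prodSeq g H n| :=
              mul_le_mul_of_nonneg_right (hu n) (abs_nonneg _)
          _ = |prodSeq f H n - prodSeq g H n| := one_mul _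
          _ ≤ _ := hpt n hn
    _ = ∑ j ∈ H, ∑ p ∈ E, ∑ n ∈ Finset.Icc 1 N, (if p ∣ n + j then (2:ℝ) else 0) := by
        rw [Finset.sum_comm]
        refine Finset.sum_congr rfl fun j _ => ?_
        rw [Finset.sum_comm]
    _ = ∑ j ∈ H, ∑ p ∈ E, 2 * (((Finset.Icc 1 N).filter fun n => p ∣ n + j).card : ℝ) := by
        refine Finset.sum_congr rfl fun j _ => Finset.sum_congr rfl fun p _ => ?_
        rw [← Finset.sum_filter, Finset.sum_const, nsmul_eq_mul, mul_comm]

private lemma cmpU_rnd_mul (g x : SS) (m : ℕ) : rnd (fun p => g p * x p) m = rnd g m * rnd x m := by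
  unfold rnd Finsupp.prod
  rw [← Finset.prod_mul_distrib]
  exact Finset.prod_congr rfl fun p _ => mul_pow _ _ _

theorem compareU (y g x : SS) {W : Finset ℕ → ℕ → ℝ} (hW : ∀ H n, |W H n| ≤ 1) {H : Finset ℕ} {N : ℕ}
    (T : ℕ) (hH : H ⊆ Finset.range (N + 1)) (hN : 1 ≤ N) :
    |(∑ n ∈ Finset.Icc 1 N, W H n * prodSeq (rnd y) H n) / (N : ℝ) -
      FF W g H (DS y (fun p => g p * x p) T) N x| ≤
      4 * H.card * ES y (fun p => g p * x p) T (2 * N) := by
  have hN0 : (0:ℝ) < N := by exact_mod_cast hN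
  have hH' : ∀ h ∈ H, h ≤ N := fun h hh => by
    have := Finset.mem_range.mp (hH hh)
    omega
  set z : SS := fun p => g p * x p with hz
  have e0 : FF W g H (DS y z T) N x =
      (∑ n ∈ Finset.Icc 1 N, W H n *
        prodSeq (fun n => rnd (sD (DS y z T)) n * rnd z n) H n) / (N : ℝ) := by
    unfold FF FC prodSeq
    congr 1
    refine Finset.sum_congr rfl fun n _ => ?_
    have e1 : ∀ h ∈ H, sg (rnd (sD (DS y z T)) (n + h) * rnd z (n + h)) =
        sg (rnd (sD (DS y z T)) (n + h)) * (sg (rnd g (n + h)) * sg (rnd x (n + h))) := by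
      intro h _
      rw [hz, cmpU_rnd_mul, sg_mul, sg_mul]
    rw [Finset.prod_congr rfl e1, Finset.prod_mul_distrib, Finset.prod_mul_distrib]
    ring
  rw [e0]
  set E := (Finset.Ioc T (2 * N)).filter (fun p => p.Prime ∧ y p ≠ z p) with hE
  have hcmp := cmpU_aux (hW H) (f := rnd y) (g := fun n => rnd (sD (DS y z T)) n * rnd z n) (H := H)
    (E := E) (N := N) hN (by
      intro n hn j hj hne
      rw [Finset.mem_Icc] at hn
      by_contra hcon
      push Not at hcon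
      apply hne
      apply rnd_eq y z (T := T)
      intro p hp hpd
      by_contra hcon2
      push Not at hcon2
      have hple : p ≤ 2 * N := by
        have h1 := Nat.le_of_dvd (by omega) hpd
        have h2 := hH' j hj
        omega
      exact hcon p (by
        rw [hE, Finset.mem_filter, Finset.mem_Ioc]
        exact ⟨⟨hcon2.1, hple⟩, hp, hcon2.2⟩) hpd)
  refine hcmp.trans ?_
  calc (∑ h ∈ H, ∑ p ∈ E, 2 * (((Finset.Icc 1 N).filter fun n => p ∣ n + h).card : ℝ)) / N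
      ≤ (∑ h ∈ H, ∑ p ∈ E, 2 * ((1:ℝ) / p * (2 * (N:ℝ)))) / (N:ℝ) := by
        apply div_le_div_of_nonneg_right _ hN0.le
        refine Finset.sum_le_sum fun h hh => Finset.sum_le_sum fun p hp => ?_
        rw [hE, Finset.mem_filter, Finset.mem_Ioc] at hp
        apply mul_le_mul_of_nonneg_left _ (by norm_num)
        refine (card_mult_le N h hp.2.1.one_lt.le).trans ?_
        have h2 : (N + h : ℝ) ≤ 2 * N := by
          have : (h:ℝ) ≤ N := by exact_mod_cast hH' h hh
          linarith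
        calc (N + h : ℝ) / p ≤ (2 * N) / p := div_le_div_of_nonneg_right h2 (by positivity)
          _ = _ := by ring
    _ = 4 * H.card * ∑ p ∈ E, (1:ℝ) / p := by
        rw [Finset.sum_const, nsmul_eq_mul, ← Finset.mul_sum, ← Finset.sum_mul]
        field_simp
        ring
    _ = 4 * H.card * ES y z T (2 * N) := rfl

theorem slow_U {y z : SS} (h : SlowTo y z) (J : ℕ) {δ : ℝ} (hδ : 0 < δ) :
    ∀ᶠ N : ℕ in atTop, ES y z (rt J N) (2 * N) ≤ δ := by
  have hδ' : 0 < δ / ((J : ℝ) + 1) := by positivity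
  have h2 : ∀ᶠ M : ℕ in atTop, ES y z (rt 1 M) M ≤ δ / ((J : ℝ) + 1) := by
    have h' : Tendsto (fun N : ℕ => ∑ p ∈ (Finset.Icc 1 N).filter
      (fun p : ℕ => p.Prime ∧ N < p ^ 2 ∧ y p ≠ z p), (1 : ℝ) / p) atTop (𝓝 0) := h
    filter_upwards [h'.eventually (eventually_le_nhds hδ')] with M hM
    rw [ES_window]
    exact hM
  obtain ⟨N₂, hN₂⟩ := eventually_atTop.mp h2
  filter_upwards [(tendsto_rt J).eventually_ge_atTop N₂, eventually_ge_atTop (max N₂ 2)]
    with N h3 h4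
  have h5 : N₂ ≤ N := (le_max_left _ _).trans h4
  have h6 : 2 ≤ N := (le_max_right _ _).trans h4
  have e1 := ES_many hN₂ N J h3
  have e2 := hN₂ (2 * N) (by omega)
  have h7 : rt 1 (2 * N) ≤ N := by
    by_contra hcon
    push Not at hcon
    have h8 : ¬ rt 1 (2 * N) < N + 1 := by omega
    rw [rt_lt_iff, pow_one] at h8
    apply h8
    nlinarith
  have e3 : ES y z N (2 * N) ≤ ES y z (rt 1 (2 * N)) (2 * N) := by
    rw [← ES_add y z h7 (by omega : N ≤ 2 * N)]
    linarith [ES_nonneg y z (rt 1 (2 * N)) N]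
  rw [← ES_add y z (rt_le J N) (by omega : N ≤ 2 * N)]
  have e4 : (J : ℝ) * (δ / ((J : ℝ) + 1)) + δ / ((J : ℝ) + 1) = δ := by
    field_simp
  linarith

end Pool.Agent.Lib.P4a7640B
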