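import Mathlib
import Pool.Agent.Lib.P4a7640B.Par

/-!
# Exponential decay on average, for every shift

Model: `secondC`, `firstC`, `exp_avgC` in `N2/MeanC.lean`, with the count `N / d - 1 ≤ #{n ≤ N : d ∣ n + h} ≤ N / d + 1`
(every `h`), which is good enough because the primes are `≤ N^(1/4)` (`s.card ^ 2 ≤ N`).
First moment: `∑ XX ≥ V N - 2 s.card - 2 N`; second: `∑ XX^2 ≤ V N + s.card + V^2 N + s.card^2 ≤ V N + V^2 N + 2 N`.
So `∑ (XX - V)^2 ≤ N (V + 2 + 4 V + 4 V)` (`s.card ≤ N`, even `≤ √N`), Chebyshev at `V / 2`, and on the rest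
`exp (-2 XX) ≤ exp (-V)`: bound `(36 V + 8) / V^2 + exp (-V)`; the constant 60 below is generous.
-/

open Filter Topology

namespace Pool.Agent.Lib.P4a7640B

open Pool.Agent.Lib.P4a7640 Pool.Agent.Lib.P4a7640N Pool.Agent.Lib.P4a7640Ces

/-- the number of multiples of `d` among the `n + h`, `n ≤ N` -/
private noncomputable def CCU (N h d : ℕ) : ℝ :=
  ∑ _n ∈ (Finset.Icc 1 N).filter (fun n => d ∣ n + h), (1:ℝ)

private lemma card_CCU (N h : ℕ) {d : ℕ} (hd : 1 ≤ d) :
    ((Finset.Icc 1 N).filter fun n => d ∣ n + h).card = (N + h) / d - h / d := by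
  have h2 : ((Finset.Icc 1 N).filter fun n => d ∣ n + h).card =
      (Finset.Ioc (h / d) ((N + h) / d)).card := by
    refine (Finset.card_bij' (fun k _ => (k + h) / d) (fun k _ => k * d - h) ?_ ?_ ?_ ?_)
    · intro k hk
      rw [Finset.mem_filter, Finset.mem_Icc] at hk
      obtain ⟨⟨hk1, hk2⟩, c, hc⟩ := hk
      rw [Finset.mem_Ioc]
      have e : (k + h) / d = c := by
        rw [hc, Nat.mul_div_cancel_left _ (by omega)]
      rw [e]
      constructor
      · rw [Nat.div_lt_iff_lt_mul (by omega), mul_comm, ← hc]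
        omega
      · rw [Nat.le_div_iff_mul_le (by omega), mul_comm, ← hc]
        omega
    · intro k hk
      rw [Finset.mem_Ioc] at hk
      have h3 : h < k * d := Nat.lt_mul_of_div_lt hk.1 (by omega)
      have h4 : k * d ≤ N + h := (Nat.le_div_iff_mul_le (by omega)).1 hk.2
      rw [Finset.mem_filter, Finset.mem_Icc]
      refine ⟨⟨by omega, by omega⟩, ?_⟩
      rw [Nat.sub_add_cancel h3.le]
      exact Dvd.intro_left k rfl
    · intro k hk
      rw [Finset.mem_filter, Finset.mem_Icc] at hk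
      show (k + h) / d * d - h = k
      rw [Nat.div_mul_cancel hk.2]
      omega
    · intro k hk
      rw [Finset.mem_Ioc] at hk
      have h3 : h < k * d := Nat.lt_mul_of_div_lt hk.1 (by omega)
      show (k * d - h + h) / d = k
      rw [Nat.sub_add_cancel h3.le, Nat.mul_div_cancel _ (by omega)]
  rw [h2, Nat.card_Ioc]

private lemma CCU_bd (N h : ℕ) {d : ℕ} (hd : 1 ≤ d) :
    (N:ℝ) / d - 1 ≤ CCU N h d ∧ CCU N h d ≤ (N:ℝ) / d + 1 := by
  have hd0 : (0:ℝ) < d := by exact_mod_cast hd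
  have h7 : h / d ≤ (N + h) / d := Nat.div_le_div_right (by omega)
  have e : CCU N h d = (((N + h) / d : ℕ) : ℝ) - ((h / d : ℕ) : ℝ) := by
    unfold CCU
    rw [Finset.sum_const, nsmul_eq_mul, mul_one, card_CCU N h hd, Nat.cast_sub h7]
  have lo : ∀ m : ℕ, (m:ℝ) / d - 1 ≤ ((m / d : ℕ) : ℝ) := by
    intro m
    have h10 : m < (m / d + 1) * d := by
      have := Nat.lt_div_mul_add (a := m) (show 0 < d by omega)
      rw [add_mul, one_mul]
      exact this
    have h11 : (m:ℝ) < (((m / d : ℕ) : ℝ) + 1) * d := by exact_mod_cast h10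
    have h12 : (m:ℝ) / d < ((m / d : ℕ) : ℝ) + 1 := by
      rw [div_lt_iff₀ hd0]
      exact h11
    linarith
  have hi : ∀ m : ℕ, ((m / d : ℕ) : ℝ) ≤ (m:ℝ) / d := fun m => Nat.cast_div_le
  have a1 := lo (N + h)
  have a2 := hi (N + h)
  have a3 := lo h
  have a4 := hi h
  have e2 : (((N + h : ℕ)) : ℝ) / d = (N:ℝ) / d + (h:ℝ) / d := by
    push_cast
    ring
  rw [e2] at a1 a2
  rw [e]
  constructor <;> linarith

private lemma secondU {s : Finset ℕ} {τ : ℕ → ℝ} (hτ : ∀ p, 0 ≤ τ p) (hτ1 : ∀ p, τ p ≤ 1)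
    {N h : ℕ} (hs : ∀ p ∈ s, p.Prime) :
    ∑ n ∈ Finset.Icc 1 N, XX s τ h n ^ 2 ≤
      (VV s τ + VV s τ ^ 2) * (N:ℝ) + s.card + (s.card : ℝ) ^ 2 := by
  have hN0 : (0:ℝ) ≤ N := Nat.cast_nonneg N
  have h1 : ∀ n ∈ Finset.Icc 1 N, XX s τ h n ^ 2 ≤
      ∑ p ∈ s, ∑ q ∈ s, τ p * τ q * (if p ∣ n + h ∧ q ∣ n + h then (1:ℝ) else 0) := by
    intro n _
    unfold XX
    rw [sq, Finset.sum_mul_sum]
    refine Finset.sum_le_sum fun p _ => ?_
    refine Finset.sum_le_sum fun q _ => ?_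
    by_cases hp : p ∣ n + h
    · by_cases hq : q ∣ n + h
      · rw [if_pos (show p ∣ n + h ∧ q ∣ n + h from ⟨hp, hq⟩), mul_one]
        have h2 : (if p ∣ n + h ∧ ¬ p^2 ∣ n + h then τ p else 0) ≤ τ p := by
          split_ifs
          exacts [le_rfl, hτ p]
        have h3 : (if q ∣ n + h ∧ ¬ q^2 ∣ n + h then τ q else 0) ≤ τ q := by
          split_ifs
          exacts [le_rfl, hτ q]
        have h4 : 0 ≤ (if q ∣ n + h ∧ ¬ q^2 ∣ n + h then τ q else 0) := by
          split_ifs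
          exacts [hτ q, le_rfl]
        exact mul_le_mul h2 h3 h4 (hτ p)
      · rw [if_neg (show ¬ (q ∣ n + h ∧ ¬ q^2 ∣ n + h) from fun hh => hq hh.1), mul_zero,
          if_neg (show ¬ (p ∣ n + h ∧ q ∣ n + h) from fun hh => hq hh.2), mul_zero]
    · rw [if_neg (show ¬ (p ∣ n + h ∧ ¬ p^2 ∣ n + h) from fun hh => hp hh.1), zero_mul,
        if_neg (show ¬ (p ∣ n + h ∧ q ∣ n + h) from fun hh => hp hh.1), mul_zero]
  have hpq : ∀ p ∈ s, ∀ q ∈ s, ∑ n ∈ Finset.Icc 1 N,
      (if p ∣ n + h ∧ q ∣ n + h then (1:ℝ) else 0) ≤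
      (if p = q then 1 / (p:ℝ) * N + 1 else 0) + (1 / ((p:ℝ) * q) * N + 1) := by
    intro p hp q hq
    have hp0 : 0 < p := (hs p hp).pos
    have hq0 : 0 < q := (hs q hq).pos
    by_cases he : p = q
    · subst he
      rw [if_pos rfl]
      have h2 : ∑ n ∈ Finset.Icc 1 N, (if p ∣ n + h ∧ p ∣ n + h then (1:ℝ) else 0) =
          CCU N h p := by
        unfold CCU
        rw [Finset.sum_filter]
        refine Finset.sum_congr rfl fun n _ => ?_
        simp only [and_self]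
      rw [h2]
      have h3 := (CCU_bd N h (d := p) hp0).2
      have h4 : 0 ≤ 1 / ((p:ℝ) * p) * N := by positivity
      have h5 : (N:ℝ) / p = 1 / (p:ℝ) * N := by ring
      rw [h5] at h3
      linarith
    · rw [if_neg he, zero_add]
      have h2 : ∑ n ∈ Finset.Icc 1 N, (if p ∣ n + h ∧ q ∣ n + h then (1:ℝ) else 0) =
          CCU N h (p * q) := by
        unfold CCU
        rw [Finset.sum_filter]
        refine Finset.sum_congr rfl fun n _ => ?_
        have hcop : Nat.Coprime p q := (Nat.coprime_primes (hs p hp) (hs q hq)).mpr he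
        by_cases hh : p * q ∣ n + h
        · rw [if_pos hh, if_pos ⟨(Dvd.intro _ rfl).trans hh, (Dvd.intro_left _ rfl).trans hh⟩]
        · rw [if_neg hh, if_neg]
          rintro ⟨ha, hb⟩
          exact hh (hcop.mul_dvd_of_dvd_of_dvd ha hb)
      rw [h2]
      have h3 := (CCU_bd N h (d := p * q) (show 1 ≤ p * q from Nat.mul_pos hp0 hq0)).2
      push_cast at h3
      have h5 : (N:ℝ) / ((p:ℝ) * q) = 1 / ((p:ℝ) * q) * N := by ring
      rw [h5] at h3
      exact h3
  calc ∑ n ∈ Finset.Icc 1 N, XX s τ h n ^ 2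
      ≤ ∑ n ∈ Finset.Icc 1 N, ∑ p ∈ s, ∑ q ∈ s, τ p * τ q *
          (if p ∣ n + h ∧ q ∣ n + h then (1:ℝ) else 0) := Finset.sum_le_sum h1
    _ = ∑ p ∈ s, ∑ q ∈ s, τ p * τ q *
          ∑ n ∈ Finset.Icc 1 N, (if p ∣ n + h ∧ q ∣ n + h then (1:ℝ) else 0) := by
        rw [Finset.sum_comm]
        refine Finset.sum_congr rfl fun p _ => ?_
        rw [Finset.sum_comm]
        refine Finset.sum_congr rfl fun q _ => ?_
        rw [Finset.mul_sum]
    _ ≤ ∑ p ∈ s, ∑ q ∈ s, τ p * τ q * ((if p = q then 1 / (p:ℝ) * N + 1 else 0) +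
          (1 / ((p:ℝ) * q) * N + 1)) := by
        refine Finset.sum_le_sum fun p hp => Finset.sum_le_sum fun q hq => ?_
        exact mul_le_mul_of_nonneg_left (hpq p hp q hq) (mul_nonneg (hτ p) (hτ q))
    _ ≤ ∑ p ∈ s, ((τ p / p * N + 1) + ∑ q ∈ s, (τ p / p * (τ q / q) * N + 1)) := by
        refine Finset.sum_le_sum fun p hp => ?_
        simp only [mul_add, Finset.sum_add_distrib]
        have hp0 : (0:ℝ) < p := by exact_mod_cast (hs p hp).pos
        have t1 : ∑ q ∈ s, τ p * τ q * (if p = q then 1 / (p:ℝ) * N + 1 else 0) ≤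
            τ p / p * N + 1 := by
          have h2 : ∀ q ∈ s, τ p * τ q * (if p = q then 1 / (p:ℝ) * N + 1 else 0) =
              if p = q then τ p * τ p * (1 / (p:ℝ) * N + 1) else 0 := by
            intro q _
            by_cases he : p = q
            · subst he
              simp
            · simp [he]
          rw [Finset.sum_congr rfl h2, Finset.sum_ite_eq, if_pos hp]
          have h3 : τ p * τ p ≤ τ p := by nlinarith [hτ p, hτ1 p]
          have h4 : 0 ≤ 1 / (p:ℝ) * N := by positivity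
          have h5 : τ p * τ p * (1 / (p:ℝ) * N) ≤ τ p * (1 / (p:ℝ) * N) :=
            mul_le_mul_of_nonneg_right h3 h4
          have h6 : τ p * (1 / (p:ℝ) * N) = τ p / p * N := by ring
          have h7 : τ p * τ p ≤ 1 := h3.trans (hτ1 p)
          nlinarith
        have t2 : ∑ q ∈ s, τ p * τ q * (1 / ((p:ℝ) * q) * N) =
            ∑ q ∈ s, τ p / p * (τ q / q) * N := by
          refine Finset.sum_congr rfl fun q _ => ?_
          rw [div_mul_div_comm]
          ring
        have t3 : ∑ q ∈ s, τ p * τ q * 1 ≤ ∑ _q ∈ s, (1:ℝ) := by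
          refine Finset.sum_le_sum fun q _ => ?_
          nlinarith [hτ p, hτ1 p, hτ q, hτ1 q, mul_nonneg (hτ p) (hτ q)]
        linarith
    _ = (VV s τ + VV s τ ^ 2) * N + s.card + (s.card:ℝ) ^ 2 := by
        simp only [Finset.sum_add_distrib, Finset.sum_const, nsmul_eq_mul, mul_one]
        have h2 : ∑ p ∈ s, ∑ q ∈ s, τ p / p * (τ q / q) * (N:ℝ) = VV s τ ^ 2 * N := by
          unfold VV
          rw [sq, Finset.sum_mul_sum, Finset.sum_mul]
          refine Finset.sum_congr rfl fun p _ => ?_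
          rw [Finset.sum_mul]
        have h3 : ∑ p ∈ s, τ p / (p:ℝ) * (N:ℝ) = VV s τ * N := by
          unfold VV
          rw [Finset.sum_mul]
        rw [h2, h3]
        ring

private lemma firstU {s : Finset ℕ} {τ : ℕ → ℝ} (hτ : ∀ p, 0 ≤ τ p) (hτ1 : ∀ p, τ p ≤ 1)
    {N h : ℕ} (hs : ∀ p ∈ s, p.Prime) :
    VV s τ * N - 2 * s.card - 2 * (N:ℝ) ≤ ∑ n ∈ Finset.Icc 1 N, XX s τ h n := by
  have hN0 : (0:ℝ) ≤ N := Nat.cast_nonneg N
  have h1 : ∑ n ∈ Finset.Icc 1 N, XX s τ h n = ∑ p ∈ s, τ p * (CCU N h p - CCU N h (p^2)) := by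
    unfold XX
    rw [Finset.sum_comm]
    refine Finset.sum_congr rfl fun p _ => ?_
    unfold CCU
    rw [Finset.sum_filter, Finset.sum_filter, ← Finset.sum_sub_distrib, Finset.mul_sum]
    refine Finset.sum_congr rfl fun n _ => ?_
    by_cases hp : p ∣ n + h
    · by_cases hq : p^2 ∣ n + h
      · rw [if_neg (fun hh => hh.2 hq), if_pos hp, if_pos hq]
        simp
      · rw [if_pos ⟨hp, hq⟩, if_pos hp, if_neg hq]
        ring
    · rw [if_neg (fun hh => hp hh.1), if_neg hp,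
        if_neg (fun hq => hp ((Dvd.intro_left (p^1) (by ring)).trans hq))]
      simp
  rw [h1]
  have h2 : ∀ p ∈ s, τ p / p * N - 2 - 1 / (p:ℝ)^2 * N ≤
      τ p * (CCU N h p - CCU N h (p^2)) := by
    intro p hp
    have hpp := hs p hp
    have hp0 : (0:ℝ) < p := by exact_mod_cast hpp.pos
    have h3 := (CCU_bd N h (d := p) hpp.pos).1
    have h4 := (CCU_bd N h (d := p^2) (Nat.pos_of_ne_zero (by
      have := hpp.pos
      positivity))).2
    push_cast at h4
    have h5 : (N:ℝ) / (p:ℝ)^2 = 1 / (p:ℝ)^2 * N := by ring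
    rw [h5] at h4
    have h6 : (N:ℝ) / p - 2 - 1 / (p:ℝ)^2 * N ≤ CCU N h p - CCU N h (p^2) := by
      linarith
    have h7 : 0 ≤ 1 / (p:ℝ)^2 * N := by positivity
    calc τ p / p * N - 2 - 1 / (p:ℝ)^2 * N
        ≤ τ p * ((N:ℝ) / p - 2 - 1 / (p:ℝ)^2 * N) := by
          have h8 : τ p / p * N = τ p * ((N:ℝ) / p) := by ring
          rw [h8]
          nlinarith [hτ1 p, hτ p]
      _ ≤ _ := mul_le_mul_of_nonneg_left h6 (hτ p)
  have hinv : ∑ p ∈ s, 1 / (p:ℝ)^2 ≤ 2 := by
    calc ∑ p ∈ s, 1 / (p:ℝ)^2 ≤ ∑ p ∈ Finset.Icc 1 (s.sup id), 1 / (p:ℝ)^2 := by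
          apply Finset.sum_le_sum_of_subset_of_nonneg
          · intro p hp
            rw [Finset.mem_Icc]
            exact ⟨(hs p hp).pos, Finset.le_sup (f := id) hp⟩
          · intro _ _ _
            positivity
      _ ≤ 2 := sum_inv_sq_le _
  calc VV s τ * N - 2 * s.card - 2 * (N:ℝ)
      ≤ VV s τ * N - 2 * s.card - (∑ p ∈ s, 1 / (p:ℝ)^2) * N := by
        have := mul_le_mul_of_nonneg_right hinv hN0
        linarith
    _ = ∑ p ∈ s, (τ p / p * N - 2 - 1 / (p:ℝ)^2 * N) := by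
        rw [Finset.sum_sub_distrib, Finset.sum_sub_distrib, ← Finset.sum_mul, ← Finset.sum_mul,
          Finset.sum_const, nsmul_eq_mul]
        unfold VV
        ring
    _ ≤ _ := Finset.sum_le_sum h2

theorem exp_avgU {s : Finset ℕ} {τ : ℕ → ℝ} (hτ : ∀ p, 0 ≤ τ p) (hτ1 : ∀ p, τ p ≤ 1) {N : ℕ} (h : ℕ)
    (hN : 1 ≤ N) (hV : 1 ≤ VV s τ) (hs : ∀ p ∈ s, p.Prime) (hcard : s.card ^ 2 ≤ N) :
    (∑ n ∈ Finset.Icc 1 N, Real.exp (-2 * XX s τ h n)) / (N : ℝ) ≤
      60 / VV s τ + Real.exp (-VV s τ) := by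
  set V := VV s τ with hVdef
  have hN0 : (0:ℝ) < N := by exact_mod_cast hN
  have hV0 : 0 < V := by linarith
  have hc2 : (s.card : ℝ) ^ 2 ≤ N := by exact_mod_cast hcard
  have hc1 : (s.card : ℝ) ≤ N := by
    have h1 : s.card ≤ s.card ^ 2 := Nat.le_self_pow (by norm_num) _
    exact_mod_cast h1.trans hcard
  have hm2 := secondU hτ hτ1 (N := N) (h := h) (s := s) hs
  have hm1 := firstU hτ hτ1 (N := N) (h := h) (s := s) hs
  rw [← hVdef] at hm1 hm2
  have hvar : ∑ n ∈ Finset.Icc 1 N, (XX s τ h n - V)^2 ≤ 11 * V * N := by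
    have e : ∑ n ∈ Finset.Icc 1 N, (XX s τ h n - V)^2 = ∑ n ∈ Finset.Icc 1 N, XX s τ h n ^ 2 -
        2 * V * ∑ n ∈ Finset.Icc 1 N, XX s τ h n + V^2 * N := by
      have h0 : V^2 * (N:ℝ) = ∑ _n ∈ Finset.Icc 1 N, V^2 := by
        rw [Finset.sum_const, nsmul_eq_mul, Nat.card_Icc, Nat.add_sub_cancel, mul_comm]
      rw [h0, Finset.mul_sum, ← Finset.sum_sub_distrib, ← Finset.sum_add_distrib]
      refine Finset.sum_congr rfl fun n _ => ?_
      ring
    rw [e]
    have h1 : 2 * V * (V * N - 2 * s.card - 2 * (N:ℝ)) ≤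
        2 * V * ∑ n ∈ Finset.Icc 1 N, XX s τ h n :=
      mul_le_mul_of_nonneg_left hm1 (by positivity)
    have h2 : V * s.card ≤ V * N := mul_le_mul_of_nonneg_left hc1 hV0.le
    have h3 : 1 * (N:ℝ) ≤ V * N := mul_le_mul_of_nonneg_right hV hN0.le
    nlinarith [hm2, h1, h2, h3]
  -- Chebyshev
  have hcheb : ∑ _n ∈ (Finset.Icc 1 N).filter (fun n => XX s τ h n < V / 2), (1:ℝ) ≤
      4 / V^2 * (11 * V * N) := by
    calc ∑ _n ∈ (Finset.Icc 1 N).filter (fun n => XX s τ h n < V / 2), (1:ℝ)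
        ≤ ∑ n ∈ (Finset.Icc 1 N).filter (fun n => XX s τ h n < V / 2),
            4 / V^2 * (XX s τ h n - V)^2 := by
          apply Finset.sum_le_sum
          intro n hn
          rw [Finset.mem_filter] at hn
          have h1 : (V/2)^2 ≤ (XX s τ h n - V)^2 := by
            have h2 := hn.2
            have h3 := XX_nonneg hτ h n (s := s)
            nlinarith
          rw [div_mul_eq_mul_div, le_div_iff₀ (by positivity)]
          nlinarith
      _ ≤ ∑ n ∈ Finset.Icc 1 N, 4 / V^2 * (XX s τ h n - V)^2 := by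
          apply Finset.sum_le_sum_of_subset_of_nonneg (Finset.filter_subset _ _)
          intro n _ _
          positivity
      _ = 4 / V^2 * ∑ n ∈ Finset.Icc 1 N, (XX s τ h n - V)^2 := by rw [Finset.mul_sum]
      _ ≤ _ := mul_le_mul_of_nonneg_left hvar (by positivity)
  have hsplit : ∑ n ∈ Finset.Icc 1 N, Real.exp (-2 * XX s τ h n) ≤
      ∑ _n ∈ (Finset.Icc 1 N).filter (fun n => XX s τ h n < V / 2), (1:ℝ) +
        Real.exp (-V) * N := by
    calc ∑ n ∈ Finset.Icc 1 N, Real.exp (-2 * XX s τ h n)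
        ≤ ∑ n ∈ Finset.Icc 1 N, ((if XX s τ h n < V / 2 then (1:ℝ) else 0) +
            Real.exp (-V)) := by
          apply Finset.sum_le_sum
          intro n _
          by_cases hx : XX s τ h n < V / 2
          · rw [if_pos hx]
            have h1 : Real.exp (-2 * XX s τ h n) ≤ 1 := by
              rw [Real.exp_le_one_iff]
              have := XX_nonneg hτ h n (s := s)
              linarith
            have h3 : 0 ≤ Real.exp (-V) := (Real.exp_pos _).le
            linarith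
          · rw [if_neg hx, zero_add]
            push Not at hx
            apply Real.exp_le_exp.mpr
            linarith
      _ = _ := by
          rw [Finset.sum_add_distrib, Finset.sum_filter, Finset.sum_const, nsmul_eq_mul,
            Nat.card_Icc, Nat.add_sub_cancel, mul_comm (N:ℝ)]
  calc (∑ n ∈ Finset.Icc 1 N, Real.exp (-2 * XX s τ h n)) / (N:ℝ)
      ≤ (4 / V^2 * (11 * V * N) + Real.exp (-V) * N) / N := by
        apply div_le_div_of_nonneg_right _ hN0.le
        linarith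
    _ = 44 / V + Real.exp (-V) := by
        field_simp
        ring
    _ ≤ _ := by
        have h1 : 44 / V ≤ 60 / V := div_le_div_of_nonneg_right (by norm_num) hV0.le
        linarith

end Pool.Agent.Lib.P4a7640B
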