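import Mathlib
import Pool.Agent.Lib.P4a7640B.Par

/-!
# Mass of the primes in the window which divide no difference of shifts

`rt J N` with `J = 2 + j * i`, `j c ≥ V + 3`: `MS_many` (`N/Slow.lean`) at the scale `rt 2 N` gives
`MS τ (rt (j i) (rt 2 N)) (rt 2 N) ≥ j c` (`rt_add`: `rt (j i) (rt 2 N) = rt (j i + 2) N`). Remove the primes in
`(rt J N, 2^k0]`, `2^k0 ≤ 2 rt J N` (`Nat.clog`): their `∑ 1/p ≤ ∑_{m < n ≤ 2 m} 1/n ≤ 1`; and the primes `> 2^k0 ≥ rt J N`
dividing some `h - h₀`, `0 < |h - h₀| ≤ N`: at most `log_2 N` prime factors each (`Nat.Primes`: `2^(number) ≤ |h - h₀|`,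
`Nat.primeFactors` card), so their sum is `≤ r log_2 N / rt J N → 0`: `N < (rt J N + 1)^(2^J)` gives
`log_2 N ≤ 2^J log_2 (rt J N + 1)`.
-/

open Filter Topology

namespace Pool.Agent.Lib.P4a7640B

open Pool.Agent.Lib.P4a7640 Pool.Agent.Lib.P4a7640N Pool.Agent.Lib.P4a7640Ces

private lemma massU_omega {m N : ℕ} (hm : m ≠ 0) (hmN : m ≤ N) :
    m.primeFactors.card ≤ Nat.log 2 N := by
  have h1 : 2 ^ m.primeFactors.card ≤ ∏ p ∈ m.primeFactors, p :=
    Finset.pow_card_le_prod _ _ _ fun p hp => (Nat.prime_of_mem_primeFactors hp).two_le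
  have h2 : ∏ p ∈ m.primeFactors, p ≤ m := Nat.le_of_dvd (Nat.pos_of_ne_zero hm)
    (Nat.prod_primeFactors_dvd m)
  exact Nat.le_log_of_pow_le (by norm_num) ((h1.trans h2).trans hmN)

private lemma massU_union (f : ℕ → ℝ) (hf : ∀ p, 0 ≤ f p) (s t : Finset ℕ) :
    ∑ p ∈ s ∪ t, f p ≤ ∑ p ∈ s, f p + ∑ p ∈ t, f p := by
  rw [← Finset.sum_union_inter]
  exact le_add_of_nonneg_right (Finset.sum_nonneg fun p _ => hf p)

private lemma massU_log (C : ℝ) (hC : 0 ≤ C) : ∀ᶠ x : ℝ in atTop, C * Real.log (x + 1) ≤ x := by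
  have h := (Real.isLittleO_log_id_atTop.comp_tendsto
    (tendsto_atTop_add_const_right atTop (1 : ℝ) tendsto_id)).bound
    (show (0 : ℝ) < 1 / (2 * (C + 1)) by positivity)
  filter_upwards [h, eventually_ge_atTop 1] with x hx h1
  simp only [Function.comp_apply, id, Real.norm_eq_abs] at hx
  rw [abs_of_nonneg (Real.log_nonneg (by linarith)), abs_of_nonneg (by linarith : (0 : ℝ) ≤ x + 1)] at hx
  calc C * Real.log (x + 1) ≤ C * (1 / (2 * (C + 1)) * (x + 1)) :=
        mul_le_mul_of_nonneg_left hx hC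
    _ = C / (C + 1) * ((x + 1) / 2) := by
        field_simp
    _ ≤ 1 * ((x + 1) / 2) := by
        refine mul_le_mul_of_nonneg_right ?_ (by linarith)
        rw [div_le_one (by linarith)]
        linarith
    _ ≤ x := by linarith

theorem massU {τ : ℕ → ℝ} (hτ : ∀ p, 0 ≤ τ p) (hτ1 : ∀ p, τ p ≤ 1) {i : ℕ} {c : ℝ} (hc : 0 < c)
    (hi : ∀ᶠ N : ℕ in atTop, c ≤ MS τ (rt i N) N) (r : ℕ) (V : ℝ) :
    ∃ J : ℕ, ∀ᶠ N : ℕ in atTop, ∀ H : Finset ℕ, H ⊆ Finset.range (N + 1) → H.card = r →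
      ∀ h₀ ∈ H, ∀ s : Finset ℕ, s = (Finset.Ioc (2 ^ k0 J N) (rt 2 N)).filter
        (fun p : ℕ => p.Prime ∧ ∀ h ∈ H, h ≠ h₀ → ¬ (p : ℤ) ∣ (h : ℤ) - h₀) → V ≤ VV s τ := by
  classical
  obtain ⟨N₀, hN₀⟩ := eventually_atTop.mp hi
  obtain ⟨j, hj⟩ := exists_nat_ge ((V + 3) / c)
  rw [div_le_iff₀ hc] at hj
  refine ⟨2 + j * i, ?_⟩
  set J := 2 + j * i with hJ
  have hJ2 : ∀ N, rt J N = rt (j * i) (rt 2 N) := fun N => by
    rw [hJ, add_comm, rt_add]
  have hr : Tendsto (fun N : ℕ => ((rt J N : ℕ) : ℝ)) atTop atTop :=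
    tendsto_natCast_atTop_atTop.comp (tendsto_rt J)
  filter_upwards [hr.eventually (massU_log (r * 2 ^ J / Real.log 2) (by positivity)),
    (tendsto_rt J).eventually_ge_atTop (N₀ + 2), eventually_ge_atTop 1] with N hlog hx hN1
  intro H hH hcard h₀ hh₀ s hs
  set x := rt J N with hxdef
  set y := rt 2 N with hydef
  set K := 2 ^ k0 J N with hK
  have hx2 : 2 ≤ x := by omega
  have hx0 : (0 : ℝ) < x := by exact_mod_cast (by omega : 0 < x)
  have hxK : x ≤ K := Nat.le_pow_clog (by norm_num) x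
  have hK2 : K ≤ 2 * x := by
    have h1 : 2 ^ (Nat.clog 2 x - 1) < x := Nat.pow_pred_clog_lt_self (by norm_num) (by omega)
    have h2 : 0 < Nat.clog 2 x := Nat.clog_pos (by norm_num) hx2
    have h3 : K = 2 * 2 ^ (Nat.clog 2 x - 1) := by
      rw [hK, k0, ← hxdef, ← pow_succ']
      congr 1
      omega
    omega
  -- the mass
  have hmass : (j : ℝ) * c ≤ MS τ x y := by
    have := MS_many hN₀ y j (by rw [hydef, ← hJ2, ← hxdef]; omega)
    rw [hydef, ← hJ2] at this
    exact this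
  -- the bad primes
  set B : Finset ℕ := (H.erase h₀).biUnion fun h => (((h : ℤ) - h₀).natAbs).primeFactors with hB
  have hBcard : B.card ≤ r * Nat.log 2 N := by
    refine Finset.card_biUnion_le.trans ?_
    calc ∑ h ∈ H.erase h₀, (((h : ℤ) - h₀).natAbs).primeFactors.card
        ≤ ∑ h ∈ H.erase h₀, Nat.log 2 N := by
          refine Finset.sum_le_sum fun h hh => ?_
          rw [Finset.mem_erase] at hh
          have h1 := Finset.mem_range.mp (hH hh.2)
          have h2 := Finset.mem_range.mp (hH hh₀)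
          have h3 := hh.1
          exact massU_omega (by omega) (by omega)
      _ = (H.erase h₀).card * Nat.log 2 N := by rw [Finset.sum_const, smul_eq_mul]
      _ ≤ r * Nat.log 2 N := Nat.mul_le_mul_right _ (by
          rw [← hcard]; exact Finset.card_le_card (Finset.erase_subset _ _))
  -- the comparison
  have hcover : (Finset.Ioc x y).filter Nat.Prime ⊆
      Finset.Ioc x K ∪ (B.filter (fun p => x < p) ∪ s) := by
    intro p hp
    rw [Finset.mem_filter, Finset.mem_Ioc] at hp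
    rw [Finset.mem_union, Finset.mem_union, Finset.mem_Ioc, Finset.mem_filter, hs,
      Finset.mem_filter, Finset.mem_Ioc]
    by_cases hpK : p ≤ K
    · exact Or.inl ⟨hp.1.1, hpK⟩
    right
    by_cases hbad : ∃ h ∈ H, h ≠ h₀ ∧ (p : ℤ) ∣ (h : ℤ) - h₀
    · left
      obtain ⟨h, hh, hne, hdvd⟩ := hbad
      refine ⟨?_, hp.1.1⟩
      rw [hB, Finset.mem_biUnion]
      refine ⟨h, Finset.mem_erase.mpr ⟨hne, hh⟩, ?_⟩
      rw [Nat.mem_primeFactors]
      exact ⟨hp.2, Int.natCast_dvd.mp hdvd, by omega⟩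
    · right
      push Not at hbad
      exact ⟨⟨not_le.mp hpK, hp.1.2⟩, hp.2, fun h hh hne => hbad h hh hne⟩
  have hτp : ∀ p : ℕ, 0 ≤ τ p / (p : ℝ) := fun p => div_nonneg (hτ p) (Nat.cast_nonneg p)
  have hle : ∀ p : ℕ, x < p → τ p / (p : ℝ) ≤ 1 / x := by
    intro p hp
    have hp' : (x : ℝ) ≤ p := by exact_mod_cast hp.le
    exact div_le_div₀ zero_le_one (hτ1 p) hx0 hp'
  have hA : ∑ p ∈ Finset.Ioc x K, τ p / (p : ℝ) ≤ 1 := by
    calc ∑ p ∈ Finset.Ioc x K, τ p / (p : ℝ) ≤ ∑ p ∈ Finset.Ioc x K, (1 : ℝ) / x :=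
          Finset.sum_le_sum fun p hp => hle p (Finset.mem_Ioc.mp hp).1
      _ = ((K - x : ℕ) : ℝ) * (1 / x) := by
          rw [Finset.sum_const, Nat.card_Ioc, nsmul_eq_mul]
      _ ≤ (x : ℝ) * (1 / x) := by
          refine mul_le_mul_of_nonneg_right ?_ (by positivity)
          exact_mod_cast (by omega : K - x ≤ x)
      _ = 1 := mul_one_div_cancel hx0.ne'
  have hlogN : (r : ℝ) * Nat.log 2 N ≤ x := by
    have h1 : N < (x + 1) ^ (2 ^ J) := (rt_lt_iff J N _).mp (Nat.lt_succ_self _)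
    have h2 : (N : ℝ) < ((x : ℝ) + 1) ^ (2 ^ J) := by exact_mod_cast h1
    have hN0 : (0 : ℝ) < N := by exact_mod_cast hN1
    have h3 : Real.log N ≤ 2 ^ J * Real.log ((x : ℝ) + 1) := by
      have := Real.log_le_log hN0 h2.le
      rw [Real.log_pow] at this
      push_cast at this
      exact this
    have hl2 : (0 : ℝ) < Real.log 2 := Real.log_pos (by norm_num)
    have h4 : (Nat.log 2 N : ℝ) ≤ Real.log N / Real.log 2 := by
      rw [le_div_iff₀ hl2, ← Real.log_pow]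
      refine Real.log_le_log (by positivity) ?_
      exact_mod_cast Nat.pow_log_le_self 2 (by omega)
    calc (r : ℝ) * Nat.log 2 N ≤ r * (Real.log N / Real.log 2) :=
          mul_le_mul_of_nonneg_left h4 (Nat.cast_nonneg r)
      _ ≤ r * (2 ^ J * Real.log ((x : ℝ) + 1) / Real.log 2) := by
          refine mul_le_mul_of_nonneg_left ?_ (Nat.cast_nonneg r)
          exact div_le_div_of_nonneg_right h3 hl2.le
      _ = r * 2 ^ J / Real.log 2 * Real.log ((x : ℝ) + 1) := by ring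
      _ ≤ x := hlog
  have hBs : ∑ p ∈ B.filter (fun p => x < p), τ p / (p : ℝ) ≤ 1 := by
    calc ∑ p ∈ B.filter (fun p => x < p), τ p / (p : ℝ)
        ≤ ∑ p ∈ B.filter (fun p => x < p), (1 : ℝ) / x :=
          Finset.sum_le_sum fun p hp => hle p (Finset.mem_filter.mp hp).2
      _ = ((B.filter (fun p => x < p)).card : ℝ) * (1 / x) := by
          rw [Finset.sum_const, nsmul_eq_mul]
      _ ≤ (x : ℝ) * (1 / x) := by
          refine mul_le_mul_of_nonneg_right ?_ (by positivity)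
          refine le_trans ?_ hlogN
          exact_mod_cast (Finset.card_filter_le _ _).trans hBcard
      _ = 1 := mul_one_div_cancel hx0.ne'
  have hfin : MS τ x y ≤ 1 + (1 + VV s τ) := by
    unfold MS VV
    refine (Finset.sum_le_sum_of_subset_of_nonneg hcover fun p _ _ => hτp p).trans ?_
    refine (massU_union _ hτp _ _).trans (add_le_add hA ?_)
    exact (massU_union _ hτp _ _).trans (add_le_add hBs le_rfl)
  linarith

end Pool.Agent.Lib.P4a7640B
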