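import Mathlib
import Pool.Agent.Lib.P4a7640B.Blk
import Pool.Agent.Lib.P4a7640B.ExpU
import Pool.Agent.Lib.P4a7640B.MassU

/-!
# The conditional means are small, uniformly in all sets of `r` shifts up to `N`

`GB θ FF (k0 J N) (KN N - k0 J N) = AVL θ (DL (2^k0) (2^KN)) FF` (`GB_eq`; `k0 J N ≤ KN N` always holds).
Fix `h₀ ∈ H` and let `s` be the set of the primes `p`, `2^k0 < p ≤ rt 2 N`, that divide no
`|h - h₀|`, `h ∈ H, h ≠ h₀`. As in `AVL_FC_le` (`N2/MeanC.lean`): `FC` is a sum of `chiT (oddT (MM H n))`,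
`AVL_chiT_le`, and every `p ∈ s` with `p ∣ n + h₀`, `¬ p^2 ∣ n + h₀` is in `oddT (MM H n)` (model `mem_oddT` in
`P4a7640/Scale.lean`: `p` divides no other `n + h` because it would divide `h - h₀`); so
`|mean| ≤ (∑ exp (-2 XX s τ h₀ n)) / N`, then `exp_avgU` (`s.card^2 ≤ (rt 2 N)^2 ≤ N`) and `massU`.
-/

open Filter Topology

namespace Pool.Agent.Lib.P4a7640B

open Pool.Agent.Lib.P4a7640 Pool.Agent.Lib.P4a7640N Pool.Agent.Lib.P4a7640Ces Pool.Agent.Lib.P4a7640N2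

lemma mem_oddTU {H : Finset ℕ} {h₀ n p : ℕ} (hh₀ : h₀ ∈ H) (hn : 1 ≤ n) (hp : p.Prime)
    (h1 : p ∣ n + h₀) (h2 : ¬ p ^ 2 ∣ n + h₀) (h3 : ∀ h ∈ H, h ≠ h₀ → ¬ (p : ℤ) ∣ (h : ℤ) - h₀) :
    p ∈ oddT (MM H n) := by
  have hne : ∀ h ∈ H, n + h ≠ 0 := fun h _ => by omega
  have hfac : (MM H n).factorization p = 1 := by
    unfold MM
    rw [Nat.factorization_prod hne, Finsupp.finsetSum_apply, Finset.sum_eq_single h₀]
    · have h4 : 1 ≤ (n + h₀).factorization p :=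
        (hp.dvd_iff_one_le_factorization (by omega)).mp h1
      have h5 : ¬ 2 ≤ (n + h₀).factorization p := fun h =>
        h2 ((hp.pow_dvd_iff_le_factorization (by omega)).mpr h)
      omega
    · intro h hh hne'
      apply Nat.factorization_eq_zero_of_not_dvd
      intro h4
      refine h3 h hh hne' ?_
      have h5 : (p : ℤ) ∣ ((n + h : ℕ) : ℤ) := Int.natCast_dvd_natCast.2 h4
      have h6 : (p : ℤ) ∣ ((n + h₀ : ℕ) : ℤ) := Int.natCast_dvd_natCast.2 h1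
      have h7 := dvd_sub h5 h6
      have h8 : ((n + h : ℕ) : ℤ) - ((n + h₀ : ℕ) : ℤ) = (h : ℤ) - h₀ := by
        push_cast
        ring
      rwa [h8] at h7
    · intro h
      exact absurd hh₀ h
  unfold oddT
  rw [Finset.mem_filter]
  have hmem : p ∈ (MM H n).primeFactors := by
    rw [← Nat.support_factorization, Finsupp.mem_support_iff, hfac]
    norm_num
  exact ⟨hmem, by rw [hfac]; exact odd_one⟩

private lemma meanU_FC_eq (w : ℕ → ℝ) (H : Finset ℕ) (N : ℕ) (x : SS) :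
    FC w H N x = ∑ n ∈ Finset.Icc 1 N, (w n / N) * chiT (oddT (MM H n)) x := by
  unfold FC
  rw [Finset.sum_div]
  refine Finset.sum_congr rfl fun n hn => ?_
  rw [Finset.mem_Icc] at hn
  have h1 : ∏ h ∈ H, sg (rnd x (n + h)) = chiT (oddT (MM H n)) x := by
    rw [← sg_rnd, MM, rnd_prod x H (fun h => n + h) (fun h _ => by omega), sg_prod]
  rw [h1]
  ring

/-- the average over the signs at the primes of a list is at most the average of the exponentials -/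
private lemma meanU_AVL_le {θ : ℕ → ℝ} (hθ0 : ∀ p, 0 ≤ θ p) (hθ1 : ∀ p, θ p ≤ 1) {w : ℕ → ℝ}
    (hw : ∀ n, |w n| ≤ 1) {H : Finset ℕ} {N h₀ : ℕ} (hN : 1 ≤ N) (hh₀ : h₀ ∈ H)
    {L : List ℕ} (hL : L.Nodup) {s : Finset ℕ}
    (hs : ∀ p ∈ s, p ∈ L ∧ p.Prime ∧ ∀ h ∈ H, h ≠ h₀ → ¬ (p : ℤ) ∣ (h : ℤ) - h₀) (x : SS) :
    |AVL θ L (FC w H N) x| ≤
      (∑ n ∈ Finset.Icc 1 N, Real.exp (-2 * XX s (fun p => min (θ p) (1 - θ p)) h₀ n)) / N := by
  have hN0 : (0:ℝ) < N := by exact_mod_cast hN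
  have h1 : FC w H N = fun x => ∑ n ∈ Finset.Icc 1 N, (w n / N) *
      chiT (oddT (MM H n)) x := funext (meanU_FC_eq w H N)
  rw [h1, AVL_sum]
  simp only [AVL_const_mul]
  calc |∑ n ∈ Finset.Icc 1 N, w n / N *
        AVL θ L (chiT (oddT (MM H n))) x|
      ≤ ∑ n ∈ Finset.Icc 1 N, |w n / N *
        AVL θ L (chiT (oddT (MM H n))) x| := Finset.abs_sum_le_sum_abs _ _
    _ ≤ ∑ n ∈ Finset.Icc 1 N, (1:ℝ) / N *
        Real.exp (-2 * XX s (fun p => min (θ p) (1 - θ p)) h₀ n) := by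
        refine Finset.sum_le_sum fun n hn => ?_
        rw [Finset.mem_Icc] at hn
        rw [abs_mul]
        apply mul_le_mul _ _ (abs_nonneg _) (by positivity)
        · rw [abs_div, abs_of_pos hN0]
          exact div_le_div_of_nonneg_right (hw n) hN0.le
        · refine (AVL_chiT_le θ _ _ hL x).trans ?_
          set T' := (oddT (MM H n)).filter (fun p => p ∈ L) with hT'
          set s' := s.filter (fun p => p ∣ n + h₀ ∧ ¬ p ^ 2 ∣ n + h₀) with hs'
          have hsub : s' ⊆ T' := by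
            intro p hp
            rw [hs', Finset.mem_filter] at hp
            obtain ⟨hps, hd1, hd2⟩ := hp
            obtain ⟨h2, h3, h4⟩ := hs p hps
            rw [hT', Finset.mem_filter]
            exact ⟨mem_oddTU hh₀ hn.1 h3 hd1 hd2 h4, h2⟩
          have hle1 : ∀ p, |1 - 2 * θ p| ≤ 1 := by
            intro p
            rw [abs_le]
            constructor <;> linarith [hθ0 p, hθ1 p]
          have hexp : Real.exp (-2 * XX s (fun p => min (θ p) (1 - θ p)) h₀ n) =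
              ∏ p ∈ s', Real.exp (-2 * min (θ p) (1 - θ p)) := by
            rw [← Real.exp_sum, XX, ← Finset.sum_filter, Finset.mul_sum]
          rw [hexp, ← Finset.prod_sdiff hsub]
          calc (∏ p ∈ T' \ s', |1 - 2 * θ p|) * ∏ p ∈ s', |1 - 2 * θ p|
              ≤ 1 * ∏ p ∈ s', Real.exp (-2 * min (θ p) (1 - θ p)) := by
                apply mul_le_mul _ _ (Finset.prod_nonneg fun p _ => abs_nonneg _) zero_le_one
                · exact Finset.prod_le_one (fun p _ => abs_nonneg _) fun p _ => hle1 p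
                · apply Finset.prod_le_prod (fun p _ => abs_nonneg _)
                  intro p _
                  rw [abs_one_sub_two_mul]
                  have := Real.add_one_le_exp (-2 * min (θ p) (1 - θ p))
                  linarith
            _ = _ := one_mul _
    _ = _ := by
        rw [Finset.sum_div]
        refine Finset.sum_congr rfl fun n _ => ?_
        ring

theorem meanU {r : ℕ} (hr : 0 < r) {ε : ℝ} (hε : 0 < ε) {θ : ℕ → ℝ} (hθ0 : ∀ p, 0 ≤ θ p)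
    (hθ1 : ∀ p, θ p ≤ 1) {i : ℕ} {c : ℝ} (hc : 0 < c)
    (hi : ∀ᶠ N : ℕ in atTop, c ≤ MS (fun p => min (θ p) (1 - θ p)) (rt i N) N) :
    ∃ J : ℕ, ∀ᶠ N : ℕ in atTop, ∀ W : Finset ℕ → ℕ → ℝ, (∀ H n, |W H n| ≤ 1) → ∀ g x : SS,
      ∀ H D : Finset ℕ, H ⊆ Finset.range (N + 1) → H.card = r →
        |GB θ (FF W g H D N) (k0 J N) (KN N - k0 J N) x| ≤ ε := by
  -- the needed variance
  obtain ⟨V₁, hV₁, hexp⟩ : ∃ V₁ : ℝ, 1 ≤ V₁ ∧ ∀ V, V₁ ≤ V → 60 / V ≤ ε / 2 ∧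
      Real.exp (-V) ≤ ε / 2 := by
    have h1 : Tendsto (fun V : ℝ => 60 / V) atTop (𝓝 0) := tendsto_id.const_div_atTop 60
    have h2 : Tendsto (fun V : ℝ => Real.exp (-V)) atTop (𝓝 0) :=
      Real.tendsto_exp_neg_atTop_nhds_zero
    have h3 := ((h1.eventually (eventually_le_nhds (show 0 < ε / 2 by positivity))).and
      (h2.eventually (eventually_le_nhds (show 0 < ε / 2 by positivity)))).and
      (eventually_ge_atTop (1:ℝ))
    obtain ⟨V₁, hV₁⟩ := eventually_atTop.mp h3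
    refine ⟨max V₁ 1, le_max_right _ _, fun V hV => ?_⟩
    exact (hV₁ V ((le_max_left _ _).trans hV)).1
  set τ : ℕ → ℝ := fun p => min (θ p) (1 - θ p) with hτd
  have hτ : ∀ p, 0 ≤ τ p := fun p => le_min (hθ0 p) (by linarith [hθ1 p])
  have hτ1 : ∀ p, τ p ≤ 1 := fun p => (min_le_left _ _).trans (hθ1 p)
  obtain ⟨J, hJ⟩ := massU hτ hτ1 hc hi r V₁
  refine ⟨J, ?_⟩
  filter_upwards [hJ, eventually_ge_atTop 1] with N hN hN1 W hW g x H D hH hcard
  obtain ⟨h₀, hh₀⟩ : H.Nonempty := Finset.card_pos.1 (by omega)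
  set s : Finset ℕ := (Finset.Ioc (2 ^ k0 J N) (rt 2 N)).filter
    (fun p : ℕ => p.Prime ∧ ∀ h ∈ H, h ≠ h₀ → ¬ (p : ℤ) ∣ (h : ℤ) - h₀) with hs
  have hVs : V₁ ≤ VV s τ := hN H hH hcard h₀ hh₀ s hs
  obtain ⟨he1, he2⟩ := hexp _ hVs
  have hk : k0 J N ≤ KN N := by
    unfold k0 KN
    refine Nat.clog_mono_right 2 ?_
    have := rt_le J N
    omega
  have hrt : rt 2 N ≤ N := rt_le 2 N
  have hKN := le_two_pow_KN N
  have hmem : ∀ p ∈ s, p ∈ DL (2 ^ k0 J N) (2 ^ KN N) ∧ p.Prime ∧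
      ∀ h ∈ H, h ≠ h₀ → ¬ (p : ℤ) ∣ (h : ℤ) - h₀ := by
    intro p hp
    rw [hs, Finset.mem_filter, Finset.mem_Ioc] at hp
    obtain ⟨⟨hp1, hp2⟩, hpp, hp3⟩ := hp
    exact ⟨mem_DL.2 ⟨hp1, by omega, hpp⟩, hpp, hp3⟩
  have hscard : s.card ^ 2 ≤ N := by
    have h1 : s ⊆ Finset.Icc 1 (rt 2 N) := by
      intro p hp
      rw [hs, Finset.mem_filter, Finset.mem_Ioc] at hp
      rw [Finset.mem_Icc]
      exact ⟨hp.2.1.pos, hp.1.2⟩
    have h2 := Finset.card_le_card h1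
    rw [Nat.card_Icc, Nat.add_sub_cancel] at h2
    have h3 : rt 2 N ≤ Nat.sqrt N := by
      have h4 : rt 1 N = Nat.sqrt N := rt_succ 0 N
      rw [← h4]
      exact rt_succ_le 1 N
    calc s.card ^ 2 ≤ (Nat.sqrt N) ^ 2 := Nat.pow_le_pow_left (h2.trans h3) 2
      _ ≤ N := Nat.sqrt_le' N
  have hwt : ∀ n, |W H n * prodSeq (rnd g) H n * prodSeq (rnd (sD D)) H n| ≤ 1 := by
    intro n
    rw [abs_mul, abs_mul, abs_prodSeq, abs_prodSeq, mul_one, mul_one]
    exact hW H n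
  rw [GB_eq, Nat.add_sub_cancel' hk]
  unfold FF
  refine (meanU_AVL_le hθ0 hθ1 hwt hN1 hh₀ (nodup_DL _ _) hmem x).trans ?_
  refine (exp_avgU hτ hτ1 h₀ hN1 (hV₁.trans hVs) (fun p hp => (hmem p hp).2.1) hscard).trans ?_
  linarith

end Pool.Agent.Lib.P4a7640B
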