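import Mathlib
import Pool.Agent.Lib.P4a7640B.Blk

/-!
# The bounded differences inequality in one block

`Φ = GB θ (FF W g H D N) (k + 1) (KN N - (k + 1))`, `AVL θ (DL (2^k) (2^(k+1))) Φ = GB θ .. k (KN N - k)` (definition of `GB`,
`KN N - k = (KN N - (k+1)) + 1`), `BD p Φ (4 r / p)` for the primes of the block (`BD_FC` of `N2/ConcC.lean` with `hm = N`,
`BD_GB`), sum of squares `≤ (4 r / 2^k)^2 * (4 * 2^k / k) = 64 r^2 / (k 2^k)` (`length_DL`), `mcd`.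
`|u n| ≤ 1` for the weight of `FF`: `abs_prodSeq`.
-/

open Filter Topology

namespace Pool.Agent.Lib.P4a7640B

open Pool.Agent.Lib.P4a7640 Pool.Agent.Lib.P4a7640N Pool.Agent.Lib.P4a7640Ces Pool.Agent.Lib.P4a7640N2

/-- the bounded difference of `FF` in the coordinate `p` -/
lemma one_BD_FF {W : Finset ℕ → ℕ → ℝ} (hW : ∀ H n, |W H n| ≤ 1) (g : SS) {r N p : ℕ}
    (hN : 1 ≤ N) {H : Finset ℕ} (D : Finset ℕ) (hH : H ⊆ Finset.range (N + 1)) (hc : H.card = r)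
    (hp : p.Prime) : BD p (FF W g H D N) (4 * (r : ℝ) / p) := by
  have hu : ∀ n, |W H n * prodSeq (rnd g) H n * prodSeq (rnd (sD D)) H n| ≤ 1 := by
    intro n
    rw [abs_mul, abs_mul, abs_prodSeq, abs_prodSeq, mul_one, mul_one]
    exact hW H n
  have hH' : ∀ h ∈ H, h ≤ N := by
    intro h hh
    have := Finset.mem_range.mp (hH hh)
    omega
  have := BD_FC (p := p) hu hN (le_refl N) hH' hp
  rw [hc] at this
  exact this

/-- the sum of the squares of the bounded differences in one block -/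
lemma one_sum_sq (r : ℕ) {k : ℕ} (hk : 1 ≤ k) :
    ((DL (2 ^ k) (2 ^ (k + 1))).map fun p : ℕ => (4 * (r : ℝ) / p) ^ 2).sum ≤
      64 * (r : ℝ) ^ 2 / (k * 2 ^ k) := by
  have hk0 : (0 : ℝ) < k := by exact_mod_cast hk
  have h2 : (0 : ℝ) < 2 ^ k := by positivity
  have h1 : ((DL (2 ^ k) (2 ^ (k + 1))).map fun p : ℕ => (4 * (r : ℝ) / p) ^ 2).sum ≤
      ((DL (2 ^ k) (2 ^ (k + 1))).map fun _ : ℕ => (4 * (r : ℝ) / 2 ^ k) ^ 2).sum := by
    apply List.sum_le_sum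
    intro p hp
    have hp' := (mem_DL.mp hp).1
    have hpr : ((2 : ℝ) ^ k) ≤ p := by exact_mod_cast hp'.le
    have h3 : 4 * (r : ℝ) / p ≤ 4 * (r : ℝ) / 2 ^ k :=
      div_le_div_of_nonneg_left (by positivity) h2 hpr
    exact pow_le_pow_left₀ (by positivity) h3 2
  refine h1.trans ?_
  rw [List.map_const', List.sum_replicate, nsmul_eq_mul]
  have h4 := length_DL hk
  calc ((DL (2 ^ k) (2 ^ (k + 1))).length : ℝ) * (4 * (r : ℝ) / 2 ^ k) ^ 2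
      ≤ (4 * 2 ^ k / k) * (4 * (r : ℝ) / 2 ^ k) ^ 2 :=
        mul_le_mul_of_nonneg_right h4 (by positivity)
    _ = 64 * (r : ℝ) ^ 2 / (k * 2 ^ k) := by
        field_simp
        ring

theorem one_block {θ : ℕ → ℝ} (hθ0 : ∀ p, 0 ≤ θ p) (hθ1 : ∀ p, θ p ≤ 1) {W : Finset ℕ → ℕ → ℝ}
    (hW : ∀ H n, |W H n| ≤ 1) (g : SS) {r : ℕ} (hr : 0 < r) {N k : ℕ} (hN : 1 ≤ N) (hk : 1 ≤ k)
    (hkN : k < KN N) {H : Finset ℕ} (D : Finset ℕ) (hH : H ⊆ Finset.range (N + 1)) (hc : H.card = r)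
    {s : ℝ} (hs : 0 < s) (x : SS) :
    AVL θ (DL (2 ^ k) (2 ^ (k + 1))) (ind {y | s ≤ |GB θ (FF W g H D N) k (KN N - k) y -
        GB θ (FF W g H D N) (k + 1) (KN N - (k + 1)) y|}) x ≤
      2 * Real.exp (-(s ^ 2 * k * 2 ^ k / (128 * (r : ℝ) ^ 2))) := by
  have hk0 : (0 : ℝ) < k := by exact_mod_cast hk
  have hr0 : (0 : ℝ) < r := by exact_mod_cast hr
  have h2 : (0 : ℝ) < 2 ^ k := by positivity
  have hm : KN N - k = (KN N - (k + 1)) + 1 := by omega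
  set m := KN N - (k + 1) with hmdef
  set Φ : SS → ℝ := GB θ (FF W g H D N) (k + 1) m with hΦ
  have hGB : GB θ (FF W g H D N) k (KN N - k) = AVL θ (DL (2 ^ k) (2 ^ (k + 1))) Φ := by
    rw [hm]
    rfl
  have hBD : ∀ p ∈ DL (2 ^ k) (2 ^ (k + 1)), BD p Φ (4 * (r : ℝ) / p) := by
    intro p hp
    obtain ⟨_, hp2, hp3⟩ := mem_DL.mp hp
    exact BD_GB hθ0 hθ1 (one_BD_FF hW g hN D hH hc hp3) (k + 1) m hp2
  have hV0 : (0 : ℝ) < 64 * (r : ℝ) ^ 2 / (k * 2 ^ k) := by positivity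
  have key := mcd hθ0 hθ1 (c := fun p : ℕ => 4 * (r : ℝ) / p) (nodup_DL (2 ^ k) (2 ^ (k + 1)))
    (Φ := Φ) hBD (one_sum_sq r hk) hV0 hs x
  rw [hGB]
  have hset : {y : SS | s ≤ |AVL θ (DL (2 ^ k) (2 ^ (k + 1))) Φ y - Φ y|} =
      {y : SS | s ≤ |Φ y - AVL θ (DL (2 ^ k) (2 ^ (k + 1))) Φ y|} := by
    ext y
    simp only [Set.mem_setOf_eq]
    rw [abs_sub_comm]
  rw [hset]
  refine key.trans (le_of_eq ?_)
  congr 2
  rw [neg_inj]
  field_simp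
  ring

end Pool.Agent.Lib.P4a7640B
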