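import Mathlib
import Pool.Agent.Lib.P4a7640B.One

/-!
# The bad event of a block is super-exponentially rare, conditionally on every past

Union bound (`AVL_ind_biUnion` over a product finset) in `Bad`: `k0 J N ≤ k` gives `rt J N ≤ 2^k`, so
`N < (2^k + 1)^(2^J) ≤ 2^((k+1) 2^J) =: B` (`rt_lt_iff`); the number of `H ⊆ range (N+1)` with `card = r` is `≤ B^r`
(inject into functions / `Finset.powersetCard`: `card = choose ≤ (N+1)^r ≤ (B+1)^r`); `D ⊆ Icc 1 (rt (J+1) N)`,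
`rt (J+1) N = sqrt (rt J N) ≤ sqrt (2^k) ≤ 2^(k/2)` (real), so at most `2^(2^(k/2))` sets `D`. Each triple costs
`2 exp(-(t/(k+1))^2 k 2^k / (128 r^2)) ≤ 2 exp(-t^2 2^k / (512 r^2 k))` (`one_block`; `k^2 ≤ (k+1)^2 ≤ 4 k^2`).
Take `η = t^2 / (1024 r^2)`: for large `k`, `log 2 + (r+1)(k+2) 2^J log 2 + 2^(k/2) log 2 ≤ t^2 2^k / (1024 r^2 k)`
(`tendsto` of `2^(k/2) / k`). To keep the union finite replace the existence of N by `N ∈ Icc 1 B`.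
-/

open Filter Topology

namespace Pool.Agent.Lib.P4a7640B

open Pool.Agent.Lib.P4a7640 Pool.Agent.Lib.P4a7640N Pool.Agent.Lib.P4a7640Ces

namespace UniAux

/-- the bound for the scales of the block `k` -/
def Bk (J k : ℕ) : ℕ := 2 ^ ((k + 1) * 2 ^ J)

/-- the finite set of the scales, shifts and changes of the block `k` -/
def idx (r J k : ℕ) : Finset (ℕ × Finset ℕ × Finset ℕ) :=
  (Finset.range (Bk J k)) ×ˢ ((Finset.powersetCard r (Finset.range (Bk J k))) ×ˢ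
    (Finset.Icc 1 (Nat.sqrt (2 ^ k))).powerset)

lemma card_idx (r J k : ℕ) :
    (idx r J k).card ≤ 2 ^ ((r + 1) * ((k + 1) * 2 ^ J) + Nat.sqrt (2 ^ k)) := by
  unfold idx
  rw [Finset.card_product, Finset.card_product, Finset.card_range, Finset.card_powersetCard,
    Finset.card_powerset, Finset.card_range, Nat.card_Icc, Nat.add_sub_cancel]
  have h1 : (Bk J k).choose r ≤ Bk J k ^ r := Nat.choose_le_pow _ _
  calc Bk J k * ((Bk J k).choose r * 2 ^ Nat.sqrt (2 ^ k))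
      ≤ Bk J k * (Bk J k ^ r * 2 ^ Nat.sqrt (2 ^ k)) := by gcongr
    _ = 2 ^ ((r + 1) * ((k + 1) * 2 ^ J) + Nat.sqrt (2 ^ k)) := by
      unfold Bk
      rw [← pow_mul, ← mul_assoc, ← pow_add, ← pow_add]
      congr 1
      ring

lemma lt_Bk {J k N : ℕ} (h : k0 J N ≤ k) : N < Bk J k := by
  have h1 : rt J N ≤ 2 ^ k0 J N := Nat.le_pow_clog one_lt_two _
  have h2 : rt J N < 2 ^ k + 1 :=
    Nat.lt_succ_of_le (h1.trans (Nat.pow_le_pow_right (by norm_num) h))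
  have h3 : N < (2 ^ k + 1) ^ (2 ^ J) := (rt_lt_iff J N _).mp h2
  have h4 : 2 ^ k + 1 ≤ 2 ^ (k + 1) := by
    rw [pow_succ]
    have : 1 ≤ 2 ^ k := Nat.one_le_two_pow
    omega
  refine h3.trans_le ?_
  unfold Bk
  rw [pow_mul]
  exact Nat.pow_le_pow_left h4 _

lemma rt_le_sqrt {J k N : ℕ} (h : k0 J N ≤ k) : rt (J + 1) N ≤ Nat.sqrt (2 ^ k) := by
  have h1 : rt J N ≤ 2 ^ k0 J N := Nat.le_pow_clog one_lt_two _
  rw [rt_succ]
  exact Nat.sqrt_le_sqrt (h1.trans (Nat.pow_le_pow_right (by norm_num) h))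

/-- the exponents for large `k` -/
lemma large (r J : ℕ) {η : ℝ} (hη : 0 < η) : ∀ᶠ k : ℕ in atTop,
    ((((r + 1) * ((k + 1) * 2 ^ J) + Nat.sqrt (2 ^ k) : ℕ) : ℝ) + 1) ≤ η * 2 ^ k / k := by
  have hs2 : 1 < Real.sqrt 2 := by
    rw [Real.lt_sqrt (by norm_num)]
    norm_num
  obtain ⟨a, ha⟩ : ∃ a : ℝ, a = ((r : ℝ) + 1) * 2 ^ J := ⟨_, rfl⟩
  have h1 : Tendsto (fun k : ℕ => (k : ℝ) ^ 2 / 2 ^ k) atTop (𝓝 0) :=
    tendsto_pow_const_div_const_pow_of_one_lt 2 (by norm_num)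
  have h2 : Tendsto (fun k : ℕ => (k : ℝ) ^ 1 / 2 ^ k) atTop (𝓝 0) :=
    tendsto_pow_const_div_const_pow_of_one_lt 1 (by norm_num)
  have h3 : Tendsto (fun k : ℕ => (k : ℝ) ^ 1 / Real.sqrt 2 ^ k) atTop (𝓝 0) :=
    tendsto_pow_const_div_const_pow_of_one_lt 1 hs2
  have h4 : Tendsto (fun k : ℕ => a * ((k : ℝ) ^ 2 / 2 ^ k) + (a + 1) * ((k : ℝ) ^ 1 / 2 ^ k) +
      (k : ℝ) ^ 1 / Real.sqrt 2 ^ k) atTop (𝓝 (a * 0 + (a + 1) * 0 + 0)) :=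
    ((h1.const_mul a).add (h2.const_mul (a + 1))).add h3
  rw [mul_zero, mul_zero, add_zero, add_zero] at h4
  filter_upwards [h4.eventually_lt_const hη, eventually_ge_atTop 1] with k hk hk1
  have hk0 : (0 : ℝ) < k := by exact_mod_cast hk1
  have hp : (0 : ℝ) < 2 ^ k := by positivity
  have hq : (0 : ℝ) < Real.sqrt 2 ^ k := by positivity
  have hpq : (2 : ℝ) ^ k = Real.sqrt 2 ^ k * Real.sqrt 2 ^ k := by
    rw [← mul_pow, Real.mul_self_sqrt (by norm_num)]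
  have h5 : ((Nat.sqrt (2 ^ k) : ℕ) : ℝ) ≤ Real.sqrt 2 ^ k := by
    have h6 : ((Nat.sqrt (2 ^ k) : ℕ) : ℝ) ≤ Real.sqrt ((2 ^ k : ℕ) : ℝ) := Real.nat_sqrt_le_real_sqrt
    refine h6.trans (le_of_eq ?_)
    push_cast
    rw [hpq, Real.sqrt_mul_self hq.le]
  rw [le_div_iff₀ hk0]
  push_cast
  have h7 : a * (k : ℝ) ^ 2 + (a + 1) * k + k * Real.sqrt 2 ^ k ≤ η * 2 ^ k := by
    have h8 := (mul_lt_mul_of_pos_right hk hp).le
    have h9 : (a * ((k : ℝ) ^ 2 / 2 ^ k) + (a + 1) * ((k : ℝ) ^ 1 / 2 ^ k) +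
        (k : ℝ) ^ 1 / Real.sqrt 2 ^ k) * 2 ^ k =
        a * (k : ℝ) ^ 2 + (a + 1) * k + k * Real.sqrt 2 ^ k := by
      have e1 : (k : ℝ) ^ 1 / Real.sqrt 2 ^ k * 2 ^ k = k * Real.sqrt 2 ^ k := by
        rw [hpq, pow_one]
        field_simp
      rw [add_mul, e1, add_mul]
      field_simp
    rw [h9] at h8
    exact h8
  have h10 : (((r : ℝ) + 1) * (((k : ℝ) + 1) * 2 ^ J) + (Nat.sqrt (2 ^ k) : ℕ) + 1) * k ≤
      a * (k : ℝ) ^ 2 + (a + 1) * k + k * Real.sqrt 2 ^ k := by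
    have h11 := mul_le_mul_of_nonneg_right h5 hk0.le
    rw [ha]
    nlinarith [h11]
  exact h10.trans h7

lemma expo {r k : ℕ} (hr : 0 < r) (hk : 1 ≤ k) {t : ℝ} (ht : 0 < t) :
    2 * (t ^ 2 / (1024 * (r : ℝ) ^ 2) * 2 ^ k / k) ≤
      (t / ((k : ℝ) + 1)) ^ 2 * k * 2 ^ k / (128 * (r : ℝ) ^ 2) := by
  have hk0 : (1 : ℝ) ≤ k := by exact_mod_cast hk
  have hk1 : (0 : ℝ) < k := by linarith
  have hr0 : (0 : ℝ) < r := by exact_mod_cast hr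
  have h1 : ((k : ℝ) + 1) ^ 2 ≤ 4 * (k : ℝ) ^ 2 := by nlinarith
  have e1 : 2 * (t ^ 2 / (1024 * (r : ℝ) ^ 2) * 2 ^ k / k) =
      (t ^ 2 * 2 ^ k * k / (128 * (r : ℝ) ^ 2)) * (1 / (4 * (k : ℝ) ^ 2)) := by
    field_simp
    ring
  have e2 : (t / ((k : ℝ) + 1)) ^ 2 * k * 2 ^ k / (128 * (r : ℝ) ^ 2) =
      (t ^ 2 * 2 ^ k * k / (128 * (r : ℝ) ^ 2)) * (1 / ((k : ℝ) + 1) ^ 2) := by
    field_simp
  rw [e1, e2]
  refine mul_le_mul_of_nonneg_left ?_ (by positivity)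
  exact one_div_le_one_div_of_le (by positivity) h1

end UniAux

open UniAux

theorem uni {r : ℕ} (hr : 0 < r) (J : ℕ) {t : ℝ} (ht : 0 < t) : ∃ η : ℝ, 0 < η ∧
    ∀ᶠ k : ℕ in atTop, ∀ θ : ℕ → ℝ, (∀ p, 0 ≤ θ p) → (∀ p, θ p ≤ 1) → ∀ W : Finset ℕ → ℕ → ℝ,
      (∀ H n, |W H n| ≤ 1) → ∀ g x : SS,
      AVL θ (DL (2 ^ k) (2 ^ (k + 1))) (ind (Bad θ W g r J t k)) x ≤ Real.exp (-(η * 2 ^ k / k)) := by
  have hr0 : (0 : ℝ) < r := by exact_mod_cast hr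
  obtain ⟨η, hη⟩ : ∃ η : ℝ, η = t ^ 2 / (1024 * (r : ℝ) ^ 2) := ⟨_, rfl⟩
  have hη0 : 0 < η := by
    rw [hη]
    positivity
  refine ⟨η, hη0, ?_⟩
  filter_upwards [large r J hη0, eventually_ge_atTop 1] with k hk hk1
  intro θ hθ0 hθ1 W hW g x
  classical
  obtain ⟨E, hE⟩ : ∃ E : ℕ × Finset ℕ × Finset ℕ → Set SS, E = fun i =>
      {y | t / ((k : ℝ) + 1) ≤ |GB θ (FF W g i.2.1 i.2.2 i.1) k (KN i.1 - k) y -
        GB θ (FF W g i.2.1 i.2.2 i.1) (k + 1) (KN i.1 - (k + 1)) y|} := ⟨_, rfl⟩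
  obtain ⟨s, hs⟩ : ∃ s : Finset (ℕ × Finset ℕ × Finset ℕ), s = (idx r J k).filter fun i =>
      1 ≤ i.1 ∧ k < KN i.1 ∧ i.2.1 ⊆ Finset.range (i.1 + 1) := ⟨_, rfl⟩
  have hsub : Bad θ W g r J t k ⊆ ⋃ i ∈ s, E i := by
    rintro y ⟨N, hN1, hN2, hN3, H, hH1, hH2, D, hD1, hy⟩
    rw [Set.mem_iUnion₂]
    refine ⟨(N, H, D), ?_, ?_⟩
    · rw [hs, Finset.mem_filter]
      refine ⟨?_, hN1, hN3, hH1⟩
      unfold idx
      rw [Finset.mem_product, Finset.mem_product, Finset.mem_range, Finset.mem_powersetCard,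
        Finset.mem_powerset]
      have hlt := lt_Bk hN2
      refine ⟨hlt, ⟨hH1.trans ?_, hH2⟩, hD1.trans ?_⟩
      · intro a ha
        rw [Finset.mem_range] at ha ⊢
        omega
      · exact Finset.Icc_subset_Icc_right (rt_le_sqrt hN2)
    · rw [hE]
      exact hy
  have hX : 0 < t / ((k : ℝ) + 1) := by positivity
  have hone : ∀ i ∈ s, AVL θ (DL (2 ^ k) (2 ^ (k + 1))) (ind (E i)) x ≤
      2 * Real.exp (-((t / ((k : ℝ) + 1)) ^ 2 * k * 2 ^ k / (128 * (r : ℝ) ^ 2))) := by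
    intro i hi
    rw [hs, Finset.mem_filter] at hi
    obtain ⟨hi0, hi1, hi2, hi3⟩ := hi
    unfold idx at hi0
    rw [Finset.mem_product, Finset.mem_product, Finset.mem_powersetCard] at hi0
    rw [hE]
    exact one_block hθ0 hθ1 hW g hr hi1 hk1 hi2 i.2.2 hi3 hi0.2.1.2 hX x
  have hcard : (s.card : ℝ) ≤
      2 ^ ((r + 1) * ((k + 1) * 2 ^ J) + Nat.sqrt (2 ^ k)) := by
    have h1 : s.card ≤ 2 ^ ((r + 1) * ((k + 1) * 2 ^ J) + Nat.sqrt (2 ^ k)) := by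
      rw [hs]
      exact (Finset.card_filter_le _ _).trans (card_idx r J k)
    exact_mod_cast h1
  obtain ⟨M, hM⟩ : ∃ M : ℕ, M = (r + 1) * ((k + 1) * 2 ^ J) + Nat.sqrt (2 ^ k) := ⟨_, rfl⟩
  rw [← hM] at hcard hk
  have h2M : (2 : ℝ) ^ M * 2 ≤ Real.exp ((M : ℝ) + 1) := by
    have h2 : (2 : ℝ) ≤ Real.exp 1 := by
      have := Real.add_one_le_exp (1 : ℝ)
      linarith
    rw [← pow_succ, ← Nat.cast_succ, ← Real.exp_one_pow]
    exact pow_le_pow_left₀ (by norm_num) h2 _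
  have hexpo := expo hr hk1 ht
  rw [← hη] at hexpo
  calc AVL θ (DL (2 ^ k) (2 ^ (k + 1))) (ind (Bad θ W g r J t k)) x
      ≤ AVL θ (DL (2 ^ k) (2 ^ (k + 1))) (ind (⋃ i ∈ s, E i)) x :=
        AVL_ind_mono hθ0 hθ1 _ hsub x
    _ ≤ ∑ i ∈ s, AVL θ (DL (2 ^ k) (2 ^ (k + 1))) (ind (E i)) x :=
        AVL_ind_biUnion hθ0 hθ1 _ s E x
    _ ≤ ∑ _i ∈ s, 2 * Real.exp (-((t / ((k : ℝ) + 1)) ^ 2 * k * 2 ^ k /
          (128 * (r : ℝ) ^ 2))) := Finset.sum_le_sum hone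
    _ = s.card * (2 * Real.exp (-((t / ((k : ℝ) + 1)) ^ 2 * k * 2 ^ k /
          (128 * (r : ℝ) ^ 2)))) := by rw [Finset.sum_const, nsmul_eq_mul]
    _ ≤ 2 ^ M * (2 * Real.exp (-(2 * (η * 2 ^ k / k)))) := by
        gcongr
    _ = (2 ^ M * 2) * Real.exp (-(2 * (η * 2 ^ k / k))) := by ring
    _ ≤ Real.exp ((M : ℝ) + 1) * Real.exp (-(2 * (η * 2 ^ k / k))) := by gcongr
    _ = Real.exp (((M : ℝ) + 1) + -(2 * (η * 2 ^ k / k))) := (Real.exp_add _ _).symm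
    _ ≤ Real.exp (-(η * 2 ^ k / k)) := by
        apply Real.exp_le_exp.mpr
        linarith

/-- `DepOn_GB`, `DepOn_FF`, `le_two_pow_KN`: both averages in `Bad` depend on the primes `≤ 2^(k+1)` -/
theorem DepOn_Bad (θ : ℕ → ℝ) (W : Finset ℕ → ℕ → ℝ) (g : SS) (r J : ℕ) (t : ℝ) (k : ℕ) :
    DepOn (2 ^ (k + 1)) (ind (Bad θ W g r J t k)) := by
  have key : ∀ x y : SS, (∀ p : ℕ, p.Prime → p ≤ 2 ^ (k + 1) → x p = y p) →
      x ∈ Bad θ W g r J t k → y ∈ Bad θ W g r J t k := by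
    rintro x y hxy ⟨N, hN1, hN2, hN3, H, hH1, hH2, D, hD1, hx⟩
    refine ⟨N, hN1, hN2, hN3, H, hH1, hH2, D, hD1, ?_⟩
    have h1 : DepOn (2 ^ (k + (KN N - k))) (FF W g H D N) := by
      apply DepOn_FF W g D hH1
      rw [Nat.add_sub_cancel' hN3.le]
      exact le_two_pow_KN N
    have h2 : DepOn (2 ^ (k + 1 + (KN N - (k + 1)))) (FF W g H D N) := by
      apply DepOn_FF W g D hH1
      rw [Nat.add_sub_cancel' hN3]
      exact le_two_pow_KN N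
    have e1 := DepOn_GB (θ := θ) h1 x y fun p hp hpk =>
      hxy p hp (hpk.trans (Nat.pow_le_pow_right (by norm_num) (Nat.le_succ k)))
    have e2 := DepOn_GB (θ := θ) h2 x y hxy
    rw [← e1, ← e2]
    exact hx
  intro x y hxy
  by_cases hx : x ∈ Bad θ W g r J t k
  · rw [ind_of_mem hx, ind_of_mem (key x y hxy hx)]
  · have hy : y ∉ Bad θ W g r J t k := fun hy =>
      hx (key y x (fun p hp hpk => (hxy p hp hpk).symm) hy)
    rw [ind_of_notMem hx, ind_of_notMem hy]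

end Pool.Agent.Lib.P4a7640B
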