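import Mathlib
import Pool.Agent.Lib.P4a7640B.Uni
import Pool.Agent.Lib.P4a7640B.MeanU
import Pool.Agent.Lib.P4a7640B.CmpU

/-!
# The deterministic core

`meanU` with `ε / 4` gives `J`; put `t = ε / 2^(J+5)`. If `x ∉ Bad θ W g r J t k` for all `k ≥ k₁` and `N` is so large that
`k0 J N ≥ max k₁ 1`, then for `H ⊆ range (N+1)`, `card = r` and `D = DS y (g x) (rt (J+1) N) ⊆ Icc 1 (rt (J+1) N)`:
`telescope` with `k = k0 J N`, `d = KN N - k0 J N`: each term is `< t / (k+1)`, and `∑_{k0 ≤ k < KN} 1/(k+1) ≤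
(KN - k0) / (k0 + 1) ≤ 2^(J+2)` for large `N`: `N < (rt J N + 1)^(2^J) ≤ 2^((k0+1) 2^J)`, so `KN ≤ (k0+1) 2^J + 2`.
Hence `|FF - GB k0| ≤ ε / 8`, `|GB k0| ≤ ε / 4`, and `compareU` with `T = rt (J+1) N` and `slow_U` (`δ = ε / (16 r)`).
-/

open Filter Topology

namespace Pool.Agent.Lib.P4a7640B

open Pool.Agent.Lib.P4a7640 Pool.Agent.Lib.P4a7640N Pool.Agent.Lib.P4a7640Ces Pool.Agent.Lib.P4a7640N2

lemma core_KN_le (J N : ℕ) : KN N - k0 J N ≤ (k0 J N + 1) * 2 ^ (J + 1) := by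
  have h1 : rt J N ≤ 2 ^ k0 J N := Nat.le_pow_clog (by norm_num) _
  have h2 : N < (rt J N + 1) ^ (2 ^ J) := (rt_lt_iff J N (rt J N + 1)).1 (Nat.lt_succ_self _)
  have h3 : rt J N + 1 ≤ 2 ^ (k0 J N + 1) := by
    rw [pow_succ]
    have := Nat.one_le_two_pow (n := k0 J N)
    omega
  have h4 : N < 2 ^ ((k0 J N + 1) * 2 ^ J) := by
    rw [pow_mul]
    exact lt_of_lt_of_le h2 (Nat.pow_le_pow_left h3 _)
  have h5 : 2 * N ≤ 2 ^ ((k0 J N + 1) * 2 ^ J + 1) := by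
    rw [pow_succ]
    omega
  have h6 : KN N ≤ (k0 J N + 1) * 2 ^ J + 1 := Nat.clog_le_of_le_pow h5
  have h7 : (k0 J N + 1) * 2 ^ (J + 1) = (k0 J N + 1) * 2 ^ J + (k0 J N + 1) * 2 ^ J := by
    rw [pow_succ]; ring
  have h8 : 1 ≤ (k0 J N + 1) * 2 ^ J :=
    Nat.mul_pos (Nat.succ_pos _) (Nat.pow_pos (by norm_num))
  omega

lemma core_tendsto_k0 (J : ℕ) : Tendsto (k0 J) atTop atTop := by
  refine tendsto_atTop.2 fun b => ?_
  filter_upwards [(tendsto_rt J).eventually_ge_atTop (2 ^ b)] with N hN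
  have h1 : rt J N ≤ 2 ^ k0 J N := Nat.le_pow_clog (by norm_num) _
  exact (Nat.pow_le_pow_iff_right (by norm_num : 1 < 2)).1 (hN.trans h1)

lemma core_tele {θ : ℕ → ℝ} {W : Finset ℕ → ℕ → ℝ} {g x : SS} {r J : ℕ} {t : ℝ} (ht : 0 < t)
    {N : ℕ} (hN : 1 ≤ N) (hx : ∀ k, k0 J N ≤ k → x ∉ Bad θ W g r J t k) {H D : Finset ℕ}
    (hH : H ⊆ Finset.range (N + 1)) (hc : H.card = r) (hD : D ⊆ Finset.Icc 1 (rt (J + 1) N)) :
    |FF W g H D N x - GB θ (FF W g H D N) (k0 J N) (KN N - k0 J N) x| ≤ t * 2 ^ (J + 1) := by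
  refine (telescope θ (FF W g H D N) x (k0 J N) (KN N - k0 J N)).trans ?_
  have h1 : ∀ i ∈ Finset.range (KN N - k0 J N),
      |GB θ (FF W g H D N) (k0 J N + i) (KN N - k0 J N - i) x -
        GB θ (FF W g H D N) (k0 J N + i + 1) (KN N - k0 J N - (i + 1)) x| ≤
      t / ((k0 J N : ℝ) + 1) := by
    intro i hi
    rw [Finset.mem_range] at hi
    have e1 : KN N - k0 J N - i = KN N - (k0 J N + i) := by omega
    have e2 : KN N - k0 J N - (i + 1) = KN N - (k0 J N + i + 1) := by omega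
    rw [e1, e2]
    have h2 := hx (k0 J N + i) (Nat.le_add_right _ _)
    have h3 : |GB θ (FF W g H D N) (k0 J N + i) (KN N - (k0 J N + i)) x -
        GB θ (FF W g H D N) (k0 J N + i + 1) (KN N - (k0 J N + i + 1)) x| <
        t / (((k0 J N + i : ℕ) : ℝ) + 1) := by
      by_contra hcon
      rw [not_lt] at hcon
      exact h2 ⟨N, hN, Nat.le_add_right _ _, by omega, H, hH, hc, D, hD, hcon⟩
    refine h3.le.trans (div_le_div_of_nonneg_left ht.le (by positivity) ?_)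
    push_cast
    linarith [(Nat.cast_nonneg i : (0 : ℝ) ≤ i)]
  refine (Finset.sum_le_sum h1).trans ?_
  rw [Finset.sum_const, Finset.card_range, nsmul_eq_mul]
  have h4 : ((KN N - k0 J N : ℕ) : ℝ) ≤ ((k0 J N : ℝ) + 1) * 2 ^ (J + 1) := by
    exact_mod_cast core_KN_le J N
  have h5 : (0 : ℝ) < (k0 J N : ℝ) + 1 := by positivity
  rw [mul_div_assoc', div_le_iff₀ h5]
  calc ((KN N - k0 J N : ℕ) : ℝ) * t ≤ (((k0 J N : ℝ) + 1) * 2 ^ (J + 1)) * t :=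
        mul_le_mul_of_nonneg_right h4 ht.le
    _ = t * 2 ^ (J + 1) * ((k0 J N : ℝ) + 1) := by ring

theorem core {θ : ℕ → ℝ} (hθ0 : ∀ p, 0 ≤ θ p) (hθ1 : ∀ p, θ p ≤ 1) {i : ℕ} {c : ℝ} (hc : 0 < c)
    (hi : ∀ᶠ N : ℕ in atTop, c ≤ MS (fun p => min (θ p) (1 - θ p)) (rt i N) N) {r : ℕ} (hr : 0 < r)
    {ε : ℝ} (hε : 0 < ε) : ∃ (J : ℕ) (t : ℝ), 0 < t ∧ ∀ W : Finset ℕ → ℕ → ℝ, (∀ H n, |W H n| ≤ 1) →
      ∀ g x y : SS, SlowTo y (fun p => g p * x p) → (∀ᶠ k : ℕ in atTop, x ∉ Bad θ W g r J t k) →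
      ∀ᶠ N : ℕ in atTop, ∀ H : Finset ℕ, H ⊆ Finset.range (N + 1) → H.card = r →
        |∑ n ∈ Finset.Icc 1 N, W H n * prodSeq (rnd y) H n| ≤ ε * N := by
  obtain ⟨J, hJ⟩ := meanU hr (ε := ε / 4) (by positivity) hθ0 hθ1 hc hi
  refine ⟨J, ε / 2 ^ (J + 5), by positivity, ?_⟩
  intro W hW g x y hy hx
  have hr' : (0 : ℝ) < r := by exact_mod_cast hr
  obtain ⟨k₁, hk₁⟩ := eventually_atTop.1 hx
  filter_upwards [hJ, eventually_ge_atTop 1, (core_tendsto_k0 J).eventually_ge_atTop k₁,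
    slow_U hy (J + 1) (δ := ε / (16 * r)) (by positivity)] with N hJN hN hkN hES H hH hcard
  have hN' : (0 : ℝ) < N := by exact_mod_cast hN
  have hD : DS y (fun p => g p * x p) (rt (J + 1) N) ⊆ Finset.Icc 1 (rt (J + 1) N) :=
    Finset.filter_subset _ _
  have h1 := core_tele (θ := θ) (W := W) (g := g) (x := x) (t := ε / 2 ^ (J + 5)) (by positivity) hN
    (fun k hk => hk₁ k (hkN.trans hk)) hH hcard hD
  have h2 := hJN W hW g x H (DS y (fun p => g p * x p) (rt (J + 1) N)) hH hcard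
  have h3 := compareU y g x hW (rt (J + 1) N) hH hN
  have h4 : 4 * (H.card : ℝ) * ES y (fun p => g p * x p) (rt (J + 1) N) (2 * N) ≤ ε / 4 := by
    rw [hcard]
    calc 4 * (r : ℝ) * ES y (fun p => g p * x p) (rt (J + 1) N) (2 * N) ≤
        4 * (r : ℝ) * (ε / (16 * r)) := mul_le_mul_of_nonneg_left hES (by positivity)
      _ = ε / 4 := by field_simp; ring
  have h5 : ε / 2 ^ (J + 5) * 2 ^ (J + 1) = ε / 16 := by
    rw [show J + 5 = (J + 1) + 4 by ring, pow_add]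
    field_simp
    norm_num
  rw [h5] at h1
  set A := (∑ n ∈ Finset.Icc 1 N, W H n * prodSeq (rnd y) H n) with hA
  have h6 : |A / (N : ℝ)| ≤ ε := by
    rw [abs_le] at h1 h2 h3 ⊢
    constructor <;> linarith [h1.1, h1.2, h2.1, h2.2, h3.1, h3.2]
  rw [abs_div, abs_of_pos hN', div_le_iff₀ hN'] at h6
  exact h6

end Pool.Agent.Lib.P4a7640B
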