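import Mathlib
import Pool.Agent.Lib.P4a7640B.Par

/-!
# Families of weights
-/

open Filter Topology

namespace Pool.Agent.Lib.P4a7640B

open Pool.Agent.Lib.P4a7640 Pool.Agent.Lib.P4a7640N Pool.Agent.Lib.P4a7640Ces

/-- the bad event of the block `k` for a family of `A N` weights at the scale `N` -/
def BadF (θ : ℕ → ℝ) (A : ℕ → ℕ) (W : ℕ → ℕ → Finset ℕ → ℕ → ℝ) (g : SS) (r J : ℕ) (t : ℝ)
    (k : ℕ) : Set SS :=
  {x | ∃ N : ℕ, 1 ≤ N ∧ k0 J N ≤ k ∧ k < KN N ∧ ∃ a : ℕ, a < A N ∧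
    ∃ H : Finset ℕ, H ⊆ Finset.range (N + 1) ∧ H.card = r ∧
    ∃ D : Finset ℕ, D ⊆ Finset.Icc 1 (rt (J + 1) N) ∧
      t / ((k : ℝ) + 1) ≤ |GB θ (FF (W N a) g H D N) k (KN N - k) x -
        GB θ (FF (W N a) g H D N) (k + 1) (KN N - (k + 1)) x|}

/-- at most `exp (N ^ o(1))` weights at the scale `N` -/
def SubExp (A : ℕ → ℕ) : Prop :=
  ∀ δ : ℝ, 0 < δ → ∀ᶠ N : ℕ in atTop, (A N : ℝ) ≤ Real.exp ((N : ℝ) ^ δ)

/-- for infinitely many `N`, some correlation of `f` of order `r` over `n ≤ N`, with shifts up to `N` and the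
weight `1` or one of the weights `w N a`, `a < A N`, is greater than `ε` in absolute value -/
def Dev (A : ℕ → ℕ) (w : ℕ → ℕ → ℕ → ℝ) (r : ℕ) (ε : ℝ) (f : ℕ → ℤˣ) : Prop :=
  ∃ᶠ N : ℕ in atTop, ∃ H : Finset ℕ, H ⊆ Finset.range (N + 1) ∧ H.card = r ∧
    ∃ v : ℕ → ℝ, (v = (fun _ => 1) ∨ ∃ a < A N, v = w N a) ∧
      ε * N < |∑ n ∈ Finset.Icc 1 N, v n * ∏ h ∈ H, ((f (n + h) : ℤ) : ℝ)|

/-- `f` satisfies Chowla's conjecture in ordinary averages, uniformly in all shifts up to `N` and in the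
weights `1` and `w N a`, `a < A N`; it is aperiodic, and the `(1/2, 1/2)` Bernoulli shift is its unique
Furstenberg system -/
def Good (A : ℕ → ℕ) (w : ℕ → ℕ → ℕ → ℝ) (f : ℕ → ℤˣ) : Prop :=
  (∀ (r : ℕ) (ε : ℝ), 0 < r → 0 < ε → ¬ Dev A w r ε f) ∧ Aperiodic f ∧ FairSystem f

end Pool.Agent.Lib.P4a7640B
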