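import Mathlib
import Pool.Agent.Lib.P4a7640B.ParF
import Pool.Agent.Lib.P4a7640B.Uni

/-!
# The bad events for families of weights
-/

open Filter Topology

namespace Pool.Agent.Lib.P4a7640B

open Pool.Agent.Lib.P4a7640 Pool.Agent.Lib.P4a7640N Pool.Agent.Lib.P4a7640Ces

open UniAux

/-- the bound for the logarithm of the number of weights -/
lemma uniF_family (J : ℕ) {A : ℕ → ℕ} (hA : SubExp A) : ∀ᶠ k : ℕ in atTop, ∀ N : ℕ,
    k0 J N ≤ k → k < KN N → (A N : ℝ) ≤ Real.exp (Real.sqrt 2 ^ k) := by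
  have hδ : (0 : ℝ) < 1 / 2 ^ (J + 2) := by positivity
  obtain ⟨N₀, hN₀⟩ := eventually_atTop.1 (hA _ hδ)
  obtain ⟨k₁, hk₁⟩ := pow_unbounded_of_one_lt N₀ (one_lt_two : (1 : ℕ) < 2)
  filter_upwards [eventually_ge_atTop (k₁ + 1), eventually_ge_atTop 1] with k hk hk1 N hN1 hN2
  have h1 : 2 ^ k < 2 * N := Nat.lt_clog_iff_pow_lt (by norm_num) |>.1 hN2
  have h2 : N₀ ≤ N := by
    have h3 : 2 ^ (k₁ + 1) ≤ 2 ^ k := Nat.pow_le_pow_right (by norm_num) hk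
    rw [pow_succ] at h3
    omega
  have h4 := hN₀ N h2
  refine h4.trans (Real.exp_le_exp.mpr ?_)
  have h5 : N < Bk J k := lt_Bk hN1
  have h6 : (N : ℝ) ≤ 2 ^ ((k + 1) * 2 ^ J) := by
    have : (N : ℝ) ≤ ((2 ^ ((k + 1) * 2 ^ J) : ℕ) : ℝ) := by exact_mod_cast h5.le
    push_cast at this
    exact this
  have hs0 : (0 : ℝ) ≤ Real.sqrt 2 := Real.sqrt_nonneg _
  have h7 : ((2 : ℝ) ^ ((k + 1) * 2 ^ J)) ^ ((1 : ℝ) / 2 ^ (J + 2)) =
      (2 : ℝ) ^ (((k : ℝ) + 1) / 4) := by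
    rw [← Real.rpow_natCast, ← Real.rpow_mul (by norm_num)]
    congr 1
    push_cast
    rw [pow_add]
    field_simp
    norm_num
  have h8 : Real.sqrt 2 ^ k = (2 : ℝ) ^ ((k : ℝ) / 2) := by
    rw [Real.sqrt_eq_rpow, ← Real.rpow_natCast, ← Real.rpow_mul (by norm_num)]
    congr 1
    ring
  rw [h8]
  calc (N : ℝ) ^ ((1 : ℝ) / 2 ^ (J + 2)) ≤
      ((2 : ℝ) ^ ((k + 1) * 2 ^ J)) ^ ((1 : ℝ) / 2 ^ (J + 2)) :=
        Real.rpow_le_rpow (Nat.cast_nonneg N) h6 hδ.le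
    _ = (2 : ℝ) ^ (((k : ℝ) + 1) / 4) := h7
    _ ≤ (2 : ℝ) ^ ((k : ℝ) / 2) := by
        apply Real.rpow_le_rpow_of_exponent_le (by norm_num)
        have : (1 : ℝ) ≤ k := by exact_mod_cast hk1
        linarith

/-- the exponents for large `k` -/
lemma uniF_large {η : ℝ} (hη : 0 < η) : ∀ᶠ k : ℕ in atTop, Real.sqrt 2 ^ k ≤ η * 2 ^ k / k := by
  have hs2 : 1 < Real.sqrt 2 := by
    rw [Real.lt_sqrt (by norm_num)]
    norm_num
  have h3 : Tendsto (fun k : ℕ => (k : ℝ) ^ 1 / Real.sqrt 2 ^ k) atTop (𝓝 0) :=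
    tendsto_pow_const_div_const_pow_of_one_lt 1 hs2
  filter_upwards [h3.eventually_lt_const hη, eventually_ge_atTop 1] with k hk hk1
  have hk0 : (0 : ℝ) < k := by exact_mod_cast hk1
  have hq : (0 : ℝ) < Real.sqrt 2 ^ k := by positivity
  have hpq : (2 : ℝ) ^ k = Real.sqrt 2 ^ k * Real.sqrt 2 ^ k := by
    rw [← mul_pow, Real.mul_self_sqrt (by norm_num)]
  rw [pow_one, div_lt_iff₀ hq] at hk
  rw [le_div_iff₀ hk0, hpq]
  nlinarith

theorem uniF {r : ℕ} (hr : 0 < r) (J : ℕ) {t : ℝ} (ht : 0 < t) {A : ℕ → ℕ} (hA : SubExp A) :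
    ∃ η : ℝ, 0 < η ∧ ∀ᶠ k : ℕ in atTop, ∀ θ : ℕ → ℝ, (∀ p, 0 ≤ θ p) → (∀ p, θ p ≤ 1) →
      ∀ W : ℕ → ℕ → Finset ℕ → ℕ → ℝ, (∀ N a H n, |W N a H n| ≤ 1) → ∀ g x : SS,
      AVL θ (DL (2 ^ k) (2 ^ (k + 1))) (ind (BadF θ A W g r J t k)) x ≤
        Real.exp (-(η * 2 ^ k / k)) := by
  have hr0 : (0 : ℝ) < r := by exact_mod_cast hr
  obtain ⟨η, hη⟩ : ∃ η : ℝ, η = t ^ 2 / (1024 * (r : ℝ) ^ 2) := ⟨_, rfl⟩
  have hη0 : 0 < η := by
    rw [hη]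
    positivity
  refine ⟨η / 2, by positivity, ?_⟩
  filter_upwards [large r J hη0, eventually_ge_atTop 1, uniF_family J hA,
    uniF_large (η := η / 2) (by positivity)] with k hk hk1 hfam hlar
  intro θ hθ0 hθ1 W hW g x
  classical
  obtain ⟨E, hE⟩ : ∃ E : (ℕ × Finset ℕ × Finset ℕ) × ℕ → Set SS, E = fun i =>
      {y | t / ((k : ℝ) + 1) ≤ |GB θ (FF (W i.1.1 i.2) g i.1.2.1 i.1.2.2 i.1.1) k (KN i.1.1 - k) y -
        GB θ (FF (W i.1.1 i.2) g i.1.2.1 i.1.2.2 i.1.1) (k + 1) (KN i.1.1 - (k + 1)) y|} := ⟨_, rfl⟩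
  obtain ⟨s, hs⟩ : ∃ s : Finset (ℕ × Finset ℕ × Finset ℕ), s = (idx r J k).filter fun i =>
      1 ≤ i.1 ∧ (k0 J i.1 ≤ k ∧ k < KN i.1) ∧ i.2.1 ⊆ Finset.range (i.1 + 1) := ⟨_, rfl⟩
  obtain ⟨S, hS⟩ : ∃ S : Finset ((ℕ × Finset ℕ × Finset ℕ) × ℕ), S = s ×ˢ
      Finset.range ⌊Real.exp (Real.sqrt 2 ^ k)⌋₊ := ⟨_, rfl⟩
  have hsub : BadF θ A W g r J t k ⊆ ⋃ i ∈ S, E i := by
    rintro y ⟨N, hN1, hN2, hN3, a, ha, H, hH1, hH2, D, hD1, hy⟩
    rw [Set.mem_iUnion₂]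
    refine ⟨((N, H, D), a), ?_, ?_⟩
    · rw [hS, Finset.mem_product]
      constructor
      · rw [hs, Finset.mem_filter]
        refine ⟨?_, hN1, ⟨hN2, hN3⟩, hH1⟩
        unfold idx
        rw [Finset.mem_product, Finset.mem_product, Finset.mem_range, Finset.mem_powersetCard,
          Finset.mem_powerset]
        have hlt := lt_Bk hN2
        refine ⟨hlt, ⟨hH1.trans ?_, hH2⟩, hD1.trans ?_⟩
        · intro a ha
          rw [Finset.mem_range] at ha ⊢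
          omega
        · exact Finset.Icc_subset_Icc_right (rt_le_sqrt hN2)
      · rw [Finset.mem_range]
        exact lt_of_lt_of_le ha (Nat.le_floor (hfam N hN2 hN3))
    · rw [hE]
      exact hy
  have hX : 0 < t / ((k : ℝ) + 1) := by positivity
  have hone : ∀ i ∈ S, AVL θ (DL (2 ^ k) (2 ^ (k + 1))) (ind (E i)) x ≤
      2 * Real.exp (-((t / ((k : ℝ) + 1)) ^ 2 * k * 2 ^ k / (128 * (r : ℝ) ^ 2))) := by
    intro i hi
    rw [hS, Finset.mem_product] at hi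
    have hi' := hi.1
    rw [hs, Finset.mem_filter] at hi'
    obtain ⟨hi0, hi1, hi2, hi3⟩ := hi'
    unfold idx at hi0
    rw [Finset.mem_product, Finset.mem_product, Finset.mem_powersetCard] at hi0
    rw [hE]
    exact one_block hθ0 hθ1 (W := W i.1.1 i.2) (hW _ _) g hr hi1 hk1 hi2.2 i.1.2.2 hi3 hi0.2.1.2 hX x
  obtain ⟨M, hM⟩ : ∃ M : ℕ, M = (r + 1) * ((k + 1) * 2 ^ J) + Nat.sqrt (2 ^ k) := ⟨_, rfl⟩
  rw [← hM] at hk
  have hcard : (S.card : ℝ) ≤ 2 ^ M * Real.exp (Real.sqrt 2 ^ k) := by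
    rw [hS, Finset.card_product, Finset.card_range]
    push_cast
    have h1 : (s.card : ℝ) ≤ 2 ^ M := by
      have h1 : s.card ≤ 2 ^ M := by
        rw [hs, hM]
        exact (Finset.card_filter_le _ _).trans (card_idx r J k)
      exact_mod_cast h1
    exact mul_le_mul h1 (Nat.floor_le (Real.exp_pos _).le) (Nat.cast_nonneg _) (by positivity)
  have h2M : (2 : ℝ) ^ M * 2 ≤ Real.exp ((M : ℝ) + 1) := by
    have h2 : (2 : ℝ) ≤ Real.exp 1 := by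
      have := Real.add_one_le_exp (1 : ℝ)
      linarith
    rw [← pow_succ, ← Nat.cast_succ, ← Real.exp_one_pow]
    exact pow_le_pow_left₀ (by norm_num) h2 _
  have hexpo := expo hr hk1 ht
  rw [← hη] at hexpo
  have hhalf : η / 2 * 2 ^ k / k = (η * 2 ^ k / k) / 2 := by ring
  calc AVL θ (DL (2 ^ k) (2 ^ (k + 1))) (ind (BadF θ A W g r J t k)) x
      ≤ AVL θ (DL (2 ^ k) (2 ^ (k + 1))) (ind (⋃ i ∈ S, E i)) x :=
        AVL_ind_mono hθ0 hθ1 _ hsub x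
    _ ≤ ∑ i ∈ S, AVL θ (DL (2 ^ k) (2 ^ (k + 1))) (ind (E i)) x :=
        AVL_ind_biUnion hθ0 hθ1 _ S E x
    _ ≤ ∑ _i ∈ S, 2 * Real.exp (-((t / ((k : ℝ) + 1)) ^ 2 * k * 2 ^ k /
          (128 * (r : ℝ) ^ 2))) := Finset.sum_le_sum hone
    _ = S.card * (2 * Real.exp (-((t / ((k : ℝ) + 1)) ^ 2 * k * 2 ^ k /
          (128 * (r : ℝ) ^ 2)))) := by rw [Finset.sum_const, nsmul_eq_mul]
    _ ≤ (2 ^ M * Real.exp (Real.sqrt 2 ^ k)) * (2 * Real.exp (-(2 * (η * 2 ^ k / k)))) := by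
        gcongr
    _ = (2 ^ M * 2) * Real.exp (Real.sqrt 2 ^ k) * Real.exp (-(2 * (η * 2 ^ k / k))) := by
        generalize Real.exp (Real.sqrt 2 ^ k) = e1
        generalize Real.exp (-(2 * (η * 2 ^ k / k))) = e2
        ring
    _ ≤ Real.exp ((M : ℝ) + 1) * Real.exp (Real.sqrt 2 ^ k) *
        Real.exp (-(2 * (η * 2 ^ k / k))) := by gcongr
    _ = Real.exp (((M : ℝ) + 1) + Real.sqrt 2 ^ k + -(2 * (η * 2 ^ k / k))) := by
        rw [← Real.exp_add, ← Real.exp_add]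
    _ ≤ Real.exp (-(η / 2 * 2 ^ k / k)) := by
        apply Real.exp_le_exp.mpr
        rw [hhalf] at hlar ⊢
        linarith

/-- both averages in `BadF` depend on the primes `≤ 2^(k+1)` -/
theorem DepOn_BadF (θ : ℕ → ℝ) (A : ℕ → ℕ) (W : ℕ → ℕ → Finset ℕ → ℕ → ℝ) (g : SS) (r J : ℕ)
    (t : ℝ) (k : ℕ) : DepOn (2 ^ (k + 1)) (ind (BadF θ A W g r J t k)) := by
  have key : ∀ x y : SS, (∀ p : ℕ, p.Prime → p ≤ 2 ^ (k + 1) → x p = y p) →
      x ∈ BadF θ A W g r J t k → y ∈ BadF θ A W g r J t k := by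
    rintro x y hxy ⟨N, hN1, hN2, hN3, a, ha, H, hH1, hH2, D, hD1, hx⟩
    refine ⟨N, hN1, hN2, hN3, a, ha, H, hH1, hH2, D, hD1, ?_⟩
    have h1 : DepOn (2 ^ (k + (KN N - k))) (FF (W N a) g H D N) := by
      apply DepOn_FF (W N a) g D hH1
      rw [Nat.add_sub_cancel' hN3.le]
      exact le_two_pow_KN N
    have h2 : DepOn (2 ^ (k + 1 + (KN N - (k + 1)))) (FF (W N a) g H D N) := by
      apply DepOn_FF (W N a) g D hH1
      rw [Nat.add_sub_cancel' hN3]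
      exact le_two_pow_KN N
    have e1 := DepOn_GB (θ := θ) h1 x y fun p hp hpk =>
      hxy p hp (hpk.trans (Nat.pow_le_pow_right (by norm_num) (Nat.le_succ k)))
    have e2 := DepOn_GB (θ := θ) h2 x y hxy
    rw [← e1, ← e2]
    exact hx
  intro x y hxy
  by_cases hx : x ∈ BadF θ A W g r J t k
  · rw [ind_of_mem hx, ind_of_mem (key x y hxy hx)]
  · have hy : y ∉ BadF θ A W g r J t k := fun hy =>
      hx (key y x (fun p hp hpk => (hxy p hp hpk).symm) hy)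
    rw [ind_of_notMem hx, ind_of_notMem hy]

end Pool.Agent.Lib.P4a7640B
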