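import Mathlib
import Pool.Agent.Lib.P4a7640B.UniF
import Pool.Agent.Lib.P4a7640B.Core

/-!
# The deterministic core for families of weights
-/

open Filter Topology

namespace Pool.Agent.Lib.P4a7640B

open Pool.Agent.Lib.P4a7640 Pool.Agent.Lib.P4a7640N Pool.Agent.Lib.P4a7640Ces Pool.Agent.Lib.P4a7640N2

lemma coreF_tele {θ : ℕ → ℝ} {A : ℕ → ℕ} {W : ℕ → ℕ → Finset ℕ → ℕ → ℝ} {g x : SS} {r J : ℕ} {t : ℝ}
    (ht : 0 < t) {N a : ℕ} (ha : a < A N) (hN : 1 ≤ N)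
    (hx : ∀ k, k0 J N ≤ k → x ∉ BadF θ A W g r J t k) {H D : Finset ℕ}
    (hH : H ⊆ Finset.range (N + 1)) (hc : H.card = r) (hD : D ⊆ Finset.Icc 1 (rt (J + 1) N)) :
    |FF (W N a) g H D N x - GB θ (FF (W N a) g H D N) (k0 J N) (KN N - k0 J N) x| ≤
      t * 2 ^ (J + 1) := by
  refine (telescope θ (FF (W N a) g H D N) x (k0 J N) (KN N - k0 J N)).trans ?_
  have h1 : ∀ i ∈ Finset.range (KN N - k0 J N),
      |GB θ (FF (W N a) g H D N) (k0 J N + i) (KN N - k0 J N - i) x -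
        GB θ (FF (W N a) g H D N) (k0 J N + i + 1) (KN N - k0 J N - (i + 1)) x| ≤
      t / ((k0 J N : ℝ) + 1) := by
    intro i hi
    rw [Finset.mem_range] at hi
    have e1 : KN N - k0 J N - i = KN N - (k0 J N + i) := by omega
    have e2 : KN N - k0 J N - (i + 1) = KN N - (k0 J N + i + 1) := by omega
    rw [e1, e2]
    have h2 := hx (k0 J N + i) (Nat.le_add_right _ _)
    have h3 : |GB θ (FF (W N a) g H D N) (k0 J N + i) (KN N - (k0 J N + i)) x -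
        GB θ (FF (W N a) g H D N) (k0 J N + i + 1) (KN N - (k0 J N + i + 1)) x| <
        t / (((k0 J N + i : ℕ) : ℝ) + 1) := by
      by_contra hcon
      rw [not_lt] at hcon
      exact h2 ⟨N, hN, Nat.le_add_right _ _, by omega, a, ha, H, hH, hc, D, hD, hcon⟩
    refine h3.le.trans (div_le_div_of_nonneg_left ht.le (by positivity) ?_)
    push_cast
    linarith [(Nat.cast_nonneg i : (0 : ℝ) ≤ i)]
  refine (Finset.sum_le_sum h1).trans ?_
  rw [Finset.sum_const, Finset.card_range, nsmul_eq_mul]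
  have h4 : ((KN N - k0 J N : ℕ) : ℝ) ≤ ((k0 J N : ℝ) + 1) * 2 ^ (J + 1) := by
    exact_mod_cast core_KN_le J N
  have h5 : (0 : ℝ) < (k0 J N : ℝ) + 1 := by positivity
  rw [mul_div_assoc', div_le_iff₀ h5]
  calc ((KN N - k0 J N : ℕ) : ℝ) * t ≤ (((k0 J N : ℝ) + 1) * 2 ^ (J + 1)) * t :=
        mul_le_mul_of_nonneg_right h4 ht.le
    _ = t * 2 ^ (J + 1) * ((k0 J N : ℝ) + 1) := by ring

theorem coreF {θ : ℕ → ℝ} (hθ0 : ∀ p, 0 ≤ θ p) (hθ1 : ∀ p, θ p ≤ 1) {i : ℕ} {c : ℝ} (hc : 0 < c)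
    (hi : ∀ᶠ N : ℕ in atTop, c ≤ MS (fun p => min (θ p) (1 - θ p)) (rt i N) N) {r : ℕ} (hr : 0 < r)
    {ε : ℝ} (hε : 0 < ε) : ∃ (J : ℕ) (t : ℝ), 0 < t ∧ ∀ (A : ℕ → ℕ)
      (W : ℕ → ℕ → Finset ℕ → ℕ → ℝ), (∀ N a H n, |W N a H n| ≤ 1) →
      ∀ g x y : SS, SlowTo y (fun p => g p * x p) → (∀ᶠ k : ℕ in atTop, x ∉ BadF θ A W g r J t k) →
      ∀ᶠ N : ℕ in atTop, ∀ a < A N, ∀ H : Finset ℕ, H ⊆ Finset.range (N + 1) → H.card = r →
        |∑ n ∈ Finset.Icc 1 N, W N a H n * prodSeq (rnd y) H n| ≤ ε * N := by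
  obtain ⟨J, hJ⟩ := meanU hr (ε := ε / 4) (by positivity) hθ0 hθ1 hc hi
  refine ⟨J, ε / 2 ^ (J + 5), by positivity, ?_⟩
  intro A W hW g x y hy hx
  have hr' : (0 : ℝ) < r := by exact_mod_cast hr
  obtain ⟨k₁, hk₁⟩ := eventually_atTop.1 hx
  filter_upwards [hJ, eventually_ge_atTop 1, (core_tendsto_k0 J).eventually_ge_atTop k₁,
    slow_U hy (J + 1) (δ := ε / (16 * r)) (by positivity)] with N hJN hN hkN hES a ha H hH hcard
  have hN' : (0 : ℝ) < N := by exact_mod_cast hN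
  have hD : DS y (fun p => g p * x p) (rt (J + 1) N) ⊆ Finset.Icc 1 (rt (J + 1) N) :=
    Finset.filter_subset _ _
  have h1 := coreF_tele (θ := θ) (W := W) (g := g) (x := x) (t := ε / 2 ^ (J + 5)) (by positivity)
    ha hN (fun k hk => hk₁ k (hkN.trans hk)) hH hcard hD
  have h2 := hJN (W N a) (hW N a) g x H (DS y (fun p => g p * x p) (rt (J + 1) N)) hH hcard
  have h3 := compareU y g x (hW N a) (rt (J + 1) N) hH hN
  have h4 : 4 * (H.card : ℝ) * ES y (fun p => g p * x p) (rt (J + 1) N) (2 * N) ≤ ε / 4 := by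
    rw [hcard]
    calc 4 * (r : ℝ) * ES y (fun p => g p * x p) (rt (J + 1) N) (2 * N) ≤
        4 * (r : ℝ) * (ε / (16 * r)) := mul_le_mul_of_nonneg_left hES (by positivity)
      _ = ε / 4 := by field_simp; ring
  have h5 : ε / 2 ^ (J + 5) * 2 ^ (J + 1) = ε / 16 := by
    rw [show J + 5 = (J + 1) + 4 by ring, pow_add]
    field_simp
    norm_num
  rw [h5] at h1
  set B := (∑ n ∈ Finset.Icc 1 N, W N a H n * prodSeq (rnd y) H n) with hB
  have h6 : |B / (N : ℝ)| ≤ ε := by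
    rw [abs_le] at h1 h2 h3 ⊢
    constructor <;> linarith [h1.1, h1.2, h2.1, h2.2, h3.1, h3.2]
  rw [abs_div, abs_of_pos hN', div_le_iff₀ hN'] at h6
  exact h6

end Pool.Agent.Lib.P4a7640B
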