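import Mathlib
import Pool.Agent.Lib.P4a7640B.CoreF

/-!
# A large correlation forces a positive proportion of bad blocks

In the telescoping sum over the blocks `k0 J N ≤ k < KN N` the blocks that are not bad contribute at most
`t 2^(J+1)` together, and every block contributes at most `16 r / k`, the sum of the bounded differences
`4 r / p` over its primes. So a correlation greater than `ε` in absolute value forces at least `b KN N` bad blocks.
The bound is uniform in all sign sequences.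
-/

open Filter Topology

namespace Pool.Agent.Lib.P4a7640B

open Pool.Agent.Lib.P4a7640 Pool.Agent.Lib.P4a7640N Pool.Agent.Lib.P4a7640Ces Pool.Agent.Lib.P4a7640N2

lemma prop_AV {θ : ℕ → ℝ} (hθ0 : ∀ p, 0 ≤ θ p) (hθ1 : ∀ p, θ p ≤ 1) {p : ℕ} {Φ : SS → ℝ} {c : ℝ}
    (h : BD p Φ c) (x : SS) : |AV θ p Φ x - Φ x| ≤ c := by
  have h1 := h x
  have hc : 0 ≤ c := (abs_nonneg _).trans h1
  have h3 := hθ0 p
  have h4 : 0 ≤ 1 - θ p := by linarith [hθ1 p]
  have hx : x = Function.update x p (x p) := (Function.update_eq_self p x).symm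
  unfold AV
  set a := Φ (Function.update x p 1) with ha
  set b := Φ (Function.update x p (-1)) with hb
  rcases Int.units_eq_one_or (x p) with hp | hp
  · have e : Φ x = a := by rw [ha, ← hp, Function.update_eq_self]
    rw [e]
    have e2 : (1 - θ p) * a + θ p * b - a = -(θ p * (a - b)) := by ring
    rw [e2, abs_neg, abs_mul, abs_of_nonneg h3]
    calc θ p * |a - b| ≤ 1 * c := mul_le_mul (hθ1 p) h1 (abs_nonneg _) zero_le_one
      _ = c := one_mul c
  · have e : Φ x = b := by rw [hb, ← hp, Function.update_eq_self]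
    rw [e]
    have e2 : (1 - θ p) * a + θ p * b - b = (1 - θ p) * (a - b) := by ring
    rw [e2, abs_mul, abs_of_nonneg h4]
    calc (1 - θ p) * |a - b| ≤ 1 * c := mul_le_mul (by linarith) h1 (abs_nonneg _) zero_le_one
      _ = c := one_mul c

lemma prop_AVL {θ : ℕ → ℝ} (hθ0 : ∀ p, 0 ≤ θ p) (hθ1 : ∀ p, θ p ≤ 1) (c : ℕ → ℝ) (L : List ℕ) :
    L.Nodup → ∀ Φ : SS → ℝ, (∀ p ∈ L, BD p Φ (c p)) → ∀ x : SS,
      |AVL θ L Φ x - Φ x| ≤ (L.map c).sum := by
  induction L with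
  | nil =>
    intro _ Φ _ x
    simp [AVL]
  | cons p L ih =>
    intro hnd Φ hBD x
    have hpL : p ∉ L := (List.nodup_cons.mp hnd).1
    have hndL : L.Nodup := (List.nodup_cons.mp hnd).2
    have hBD' : ∀ q ∈ L, BD q (AV θ p Φ) (c q) := by
      intro q hq
      have hqp : q ≠ p := by
        rintro rfl
        exact hpL hq
      exact BD_AV hθ0 hθ1 hqp (hBD q (List.mem_cons_of_mem _ hq))
    have h1 := ih hndL (AV θ p Φ) hBD' x
    have h2 := prop_AV hθ0 hθ1 (hBD p List.mem_cons_self) x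
    rw [List.map_cons, List.sum_cons]
    have e : AVL θ (p :: L) Φ x - Φ x = (AVL θ L (AV θ p Φ) x - AV θ p Φ x) + (AV θ p Φ x - Φ x) := by
      show AVL θ L (AV θ p Φ) x - Φ x = _
      ring
    rw [e]
    calc _ ≤ |AVL θ L (AV θ p Φ) x - AV θ p Φ x| + |AV θ p Φ x - Φ x| := abs_add_le _ _
      _ ≤ c p + (L.map c).sum := by linarith

/-- the trivial bound for one block -/
lemma prop_block {θ : ℕ → ℝ} (hθ0 : ∀ p, 0 ≤ θ p) (hθ1 : ∀ p, θ p ≤ 1) {W : Finset ℕ → ℕ → ℝ}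
    (hW : ∀ H n, |W H n| ≤ 1) (g : SS) {r : ℕ} {N k : ℕ} (hN : 1 ≤ N) (hk : 1 ≤ k)
    (hkN : k < KN N) {H : Finset ℕ} (D : Finset ℕ) (hH : H ⊆ Finset.range (N + 1)) (hc : H.card = r)
    (x : SS) :
    |GB θ (FF W g H D N) k (KN N - k) x - GB θ (FF W g H D N) (k + 1) (KN N - (k + 1)) x| ≤
      16 * r / k := by
  have hk0 : (0 : ℝ) < k := by exact_mod_cast hk
  have h2 : (0 : ℝ) < 2 ^ k := by positivity
  have hm : KN N - k = (KN N - (k + 1)) + 1 := by omega
  set m := KN N - (k + 1) with hmdef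
  set Φ : SS → ℝ := GB θ (FF W g H D N) (k + 1) m with hΦ
  have hGB : GB θ (FF W g H D N) k (KN N - k) = AVL θ (DL (2 ^ k) (2 ^ (k + 1))) Φ := by
    rw [hm]
    rfl
  have hBD : ∀ p ∈ DL (2 ^ k) (2 ^ (k + 1)), BD p Φ (4 * (r : ℝ) / 2 ^ k) := by
    intro p hp
    obtain ⟨hp1, hp2, hp3⟩ := mem_DL.mp hp
    have h5 := BD_GB hθ0 hθ1 (one_BD_FF hW g hN D hH hc hp3) (k + 1) m hp2
    intro y
    refine (h5 y).trans ?_
    have hpr : ((2 : ℝ) ^ k) ≤ p := by exact_mod_cast hp1.le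
    exact div_le_div_of_nonneg_left (by positivity) h2 hpr
  have key := prop_AVL hθ0 hθ1 (fun _ : ℕ => 4 * (r : ℝ) / 2 ^ k) _ (nodup_DL (2 ^ k) (2 ^ (k + 1)))
    Φ hBD x
  rw [hGB]
  refine key.trans ?_
  rw [List.map_const', List.sum_replicate, nsmul_eq_mul]
  have h4 := length_DL hk
  calc ((DL (2 ^ k) (2 ^ (k + 1))).length : ℝ) * (4 * (r : ℝ) / 2 ^ k)
      ≤ (4 * 2 ^ k / k) * (4 * (r : ℝ) / 2 ^ k) := mul_le_mul_of_nonneg_right h4 (by positivity)
    _ = 16 * r / k := by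
        field_simp
        ring

open scoped Classical in
/-- the telescoping sum, with the bad blocks counted -/
lemma prop_tele {θ : ℕ → ℝ} (hθ0 : ∀ p, 0 ≤ θ p) (hθ1 : ∀ p, θ p ≤ 1) {A : ℕ → ℕ}
    {W : ℕ → ℕ → Finset ℕ → ℕ → ℝ} (hW : ∀ N a H n, |W N a H n| ≤ 1) {g x : SS} {r J : ℕ} {t : ℝ}
    (ht : 0 < t) {N a : ℕ} (ha : a < A N) (hN : 1 ≤ N) (hk0 : 1 ≤ k0 J N) {H D : Finset ℕ}
    (hH : H ⊆ Finset.range (N + 1)) (hc : H.card = r) (hD : D ⊆ Finset.Icc 1 (rt (J + 1) N)) :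
    |FF (W N a) g H D N x - GB θ (FF (W N a) g H D N) (k0 J N) (KN N - k0 J N) x| ≤
      t * 2 ^ (J + 1) + 16 * r / (k0 J N) *
        (((Finset.Ico (k0 J N) (KN N)).filter fun k => x ∈ BadF θ A W g r J t k).card : ℝ) := by
  refine (telescope θ (FF (W N a) g H D N) x (k0 J N) (KN N - k0 J N)).trans ?_
  have hk0' : (1 : ℝ) ≤ (k0 J N : ℝ) := by exact_mod_cast hk0
  have h1 : ∀ i ∈ Finset.range (KN N - k0 J N),
      |GB θ (FF (W N a) g H D N) (k0 J N + i) (KN N - k0 J N - i) x -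
        GB θ (FF (W N a) g H D N) (k0 J N + i + 1) (KN N - k0 J N - (i + 1)) x| ≤
      t / ((k0 J N : ℝ) + 1) +
        (if x ∈ BadF θ A W g r J t (k0 J N + i) then 16 * (r : ℝ) / (k0 J N) else 0) := by
    intro i hi
    rw [Finset.mem_range] at hi
    have e1 : KN N - k0 J N - i = KN N - (k0 J N + i) := by omega
    have e2 : KN N - k0 J N - (i + 1) = KN N - (k0 J N + i + 1) := by omega
    rw [e1, e2]
    split_ifs with h2
    · have h3 := prop_block hθ0 hθ1 (hW N a) g (r := r) (N := N) (k := k0 J N + i) hN (by omega)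
        (by omega) D hH hc x
      refine h3.trans ?_
      have h4 : 16 * (r : ℝ) / ((k0 J N + i : ℕ) : ℝ) ≤ 16 * (r : ℝ) / (k0 J N) := by
        refine div_le_div_of_nonneg_left (by positivity) (by linarith) ?_
        push_cast
        linarith [(Nat.cast_nonneg i : (0 : ℝ) ≤ i)]
      have h5 : 0 ≤ t / ((k0 J N : ℝ) + 1) := by positivity
      linarith
    · have h3 : |GB θ (FF (W N a) g H D N) (k0 J N + i) (KN N - (k0 J N + i)) x -
          GB θ (FF (W N a) g H D N) (k0 J N + i + 1) (KN N - (k0 J N + i + 1)) x| <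
          t / (((k0 J N + i : ℕ) : ℝ) + 1) := by
        by_contra hcon
        rw [not_lt] at hcon
        exact h2 ⟨N, hN, Nat.le_add_right _ _, by omega, a, ha, H, hH, hc, D, hD, hcon⟩
      rw [add_zero]
      refine h3.le.trans (div_le_div_of_nonneg_left ht.le (by positivity) ?_)
      push_cast
      linarith [(Nat.cast_nonneg i : (0 : ℝ) ≤ i)]
  refine (Finset.sum_le_sum h1).trans ?_
  rw [Finset.sum_add_distrib, Finset.sum_const, Finset.card_range, nsmul_eq_mul]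
  have h4 : ((KN N - k0 J N : ℕ) : ℝ) ≤ ((k0 J N : ℝ) + 1) * 2 ^ (J + 1) := by
    exact_mod_cast core_KN_le J N
  have h5 : (0 : ℝ) < (k0 J N : ℝ) + 1 := by positivity
  have h6 : ((KN N - k0 J N : ℕ) : ℝ) * (t / ((k0 J N : ℝ) + 1)) ≤ t * 2 ^ (J + 1) := by
    rw [mul_div_assoc', div_le_iff₀ h5]
    calc ((KN N - k0 J N : ℕ) : ℝ) * t ≤ (((k0 J N : ℝ) + 1) * 2 ^ (J + 1)) * t :=
          mul_le_mul_of_nonneg_right h4 ht.le
      _ = t * 2 ^ (J + 1) * ((k0 J N : ℝ) + 1) := by ring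
  have h7 : ∑ i ∈ Finset.range (KN N - k0 J N),
      (if x ∈ BadF θ A W g r J t (k0 J N + i) then 16 * (r : ℝ) / (k0 J N) else 0) =
      16 * r / (k0 J N) *
        (((Finset.Ico (k0 J N) (KN N)).filter fun k => x ∈ BadF θ A W g r J t k).card : ℝ) := by
    rw [← Finset.sum_Ico_eq_sum_range
      (fun k => if x ∈ BadF θ A W g r J t k then 16 * (r : ℝ) / (k0 J N) else 0),
      ← Finset.sum_filter, Finset.sum_const, nsmul_eq_mul, mul_comm]
  rw [h7]
  linarith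

open scoped Classical in
/-- a correlation greater than `ε` forces a positive proportion of bad blocks, uniformly in all sign
sequences -/
theorem coreP {θ : ℕ → ℝ} (hθ0 : ∀ p, 0 ≤ θ p) (hθ1 : ∀ p, θ p ≤ 1) {i : ℕ} {c : ℝ} (hc : 0 < c)
    (hi : ∀ᶠ N : ℕ in atTop, c ≤ MS (fun p => min (θ p) (1 - θ p)) (rt i N) N) {r : ℕ} (hr : 0 < r)
    {ε : ℝ} (hε : 0 < ε) : ∃ (J : ℕ) (t s κ : ℝ), 0 < t ∧ 0 < s ∧ 0 < κ ∧ ∀ᶠ N : ℕ in atTop,
      ∀ (A : ℕ → ℕ) (W : ℕ → ℕ → Finset ℕ → ℕ → ℝ), (∀ N a H n, |W N a H n| ≤ 1) →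
      ∀ g x y : SS, ES y (fun p => g p * x p) (rt (J + 1) N) (2 * N) ≤ s →
      ∀ a < A N, ∀ H : Finset ℕ, H ⊆ Finset.range (N + 1) → H.card = r →
        ε * N < |∑ n ∈ Finset.Icc 1 N, W N a H n * prodSeq (rnd y) H n| →
        κ * Real.log N ≤
          (((Finset.Ico (k0 J N) (KN N)).filter fun k => x ∈ BadF θ A W g r J t k).card : ℝ) := by
  obtain ⟨J, hJ⟩ := meanU hr (ε := ε / 4) (by positivity) hθ0 hθ1 hc hi
  have hr' : (0 : ℝ) < r := by exact_mod_cast hr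
  refine ⟨J, ε / 2 ^ (J + 5), ε / (16 * r), ε / (64 * r * (2 ^ (J + 2) + 1)), by positivity,
    by positivity, by positivity, ?_⟩
  filter_upwards [hJ, eventually_ge_atTop 1, (core_tendsto_k0 J).eventually_ge_atTop 1]
    with N hJN hN hkN A W hW g x y hES a ha H hH hcard hbig
  have hN' : (0 : ℝ) < N := by exact_mod_cast hN
  have hD : DS y (fun p => g p * x p) (rt (J + 1) N) ⊆ Finset.Icc 1 (rt (J + 1) N) :=
    Finset.filter_subset _ _
  have h1 := prop_tele hθ0 hθ1 hW (g := g) (x := x) (t := ε / 2 ^ (J + 5)) (by positivity)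
    ha hN hkN hH hcard hD
  have h2 := hJN (W N a) (hW N a) g x H (DS y (fun p => g p * x p) (rt (J + 1) N)) hH hcard
  have h3 := compareU y g x (hW N a) (rt (J + 1) N) hH hN
  have h4 : 4 * (H.card : ℝ) * ES y (fun p => g p * x p) (rt (J + 1) N) (2 * N) ≤ ε / 4 := by
    rw [hcard]
    calc 4 * (r : ℝ) * ES y (fun p => g p * x p) (rt (J + 1) N) (2 * N) ≤
        4 * (r : ℝ) * (ε / (16 * r)) := mul_le_mul_of_nonneg_left hES (by positivity)
      _ = ε / 4 := by field_simp; ring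
  have h5 : ε / 2 ^ (J + 5) * 2 ^ (J + 1) = ε / 16 := by
    rw [show J + 5 = (J + 1) + 4 by ring, pow_add]
    field_simp
    norm_num
  rw [h5] at h1
  set B := (∑ n ∈ Finset.Icc 1 N, W N a H n * prodSeq (rnd y) H n) with hB
  set m : ℝ := (((Finset.Ico (k0 J N) (KN N)).filter
    fun k => x ∈ BadF θ A W g r J (ε / 2 ^ (J + 5)) k).card : ℝ) with hm
  have h6 : ε < |B / (N : ℝ)| := by
    rw [abs_div, abs_of_pos hN', lt_div_iff₀ hN']
    exact hbig
  have hk0' : (1 : ℝ) ≤ (k0 J N : ℝ) := by exact_mod_cast hkN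
  have h7 : ε / 4 ≤ 16 * r / (k0 J N) * m := by
    have h8 : |B / (N : ℝ)| ≤ ε / 4 + ε / 4 + (ε / 16 + 16 * r / (k0 J N) * m) := by
      rw [abs_le] at h1 h2 h3 ⊢
      constructor <;> linarith [h1.1, h1.2, h2.1, h2.2, h3.1, h3.2]
    linarith
  have h9 : ε / 4 * (k0 J N) ≤ 16 * r * m := by
    have : 16 * r / (k0 J N) * m = 16 * r * m / (k0 J N) := by ring
    rw [this, le_div_iff₀ (by linarith)] at h7
    exact h7
  have h10 : (KN N : ℝ) ≤ (k0 J N : ℝ) * (2 ^ (J + 2) + 1) := by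
    have h11 := core_KN_le J N
    have h12 : KN N ≤ k0 J N + (k0 J N + 1) * 2 ^ (J + 1) := by omega
    have h13 : (KN N : ℝ) ≤ k0 J N + ((k0 J N : ℝ) + 1) * 2 ^ (J + 1) := by exact_mod_cast h12
    have h14 : (2 : ℝ) ^ (J + 2) = 2 * 2 ^ (J + 1) := by ring
    rw [h14]
    have h15 : (0 : ℝ) < 2 ^ (J + 1) := by positivity
    nlinarith
  have h16 : (0 : ℝ) < 2 ^ (J + 2) + 1 := by positivity
  have h17 : Real.log N ≤ (KN N : ℝ) := by
    have h18 : (N : ℝ) ≤ 2 ^ KN N := by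
      have h19 := le_two_pow_KN N
      have h20 : N ≤ 2 ^ KN N := by omega
      exact_mod_cast h20
    have h21 : Real.log N ≤ Real.log (2 ^ KN N) := Real.log_le_log hN' h18
    rw [Real.log_pow] at h21
    have h22 : Real.log 2 ≤ 1 := by
      have := Real.log_two_lt_d9
      linarith
    calc Real.log N ≤ (KN N : ℝ) * Real.log 2 := h21
      _ ≤ (KN N : ℝ) * 1 := mul_le_mul_of_nonneg_left h22 (Nat.cast_nonneg _)
      _ = KN N := mul_one _
  calc ε / (64 * r * (2 ^ (J + 2) + 1)) * Real.log N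
      ≤ ε / (64 * r * (2 ^ (J + 2) + 1)) * (KN N : ℝ) :=
        mul_le_mul_of_nonneg_left h17 (by positivity)
    _ ≤ ε / (64 * r * (2 ^ (J + 2) + 1)) * ((k0 J N : ℝ) * (2 ^ (J + 2) + 1)) :=
        mul_le_mul_of_nonneg_left h10 (by positivity)
    _ = ε / 4 * (k0 J N) / (16 * r) := by
        field_simp
        ring
    _ ≤ 16 * r * m / (16 * r) := div_le_div_of_nonneg_right h9 (by positivity)
    _ = m := by field_simp

end Pool.Agent.Lib.P4a7640B
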