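import Mathlib
import Pool.Agent.Lib.P4a7640G.EulerA

/-!
# The upper bound of Hall and Tenenbaum for strongly multiplicative functions

`∑ n ≤ N, h(n) ≤ C N exp (-∑ p ∈ s, (1 - a p) / p)` for the strongly multiplicative function `h` with the values
`a p ∈ [0, 1]` at the primes `p ∈ s` and `1` at the other primes, `C` absolute.
-/

open Finset ArithmeticFunction

namespace Pool.Agent.Lib.P4a7640B

/-- the strongly multiplicative function with the values `a p` at the primes `p ∈ s` -/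
noncomputable def hst (s : Finset ℕ) (a : ℕ → ℝ) (n : ℕ) : ℝ := ∏ p ∈ s, if p ∣ n then a p else 1

namespace HallTAux

variable {s : Finset ℕ} {a : ℕ → ℝ}

lemma hst_nonneg (ha : ∀ p, 0 ≤ a p) (n : ℕ) : 0 ≤ hst s a n := by
  refine Finset.prod_nonneg fun p _ => ?_
  split_ifs
  · exact ha p
  · exact zero_le_one

lemma hst_mul_le (ha : ∀ p, 0 ≤ a p) (ha1 : ∀ p, a p ≤ 1) (d m : ℕ) :
    hst s a (d * m) ≤ hst s a m := by
  refine Finset.prod_le_prod (fun p _ => ?_) fun p _ => ?_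
  · split_ifs
    · exact ha p
    · exact zero_le_one
  · by_cases h : p ∣ m
    · rw [if_pos h, if_pos (h.mul_left d)]
    · rw [if_neg h]
      split_ifs
      · exact ha1 p
      · exact le_refl _

lemma hst_one (hs : ∀ p ∈ s, p.Prime) : hst s a 1 = 1 := by
  refine Finset.prod_eq_one fun p hp => ?_
  rw [if_neg]
  intro h
  exact (hs p hp).one_lt.ne' (Nat.dvd_one.1 h)

lemma hst_coprime (hs : ∀ p ∈ s, p.Prime) {m n : ℕ} (h : Nat.Coprime m n) :
    hst s a (m * n) = hst s a m * hst s a n := by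
  unfold hst
  rw [← Finset.prod_mul_distrib]
  refine Finset.prod_congr rfl fun p hp => ?_
  have hp' := hs p hp
  by_cases h1 : p ∣ m
  · have h2 : ¬ p ∣ n := fun h3 => hp'.one_lt.ne' (Nat.dvd_one.1 (h ▸ Nat.dvd_gcd h1 h3))
    rw [if_pos h1, if_neg h2, if_pos (h1.mul_right n), mul_one]
  · by_cases h2 : p ∣ n
    · rw [if_neg h1, if_pos h2, if_pos (h2.mul_left m), one_mul]
    · rw [if_neg h1, if_neg h2, if_neg fun h3 => (hp'.dvd_mul.1 h3).elim h1 h2, one_mul]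

lemma hst_pow (hs : ∀ p ∈ s, p.Prime) {p : ℕ} (hp : p.Prime) (k : ℕ) :
    hst s a (p ^ (k + 1)) = if p ∈ s then a p else 1 := by
  unfold hst
  have h1 : ∀ q ∈ s, (if q ∣ p ^ (k + 1) then a q else 1) = if q = p then a p else 1 := by
    intro q hq
    by_cases h : q = p
    · subst h
      rw [if_pos rfl, if_pos (dvd_pow_self _ (Nat.succ_ne_zero k))]
    · rw [if_neg h, if_neg]
      intro h2
      exact h ((Nat.prime_dvd_prime_iff_eq (hs q hq) hp).1 ((hs q hq).dvd_of_dvd_pow h2))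
  rw [Finset.prod_congr rfl h1, Finset.prod_ite_eq' s p fun _ => a p]

/-- the logarithmic sum by the Euler product -/
lemma euler_le (hs : ∀ p ∈ s, p.Prime) (ha : ∀ p, 0 ≤ a p) (ha1 : ∀ p, a p ≤ 1) {N : ℕ}
    (hsN : ∀ p ∈ s, p ≤ N) :
    ∑ m ∈ Icc 1 N, hst s a m / m ≤ (∏ p ∈ Nat.primesBelow (N + 1), (1 - 1 / (p:ℝ))⁻¹) *
      Real.exp (-∑ p ∈ s, (1 - a p) / p) := by
  set f : ℕ → ℝ := fun m => hst s a m / m with hf
  have hf0 : ∀ m, 0 ≤ f m := fun m => div_nonneg (hst_nonneg ha m) (Nat.cast_nonneg m)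
  have hf1 : f 1 = 1 := by
    show hst s a 1 / ((1 : ℕ) : ℝ) = 1
    rw [hst_one hs, Nat.cast_one, div_one]
  have hmul : ∀ {m n : ℕ}, Nat.Coprime m n → f (m * n) = f m * f n := by
    intro m n h
    show hst s a (m * n) / ((m * n : ℕ) : ℝ) = hst s a m / (m : ℝ) * (hst s a n / (n : ℝ))
    rw [hst_coprime hs h, Nat.cast_mul]
    exact mul_div_mul_comm _ _ _ _
  have hpow : ∀ {p : ℕ}, p.Prime → HasSum (fun k => f (p ^ k))
      ((1 - 1 / (p:ℝ))⁻¹ * (1 - (1 - (if p ∈ s then a p else 1)) / p)) := by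
    intro p hp
    have hp2 : (2:ℝ) ≤ p := by exact_mod_cast hp.two_le
    have hp0 : (0:ℝ) < p := by linarith
    set c : ℝ := if p ∈ s then a p else 1 with hc
    have hg : HasSum (fun k : ℕ => (1 / (p:ℝ)) ^ k) (1 - 1 / (p:ℝ))⁻¹ :=
      hasSum_geometric_of_lt_one (by positivity) (by
        rw [div_lt_one hp0]
        linarith)
    have h1 : HasSum (fun k : ℕ => f (p ^ (k + 1))) (c * (1 / (p:ℝ)) * (1 - 1 / (p:ℝ))⁻¹) := by
      have h2 := hg.mul_left (c * (1 / (p:ℝ)))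
      refine h2.congr_fun ?_
      intro k
      show hst s a (p ^ (k + 1)) / ((p ^ (k + 1) : ℕ) : ℝ) = c * (1 / (p:ℝ)) * (1 / (p:ℝ)) ^ k
      rw [hst_pow hs hp k, ← hc]
      push_cast
      rw [one_div, inv_pow, pow_succ]
      field_simp
    have h3 := (hasSum_nat_add_iff (f := fun k => f (p ^ k)) 1).1 h1
    rw [Finset.sum_range_one, pow_zero, hf1] at h3
    have h4 : (1 : ℝ) - 1 / p ≠ 0 := by
      have : 1 / (p:ℝ) ≤ 1 / 2 := one_div_le_one_div_of_le (by norm_num) hp2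
      linarith
    have h5 : (1 - 1 / (p:ℝ))⁻¹ * (1 - 1 / (p:ℝ)) = 1 := inv_mul_cancel₀ h4
    have h6 : (1 - 1 / (p:ℝ))⁻¹ * (1 - (1 - c) / p) = c * (1 / (p:ℝ)) * (1 - 1 / (p:ℝ))⁻¹ + 1 := by
      calc (1 - 1 / (p:ℝ))⁻¹ * (1 - (1 - c) / p) =
          c * (1 / (p:ℝ)) * (1 - 1 / (p:ℝ))⁻¹ + (1 - 1 / (p:ℝ))⁻¹ * (1 - 1 / (p:ℝ)) := by ring
        _ = _ := by rw [h5]
    rw [h6]
    exact h3
  have hsum : ∀ {p : ℕ}, p.Prime → Summable (fun n : ℕ => ‖f (p ^ n)‖) := by
    intro p hp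
    refine (hpow hp).summable.congr fun k => ?_
    rw [Real.norm_of_nonneg (hf0 _)]
  obtain ⟨h1, h2⟩ := EulerProduct.summable_and_hasSum_smoothNumbers_prod_primesBelow_tsum hf1 hmul
    hsum (N + 1)
  have h3 : ∑ m ∈ Icc 1 N, f m ≤ ∏ p ∈ (N + 1).primesBelow, ∑' n : ℕ, f (p ^ n) := by
    have hmem : ∀ m ∈ Icc 1 N, m ∈ Nat.smoothNumbers (N + 1) := by
      intro m hm
      rw [mem_Icc] at hm
      rw [Nat.mem_smoothNumbers]
      refine ⟨by omega, fun q hq => ?_⟩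
      have := Nat.le_of_dvd (by omega) (Nat.dvd_of_mem_primeFactorsList hq)
      omega
    set T : Finset (Nat.smoothNumbers (N + 1)) :=
      (Icc 1 N).attach.map ⟨fun m => ⟨m.1, hmem m.1 m.2⟩, fun x y h => by
        have := congrArg Subtype.val h
        exact Subtype.ext this⟩ with hT
    have h4 : ∑ m ∈ Icc 1 N, f m = ∑ m ∈ T, f m := by
      rw [hT, Finset.sum_map]
      exact (Finset.sum_attach (Icc 1 N) f).symm
    rw [h4]
    exact sum_le_hasSum T (fun m _ => hf0 _) h2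
  refine h3.trans ?_
  have h5 : ∏ p ∈ (N + 1).primesBelow, ∑' n : ℕ, f (p ^ n) =
      (∏ p ∈ Nat.primesBelow (N + 1), (1 - 1 / (p:ℝ))⁻¹) *
        ∏ p ∈ Nat.primesBelow (N + 1), (1 - (1 - (if p ∈ s then a p else 1)) / (p:ℝ)) := by
    rw [← Finset.prod_mul_distrib]
    refine Finset.prod_congr rfl fun p hp => ?_
    exact (hpow (Nat.mem_primesBelow.1 hp).2).tsum_eq
  rw [h5]
  have h6 : ∏ p ∈ Nat.primesBelow (N + 1), (1 - (1 - (if p ∈ s then a p else 1)) / (p:ℝ)) =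
      ∏ p ∈ s, (1 - (1 - a p) / (p:ℝ)) := by
    symm
    have h7 : ∏ p ∈ s, (1 - (1 - a p) / (p:ℝ)) =
        ∏ p ∈ s, (1 - (1 - (if p ∈ s then a p else 1)) / (p:ℝ)) := by
      refine Finset.prod_congr rfl fun p hp => ?_
      rw [if_pos hp]
    rw [h7]
    refine Finset.prod_subset (fun p hp => ?_) fun p _ hps => ?_
    · rw [Nat.mem_primesBelow]
      exact ⟨Nat.lt_succ_of_le (hsN p hp), hs p hp⟩
    · rw [if_neg hps]
      simp
  rw [h6]
  apply mul_le_mul_of_nonneg_left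
  · rw [← Finset.sum_neg_distrib, Real.exp_sum]
    refine Finset.prod_le_prod (fun p hp => ?_) fun p _ => ?_
    · have hp2 : (2:ℝ) ≤ p := by exact_mod_cast (hs p hp).two_le
      have h8 : (1 - a p) / (p:ℝ) ≤ 1 := by
        rw [div_le_one (by linarith)]
        linarith [ha p]
      linarith
    · have := Real.add_one_le_exp (-((1 - a p) / (p:ℝ)))
      linarith
  · refine Finset.prod_nonneg fun p hp => ?_
    have hp' := (Nat.mem_primesBelow.1 hp).2
    have : (1:ℝ) ≤ p := by exact_mod_cast hp'.one_le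
    rw [inv_nonneg, sub_nonneg, div_le_one (by linarith)]
    exact this

/-- the sum with the weight `log n` -/
lemma log_sum_le (ha : ∀ p, 0 ≤ a p) (ha1 : ∀ p, a p ≤ 1) (N : ℕ) :
    ∑ n ∈ Icc 1 N, hst s a n * Real.log n ≤
      (Real.log 4 + 4) * N * ∑ m ∈ Icc 1 N, hst s a m / m := by
  have h1 : ∀ n ∈ Icc 1 N, hst s a n * Real.log n ≤
      ∑ m ∈ n.divisors, hst s a m * Λ (n / m) := by
    intro n hn
    rw [mem_Icc] at hn
    rw [← ArithmeticFunction.vonMangoldt_sum, Finset.mul_sum,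
      ← Nat.sum_div_divisors n fun i => hst s a n * Λ i]
    refine Finset.sum_le_sum fun m hm => ?_
    apply mul_le_mul_of_nonneg_right _ ArithmeticFunction.vonMangoldt_nonneg
    have h2 := Nat.dvd_of_mem_divisors hm
    calc hst s a n = hst s a (n / m * m) := by rw [Nat.div_mul_cancel h2]
      _ ≤ hst s a m := hst_mul_le ha ha1 _ _
  refine (Finset.sum_le_sum h1).trans ?_
  have h2 : ∑ n ∈ Icc 1 N, ∑ m ∈ n.divisors, hst s a m * Λ (n / m) =
      ∑ m ∈ Icc 1 N, ∑ n ∈ (Icc 1 N).filter (fun n => m ∣ n), hst s a m * Λ (n / m) := by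
    refine Finset.sum_comm' fun n m => ?_
    rw [Nat.mem_divisors, mem_filter, mem_Icc, mem_Icc]
    constructor
    · rintro ⟨⟨h3, h4⟩, h5, h6⟩
      have h7 := Nat.le_of_dvd (by omega) h5
      have h8 := Nat.pos_of_dvd_of_pos h5 (by omega)
      exact ⟨⟨⟨h3, h4⟩, h5⟩, by omega, by omega⟩
    · rintro ⟨⟨⟨h3, h4⟩, h5⟩, h6, h7⟩
      exact ⟨⟨h3, h4⟩, h5, by omega⟩
  rw [h2, Finset.mul_sum]
  refine Finset.sum_le_sum fun m hm => ?_
  rw [mem_Icc] at hm
  have hm0 : (0:ℝ) < m := by exact_mod_cast hm.1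
  rw [← Finset.mul_sum]
  have h3 : ∑ n ∈ (Icc 1 N).filter (fun n => m ∣ n), Λ (n / m) = ∑ d ∈ Ioc 0 (N / m), Λ d := by
    refine Finset.sum_bij' (fun n _ => n / m) (fun d _ => m * d) ?_ ?_ ?_ ?_ ?_
    · intro n hn
      rw [mem_filter, mem_Icc] at hn
      rw [mem_Ioc]
      exact ⟨Nat.div_pos (Nat.le_of_dvd (by omega) hn.2) (by omega), Nat.div_le_div_right hn.1.2⟩
    · intro d hd
      rw [mem_Ioc] at hd
      rw [mem_filter, mem_Icc]
      refine ⟨⟨Nat.mul_pos (by omega) hd.1, ?_⟩, dvd_mul_right m d⟩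
      calc m * d ≤ m * (N / m) := Nat.mul_le_mul_left m hd.2
        _ ≤ N := Nat.mul_div_le N m
    · intro n hn
      rw [mem_filter] at hn
      exact Nat.mul_div_cancel' hn.2
    · intro d _
      exact Nat.mul_div_cancel_left d (by omega)
    · intro n _
      rfl
  rw [h3]
  have h4 : ∑ d ∈ Ioc 0 (N / m), Λ d ≤ (Real.log 4 + 4) * ((N:ℝ) / m) := by
    have h5 := Chebyshev.psi_le_const_mul_self (x := ((N / m : ℕ) : ℝ)) (Nat.cast_nonneg _)
    unfold Chebyshev.psi at h5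
    rw [Nat.floor_natCast] at h5
    refine h5.trans (mul_le_mul_of_nonneg_left Nat.cast_div_le ?_)
    have := Real.log_nonneg (show (1:ℝ) ≤ 4 by norm_num)
    linarith
  calc hst s a m * ∑ d ∈ Ioc 0 (N / m), Λ d ≤ hst s a m * ((Real.log 4 + 4) * ((N:ℝ) / m)) :=
        mul_le_mul_of_nonneg_left h4 (hst_nonneg ha m)
    _ = (Real.log 4 + 4) * N * (hst s a m / m) := by ring

end HallTAux

open HallTAux in
/-- the upper bound of Hall and Tenenbaum -/
theorem hall_bound : ∃ C : ℝ, 0 < C ∧ ∀ (N : ℕ), 2 ≤ N → ∀ (s : Finset ℕ) (a : ℕ → ℝ),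
    (∀ p ∈ s, p.Prime) → (∀ p ∈ s, p ≤ N) → (∀ p, 0 ≤ a p) → (∀ p, a p ≤ 1) →
    ∑ n ∈ Icc 1 N, hst s a n ≤ C * N * Real.exp (-∑ p ∈ s, (1 - a p) / p) := by
  obtain ⟨C, hC, hM⟩ := Pool.Agent.Lib.P4a7640G.mertens_prod
  have hl4 : 0 ≤ Real.log 4 := Real.log_nonneg (by norm_num)
  refine ⟨(Real.log 4 + 5) * C, by positivity, fun N hN s a hs hsN ha ha1 => ?_⟩
  have hN0 : (0:ℝ) < N := by exact_mod_cast (by omega : 0 < N)
  have hlN : 0 < Real.log N := Real.log_pos (by exact_mod_cast (by omega : 1 < N))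
  set E := Real.exp (-∑ p ∈ s, (1 - a p) / p) with hE
  set L := ∑ m ∈ Icc 1 N, hst s a m / m with hL
  have hL0 : 0 ≤ L := Finset.sum_nonneg fun m _ =>
    div_nonneg (hst_nonneg ha m) (Nat.cast_nonneg m)
  have h1 : L ≤ C * Real.log N * E :=
    (euler_le hs ha ha1 hsN).trans (mul_le_mul_of_nonneg_right (hM N hN) (Real.exp_nonneg _))
  have h2 := log_sum_le (s := s) ha ha1 N
  have h3 : Real.log N * ∑ n ∈ Icc 1 N, hst s a n ≤ (Real.log 4 + 5) * N * L := by
    have h4 : ∀ n ∈ Icc 1 N, Real.log N * hst s a n ≤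
        hst s a n * Real.log n + N * (hst s a n / n) := by
      intro n hn
      rw [mem_Icc] at hn
      have hn0 : (0:ℝ) < n := by exact_mod_cast hn.1
      have h5 : Real.log N ≤ Real.log n + N / n := by
        have h6 : Real.log ((N:ℝ) / n) ≤ (N:ℝ) / n := Real.log_le_self (by positivity)
        rw [Real.log_div hN0.ne' hn0.ne'] at h6
        linarith
      calc Real.log N * hst s a n ≤ (Real.log n + N / n) * hst s a n :=
            mul_le_mul_of_nonneg_right h5 (hst_nonneg ha n)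
        _ = hst s a n * Real.log n + N * (hst s a n / n) := by ring
    rw [Finset.mul_sum]
    refine (Finset.sum_le_sum h4).trans ?_
    rw [Finset.sum_add_distrib, ← Finset.mul_sum]
    calc _ ≤ (Real.log 4 + 4) * N * L + N * L := add_le_add_left h2 _
      _ = (Real.log 4 + 5) * N * L := by ring
  have h5 : Real.log N * ∑ n ∈ Icc 1 N, hst s a n ≤
      Real.log N * ((Real.log 4 + 5) * C * N * E) := by
    refine h3.trans ?_
    calc (Real.log 4 + 5) * N * L ≤ (Real.log 4 + 5) * N * (C * Real.log N * E) :=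
          mul_le_mul_of_nonneg_left h1 (by positivity)
      _ = _ := by ring
  exact le_of_mul_le_mul_left h5 hlN

end Pool.Agent.Lib.P4a7640B
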