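import Mathlib
import Pool.Agent.Lib.P4a7640B.Par

/-!
# Mass of the primes in the window which divide no difference of shifts, with an explicit bound

`∑ 1/p ≥ J log 2 - 3` over the primes `2^k0 < p ≤ N` which divide no `h - h₀`, for large `N`: `mertens_lower` between
`rt J N` and `N`, minus `1` for the primes in `(rt J N, 2^k0]` and minus `1` for the excluded primes (as in `MassU.lean`).
-/

open Filter Topology

namespace Pool.Agent.Lib.P4a7640B

open Pool.Agent.Lib.P4a7640 Pool.Agent.Lib.P4a7640N Pool.Agent.Lib.P4a7640Ces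

private lemma massE_omega {m N : ℕ} (hm : m ≠ 0) (hmN : m ≤ N) :
    m.primeFactors.card ≤ Nat.log 2 N := by
  have h1 : 2 ^ m.primeFactors.card ≤ ∏ p ∈ m.primeFactors, p :=
    Finset.pow_card_le_prod _ _ _ fun p hp => (Nat.prime_of_mem_primeFactors hp).two_le
  have h2 : ∏ p ∈ m.primeFactors, p ≤ m := Nat.le_of_dvd (Nat.pos_of_ne_zero hm)
    (Nat.prod_primeFactors_dvd m)
  exact Nat.le_log_of_pow_le (by norm_num) ((h1.trans h2).trans hmN)

private lemma massE_union (f : ℕ → ℝ) (hf : ∀ p, 0 ≤ f p) (s t : Finset ℕ) :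
    ∑ p ∈ s ∪ t, f p ≤ ∑ p ∈ s, f p + ∑ p ∈ t, f p := by
  rw [← Finset.sum_union_inter]
  exact le_add_of_nonneg_right (Finset.sum_nonneg fun p _ => hf p)

private lemma massE_log (C : ℝ) (hC : 0 ≤ C) : ∀ᶠ x : ℝ in atTop, C * Real.log (x + 1) ≤ x := by
  have h := (Real.isLittleO_log_id_atTop.comp_tendsto
    (tendsto_atTop_add_const_right atTop (1 : ℝ) tendsto_id)).bound
    (show (0 : ℝ) < 1 / (2 * (C + 1)) by positivity)
  filter_upwards [h, eventually_ge_atTop 1] with x hx h1
  simp only [Function.comp_apply, id, Real.norm_eq_abs] at hx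
  rw [abs_of_nonneg (Real.log_nonneg (by linarith)), abs_of_nonneg (by linarith : (0 : ℝ) ≤ x + 1)] at hx
  calc C * Real.log (x + 1) ≤ C * (1 / (2 * (C + 1)) * (x + 1)) :=
        mul_le_mul_of_nonneg_left hx hC
    _ = C / (C + 1) * ((x + 1) / 2) := by
        field_simp
    _ ≤ 1 * ((x + 1) / 2) := by
        refine mul_le_mul_of_nonneg_right ?_ (by linarith)
        rw [div_le_one (by linarith)]
        linarith
    _ ≤ x := by linarith

/-- the mass of the primes between `rt J N` and `N` -/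
private lemma massE_window (J : ℕ) : ∀ᶠ N : ℕ in atTop,
    J * Real.log 2 - 1 ≤ ∑ p ∈ (Finset.Ioc (rt J N) N).filter Nat.Prime, 1 / (p : ℝ) := by
  obtain ⟨C, hC0, hC⟩ := Pool.Agent.Lib.P4a7640L.mertens_lower
  have hlog : Tendsto (fun N : ℕ => Real.log ((rt J N : ℕ) : ℝ)) atTop atTop :=
    Real.tendsto_log_atTop.comp (tendsto_natCast_atTop_atTop.comp (tendsto_rt J))
  filter_upwards [hlog.eventually_ge_atTop (C + 1), (tendsto_rt J).eventually_ge_atTop 3,
    eventually_ge_atTop 3] with N h1 h2 h3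
  set x := rt J N with hx
  have hx0 : (0:ℝ) < x := by exact_mod_cast (by omega : 0 < x)
  have hN0 : (0:ℝ) < N := by exact_mod_cast (by omega : 0 < N)
  have hlx : 0 < Real.log x := by linarith
  have hxN : x ^ (2 ^ J) ≤ N := by
    by_contra hcon
    push Not at hcon
    have h4 := (rt_lt_iff J N x).2 hcon
    omega
  have hlN : 2 ^ J * Real.log x ≤ Real.log N := by
    have h4 : ((x : ℝ) ^ (2 ^ J)) ≤ N := by exact_mod_cast hxN
    have h5 := Real.log_le_log (by positivity) h4
    rw [Real.log_pow] at h5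
    push_cast at h5
    exact h5
  have hlN0 : 0 < Real.log N := lt_of_lt_of_le (by positivity) hlN
  have hα : 0 ≤ Real.log (Real.log x) := Real.log_nonneg (by linarith)
  have hαβ : Real.log (Real.log x) + J * Real.log 2 ≤ Real.log (Real.log N) := by
    have h4 := Real.log_le_log (by positivity) hlN
    rw [Real.log_mul (by positivity) hlx.ne', Real.log_pow] at h4
    linarith
  have hl2 : 0 < Real.log 2 := Real.log_pos (by norm_num)
  have hJ0 : 0 ≤ (J : ℝ) * Real.log 2 := by positivity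
  have h4 := hC (Real.log (Real.log x)) (Real.log (Real.log N)) hα (by linarith)
    ((Finset.Ioc x N).filter Nat.Prime) (by
      intro p hp ha hb
      have hp1 : (1:ℝ) < p := by exact_mod_cast hp.one_lt
      have hlp : 0 < Real.log p := Real.log_pos hp1
      rw [Finset.mem_filter, Finset.mem_Ioc]
      have e1 : Real.log x < Real.log p := (Real.log_lt_log_iff hlx hlp).1 ha
      have e2 : (x:ℝ) < p := (Real.log_lt_log_iff hx0 (by linarith)).1 e1
      have e3 : Real.log p < Real.log N := (Real.log_lt_log_iff hlp hlN0).1 hb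
      have e4 : (p:ℝ) < N := (Real.log_lt_log_iff (by linarith) hN0).1 e3
      exact ⟨⟨by exact_mod_cast e2, by exact_mod_cast e4.le⟩, hp⟩)
  rw [Real.exp_neg, Real.exp_log hlx] at h4
  have h5 : C * (Real.log x)⁻¹ ≤ 1 := by
    rw [← div_eq_mul_inv, div_le_one hlx]
    linarith
  linarith

theorem massE (r J : ℕ) : ∀ᶠ N : ℕ in atTop, ∀ H : Finset ℕ, H ⊆ Finset.range (N + 1) →
    H.card = r → ∀ h₀ ∈ H, ∀ s : Finset ℕ, s = (Finset.Ioc (2 ^ k0 J N) N).filter
      (fun p : ℕ => p.Prime ∧ ∀ h ∈ H, h ≠ h₀ → ¬ (p : ℤ) ∣ (h : ℤ) - h₀) →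
      J * Real.log 2 - 3 ≤ ∑ p ∈ s, 1 / (p : ℝ) := by
  classical
  have hr : Tendsto (fun N : ℕ => ((rt J N : ℕ) : ℝ)) atTop atTop :=
    tendsto_natCast_atTop_atTop.comp (tendsto_rt J)
  filter_upwards [hr.eventually (massE_log (r * 2 ^ J / Real.log 2) (by positivity)),
    (tendsto_rt J).eventually_ge_atTop 2, eventually_ge_atTop 1, massE_window J]
    with N hlog hx hN1 hwin
  intro H hH hcard h₀ hh₀ s hs
  set x := rt J N with hxdef
  set K := 2 ^ k0 J N with hK
  have hx2 : 2 ≤ x := by omega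
  have hx0 : (0 : ℝ) < x := by exact_mod_cast (by omega : 0 < x)
  have hxK : x ≤ K := Nat.le_pow_clog (by norm_num) x
  have hK2 : K ≤ 2 * x := by
    have h1 : 2 ^ (Nat.clog 2 x - 1) < x := Nat.pow_pred_clog_lt_self (by norm_num) (by omega)
    have h2 : 0 < Nat.clog 2 x := Nat.clog_pos (by norm_num) hx2
    have h3 : K = 2 * 2 ^ (Nat.clog 2 x - 1) := by
      rw [hK, k0, ← hxdef, ← pow_succ']
      congr 1
      omega
    omega
  -- the bad primes
  set B : Finset ℕ := (H.erase h₀).biUnion fun h => (((h : ℤ) - h₀).natAbs).primeFactors with hB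
  have hBcard : B.card ≤ r * Nat.log 2 N := by
    refine Finset.card_biUnion_le.trans ?_
    calc ∑ h ∈ H.erase h₀, (((h : ℤ) - h₀).natAbs).primeFactors.card
        ≤ ∑ h ∈ H.erase h₀, Nat.log 2 N := by
          refine Finset.sum_le_sum fun h hh => ?_
          rw [Finset.mem_erase] at hh
          have h1 := Finset.mem_range.mp (hH hh.2)
          have h2 := Finset.mem_range.mp (hH hh₀)
          have h3 := hh.1
          exact massE_omega (by omega) (by omega)
      _ = (H.erase h₀).card * Nat.log 2 N := by rw [Finset.sum_const, smul_eq_mul]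
      _ ≤ r * Nat.log 2 N := Nat.mul_le_mul_right _ (by
          rw [← hcard]; exact Finset.card_le_card (Finset.erase_subset _ _))
  -- the comparison
  have hcover : (Finset.Ioc x N).filter Nat.Prime ⊆
      Finset.Ioc x K ∪ (B.filter (fun p => x < p) ∪ s) := by
    intro p hp
    rw [Finset.mem_filter, Finset.mem_Ioc] at hp
    rw [Finset.mem_union, Finset.mem_union, Finset.mem_Ioc, Finset.mem_filter, hs,
      Finset.mem_filter, Finset.mem_Ioc]
    by_cases hpK : p ≤ K
    · exact Or.inl ⟨hp.1.1, hpK⟩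
    right
    by_cases hbad : ∃ h ∈ H, h ≠ h₀ ∧ (p : ℤ) ∣ (h : ℤ) - h₀
    · left
      obtain ⟨h, hh, hne, hdvd⟩ := hbad
      refine ⟨?_, hp.1.1⟩
      rw [hB, Finset.mem_biUnion]
      refine ⟨h, Finset.mem_erase.mpr ⟨hne, hh⟩, ?_⟩
      rw [Nat.mem_primeFactors]
      exact ⟨hp.2, Int.natCast_dvd.mp hdvd, by omega⟩
    · right
      push Not at hbad
      exact ⟨⟨not_le.mp hpK, hp.1.2⟩, hp.2, fun h hh hne => hbad h hh hne⟩
  have hτp : ∀ p : ℕ, 0 ≤ 1 / (p : ℝ) := fun p => by positivity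
  have hle : ∀ p : ℕ, x < p → 1 / (p : ℝ) ≤ 1 / x := by
    intro p hp
    have hp' : (x : ℝ) ≤ p := by exact_mod_cast hp.le
    exact one_div_le_one_div_of_le hx0 hp'
  have hA : ∑ p ∈ Finset.Ioc x K, 1 / (p : ℝ) ≤ 1 := by
    calc ∑ p ∈ Finset.Ioc x K, 1 / (p : ℝ) ≤ ∑ p ∈ Finset.Ioc x K, (1 : ℝ) / x :=
          Finset.sum_le_sum fun p hp => hle p (Finset.mem_Ioc.mp hp).1
      _ = ((K - x : ℕ) : ℝ) * (1 / x) := by
          rw [Finset.sum_const, Nat.card_Ioc, nsmul_eq_mul]
      _ ≤ (x : ℝ) * (1 / x) := by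
          refine mul_le_mul_of_nonneg_right ?_ (by positivity)
          exact_mod_cast (by omega : K - x ≤ x)
      _ = 1 := mul_one_div_cancel hx0.ne'
  have hlogN : (r : ℝ) * Nat.log 2 N ≤ x := by
    have h1 : N < (x + 1) ^ (2 ^ J) := (rt_lt_iff J N _).mp (Nat.lt_succ_self _)
    have h2 : (N : ℝ) < ((x : ℝ) + 1) ^ (2 ^ J) := by exact_mod_cast h1
    have hN0 : (0 : ℝ) < N := by exact_mod_cast hN1
    have h3 : Real.log N ≤ 2 ^ J * Real.log ((x : ℝ) + 1) := by
      have := Real.log_le_log hN0 h2.le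
      rw [Real.log_pow] at this
      push_cast at this
      exact this
    have hl2 : (0 : ℝ) < Real.log 2 := Real.log_pos (by norm_num)
    have h4 : (Nat.log 2 N : ℝ) ≤ Real.log N / Real.log 2 := by
      rw [le_div_iff₀ hl2, ← Real.log_pow]
      refine Real.log_le_log (by positivity) ?_
      exact_mod_cast Nat.pow_log_le_self 2 (by omega)
    calc (r : ℝ) * Nat.log 2 N ≤ r * (Real.log N / Real.log 2) :=
          mul_le_mul_of_nonneg_left h4 (Nat.cast_nonneg r)
      _ ≤ r * (2 ^ J * Real.log ((x : ℝ) + 1) / Real.log 2) := by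
          refine mul_le_mul_of_nonneg_left ?_ (Nat.cast_nonneg r)
          exact div_le_div_of_nonneg_right h3 hl2.le
      _ = r * 2 ^ J / Real.log 2 * Real.log ((x : ℝ) + 1) := by ring
      _ ≤ x := hlog
  have hBs : ∑ p ∈ B.filter (fun p => x < p), 1 / (p : ℝ) ≤ 1 := by
    calc ∑ p ∈ B.filter (fun p => x < p), 1 / (p : ℝ)
        ≤ ∑ p ∈ B.filter (fun p => x < p), (1 : ℝ) / x :=
          Finset.sum_le_sum fun p hp => hle p (Finset.mem_filter.mp hp).2
      _ = ((B.filter (fun p => x < p)).card : ℝ) * (1 / x) := by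
          rw [Finset.sum_const, nsmul_eq_mul]
      _ ≤ (x : ℝ) * (1 / x) := by
          refine mul_le_mul_of_nonneg_right ?_ (by positivity)
          refine le_trans ?_ hlogN
          exact_mod_cast (Finset.card_filter_le _ _).trans hBcard
      _ = 1 := mul_one_div_cancel hx0.ne'
  have hfin : ∑ p ∈ (Finset.Ioc x N).filter Nat.Prime, 1 / (p : ℝ) ≤
      1 + (1 + ∑ p ∈ s, 1 / (p : ℝ)) := by
    refine (Finset.sum_le_sum_of_subset_of_nonneg hcover fun p _ _ => hτp p).trans ?_
    refine (massE_union _ hτp _ _).trans (add_le_add hA ?_)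
    exact (massE_union _ hτp _ _).trans (add_le_add hBs le_rfl)
  linarith

end Pool.Agent.Lib.P4a7640B
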