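import Mathlib
import Pool.Agent.Lib.P4a7640B.Blk
import Pool.Agent.Lib.P4a7640B.MeanU
import Pool.Agent.Lib.P4a7640B.HallT
import Pool.Agent.Lib.P4a7640B.MassE

/-!
# The conditional means for fair coins, with an explicit bound

For fair coins the conditional mean at the block `k0 J N` is at most `C 2^(-J)`, `C` absolute: it is at most the
proportion of the `n ≤ N` such that no prime `p ∈ s` divides `n + h₀` exactly once, and this is at most
`(1/N) ∑_{m ≤ 2N} hst s 0 m + ∑_{p ∈ s} 2 / p^2`; `hall_bound` and `massE`.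
-/

open Filter Topology

namespace Pool.Agent.Lib.P4a7640B

open Pool.Agent.Lib.P4a7640 Pool.Agent.Lib.P4a7640N Pool.Agent.Lib.P4a7640Ces Pool.Agent.Lib.P4a7640N2

private lemma meanE_FC_eq (w : ℕ → ℝ) (H : Finset ℕ) (N : ℕ) (x : SS) :
    FC w H N x = ∑ n ∈ Finset.Icc 1 N, (w n / N) * chiT (oddT (MM H n)) x := by
  unfold FC
  rw [Finset.sum_div]
  refine Finset.sum_congr rfl fun n hn => ?_
  rw [Finset.mem_Icc] at hn
  have h1 : ∏ h ∈ H, sg (rnd x (n + h)) = chiT (oddT (MM H n)) x := by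
    rw [← sg_rnd, MM, rnd_prod x H (fun h => n + h) (fun h _ => by omega), sg_prod]
  rw [h1]
  ring

/-- the average over the signs at the primes of a list -/
private lemma meanE_AVL_le {θ : ℕ → ℝ} (hθ0 : ∀ p, 0 ≤ θ p) (hθ1 : ∀ p, θ p ≤ 1) {w : ℕ → ℝ}
    (hw : ∀ n, |w n| ≤ 1) {H : Finset ℕ} {N h₀ : ℕ} (hN : 1 ≤ N) (hh₀ : h₀ ∈ H)
    {L : List ℕ} (hL : L.Nodup) {s : Finset ℕ}
    (hs : ∀ p ∈ s, p ∈ L ∧ p.Prime ∧ ∀ h ∈ H, h ≠ h₀ → ¬ (p : ℤ) ∣ (h : ℤ) - h₀) (x : SS) :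
    |AVL θ L (FC w H N) x| ≤
      (∑ n ∈ Finset.Icc 1 N, (hst s (fun p => |1 - 2 * θ p|) (n + h₀) +
        ∑ p ∈ s, if p ^ 2 ∣ n + h₀ then (1:ℝ) else 0)) / N := by
  have hN0 : (0:ℝ) < N := by exact_mod_cast hN
  have h1 : FC w H N = fun x => ∑ n ∈ Finset.Icc 1 N, (w n / N) *
      chiT (oddT (MM H n)) x := funext (meanE_FC_eq w H N)
  have hle1 : ∀ p, |1 - 2 * θ p| ≤ 1 := by
    intro p
    rw [abs_le]
    constructor <;> linarith [hθ0 p, hθ1 p]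
  rw [h1, AVL_sum]
  simp only [AVL_const_mul]
  rw [Finset.sum_div]
  refine (Finset.abs_sum_le_sum_abs _ _).trans (Finset.sum_le_sum fun n hn => ?_)
  rw [Finset.mem_Icc] at hn
  rw [abs_mul, abs_div, abs_of_pos hN0, div_mul_eq_mul_div]
  apply div_le_div_of_nonneg_right _ hN0.le
  have hsq0 : ∀ p ∈ s, (0:ℝ) ≤ if p ^ 2 ∣ n + h₀ then (1:ℝ) else 0 := by
    intro p _
    split_ifs <;> norm_num
  have hh0 : 0 ≤ hst s (fun p => |1 - 2 * θ p|) (n + h₀) :=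
    HallTAux.hst_nonneg (fun p => abs_nonneg _) _
  have h2 := AVL_chiT_le θ L (oddT (MM H n)) hL x
  calc |w n| * |AVL θ L (chiT (oddT (MM H n))) x|
      ≤ 1 * ∏ p ∈ (oddT (MM H n)).filter (fun p => p ∈ L), |1 - 2 * θ p| :=
        mul_le_mul (hw n) h2 (abs_nonneg _) zero_le_one
    _ = ∏ p ∈ (oddT (MM H n)).filter (fun p => p ∈ L), |1 - 2 * θ p| := one_mul _
    _ ≤ _ := ?_
  by_cases hall : ∀ p ∈ s, ¬ p ^ 2 ∣ n + h₀
  · set T' := (oddT (MM H n)).filter (fun p => p ∈ L) with hT'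
    set s' := s.filter (fun p => p ∣ n + h₀) with hs'
    have hsub : s' ⊆ T' := by
      intro p hp
      rw [hs', Finset.mem_filter] at hp
      obtain ⟨hps, hd1⟩ := hp
      obtain ⟨h2, h3, h4⟩ := hs p hps
      rw [hT', Finset.mem_filter]
      exact ⟨mem_oddTU hh₀ hn.1 h3 hd1 (hall p hps) h4, h2⟩
    have h3 : ∏ p ∈ T', |1 - 2 * θ p| ≤ hst s (fun p => |1 - 2 * θ p|) (n + h₀) := by
      have h4 : hst s (fun p => |1 - 2 * θ p|) (n + h₀) = ∏ p ∈ s', |1 - 2 * θ p| := by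
        rw [hs', Finset.prod_filter]
        rfl
      rw [h4, ← Finset.prod_sdiff hsub]
      calc (∏ p ∈ T' \ s', |1 - 2 * θ p|) * ∏ p ∈ s', |1 - 2 * θ p|
          ≤ 1 * ∏ p ∈ s', |1 - 2 * θ p| := by
            apply mul_le_mul_of_nonneg_right _ (Finset.prod_nonneg fun p _ => abs_nonneg _)
            exact Finset.prod_le_one (fun p _ => abs_nonneg _) fun p _ => hle1 p
        _ = _ := one_mul _
    have h5 := Finset.sum_nonneg hsq0
    linarith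
  · push Not at hall
    obtain ⟨p, hp, hpd⟩ := hall
    have h3 : (1:ℝ) ≤ ∑ p ∈ s, if p ^ 2 ∣ n + h₀ then (1:ℝ) else 0 := by
      have h4 := Finset.single_le_sum hsq0 hp
      rw [if_pos hpd] at h4
      exact h4
    have h5 : ∏ p ∈ (oddT (MM H n)).filter (fun p => p ∈ L), |1 - 2 * θ p| ≤ 1 :=
      Finset.prod_le_one (fun p _ => abs_nonneg _) fun p _ => hle1 p
    linarith

/-- shifted sums of nonnegative functions -/
private lemma meanE_shift {f : ℕ → ℝ} (hf : ∀ n, 0 ≤ f n) {N h : ℕ} (hh : h ≤ N) :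
    ∑ n ∈ Finset.Icc 1 N, f (n + h) ≤ ∑ m ∈ Finset.Icc 1 (2 * N), f m := by
  have h1 : ∑ n ∈ Finset.Icc 1 N, f (n + h) = ∑ m ∈ (Finset.Icc 1 N).image (fun n => n + h), f m := by
    rw [Finset.sum_image]
    intro a _ b _ hab
    exact Nat.add_right_cancel hab
  rw [h1]
  refine Finset.sum_le_sum_of_subset_of_nonneg ?_ fun m _ _ => hf m
  intro m hm
  rw [Finset.mem_image] at hm
  obtain ⟨n, hn, rfl⟩ := hm
  rw [Finset.mem_Icc] at hn ⊢
  omega

private lemma meanE_mult (M : ℕ) {d : ℕ} (hd : 0 < d) :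
    ∑ m ∈ Finset.Icc 1 M, (if d ∣ m then (1:ℝ) else 0) ≤ (M:ℝ) / d := by
  have h1 := card_mult_le M 0 (d := d) (by omega)
  rw [← Finset.sum_filter, Finset.sum_const, nsmul_eq_mul, mul_one]
  simp only [add_zero, Nat.cast_zero] at h1
  exact h1

private lemma meanE_tail {K : ℕ} (hK : 1 ≤ K) (s : Finset ℕ) (hs : ∀ p ∈ s, K < p) :
    ∑ p ∈ s, (1:ℝ) / (p : ℝ) ^ 2 ≤ 1 / (K : ℝ) := by
  have h0 : ∀ M : ℕ, K ≤ M →
      ∑ n ∈ Finset.Ioc K M, (1:ℝ) / (n : ℝ) ^ 2 ≤ 1 / (K : ℝ) - 1 / (M : ℝ) := by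
    intro M hM
    induction M, hM using Nat.le_induction with
    | base => simp
    | succ M hM ih =>
      rw [← Finset.insert_Ioc_right_eq_Ioc_add_one hM, Finset.sum_insert (by simp)]
      have hM0 : (0:ℝ) < M := by exact_mod_cast (by omega : 0 < M)
      have h1 : (1:ℝ) / (((M + 1 : ℕ) : ℝ)) ^ 2 ≤ 1 / (M:ℝ) - 1 / ((M + 1 : ℕ) : ℝ) := by
        push_cast
        rw [div_sub_div _ _ hM0.ne' (by positivity), div_le_div_iff₀ (by positivity) (by positivity)]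
        nlinarith
      linarith
  have h1 : s ⊆ Finset.Ioc K (max K (s.sup id)) := by
    intro p hp
    rw [Finset.mem_Ioc]
    exact ⟨hs p hp, (Finset.le_sup (f := id) hp).trans (le_max_right _ _)⟩
  have h2 := h0 (max K (s.sup id)) (le_max_left _ _)
  have h3 := Finset.sum_le_sum_of_subset_of_nonneg (f := fun n : ℕ => (1:ℝ) / (n : ℝ) ^ 2) h1
    fun n _ _ => by positivity
  have h4 : (0:ℝ) ≤ 1 / ((max K (s.sup id) : ℕ) : ℝ) := by positivity
  linarith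

/-- the conditional means at the block `k0 J N` for fair coins are at most `C / 2^J` -/
theorem meanE : ∃ C : ℝ, 1 ≤ C ∧ ∀ r J : ℕ, 0 < r → ∀ᶠ N : ℕ in atTop,
    ∀ W : Finset ℕ → ℕ → ℝ, (∀ H n, |W H n| ≤ 1) → ∀ g x : SS,
      ∀ H D : Finset ℕ, H ⊆ Finset.range (N + 1) → H.card = r →
        |GB (fun _ => 1 / 2) (FF W g H D N) (k0 J N) (KN N - k0 J N) x| ≤ C / 2 ^ J := by
  obtain ⟨C, hC, hHT⟩ := hall_bound
  refine ⟨2 * C * Real.exp 3 + 1, by
    have : 0 < 2 * C * Real.exp 3 := by positivity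
    linarith, fun r J hr => ?_⟩
  filter_upwards [massE r J, eventually_ge_atTop 2,
    (tendsto_rt J).eventually_ge_atTop (2 ^ (J + 1) + 1)] with N hN hN2 hrt W hW g x H D hH hcard
  have hN1 : 1 ≤ N := by omega
  have hN0 : (0:ℝ) < N := by exact_mod_cast hN1
  obtain ⟨h₀, hh₀⟩ : H.Nonempty := Finset.card_pos.1 (by omega)
  set s : Finset ℕ := (Finset.Ioc (2 ^ k0 J N) N).filter
    (fun p : ℕ => p.Prime ∧ ∀ h ∈ H, h ≠ h₀ → ¬ (p : ℤ) ∣ (h : ℤ) - h₀) with hs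
  have hVs := hN H hH hcard h₀ hh₀ s hs
  have hk : k0 J N ≤ KN N := by
    unfold k0 KN
    refine Nat.clog_mono_right 2 ?_
    have := rt_le J N
    omega
  have hKN := le_two_pow_KN N
  have hK0 : 2 ^ (J + 1) ≤ 2 ^ k0 J N := by
    have h1 : rt J N ≤ 2 ^ k0 J N := Nat.le_pow_clog (by norm_num) _
    omega
  have hmem : ∀ p ∈ s, p ∈ DL (2 ^ k0 J N) (2 ^ KN N) ∧ p.Prime ∧
      ∀ h ∈ H, h ≠ h₀ → ¬ (p : ℤ) ∣ (h : ℤ) - h₀ := by
    intro p hp
    rw [hs, Finset.mem_filter, Finset.mem_Ioc] at hp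
    obtain ⟨⟨hp1, hp2⟩, hpp, hp3⟩ := hp
    exact ⟨mem_DL.2 ⟨hp1, by omega, hpp⟩, hpp, hp3⟩
  have hwt : ∀ n, |W H n * prodSeq (rnd g) H n * prodSeq (rnd (sD D)) H n| ≤ 1 := by
    intro n
    rw [abs_mul, abs_mul, abs_prodSeq, abs_prodSeq, mul_one, mul_one]
    exact hW H n
  have hh₀N : h₀ ≤ N := by
    have := Finset.mem_range.1 (hH hh₀)
    omega
  rw [GB_eq, Nat.add_sub_cancel' hk]
  unfold FF
  refine (meanE_AVL_le (θ := fun _ => 1 / 2) (fun _ => by norm_num) (fun _ => by norm_num) hwt hN1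
    hh₀ (nodup_DL _ _) hmem x).trans ?_
  have ha : (fun _ : ℕ => |(1:ℝ) - 2 * (1 / 2)|) = fun _ => 0 := by
    funext _
    norm_num
  rw [ha, Finset.sum_add_distrib]
  -- the main term
  have h1 : ∑ n ∈ Finset.Icc 1 N, hst s (fun _ => 0) (n + h₀) ≤
      2 * C * Real.exp 3 / 2 ^ J * N := by
    refine (meanE_shift (f := hst s fun _ => 0)
      (fun n => HallTAux.hst_nonneg (fun _ => le_refl _) n) hh₀N).trans ?_
    refine (hHT (2 * N) (by omega) s (fun _ => 0) (fun p hp => (hmem p hp).2.1) (fun p hp => by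
      rw [hs, Finset.mem_filter, Finset.mem_Ioc] at hp
      omega) (fun _ => le_refl _) (fun _ => zero_le_one)).trans ?_
    have h2 : Real.exp (-∑ p ∈ s, (1 - 0) / (p:ℝ)) ≤ Real.exp 3 / 2 ^ J := by
      have h3 : Real.exp 3 / 2 ^ J = Real.exp (-(J * Real.log 2 - 3)) := by
        rw [neg_sub, Real.exp_sub, mul_comm (J:ℝ), Real.exp_mul, Real.exp_log (by norm_num),
          Real.rpow_natCast]
      rw [h3]
      apply Real.exp_le_exp.2
      simp only [sub_zero]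
      linarith
    calc C * ((2 * N : ℕ) : ℝ) * Real.exp (-∑ p ∈ s, (1 - 0) / (p:ℝ))
        ≤ C * ((2 * N : ℕ) : ℝ) * (Real.exp 3 / 2 ^ J) := mul_le_mul_of_nonneg_left h2 (by positivity)
      _ = 2 * C * Real.exp 3 / 2 ^ J * N := by
        push_cast
        ring
  -- the squares
  have h2 : ∑ n ∈ Finset.Icc 1 N, ∑ p ∈ s, (if p ^ 2 ∣ n + h₀ then (1:ℝ) else 0) ≤
      1 / 2 ^ J * N := by
    rw [Finset.sum_comm]
    have h3 : ∀ p ∈ s, ∑ n ∈ Finset.Icc 1 N, (if p ^ 2 ∣ n + h₀ then (1:ℝ) else 0) ≤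
        2 * N * (1 / (p:ℝ) ^ 2) := by
      intro p hp
      have hp0 : 0 < p ^ 2 := Nat.pow_pos (hmem p hp).2.1.pos
      refine (meanE_shift (f := fun m => if p ^ 2 ∣ m then (1:ℝ) else 0) (fun n => by
        change (0:ℝ) ≤ if p ^ 2 ∣ n then (1:ℝ) else 0
        split_ifs <;> norm_num) hh₀N).trans ?_
      refine (meanE_mult (2 * N) hp0).trans (le_of_eq ?_)
      push_cast
      ring
    refine (Finset.sum_le_sum h3).trans ?_
    rw [← Finset.mul_sum]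
    have h4 := meanE_tail (K := 2 ^ k0 J N) Nat.one_le_two_pow s (fun p hp => by
      rw [hs, Finset.mem_filter, Finset.mem_Ioc] at hp
      exact hp.1.1)
    have h5 : (1:ℝ) / ((2 ^ k0 J N : ℕ) : ℝ) ≤ 1 / 2 ^ (J + 1) := by
      apply one_div_le_one_div_of_le (by positivity)
      exact_mod_cast hK0
    calc 2 * (N:ℝ) * ∑ p ∈ s, 1 / (p:ℝ) ^ 2 ≤ 2 * (N:ℝ) * (1 / 2 ^ (J + 1)) :=
          mul_le_mul_of_nonneg_left (h4.trans h5) (by positivity)
      _ = 1 / 2 ^ J * N := by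
        rw [pow_succ]
        field_simp
  rw [div_le_iff₀ hN0]
  calc _ ≤ 2 * C * Real.exp 3 / 2 ^ J * N + 1 / 2 ^ J * N := add_le_add h1 h2
    _ = (2 * C * Real.exp 3 + 1) / 2 ^ J * N := by ring

end Pool.Agent.Lib.P4a7640B
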