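import Mathlib
import Pool.Agent.Lib.P4a7640B.CoreP
import Pool.Agent.Lib.P4a7640B.MeanE

/-!
# Fair coins: an explicit form of the core

For fair coins all the constants of `coreP` are bounded below by an absolute constant times `ε³ / r²`: the
conditional mean at the block `k0 J N` is at most `C 2^(-J)`, so `2^J` may be taken of size `C / ε`, and the blocks
that are not bad contribute at most `t ∑ 1/(k+1) ≤ t (J + 3)` together.
-/

open Filter Topology

namespace Pool.Agent.Lib.P4a7640B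

open Pool.Agent.Lib.P4a7640 Pool.Agent.Lib.P4a7640N Pool.Agent.Lib.P4a7640Ces Pool.Agent.Lib.P4a7640N2

namespace CoreEAux

/-- a part of the harmonic series -/
lemma harm {k : ℕ} (hk : 1 ≤ k) (m : ℕ) :
    ∑ i ∈ Finset.range m, (1:ℝ) / (((k + i : ℕ) : ℝ) + 1) ≤
      Real.log ((k + m : ℕ) : ℝ) - Real.log (k : ℝ) := by
  induction m with
  | zero => simp
  | succ m ih =>
    rw [Finset.sum_range_succ]
    have hk0 : (0:ℝ) < ((k + m : ℕ) : ℝ) := by exact_mod_cast (by omega : 0 < k + m)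
    set a : ℝ := ((k + m : ℕ) : ℝ) with ha
    have e : (((k + (m + 1) : ℕ)) : ℝ) = a + 1 := by
      rw [ha]
      push_cast
      ring
    rw [e]
    have h1 : Real.log (a / (a + 1)) ≤ a / (a + 1) - 1 := Real.log_le_sub_one_of_pos (by positivity)
    rw [Real.log_div hk0.ne' (by positivity)] at h1
    have h2 : a / (a + 1) - 1 = -(1 / (a + 1)) := by
      field_simp
      ring
    rw [h2] at h1
    linarith

lemma KN_le {J N : ℕ} (hkN : 1 ≤ k0 J N) : (KN N : ℝ) ≤ (k0 J N : ℝ) * (2 ^ (J + 2) + 1) := by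
  have hk0' : (1 : ℝ) ≤ (k0 J N : ℝ) := by exact_mod_cast hkN
  have h11 := core_KN_le J N
  have h12 : KN N ≤ k0 J N + (k0 J N + 1) * 2 ^ (J + 1) := by omega
  have h13 : (KN N : ℝ) ≤ k0 J N + ((k0 J N : ℝ) + 1) * 2 ^ (J + 1) := by exact_mod_cast h12
  have h14 : (2 : ℝ) ^ (J + 2) = 2 * 2 ^ (J + 1) := by ring
  rw [h14]
  have h15 : (0 : ℝ) < 2 ^ (J + 1) := by positivity
  nlinarith

lemma harm_le {J N : ℕ} (hk0 : 1 ≤ k0 J N) (hk : k0 J N ≤ KN N) :
    ∑ i ∈ Finset.range (KN N - k0 J N), (1:ℝ) / (((k0 J N + i : ℕ) : ℝ) + 1) ≤ (J : ℝ) + 3 := by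
  refine (harm hk0 _).trans ?_
  rw [Nat.add_sub_cancel' hk]
  have hk0' : (0 : ℝ) < (k0 J N : ℝ) := by exact_mod_cast hk0
  have hKN' : (0 : ℝ) < (KN N : ℝ) := by exact_mod_cast (by omega : 0 < KN N)
  have h1 : (KN N : ℝ) ≤ (k0 J N : ℝ) * 2 ^ (J + 3) := by
    refine (KN_le hk0).trans ?_
    apply mul_le_mul_of_nonneg_left _ hk0'.le
    have h2 : (2 : ℝ) ^ (J + 3) = 2 ^ (J + 2) + 2 ^ (J + 2) := by ring
    have h3 : (1 : ℝ) ≤ 2 ^ (J + 2) := one_le_pow₀ (by norm_num)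
    linarith
  have h2 : Real.log (KN N : ℝ) ≤ Real.log (k0 J N : ℝ) + ((J + 3 : ℕ) : ℝ) * Real.log 2 := by
    rw [← Real.log_pow, ← Real.log_mul hk0'.ne' (by positivity)]
    exact Real.log_le_log hKN' h1
  have h3 : ((J + 3 : ℕ) : ℝ) * Real.log 2 ≤ (J : ℝ) + 3 := by
    have h4 : Real.log 2 ≤ 1 := by
      have := Real.log_two_lt_d9
      linarith
    have h5 : (0:ℝ) ≤ (J : ℝ) + 3 := by positivity
    push_cast
    nlinarith
  linarith

open scoped Classical in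
/-- the telescoping sum, with the bad blocks counted and the other blocks summed harmonically -/
lemma tele {θ : ℕ → ℝ} (hθ0 : ∀ p, 0 ≤ θ p) (hθ1 : ∀ p, θ p ≤ 1) {A : ℕ → ℕ}
    {W : ℕ → ℕ → Finset ℕ → ℕ → ℝ} (hW : ∀ N a H n, |W N a H n| ≤ 1) {g x : SS} {r J : ℕ} {t : ℝ}
    (ht : 0 < t) {N a : ℕ} (ha : a < A N) (hN : 1 ≤ N) (hk0 : 1 ≤ k0 J N) (hk : k0 J N ≤ KN N)
    {H D : Finset ℕ}
    (hH : H ⊆ Finset.range (N + 1)) (hc : H.card = r) (hD : D ⊆ Finset.Icc 1 (rt (J + 1) N)) :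
    |FF (W N a) g H D N x - GB θ (FF (W N a) g H D N) (k0 J N) (KN N - k0 J N) x| ≤
      t * (J + 3) + 16 * r / (k0 J N) *
        (((Finset.Ico (k0 J N) (KN N)).filter fun k => x ∈ BadF θ A W g r J t k).card : ℝ) := by
  refine (telescope θ (FF (W N a) g H D N) x (k0 J N) (KN N - k0 J N)).trans ?_
  have hk0' : (1 : ℝ) ≤ (k0 J N : ℝ) := by exact_mod_cast hk0
  have h1 : ∀ i ∈ Finset.range (KN N - k0 J N),
      |GB θ (FF (W N a) g H D N) (k0 J N + i) (KN N - k0 J N - i) x -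
        GB θ (FF (W N a) g H D N) (k0 J N + i + 1) (KN N - k0 J N - (i + 1)) x| ≤
      t * (1 / (((k0 J N + i : ℕ) : ℝ) + 1)) +
        (if x ∈ BadF θ A W g r J t (k0 J N + i) then 16 * (r : ℝ) / (k0 J N) else 0) := by
    intro i hi
    rw [Finset.mem_range] at hi
    have e1 : KN N - k0 J N - i = KN N - (k0 J N + i) := by omega
    have e2 : KN N - k0 J N - (i + 1) = KN N - (k0 J N + i + 1) := by omega
    rw [e1, e2]
    split_ifs with h2
    · have h3 := prop_block hθ0 hθ1 (hW N a) g (r := r) (N := N) (k := k0 J N + i) hN (by omega)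
        (by omega) D hH hc x
      refine h3.trans ?_
      have h4 : 16 * (r : ℝ) / ((k0 J N + i : ℕ) : ℝ) ≤ 16 * (r : ℝ) / (k0 J N) := by
        refine div_le_div_of_nonneg_left (by positivity) (by linarith) ?_
        push_cast
        linarith [(Nat.cast_nonneg i : (0 : ℝ) ≤ i)]
      have h5 : 0 ≤ t * (1 / (((k0 J N + i : ℕ) : ℝ) + 1)) := by positivity
      linarith
    · have h3 : |GB θ (FF (W N a) g H D N) (k0 J N + i) (KN N - (k0 J N + i)) x -
          GB θ (FF (W N a) g H D N) (k0 J N + i + 1) (KN N - (k0 J N + i + 1)) x| <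
          t / (((k0 J N + i : ℕ) : ℝ) + 1) := by
        by_contra hcon
        rw [not_lt] at hcon
        exact h2 ⟨N, hN, Nat.le_add_right _ _, by omega, a, ha, H, hH, hc, D, hD, hcon⟩
      rw [add_zero, mul_one_div]
      exact h3.le
  refine (Finset.sum_le_sum h1).trans ?_
  rw [Finset.sum_add_distrib, ← Finset.mul_sum]
  have h6 := mul_le_mul_of_nonneg_left (harm_le hk0 hk) ht.le
  have h7 : ∑ i ∈ Finset.range (KN N - k0 J N),
      (if x ∈ BadF θ A W g r J t (k0 J N + i) then 16 * (r : ℝ) / (k0 J N) else 0) =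
      16 * r / (k0 J N) *
        (((Finset.Ico (k0 J N) (KN N)).filter fun k => x ∈ BadF θ A W g r J t k).card : ℝ) := by
    rw [← Finset.sum_Ico_eq_sum_range
      (fun k => if x ∈ BadF θ A W g r J t k then 16 * (r : ℝ) / (k0 J N) else 0),
      ← Finset.sum_filter, Finset.sum_const, nsmul_eq_mul, mul_comm]
  rw [h7]
  linarith

lemma sq_le (J : ℕ) : (((J : ℝ) + 3)) ^ 2 ≤ 16 * 2 ^ J := by
  induction J with
  | zero => norm_num
  | succ J ih =>
    rw [pow_succ 2 J]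
    push_cast
    have h : (0:ℝ) ≤ (J:ℝ) := Nat.cast_nonneg J
    nlinarith [sq_nonneg (J:ℝ)]

end CoreEAux

open CoreEAux

open scoped Classical in
/-- for fair coins a correlation greater than `ε` forces a positive proportion of bad blocks, with explicit
constants -/
theorem coreE : ∃ c : ℝ, 0 < c ∧ ∀ (r : ℕ) (ε : ℝ), 0 < r → 0 < ε → ε ≤ 1 →
    ∃ (J : ℕ) (t s κ : ℝ), 0 < t ∧ 0 < s ∧ 0 < κ ∧ c * ε ^ 3 ≤ t ^ 2 ∧ c * ε ^ 3 / r ^ 2 ≤ s ∧
      c * ε ^ 3 / r ^ 2 ≤ κ ∧ c * ε ^ 3 / r ^ 2 ≤ (1 / 2) ^ (J + 1) ∧ ∀ᶠ N : ℕ in atTop,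
      ∀ (A : ℕ → ℕ) (W : ℕ → ℕ → Finset ℕ → ℕ → ℝ), (∀ N a H n, |W N a H n| ≤ 1) →
      ∀ g x y : SS, ES y (fun p => g p * x p) (rt (J + 1) N) (2 * N) ≤ s →
      ∀ a < A N, ∀ H : Finset ℕ, H ⊆ Finset.range (N + 1) → H.card = r →
        ε * N < |∑ n ∈ Finset.Icc 1 N, W N a H n * prodSeq (rnd y) H n| →
        κ * Real.log N ≤
          (((Finset.Ico (k0 J N) (KN N)).filter
            fun k => x ∈ BadF (fun _ => 1 / 2) A W g r J t k).card : ℝ) := by
  obtain ⟨C, hC, hmean⟩ := meanE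
  have hC0 : 0 < C := by linarith
  refine ⟨1 / (32768 * C), by positivity, fun r ε hr hε hε1 => ?_⟩
  have hr' : (0 : ℝ) < r := by exact_mod_cast hr
  have hr1 : (1 : ℝ) ≤ r := by exact_mod_cast hr
  have hθ0 : ∀ _ : ℕ, (0:ℝ) ≤ 1 / 2 := fun _ => by norm_num
  have hθ1 : ∀ _ : ℕ, (1:ℝ) / 2 ≤ 1 := fun _ => by norm_num
  obtain ⟨n, hn1, hn2⟩ := exists_nat_pow_near (x := 4 * C / ε) (y := 2) (by
    rw [le_div_iff₀ hε]
    linarith) (by norm_num)
  set J := n + 1 with hJ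
  have hJ1 : 4 * C / ε < 2 ^ J := hn2
  have hJ2 : (2:ℝ) ^ J ≤ 8 * C / ε := by
    rw [hJ, pow_succ]
    calc (2:ℝ) ^ n * 2 ≤ 4 * C / ε * 2 := mul_le_mul_of_nonneg_right hn1 (by norm_num)
      _ = 8 * C / ε := by ring
  have hJp : (0:ℝ) < 2 ^ J := by positivity
  have hJ3 : (0:ℝ) < (J:ℝ) + 3 := by positivity
  have hJ4 : ε * 2 ^ J ≤ 8 * C := by
    rw [le_div_iff₀ hε] at hJ2
    linarith
  have hCJ : C / 2 ^ J ≤ ε / 4 := by
    rw [div_lt_iff₀ hε] at hJ1
    rw [div_le_div_iff₀ hJp (by norm_num)]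
    linarith
  have hr2 : ε ^ 3 / r ^ 2 ≤ ε ^ 3 / r := by
    apply div_le_div_of_nonneg_left (by positivity) hr'
    nlinarith
  have hε3 : ε ^ 3 ≤ ε ^ 2 := pow_le_pow_of_le_one hε.le hε1 (by norm_num)
  have hε2 : ε ^ 2 ≤ ε := by nlinarith
  refine ⟨J, ε / (16 * (J + 3)), ε / (16 * r), ε / (64 * r * (2 ^ (J + 2) + 1)), by positivity,
    by positivity, by positivity, ?_, ?_, ?_, ?_, ?_⟩
  · -- `t`
    have h1 := sq_le J
    rw [div_pow, mul_pow, le_div_iff₀ (by positivity)]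
    have h2 : ε * ((J:ℝ) + 3) ^ 2 ≤ 128 * C := by
      calc ε * ((J:ℝ) + 3) ^ 2 ≤ ε * (16 * 2 ^ J) := mul_le_mul_of_nonneg_left h1 hε.le
        _ = 16 * (ε * 2 ^ J) := by ring
        _ ≤ 16 * (8 * C) := mul_le_mul_of_nonneg_left hJ4 (by norm_num)
        _ = 128 * C := by ring
    calc 1 / (32768 * C) * ε ^ 3 * (16 ^ 2 * ((J:ℝ) + 3) ^ 2)
        = ε ^ 2 * (ε * ((J:ℝ) + 3) ^ 2 / (128 * C)) := by
          field_simp
          ring
      _ ≤ ε ^ 2 * 1 := by
          apply mul_le_mul_of_nonneg_left _ (by positivity)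
          rw [div_le_one (by positivity)]
          exact h2
      _ = ε ^ 2 := mul_one _
  · -- `s`
    calc 1 / (32768 * C) * ε ^ 3 / r ^ 2 = 1 / (32768 * C) * (ε ^ 3 / r ^ 2) := by ring
      _ ≤ 1 / 16 * (ε / r) := by
          apply mul_le_mul _ _ (by positivity) (by norm_num)
          · apply one_div_le_one_div_of_le (by norm_num)
            linarith
          · exact hr2.trans (div_le_div_of_nonneg_right (hε3.trans hε2) hr'.le)
      _ = ε / (16 * r) := by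
          field_simp
  · -- `κ`
    have h1 : (2:ℝ) ^ (J + 2) + 1 ≤ 5 * 2 ^ J := by
      have h2 : (1:ℝ) ≤ 2 ^ J := one_le_pow₀ (by norm_num)
      have h3 : (2:ℝ) ^ (J + 2) = 4 * 2 ^ J := by ring
      linarith
    have h4 : 64 * (r:ℝ) * (2 ^ (J + 2) + 1) * ε ≤ 2560 * C * r := by
      calc 64 * (r:ℝ) * (2 ^ (J + 2) + 1) * ε ≤ 64 * (r:ℝ) * (5 * 2 ^ J) * ε := by gcongr
        _ = 320 * r * (ε * 2 ^ J) := by ring
        _ ≤ 320 * r * (8 * C) := by gcongr
        _ = 2560 * C * r := by ring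
    have h5 : ε ^ 2 / (2560 * C * r) ≤ ε / (64 * r * (2 ^ (J + 2) + 1)) := by
      rw [div_le_div_iff₀ (by positivity) (by positivity)]
      calc ε ^ 2 * (64 * r * (2 ^ (J + 2) + 1)) = ε * (64 * (r:ℝ) * (2 ^ (J + 2) + 1) * ε) := by ring
        _ ≤ ε * (2560 * C * r) := mul_le_mul_of_nonneg_left h4 hε.le
    refine le_trans ?_ h5
    calc 1 / (32768 * C) * ε ^ 3 / r ^ 2 = 1 / (32768 * C) * (ε ^ 3 / r ^ 2) := by ring
      _ ≤ 1 / (2560 * C) * (ε ^ 2 / r) := by
          apply mul_le_mul _ _ (by positivity) (by positivity)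
          · apply one_div_le_one_div_of_le (by positivity)
            linarith
          · exact hr2.trans (div_le_div_of_nonneg_right hε3 hr'.le)
      _ = ε ^ 2 / (2560 * C * r) := by
          field_simp
  · -- `J`
    have h1 : ((1:ℝ) / 2) ^ (J + 1) = 1 / (2 * 2 ^ J) := by
      rw [one_div_pow, pow_succ]
      ring
    rw [h1]
    have h2 : ε / (16 * C) ≤ 1 / (2 * 2 ^ J) := by
      rw [div_le_div_iff₀ (by positivity) (by positivity)]
      linarith
    refine le_trans ?_ h2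
    have h3 : ε ^ 3 / r ^ 2 ≤ ε := by
      refine (div_le_self (by positivity) ?_).trans (hε3.trans hε2)
      nlinarith
    calc 1 / (32768 * C) * ε ^ 3 / r ^ 2 = 1 / (32768 * C) * (ε ^ 3 / r ^ 2) := by ring
      _ ≤ 1 / (16 * C) * ε := by
          apply mul_le_mul _ h3 (by positivity) (by positivity)
          apply one_div_le_one_div_of_le (by positivity)
          linarith
      _ = ε / (16 * C) := by ring
  filter_upwards [hmean r J hr, eventually_ge_atTop 1, (core_tendsto_k0 J).eventually_ge_atTop 1]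
    with N hJN hN hkN A W hW g x y hES a ha H hH hcard hbig
  have hN' : (0 : ℝ) < N := by exact_mod_cast hN
  have hk : k0 J N ≤ KN N := by
    unfold k0 KN
    refine Nat.clog_mono_right 2 ?_
    have := rt_le J N
    omega
  have hD : DS y (fun p => g p * x p) (rt (J + 1) N) ⊆ Finset.Icc 1 (rt (J + 1) N) :=
    Finset.filter_subset _ _
  have h1 := tele (θ := fun _ => 1 / 2) hθ0 hθ1 hW (g := g) (x := x) (t := ε / (16 * (J + 3)))
    (by positivity) ha hN hkN hk hH hcard hD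
  have h2 := (hJN (W N a) (hW N a) g x H (DS y (fun p => g p * x p) (rt (J + 1) N)) hH hcard).trans
    hCJ
  have h3 := compareU y g x (hW N a) (rt (J + 1) N) hH hN
  have h4 : 4 * (H.card : ℝ) * ES y (fun p => g p * x p) (rt (J + 1) N) (2 * N) ≤ ε / 4 := by
    rw [hcard]
    calc 4 * (r : ℝ) * ES y (fun p => g p * x p) (rt (J + 1) N) (2 * N) ≤
        4 * (r : ℝ) * (ε / (16 * r)) := mul_le_mul_of_nonneg_left hES (by positivity)
      _ = ε / 4 := by field_simp; ring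
  have h5 : ε / (16 * ((J:ℝ) + 3)) * (J + 3) = ε / 16 := by
    field_simp
  rw [h5] at h1
  set B := (∑ n ∈ Finset.Icc 1 N, W N a H n * prodSeq (rnd y) H n) with hB
  set m : ℝ := (((Finset.Ico (k0 J N) (KN N)).filter
    fun k => x ∈ BadF (fun _ => 1 / 2) A W g r J (ε / (16 * (J + 3))) k).card : ℝ) with hm
  have h6 : ε < |B / (N : ℝ)| := by
    rw [abs_div, abs_of_pos hN', lt_div_iff₀ hN']
    exact hbig
  have hk0' : (1 : ℝ) ≤ (k0 J N : ℝ) := by exact_mod_cast hkN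
  have h7 : ε / 4 ≤ 16 * r / (k0 J N) * m := by
    have h8 : |B / (N : ℝ)| ≤ ε / 4 + ε / 4 + (ε / 16 + 16 * r / (k0 J N) * m) := by
      rw [abs_le] at h1 h2 h3 ⊢
      constructor <;> linarith [h1.1, h1.2, h2.1, h2.2, h3.1, h3.2]
    linarith
  have h9 : ε / 4 * (k0 J N) ≤ 16 * r * m := by
    have : 16 * r / (k0 J N) * m = 16 * r * m / (k0 J N) := by ring
    rw [this, le_div_iff₀ (by linarith)] at h7
    exact h7
  have h10 := KN_le hkN
  have h16 : (0 : ℝ) < 2 ^ (J + 2) + 1 := by positivity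
  have h17 : Real.log N ≤ (KN N : ℝ) := by
    have h18 : (N : ℝ) ≤ 2 ^ KN N := by
      have h19 := le_two_pow_KN N
      have h20 : N ≤ 2 ^ KN N := by omega
      exact_mod_cast h20
    have h21 : Real.log N ≤ Real.log (2 ^ KN N) := Real.log_le_log hN' h18
    rw [Real.log_pow] at h21
    have h22 : Real.log 2 ≤ 1 := by
      have := Real.log_two_lt_d9
      linarith
    calc Real.log N ≤ (KN N : ℝ) * Real.log 2 := h21
      _ ≤ (KN N : ℝ) * 1 := mul_le_mul_of_nonneg_left h22 (Nat.cast_nonneg _)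
      _ = KN N := mul_one _
  calc ε / (64 * r * (2 ^ (J + 2) + 1)) * Real.log N
      ≤ ε / (64 * r * (2 ^ (J + 2) + 1)) * (KN N : ℝ) :=
        mul_le_mul_of_nonneg_left h17 (by positivity)
    _ ≤ ε / (64 * r * (2 ^ (J + 2) + 1)) * ((k0 J N : ℝ) * (2 ^ (J + 2) + 1)) :=
        mul_le_mul_of_nonneg_left h10 (by positivity)
    _ = ε / 4 * (k0 J N) / (16 * r) := by
        field_simp
        ring
    _ ≤ 16 * r * m / (16 * r) := div_le_div_of_nonneg_right h9 (by positivity)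
    _ = m := by field_simp

end Pool.Agent.Lib.P4a7640B
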