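import Mathlib
import Pool.Agent.Lib.P4a7640B.ParF

/-!
# Large correlations at one scale; winning at one scale; predictors
-/

open Filter Topology

namespace Pool.Agent.Lib.P4a7640B

open Pool.Agent.Lib.P4a7640 Pool.Agent.Lib.P4a7640N Pool.Agent.Lib.P4a7640Ces

/-- some correlation of `f` of order `r` over `n ≤ N`, with shifts up to `N` and the weight `1` or one of the
weights `w N a`, `a < A N`, is greater than `ε` in absolute value -/
def DevN (A : ℕ → ℕ) (w : ℕ → ℕ → ℕ → ℝ) (r : ℕ) (ε : ℝ) (N : ℕ) (f : ℕ → ℤˣ) : Prop :=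
  ∃ H : Finset ℕ, H ⊆ Finset.range (N + 1) ∧ H.card = r ∧
    ∃ v : ℕ → ℝ, (v = (fun _ => 1) ∨ ∃ a < A N, v = w N a) ∧
      ε * N < |∑ n ∈ Finset.Icc 1 N, v n * ∏ h ∈ H, ((f (n + h) : ℤ) : ℝ)|

/-- `f` is close to `y` at the scale `N`: the sum of `1 / p` over the primes `p` with `N ^ η < p ≤ 2 N` and
`f p ≠ y p` is at most `η` -/
def Near (η : ℝ) (N : ℕ) (f y : ℕ → ℤˣ) : Prop :=
  ∑ p ∈ (Finset.Icc 1 (2 * N)).filter
    (fun p : ℕ => p.Prime ∧ (N : ℝ) ^ η < p ∧ f p ≠ y p), (1 : ℝ) / p ≤ η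

/-- `P k` holds for at least `η log N` of the numbers `k` with `2 ^ k ≤ 4 N` -/
def Often (η : ℝ) (N : ℕ) (P : ℕ → Prop) : Prop :=
  ∃ s : Finset ℕ, η * Real.log N ≤ s.card ∧ ∀ k ∈ s, 2 ^ k ≤ 4 * N ∧ P k

/-- a predictor: `b p x ∈ [-1, 1]` depends only on the signs `x q` at the primes `q < p` -/
def IsPredictor (b : ℕ → SS → ℝ) : Prop :=
  (∀ p x, |b p x| ≤ 1) ∧ ∀ p x y, (∀ q : ℕ, q.Prime → q < p → x q = y q) → b p x = b p y

/-- the gain of the predictor `b` up to `M` -/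
noncomputable def gain (b : ℕ → SS → ℝ) (x : SS) (M : ℕ) : ℝ :=
  ∑ p ∈ (Finset.Icc 1 M).filter Nat.Prime, b p x * ((x p : ℤ) : ℝ)

end Pool.Agent.Lib.P4a7640B
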