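import Mathlib
import Pool.Agent.Lib.P4a7640B.ParP

/-!
# Dependent random signs against a betting strategy: exponentially small probability

By induction on `M`: `∫ K M (fun p => ε p ω) ∂P ≤ ∏_{p ≤ M} (1 + ρ p)`, where the integral is written as
the finite sum `Dep_Z` over the patterns (finsets of the primes `≤ M` with sign `-1`).
Then Markov: `P (exp (η π(M)) ≤ K M) ≤ exp (-η π(M) + ∑_{p ≤ M, prime} ρ p) ≤ exp (-η π(M) / 2)` for large `M`.
If the strategy wins at `≥ η log N` of the scales `2^k ≤ 4N`, it wins at some scale `2^k` with `k + 1 ≥ η log N`.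
-/

open MeasureTheory Filter Topology

namespace Pool.Agent.Lib.P4a7640B

open Pool.Agent.Lib.P4a7640 Pool.Agent.Lib.P4a7640N Pool.Agent.Lib.P4a7640Ces

/-- the sign pattern with the sign `-1` exactly on `A` -/
private def depS (A : Finset ℕ) : SS := fun p => if p ∈ A then -1 else 1

/-- the primes `≤ M` -/
private def depPr (M : ℕ) : Finset ℕ := (Finset.Icc 1 M).filter Nat.Prime

/-- the event that the signs at the primes `≤ M` are those of the pattern of `A` -/
private def depEv {Ω : Type*} (ε : ℕ → Ω → ℤˣ) (M : ℕ) (A : Finset ℕ) : Set Ω :=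
  {ω | ∀ q : ℕ, q.Prime → q ≤ M → ε q ω = depS A q}

private noncomputable def depZ {Ω : Type*} [MeasurableSpace Ω] (P : Measure Ω) (ε : ℕ → Ω → ℤˣ)
    (K : ℕ → SS → ℝ) (M : ℕ) : ℝ :=
  ∑ A ∈ (depPr M).powerset, P.real (depEv ε M A) * K M (depS A)

private lemma depPr_succ_of_prime {M : ℕ} (h : (M + 1).Prime) :
    depPr (M + 1) = insert (M + 1) (depPr M) := by
  ext q
  simp only [depPr, Finset.mem_filter, Finset.mem_Icc, Finset.mem_insert]
  constructor
  · rintro ⟨⟨h1, h2⟩, h3⟩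
    by_cases hq : q = M + 1
    · exact Or.inl hq
    · exact Or.inr ⟨⟨h1, by omega⟩, h3⟩
  · rintro (rfl | ⟨⟨h1, h2⟩, h3⟩)
    · exact ⟨⟨by omega, le_rfl⟩, h⟩
    · exact ⟨⟨h1, by omega⟩, h3⟩

private lemma depPr_succ_of_not_prime {M : ℕ} (h : ¬ (M + 1).Prime) :
    depPr (M + 1) = depPr M := by
  ext q
  simp only [depPr, Finset.mem_filter, Finset.mem_Icc]
  constructor
  · rintro ⟨⟨h1, h2⟩, h3⟩
    have hq : q ≠ M + 1 := by rintro rfl; exact h h3
    exact ⟨⟨h1, by omega⟩, h3⟩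
  · rintro ⟨⟨h1, h2⟩, h3⟩
    exact ⟨⟨h1, by omega⟩, h3⟩

private lemma not_mem_depPr (M : ℕ) : M + 1 ∉ depPr M := by
  simp [depPr]

private lemma depS_update {A : Finset ℕ} {p : ℕ} (hp : p ∉ A) :
    Function.update (depS A) p 1 = depS A := by
  funext q
  by_cases hq : q = p
  · subst hq; simp [depS, hp]
  · simp [Function.update_of_ne hq]

private lemma depS_update_neg (A : Finset ℕ) (p : ℕ) :
    Function.update (depS A) p (-1) = depS (insert p A) := by
  funext q
  by_cases hq : q = p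
  · subst hq; simp [depS]
  · simp [depS, hq]

private lemma depZ_zero {θ : ℕ → ℝ} {K : ℕ → SS → ℝ} (hK : IsStrategy θ K) {Ω : Type*}
    [MeasurableSpace Ω] {P : Measure Ω} [IsProbabilityMeasure P] (ε : ℕ → Ω → ℤˣ) :
    depZ P ε K 0 = 1 := by
  have h0 : depPr 0 = ∅ := by simp [depPr]
  have hE : depEv ε 0 ∅ = Set.univ := by
    ext ω
    simp only [depEv, Set.mem_ofPred_eq, Set.mem_univ, iff_true]
    intro q hq hq0
    have := hq.pos
    omega
  simp only [depZ, h0, Finset.powerset_empty, Finset.sum_singleton, hE, hK.1, mul_one]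
  simp

private lemma depZ_nonneg {θ : ℕ → ℝ} {K : ℕ → SS → ℝ} (hK : IsStrategy θ K) {Ω : Type*}
    [MeasurableSpace Ω] {P : Measure Ω} (ε : ℕ → Ω → ℤˣ) (M : ℕ) : 0 ≤ depZ P ε K M :=
  Finset.sum_nonneg fun _ _ => mul_nonneg measureReal_nonneg (hK.2.1 _ _)

private lemma depZ_succ_of_not_prime {θ : ℕ → ℝ} {K : ℕ → SS → ℝ} (hK : IsStrategy θ K) {Ω : Type*}
    [MeasurableSpace Ω] {P : Measure Ω} (ε : ℕ → Ω → ℤˣ) {M : ℕ} (h : ¬ (M + 1).Prime) :
    depZ P ε K (M + 1) = depZ P ε K M := by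
  unfold depZ
  rw [depPr_succ_of_not_prime h]
  refine Finset.sum_congr rfl fun A _ => ?_
  have hE : depEv ε (M + 1) A = depEv ε M A := by
    ext ω
    simp only [depEv, Set.mem_ofPred_eq]
    constructor
    · intro H q hq hqM
      exact H q hq (by omega)
    · intro H q hq hqM
      have hq' : q ≠ M + 1 := by rintro rfl; exact h hq
      exact H q hq (by omega)
  rw [hE, hK.2.2.2.1 M _ h]

private lemma depZ_succ_of_prime {θ : ℕ → ℝ} {K : ℕ → SS → ℝ} (hK : IsStrategy θ K) {Ω : Type*}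
    [MeasurableSpace Ω] {P : Measure Ω} {ε : ℕ → Ω → ℤˣ} {ρ : ℕ → ℝ}
    (hP : ∀ p : ℕ, p.Prime → ∀ s : SS, ∀ u : ℤˣ,
      P.real {ω | (∀ q : ℕ, q.Prime → q < p → ε q ω = s q) ∧ ε p ω = u} ≤
        (1 + ρ p) * (if u = 1 then 1 - θ p else θ p) *
          P.real {ω | ∀ q : ℕ, q.Prime → q < p → ε q ω = s q}) {M : ℕ} (h : (M + 1).Prime) :
    depZ P ε K (M + 1) ≤ (1 + ρ (M + 1)) * depZ P ε K M := by
  unfold depZ
  rw [depPr_succ_of_prime h, Finset.sum_powerset_insert (not_mem_depPr M), ← Finset.sum_add_distrib,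
    Finset.mul_sum]
  refine Finset.sum_le_sum fun A hA => ?_
  have hA' : M + 1 ∉ A := fun hc => not_mem_depPr M (Finset.mem_powerset.mp hA hc)
  have hE0 : depEv ε M A = {ω | ∀ q : ℕ, q.Prime → q < M + 1 → ε q ω = depS A q} := by
    ext ω
    simp only [depEv, Set.mem_ofPred_eq, Nat.lt_succ_iff]
  have hE1 : depEv ε (M + 1) A =
      {ω | (∀ q : ℕ, q.Prime → q < M + 1 → ε q ω = depS A q) ∧ ε (M + 1) ω = 1} := by
    ext ω
    simp only [depEv, Set.mem_ofPred_eq]
    constructor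
    · intro H
      refine ⟨fun q hq hqM => H q hq hqM.le, ?_⟩
      rw [H (M + 1) h le_rfl]
      simp [depS, hA']
    · rintro ⟨H1, H2⟩ q hq hqM
      by_cases hq' : q = M + 1
      · subst hq'
        rw [H2]
        simp [depS, hA']
      · exact H1 q hq (by omega)
  have hE2 : depEv ε (M + 1) (insert (M + 1) A) =
      {ω | (∀ q : ℕ, q.Prime → q < M + 1 → ε q ω = depS A q) ∧ ε (M + 1) ω = -1} := by
    ext ω
    simp only [depEv, Set.mem_ofPred_eq]
    constructor
    · intro H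
      refine ⟨fun q hq hqM => ?_, ?_⟩
      · rw [H q hq hqM.le]
        simp [depS, hqM.ne]
      · rw [H (M + 1) h le_rfl]
        simp [depS]
    · rintro ⟨H1, H2⟩ q hq hqM
      by_cases hq' : q = M + 1
      · subst hq'
        rw [H2]
        simp [depS]
      · rw [H1 q hq (by omega)]
        simp [depS, hq']
  have hk1 : K (M + 1) (depS A) = K (M + 1) (Function.update (depS A) (M + 1) 1) := by
    rw [depS_update hA']
  have hk2 : K (M + 1) (depS (insert (M + 1) A)) =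
      K (M + 1) (Function.update (depS A) (M + 1) (-1)) := by
    rw [depS_update_neg]
  have hfair := hK.2.2.2.2 (M + 1) (depS A) h
  rw [Nat.add_sub_cancel] at hfair
  have h1 := hP (M + 1) h (depS A) 1
  have h2 := hP (M + 1) h (depS A) (-1)
  rw [if_pos rfl] at h1
  rw [if_neg (by decide)] at h2
  rw [← hE1, ← hE0] at h1
  rw [← hE2, ← hE0] at h2
  rw [hk1, hk2]
  have hK1 := hK.2.1 (M + 1) (Function.update (depS A) (M + 1) 1)
  have hK2 := hK.2.1 (M + 1) (Function.update (depS A) (M + 1) (-1))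
  calc P.real (depEv ε (M + 1) A) * K (M + 1) (Function.update (depS A) (M + 1) 1) +
        P.real (depEv ε (M + 1) (insert (M + 1) A)) *
          K (M + 1) (Function.update (depS A) (M + 1) (-1))
      ≤ ((1 + ρ (M + 1)) * (1 - θ (M + 1)) * P.real (depEv ε M A)) *
          K (M + 1) (Function.update (depS A) (M + 1) 1) +
        ((1 + ρ (M + 1)) * θ (M + 1) * P.real (depEv ε M A)) *
          K (M + 1) (Function.update (depS A) (M + 1) (-1)) :=
        add_le_add (mul_le_mul_of_nonneg_right h1 hK1) (mul_le_mul_of_nonneg_right h2 hK2)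
    _ = (1 + ρ (M + 1)) * (P.real (depEv ε M A) *
          ((1 - θ (M + 1)) * K (M + 1) (Function.update (depS A) (M + 1) 1) +
            θ (M + 1) * K (M + 1) (Function.update (depS A) (M + 1) (-1)))) := by ring
    _ = (1 + ρ (M + 1)) * (P.real (depEv ε M A) * K M (depS A)) := by rw [hfair]

private lemma depZ_le {θ : ℕ → ℝ} {K : ℕ → SS → ℝ} (hK : IsStrategy θ K) {Ω : Type*}
    [MeasurableSpace Ω] {P : Measure Ω} [IsProbabilityMeasure P] {ε : ℕ → Ω → ℤˣ} {ρ : ℕ → ℝ}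
    (hP : ∀ p : ℕ, p.Prime → ∀ s : SS, ∀ u : ℤˣ,
      P.real {ω | (∀ q : ℕ, q.Prime → q < p → ε q ω = s q) ∧ ε p ω = u} ≤
        (1 + ρ p) * (if u = 1 then 1 - θ p else θ p) *
          P.real {ω | ∀ q : ℕ, q.Prime → q < p → ε q ω = s q}) (M : ℕ) :
    depZ P ε K M ≤ Real.exp (∑ p ∈ depPr M, ρ p) := by
  induction M with
  | zero =>
    rw [depZ_zero hK]
    have h0 : depPr 0 = ∅ := by simp [depPr]
    simp [h0]
  | succ M ih =>
    by_cases h : (M + 1).Prime
    · rw [depPr_succ_of_prime h, Finset.sum_insert (not_mem_depPr M), Real.exp_add]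
      refine (depZ_succ_of_prime hK hP h).trans ?_
      refine mul_le_mul ?_ ih (depZ_nonneg hK ε M) (Real.exp_pos _).le
      have := Real.add_one_le_exp (ρ (M + 1))
      linarith
    · rw [depZ_succ_of_not_prime hK ε h, depPr_succ_of_not_prime h]
      exact ih

/-- Markov's inequality -/
private lemma dep_markov {θ : ℕ → ℝ} {K : ℕ → SS → ℝ} (hK : IsStrategy θ K) {Ω : Type*}
    [MeasurableSpace Ω] {P : Measure Ω} [IsProbabilityMeasure P] (ε : ℕ → Ω → ℤˣ) (M : ℕ) {c : ℝ}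
    (hc : 0 < c) : P.real {ω | c ≤ K M (fun p => ε p ω)} * c ≤ depZ P ε K M := by
  classical
  set T := (depPr M).powerset.filter fun A => c ≤ K M (depS A) with hT
  have hsub : {ω | c ≤ K M (fun p => ε p ω)} ⊆ ⋃ A ∈ T, depEv ε M A := by
    intro ω hω
    simp only [Set.mem_ofPred_eq] at hω
    set A := (depPr M).filter fun p => ε p ω = -1 with hA
    have hs : ∀ p : ℕ, p.Prime → p ≤ M → ε p ω = depS A p := by
      intro p hp hpM
      have hmem : p ∈ depPr M := by
        simp only [depPr, Finset.mem_filter, Finset.mem_Icc]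
        exact ⟨⟨hp.one_lt.le, hpM⟩, hp⟩
      rcases Int.units_eq_one_or (ε p ω) with h1 | h1
      · have hp' : p ∉ A := by
          simp only [hA, Finset.mem_filter, not_and]
          intro _
          rw [h1]
          decide
        simp [depS, hp', h1]
      · have hp' : p ∈ A := by
          simp only [hA, Finset.mem_filter]
          exact ⟨hmem, h1⟩
        simp [depS, hp', h1]
    have hKe : K M (fun p => ε p ω) = K M (depS A) := hK.2.2.1 M _ _ hs
    simp only [Set.mem_iUnion]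
    refine ⟨A, ?_, fun q hq hqM => hs q hq hqM⟩
    simp only [hT, Finset.mem_filter, Finset.mem_powerset]
    exact ⟨Finset.filter_subset _ _, hKe ▸ hω⟩
  calc P.real {ω | c ≤ K M (fun p => ε p ω)} * c
      ≤ (∑ A ∈ T, P.real (depEv ε M A)) * c := by
        refine mul_le_mul_of_nonneg_right ?_ hc.le
        exact (measureReal_mono hsub (measure_ne_top _ _)).trans (measureReal_biUnion_finset_le _ _)
    _ = ∑ A ∈ T, P.real (depEv ε M A) * c := Finset.sum_mul _ _ _
    _ ≤ ∑ A ∈ T, P.real (depEv ε M A) * K M (depS A) := by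
        refine Finset.sum_le_sum fun A hA => ?_
        exact mul_le_mul_of_nonneg_left (Finset.mem_filter.mp hA).2 measureReal_nonneg
    _ ≤ depZ P ε K M := by
        refine Finset.sum_le_sum_of_subset_of_nonneg (Finset.filter_subset _ _) fun A _ _ => ?_
        exact mul_nonneg measureReal_nonneg (hK.2.1 _ _)

/-- the probability that the capital is large -/
theorem prob_ge_le {θ : ℕ → ℝ} {K : ℕ → SS → ℝ} (hK : IsStrategy θ K) {Ω : Type*}
    [MeasurableSpace Ω] {P : Measure Ω} [IsProbabilityMeasure P] {ε : ℕ → Ω → ℤˣ} {ρ : ℕ → ℝ}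
    (hP : ∀ p : ℕ, p.Prime → ∀ s : SS, ∀ u : ℤˣ,
      P.real {ω | (∀ q : ℕ, q.Prime → q < p → ε q ω = s q) ∧ ε p ω = u} ≤
        (1 + ρ p) * (if u = 1 then 1 - θ p else θ p) *
          P.real {ω | ∀ q : ℕ, q.Prime → q < p → ε q ω = s q}) (M : ℕ) (a : ℝ) :
    P.real {ω | Real.exp a ≤ K M (fun p => ε p ω)} ≤
      Real.exp (∑ p ∈ (Finset.Icc 1 M).filter Nat.Prime, ρ p - a) := by
  have h := (dep_markov hK ε (P := P) M (Real.exp_pos a)).trans (depZ_le hK hP M)
  rw [Real.exp_sub, le_div_iff₀ (Real.exp_pos a)]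
  exact h

lemma dep_pi_large {η : ℝ} (hη : 0 < η) : ∀ᶠ k : ℕ in atTop,
    Real.exp (3 / 5 * k) + k ≤ η * Nat.primeCounting (2 ^ k) := by
  have he : Real.exp (3 / 5) < 2 := by
    have h1 : Real.exp (3 / 5) < Real.exp (Real.log 2) := by
      apply Real.exp_lt_exp.2
      have := Real.log_two_gt_d9
      linarith
    rwa [Real.exp_log (by norm_num)] at h1
  have hb : 1 < 2 / Real.exp (3 / 5) := by
    rw [lt_div_iff₀ (Real.exp_pos _), one_mul]
    exact he
  have t1 : Tendsto (fun k : ℕ => (k : ℝ) ^ 1 / (2 / Real.exp (3 / 5)) ^ k) atTop (𝓝 0) :=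
    tendsto_pow_const_div_const_pow_of_one_lt 1 hb
  have t2 : Tendsto (fun k : ℕ => (k : ℝ) ^ 2 / (2 : ℝ) ^ k) atTop (𝓝 0) :=
    tendsto_pow_const_div_const_pow_of_one_lt 2 (by norm_num)
  have t3 : Tendsto (fun k : ℕ => 2 * η * ((k : ℝ) ^ 1 / (2 : ℝ) ^ k)) atTop (𝓝 0) := by
    have := (tendsto_pow_const_div_const_pow_of_one_lt 1 (r := (2 : ℝ)) (by norm_num)).const_mul
      (2 * η)
    simpa using this
  have t4 := (t1.add t2).add t3
  rw [add_zero, add_zero] at t4
  filter_upwards [t4.eventually_lt_const hη, eventually_ge_atTop 1] with k hk hk1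
  have hk0 : (0 : ℝ) < k := by exact_mod_cast hk1
  have h2k : (0 : ℝ) < (2 : ℝ) ^ k := by positivity
  have hpi : (2 : ℝ) ^ k / k - 2 ≤ Nat.primeCounting (2 ^ k) := by
    refine le_trans ?_ (Chebyshev.pi_ge (2 ^ k))
    have hl2 : (0 : ℝ) < Real.log 2 := Real.log_pos (by norm_num)
    have h1 : Real.log (((2 ^ k : ℕ) : ℝ)) = k * Real.log 2 := by
      push_cast
      rw [Real.log_pow]
    have h2 : Real.log (((2 ^ k : ℕ) : ℝ) + 1) ≤ (k + 1) * Real.log 2 := by
      have h3 : (((2 ^ k : ℕ) : ℝ) + 1) ≤ (2 : ℝ) ^ (k + 1) := by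
        push_cast
        have : (1 : ℝ) ≤ 2 ^ k := one_le_pow₀ (by norm_num)
        rw [pow_succ]
        linarith
      have h4 := Real.log_le_log (by positivity) h3
      rw [Real.log_pow] at h4
      push_cast at h4 ⊢
      exact h4
    rw [h1, le_div_iff₀ (by positivity)]
    push_cast at h2 ⊢
    have h5 : ((2 : ℝ) ^ k / k - 2) * (k * Real.log 2) = (2 ^ k - 2 * k) * Real.log 2 := by
      field_simp
    rw [h5]
    have h6 : (1 : ℝ) ≤ k := by exact_mod_cast hk1
    nlinarith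
  have e1 : (k : ℝ) ^ 1 / (2 / Real.exp (3 / 5)) ^ k = k * Real.exp (3 / 5 * k) / 2 ^ k := by
    rw [pow_one, div_pow, mul_comm (3 / 5 : ℝ) (k : ℝ), Real.exp_nat_mul]
    field_simp
  rw [e1] at hk
  have e2 : (Real.exp (3 / 5 * k) + k + 2 * η) * k < η * 2 ^ k := by
    have e3 : k * Real.exp (3 / 5 * k) / 2 ^ k + (k : ℝ) ^ 2 / 2 ^ k + 2 * η * ((k : ℝ) ^ 1 / 2 ^ k) =
        (Real.exp (3 / 5 * k) + k + 2 * η) * k / 2 ^ k := by
      field_simp
    rw [e3, div_lt_iff₀ h2k] at hk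
    exact hk
  have e4 : Real.exp (3 / 5 * k) + k + 2 * η ≤ η * (2 ^ k / k) := by
    rw [mul_div_assoc', le_div_iff₀ hk0]
    exact e2.le
  nlinarith

/-- dependent signs with small conditional bias: the strategy wins at a positive proportion of the scales with
exponentially small probability -/
theorem often_exp {θ : ℕ → ℝ} {K : ℕ → SS → ℝ} (hK : IsStrategy θ K) {Ω : Type*}
    [MeasurableSpace Ω] {P : Measure Ω} [IsProbabilityMeasure P] {ε : ℕ → Ω → ℤˣ} {ρ : ℕ → ℝ}
    (hρ : ∀ δ : ℝ, 0 < δ → ∀ᶠ M : ℕ in atTop,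
      ∑ p ∈ (Finset.Icc 1 M).filter Nat.Prime, ρ p ≤ δ * Nat.primeCounting M)
    (hP : ∀ p : ℕ, p.Prime → ∀ s : SS, ∀ u : ℤˣ,
      P.real {ω | (∀ q : ℕ, q.Prime → q < p → ε q ω = s q) ∧ ε p ω = u} ≤
        (1 + ρ p) * (if u = 1 then 1 - θ p else θ p) *
          P.real {ω | ∀ q : ℕ, q.Prime → q < p → ε q ω = s q}) {η : ℝ} (hη : 0 < η) :
    ∀ᶠ N : ℕ in atTop, P.real {ω | Often η N fun k =>
      Real.exp (η * Nat.primeCounting (2 ^ k)) ≤ K (2 ^ k) (fun p => ε p ω)} ≤
        Real.exp (-(N : ℝ) ^ (η / 2)) := by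
  classical
  have hp2 : Tendsto (fun k : ℕ => 2 ^ k) atTop atTop :=
    tendsto_pow_atTop_atTop_of_one_lt one_lt_two
  set E : ℕ → Set Ω := fun k =>
    {ω | Real.exp (η * Nat.primeCounting (2 ^ k)) ≤ K (2 ^ k) (fun p => ε p ω)} with hE
  have h1 : ∀ᶠ k : ℕ in atTop, P.real (E k) ≤ Real.exp (-Real.exp (3 / 5 * k)) * (1 / 2) ^ k := by
    filter_upwards [hp2.eventually (hρ (η / 2) (by positivity)),
      dep_pi_large (η := η / 2) (by positivity)] with k h2 h3
    refine (prob_ge_le hK hP (2 ^ k) (η * Nat.primeCounting (2 ^ k))).trans ?_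
    have h4 : ((1 : ℝ) / 2) ^ k ≥ Real.exp (-(k : ℝ)) := by
      have h5 : Real.exp (-(k : ℝ)) = Real.exp (-1) ^ k := by
        rw [← Real.exp_nat_mul]
        congr 1
        ring
      rw [h5]
      apply pow_le_pow_left₀ (Real.exp_pos _).le
      have := Real.exp_one_gt_d9
      rw [Real.exp_neg, one_div]
      exact inv_anti₀ (by norm_num) (by linarith)
    calc Real.exp (∑ p ∈ (Finset.Icc 1 (2 ^ k)).filter Nat.Prime, ρ p -
          η * Nat.primeCounting (2 ^ k)) ≤ Real.exp (-Real.exp (3 / 5 * k) + -(k : ℝ)) := by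
          apply Real.exp_le_exp.2
          linarith
      _ = Real.exp (-Real.exp (3 / 5 * k)) * Real.exp (-(k : ℝ)) := Real.exp_add _ _
      _ ≤ _ := mul_le_mul_of_nonneg_left h4 (Real.exp_pos _).le
  obtain ⟨k₁, hk₁⟩ := eventually_atTop.1 h1
  have hlogt : Tendsto (fun N : ℕ => η * Real.log N) atTop atTop :=
    (Real.tendsto_log_atTop.comp tendsto_natCast_atTop_atTop).const_mul_atTop hη
  filter_upwards [eventually_ge_atTop 1, hlogt.eventually_ge_atTop ((k₁ : ℝ) + 2),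
    hlogt.eventually_ge_atTop 6] with N hN hlog hlog6
  set m₀ : ℕ := ⌈η * Real.log N⌉₊ - 1 with hm₀
  have hceil : 2 ≤ ⌈η * Real.log N⌉₊ := by
    have : (6 : ℝ) ≤ (⌈η * Real.log N⌉₊ : ℝ) := hlog6.trans (Nat.le_ceil _)
    have h6 : 6 ≤ ⌈η * Real.log N⌉₊ := by exact_mod_cast this
    omega
  have hm1 : η * Real.log N - 1 ≤ (m₀ : ℝ) := by
    have e1 : ((m₀ + 1 : ℕ) : ℝ) = (⌈η * Real.log N⌉₊ : ℝ) := by
      congr 1
      omega
    have e2 := Nat.le_ceil (η * Real.log N)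
    push_cast at e1
    linarith
  have hk1m : k₁ ≤ m₀ := by
    have : (k₁ : ℝ) ≤ m₀ := by linarith
    exact_mod_cast this
  have hm1' : 1 ≤ m₀ := by omega
  set m := Nat.log 2 (4 * N) + 1 with hm
  have hsub : {ω | Often η N fun k => Real.exp (η * Nat.primeCounting (2 ^ k)) ≤
      K (2 ^ k) (fun p => ε p ω)} ⊆ ⋃ k ∈ Finset.Ico m₀ m, E k := by
    rintro ω ⟨s, hs1, hs2⟩
    obtain ⟨k, hk, hmk⟩ : ∃ k ∈ s, m₀ ≤ k := by
      by_contra hcon
      push Not at hcon
      have h3 : s ⊆ Finset.range m₀ := fun k hk => Finset.mem_range.2 (hcon k hk)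
      have h4 := Finset.card_le_card h3
      rw [Finset.card_range] at h4
      have h5 : ⌈η * Real.log N⌉₊ ≤ s.card := Nat.ceil_le.2 hs1
      omega
    rw [Set.mem_iUnion₂]
    refine ⟨k, ?_, (hs2 k hk).2⟩
    rw [Finset.mem_Ico]
    exact ⟨hmk, Nat.lt_succ_of_le (Nat.le_log_of_pow_le one_lt_two (hs2 k hk).1)⟩
  have h2 : P.real {ω | Often η N fun k => Real.exp (η * Nat.primeCounting (2 ^ k)) ≤
      K (2 ^ k) (fun p => ε p ω)} ≤ ∑ k ∈ Finset.Ico m₀ m, P.real (E k) :=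
    (measureReal_mono hsub (measure_ne_top _ _)).trans (measureReal_biUnion_finset_le _ _)
  have h3 : ∑ k ∈ Finset.Ico m₀ m, P.real (E k) ≤
      ∑ k ∈ Finset.Ico m₀ m, Real.exp (-Real.exp (3 / 5 * m₀)) * (1 / 2) ^ k := by
    refine Finset.sum_le_sum fun k hk => ?_
    rw [Finset.mem_Ico] at hk
    refine (hk₁ k (hk1m.trans hk.1)).trans ?_
    apply mul_le_mul_of_nonneg_right _ (by positivity)
    apply Real.exp_le_exp.2
    apply neg_le_neg
    apply Real.exp_le_exp.2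
    have : (m₀ : ℝ) ≤ k := by exact_mod_cast hk.1
    linarith
  have h4 : ∑ k ∈ Finset.Ico m₀ m, ((1 : ℝ) / 2) ^ k ≤ 1 := by
    have g1 : ∀ n, m₀ ≤ n → ∑ k ∈ Finset.Ico m₀ n, ((1 : ℝ) / 2) ^ k ≤
        2 * (1 / 2) ^ m₀ - 2 * (1 / 2) ^ n := by
      intro n hn
      induction n, hn using Nat.le_induction with
      | base => simp
      | succ n hn ih =>
        rw [Finset.sum_Ico_succ_top hn, pow_succ]
        linarith
    rcases le_or_gt m₀ m with hmm | hmm
    · refine (g1 m hmm).trans ?_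
      have g2 : ((1 : ℝ) / 2) ^ m₀ ≤ (1 / 2) ^ 1 :=
        pow_le_pow_of_le_one (by norm_num) (by norm_num) hm1'
      have g3 : (0 : ℝ) ≤ (1 / 2) ^ m := by positivity
      linarith
    · rw [Finset.Ico_eq_empty (by omega), Finset.sum_empty]
      norm_num
  refine h2.trans (h3.trans ?_)
  rw [← Finset.mul_sum]
  have hN0 : (0 : ℝ) < N := by exact_mod_cast hN
  have h5 : (N : ℝ) ^ (η / 2) ≤ Real.exp (3 / 5 * m₀) := by
    rw [Real.rpow_def_of_pos hN0]
    apply Real.exp_le_exp.2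
    nlinarith
  calc Real.exp (-Real.exp (3 / 5 * m₀)) * ∑ k ∈ Finset.Ico m₀ m, ((1 : ℝ) / 2) ^ k ≤
      Real.exp (-Real.exp (3 / 5 * m₀)) * 1 := by
        apply mul_le_mul_of_nonneg_left h4 (Real.exp_pos _).le
    _ ≤ Real.exp (-(N : ℝ) ^ (η / 2)) := by
        rw [mul_one]
        apply Real.exp_le_exp.2
        linarith

end Pool.Agent.Lib.P4a7640B
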