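import Mathlib
import Pool.Agent.Lib.P4a7640B.Par

/-!
# The real number of a sign sequence; the entropy of random signs
-/

open MeasureTheory Filter Topology

namespace Pool.Agent.Lib.P4a7640B

open Pool.Agent.Lib.P4a7640

/-- the real number whose binary digits are the signs at the primes (`1` for the sign `-1`) -/
noncomputable def code (x : ℕ → ℤˣ) : ℝ :=
  ∑' j : ℕ, (if x (Nat.nth Nat.Prime j) = 1 then (0 : ℝ) else 1) / 2 ^ (j + 1)

/-- the Shannon entropy of the signs at the primes `p ≤ M` -/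
noncomputable def Hent {Ω : Type*} [MeasurableSpace Ω] (P : Measure Ω) (ε : ℕ → Ω → ℤˣ) (M : ℕ) : ℝ :=
  ∑ s ∈ ((Finset.Icc 1 M).filter Nat.Prime).powerset,
    Real.negMulLog (P.real {ω | ∀ p : ℕ, p.Prime → p ≤ M → (ε p ω = -1 ↔ p ∈ s)})

end Pool.Agent.Lib.P4a7640B
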