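import Mathlib
import Pool.Agent.Lib.P4a7640B.ParP
import Pool.Agent.Lib.P4a7640B.ParD

/-!
# Random signs of full entropy against a strategy

`Hent P ε M` is the Shannon entropy (nats) of the signs `ε_p`, `p ≤ M` prime, the pattern being coded by the set `s` of
the primes with sign `-1`.

`prob_win_le`: let `B` be the set of the patterns `s` with `K M (pattern s) ≥ exp (η π(M))`. The average of `K M` over all
`2^π(M)` patterns is `K 0 = 1` (induction with the fairness identity, as in `Dim.lean`; maybe a lemma of `Dim.lean` gives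
it), so `B.card ≤ 2^π(M) exp (-η π(M))`. With `p = P(B)`: entropy `≤ log 2 + p log (B.card) + (1-p) π(M) log 2` (concavity of
`negMulLog` / Jensen on `B` and on the complement, `Real.binEntropy ≤ log 2`), hence
`p * η * π(M) ≤ π(M) log 2 - Hent + log 2`.
-/

open MeasureTheory Filter Topology

namespace Pool.Agent.Lib.P4a7640B

open Pool.Agent.Lib.P4a7640

private def entPr (M : ℕ) : Finset ℕ := (Finset.Icc 1 M).filter Nat.Prime

/-- the sequence with the sign `-1` exactly on `D` -/
private def entX (D : Finset ℕ) : SS := fun p => if p ∈ D then -1 else 1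

private lemma ent_pc_succ (b : ℕ) : Nat.primeCounting (b + 1) =
    Nat.primeCounting b + if (b + 1).Prime then 1 else 0 := by
  simp only [Nat.primeCounting, Nat.primeCounting', Nat.count_succ]

private lemma ent_sum {K : ℕ → SS → ℝ} (hK : IsStrategy (fun _ => 1 / 2) K) (M : ℕ) :
    ∑ D ∈ (entPr M).powerset, K M (entX D) = 2 ^ Nat.primeCounting M := by
  obtain ⟨h0, hnn, hdep, hnp, hmart⟩ := hK
  induction M with
  | zero =>
    have : entPr 0 = ∅ := by
      ext p; simp [entPr]
    rw [this]; simp [h0]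
  | succ M ih =>
    by_cases hp : (M + 1).Prime
    · have hins : entPr (M + 1) = insert (M + 1) (entPr M) := by
        ext p
        simp only [entPr, Finset.mem_filter, Finset.mem_Icc, Finset.mem_insert]
        constructor
        · rintro ⟨h1, h2⟩
          by_cases h : p = M + 1
          · exact Or.inl h
          · exact Or.inr ⟨by omega, h2⟩
        · rintro (h | ⟨h1, h2⟩)
          · subst h; exact ⟨by omega, hp⟩
          · exact ⟨by omega, h2⟩
      have hnot : M + 1 ∉ entPr M := by simp [entPr]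
      rw [hins, Finset.sum_powerset_insert hnot, ← Finset.sum_add_distrib, ent_pc_succ, if_pos hp,
        pow_succ, ← ih, Finset.sum_mul]
      apply Finset.sum_congr rfl
      intro D hD
      have hDn : M + 1 ∉ D := fun h => hnot (Finset.mem_powerset.1 hD h)
      have e1 : Function.update (entX D) (M + 1) 1 = entX D := by
        funext p
        by_cases h : p = M + 1
        · subst h; simp [entX, hDn]
        · simp [h]
      have e2 : Function.update (entX D) (M + 1) (-1) = entX (insert (M + 1) D) := by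
        funext p
        by_cases h : p = M + 1
        · subst h; simp [entX]
        · simp [h, entX]
      have := hmart (M + 1) (entX D) hp
      rw [e1, e2] at this
      simp only [Nat.add_sub_cancel] at this
      linarith
    · have hins : entPr (M + 1) = entPr M := by
        ext p
        simp only [entPr, Finset.mem_filter, Finset.mem_Icc]
        constructor
        · rintro ⟨h1, h2⟩
          by_cases h : p = M + 1
          · subst h; exact absurd h2 hp
          · exact ⟨by omega, h2⟩
        · rintro ⟨h1, h2⟩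
          exact ⟨by omega, h2⟩
      rw [hins, ent_pc_succ, if_neg hp, add_zero, ← ih]
      exact Finset.sum_congr rfl fun D _ => hnp M _ hp

open scoped Classical in
/-- the patterns on which the capital is large -/
private noncomputable def entG (K : ℕ → SS → ℝ) (c : ℝ) (M : ℕ) : Finset (Finset ℕ) :=
  (entPr M).powerset.filter fun D => Real.exp c ≤ K M (entX D)

private lemma ent_card {K : ℕ → SS → ℝ} (hK : IsStrategy (fun _ => 1 / 2) K) (c : ℝ) (M : ℕ) :
    ((entG K c M).card : ℝ) ≤ Real.exp (Nat.primeCounting M * Real.log 2 - c) := by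
  classical
  have h1 : ((entG K c M).card : ℝ) * Real.exp c ≤ 2 ^ Nat.primeCounting M := by
    rw [← ent_sum hK M, ← nsmul_eq_mul, ← Finset.sum_const]
    calc ∑ _D ∈ entG K c M, Real.exp c
        ≤ ∑ D ∈ entG K c M, K M (entX D) := by
          apply Finset.sum_le_sum
          intro D hD
          exact (Finset.mem_filter.1 hD).2
      _ ≤ ∑ D ∈ (entPr M).powerset, K M (entX D) := by
          apply Finset.sum_le_sum_of_subset_of_nonneg
          · exact Finset.filter_subset _ _
          · intro D _ _; exact hK.2.1 M _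
  rw [Real.exp_sub, ← Real.log_pow, Real.exp_log (by positivity), le_div_iff₀ (Real.exp_pos _)]
  exact h1

private lemma ent_card_pr (M : ℕ) : (entPr M).card = Nat.primeCounting M := by
  induction M with
  | zero =>
    have : entPr 0 = ∅ := by
      ext p; simp [entPr]
    rw [this]; simp
  | succ M ih =>
    by_cases hp : (M + 1).Prime
    · have hins : entPr (M + 1) = insert (M + 1) (entPr M) := by
        ext p
        simp only [entPr, Finset.mem_filter, Finset.mem_Icc, Finset.mem_insert]
        constructor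
        · rintro ⟨h1, h2⟩
          by_cases h : p = M + 1
          · exact Or.inl h
          · exact Or.inr ⟨by omega, h2⟩
        · rintro (h | ⟨h1, h2⟩)
          · subst h; exact ⟨by omega, hp⟩
          · exact ⟨by omega, h2⟩
      have hnot : M + 1 ∉ entPr M := by simp [entPr]
      rw [hins, Finset.card_insert_of_notMem hnot, ih, ent_pc_succ, if_pos hp]
    · have hins : entPr (M + 1) = entPr M := by
        ext p
        simp only [entPr, Finset.mem_filter, Finset.mem_Icc]
        constructor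
        · rintro ⟨h1, h2⟩
          by_cases h : p = M + 1
          · subst h; exact absurd h2 hp
          · exact ⟨by omega, h2⟩
        · rintro ⟨h1, h2⟩
          exact ⟨by omega, h2⟩
      rw [hins, ih, ent_pc_succ, if_neg hp, add_zero]

/-- the entropy of a part of a distribution -/
private lemma ent_part (G : Finset (Finset ℕ)) (q : Finset ℕ → ℝ) (hq : ∀ s ∈ G, 0 ≤ q s) {L : ℝ}
    (hL : (G.card : ℝ) ≤ Real.exp L) :
    ∑ s ∈ G, Real.negMulLog (q s) ≤ (∑ s ∈ G, q s) * L + Real.negMulLog (∑ s ∈ G, q s) := by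
  set p := ∑ s ∈ G, q s with hp
  have hp0 : 0 ≤ p := Finset.sum_nonneg hq
  rcases hp0.eq_or_lt with h0 | h0
  · have hz : ∀ s ∈ G, q s = 0 := (Finset.sum_eq_zero_iff_of_nonneg hq).1 (by rw [← hp, ← h0])
    rw [← h0, zero_mul, Real.negMulLog_zero, add_zero, Finset.sum_eq_zero]
    intro s hs
    rw [hz s hs, Real.negMulLog_zero]
  · -- each term
    have key : ∀ s ∈ G, Real.negMulLog (q s) ≤ q s * L - q s * Real.log p + (p * Real.exp (-L) - q s) := by
      intro s hs
      rcases (hq s hs).eq_or_lt with h1 | h1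
      · rw [← h1, Real.negMulLog_zero]
        have : 0 ≤ p * Real.exp (-L) := by positivity
        simpa using this
      · have h2 : Real.log (p * Real.exp (-L) / q s) ≤ p * Real.exp (-L) / q s - 1 :=
          Real.log_le_sub_one_of_pos (by positivity)
        rw [Real.log_div (by positivity) h1.ne', Real.log_mul h0.ne' (Real.exp_pos _).ne',
          Real.log_exp] at h2
        have h3 := mul_le_mul_of_nonneg_left h2 h1.le
        have h4 : q s * (p * Real.exp (-L) / q s - 1) = p * Real.exp (-L) - q s := by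
          field_simp
        rw [h4] at h3
        rw [Real.negMulLog]
        linarith
    have h5 : ∑ s ∈ G, Real.negMulLog (q s) ≤
        ∑ s ∈ G, (q s * L - q s * Real.log p + (p * Real.exp (-L) - q s)) := Finset.sum_le_sum key
    rw [Finset.sum_add_distrib, Finset.sum_sub_distrib, Finset.sum_sub_distrib, ← Finset.sum_mul,
      ← Finset.sum_mul, ← hp, Finset.sum_const, nsmul_eq_mul] at h5
    have h6 : (G.card : ℝ) * (p * Real.exp (-L)) ≤ p := by
      have : Real.exp L * (p * Real.exp (-L)) = p := by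
        rw [mul_left_comm, ← Real.exp_add, add_neg_cancel, Real.exp_zero, mul_one]
      calc (G.card : ℝ) * (p * Real.exp (-L)) ≤ Real.exp L * (p * Real.exp (-L)) :=
            mul_le_mul_of_nonneg_right hL (by positivity)
        _ = p := this
    rw [Real.negMulLog]
    linarith

/-- the set of the outcomes with a given pattern -/
private def entA {Ω : Type*} (ε : ℕ → Ω → ℤˣ) (M : ℕ) (s : Finset ℕ) : Set Ω :=
  {ω | ∀ p : ℕ, p.Prime → p ≤ M → (ε p ω = -1 ↔ p ∈ s)}

private lemma ent_meas {Ω : Type*} [MeasurableSpace Ω] {ε : ℕ → Ω → ℤˣ}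
    (hε : ∀ p, Measurable (ε p)) (M : ℕ) (s : Finset ℕ) : MeasurableSet (entA ε M s) := by
  have h : entA ε M s = ⋂ p : ℕ, {ω | p.Prime → p ≤ M → (ε p ω = -1 ↔ p ∈ s)} := by
    ext ω; simp [entA]
  rw [h]
  refine MeasurableSet.iInter fun p => ?_
  by_cases h1 : p.Prime
  · by_cases h2 : p ≤ M
    · by_cases h3 : p ∈ s
      · have : {ω | p.Prime → p ≤ M → (ε p ω = -1 ↔ p ∈ s)} = ε p ⁻¹' {-1} := by
          ext ω; simp [h1, h2, h3]
        rw [this]
        exact hε p (measurableSet_singleton _)
      · have : {ω | p.Prime → p ≤ M → (ε p ω = -1 ↔ p ∈ s)} = (ε p ⁻¹' {-1})ᶜ := by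
          ext ω; simp [h1, h2, h3]
        rw [this]
        exact (hε p (measurableSet_singleton _)).compl
    · have : {ω | p.Prime → p ≤ M → (ε p ω = -1 ↔ p ∈ s)} = Set.univ := by
        ext ω; simp [h2]
      rw [this]; exact MeasurableSet.univ
  · have : {ω | p.Prime → p ≤ M → (ε p ω = -1 ↔ p ∈ s)} = Set.univ := by
      ext ω; simp [h1]
    rw [this]; exact MeasurableSet.univ

private lemma ent_disj {Ω : Type*} (ε : ℕ → Ω → ℤˣ) (M : ℕ) {G : Finset (Finset ℕ)}
    (hG : G ⊆ (entPr M).powerset) : (G : Set (Finset ℕ)).PairwiseDisjoint (entA ε M) := by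
  intro s hs t ht hst
  rw [Function.onFun, Set.disjoint_left]
  intro ω h1 h2
  apply hst
  have hs' := Finset.mem_powerset.1 (hG hs)
  have ht' := Finset.mem_powerset.1 (hG ht)
  ext p
  constructor
  · intro h
    have h3 := Finset.mem_filter.1 (hs' h)
    have h4 := (Finset.mem_Icc.1 h3.1).2
    exact (h2 p h3.2 h4).1 ((h1 p h3.2 h4).2 h)
  · intro h
    have h3 := Finset.mem_filter.1 (ht' h)
    have h4 := (Finset.mem_Icc.1 h3.1).2
    exact (h1 p h3.2 h4).1 ((h2 p h3.2 h4).2 h)

private lemma ent_mem {Ω : Type*} (ε : ℕ → Ω → ℤˣ) (M : ℕ) (ω : Ω) :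
    ∃ s ∈ (entPr M).powerset, ω ∈ entA ε M s := by
  classical
  refine ⟨(entPr M).filter fun p => ε p ω = -1, Finset.mem_powerset.2 (Finset.filter_subset _ _), ?_⟩
  intro p hp hpM
  rw [Finset.mem_filter]
  have : p ∈ entPr M := Finset.mem_filter.2 ⟨Finset.mem_Icc.2 ⟨hp.one_lt.le, hpM⟩, hp⟩
  exact ⟨fun h => ⟨this, h⟩, fun h => h.2⟩

private lemma ent_K {K : ℕ → SS → ℝ} (hK : IsStrategy (fun _ => 1 / 2) K) {Ω : Type*}
    {ε : ℕ → Ω → ℤˣ} {M : ℕ} {s : Finset ℕ} {ω : Ω} (h : ω ∈ entA ε M s) :
    K M (fun p => ε p ω) = K M (entX s) := by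
  refine hK.2.2.1 M _ _ fun p hp hpM => ?_
  have h1 := h p hp hpM
  by_cases h2 : p ∈ s
  · rw [h1.2 h2]; simp [entX, h2]
  · have h3 : ε p ω ≠ -1 := fun h4 => h2 (h1.1 h4)
    rcases Int.units_eq_one_or (ε p ω) with h4 | h4
    · rw [h4]; simp [entX, h2]
    · exact absurd h4 h3

/-- the winning event is a union of patterns -/
private lemma ent_win {K : ℕ → SS → ℝ} (hK : IsStrategy (fun _ => 1 / 2) K) {Ω : Type*}
    (ε : ℕ → Ω → ℤˣ) (c : ℝ) (M : ℕ) :
    {ω | Real.exp c ≤ K M (fun p => ε p ω)} = ⋃ s ∈ entG K c M, entA ε M s := by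
  classical
  ext ω
  simp only [Set.mem_iUnion, exists_prop]
  constructor
  · intro h
    obtain ⟨s, hs, hω⟩ := ent_mem ε M ω
    refine ⟨s, Finset.mem_filter.2 ⟨hs, ?_⟩, hω⟩
    rw [← ent_K hK hω]
    exact h
  · rintro ⟨s, hs, hω⟩
    change Real.exp c ≤ K M (fun p => ε p ω)
    rw [ent_K hK hω]
    exact (Finset.mem_filter.1 hs).2

private lemma ent_win_meas {K : ℕ → SS → ℝ} (hK : IsStrategy (fun _ => 1 / 2) K) {Ω : Type*}
    [MeasurableSpace Ω] {ε : ℕ → Ω → ℤˣ} (hε : ∀ p, Measurable (ε p)) (c : ℝ) (M : ℕ) :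
    MeasurableSet {ω | Real.exp c ≤ K M (fun p => ε p ω)} := by
  rw [ent_win hK]
  exact Finset.measurableSet_biUnion _ fun s _ => ent_meas hε M s

theorem prob_win_le {K : ℕ → SS → ℝ} (hK : IsStrategy (fun _ => 1 / 2) K) {Ω : Type*}
    [MeasurableSpace Ω] {P : Measure Ω} [IsProbabilityMeasure P] {ε : ℕ → Ω → ℤˣ}
    (hε : ∀ p, Measurable (ε p)) {η : ℝ} (hη : 0 < η) (M : ℕ) :
    P.real {ω | Real.exp (η * Nat.primeCounting M) ≤ K M (fun p => ε p ω)} *
      (η * Nat.primeCounting M) ≤
      Nat.primeCounting M * Real.log 2 - Hent P ε M + Real.log 2 := by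
  classical
  set n : ℝ := (Nat.primeCounting M : ℝ) with hn
  set G := entG K (η * n) M with hG
  have hGs : G ⊆ (entPr M).powerset := Finset.filter_subset _ _
  set q : Finset ℕ → ℝ := fun s => P.real (entA ε M s) with hq
  have hq0 : ∀ s, 0 ≤ q s := fun s => measureReal_nonneg
  -- the total mass
  have htot : ∑ s ∈ (entPr M).powerset, q s = 1 := by
    rw [hq, ← measureReal_biUnion_finset (ent_disj ε M le_rfl) (fun s _ => ent_meas hε M s)]
    have : (⋃ b ∈ (entPr M).powerset, entA ε M b) = Set.univ := by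
      ext ω
      simp only [Set.mem_iUnion, exists_prop, Set.mem_univ, iff_true]
      exact ent_mem ε M ω
    rw [this, probReal_univ]
  have hwin : P.real {ω | Real.exp (η * n) ≤ K M (fun p => ε p ω)} = ∑ s ∈ G, q s := by
    rw [ent_win hK, measureReal_biUnion_finset (ent_disj ε M hGs) (fun s _ => ent_meas hε M s)]
  rw [hwin]
  set p := ∑ s ∈ G, q s with hp
  have hc : ∑ s ∈ (entPr M).powerset \ G, q s = 1 - p := by
    rw [← htot, ← Finset.sum_sdiff hGs]; ring
  have h1 : ∑ s ∈ G, Real.negMulLog (q s) ≤ p * (n * Real.log 2 - η * n) + Real.negMulLog p :=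
    ent_part G q (fun s _ => hq0 s) (ent_card hK _ M)
  have h2 : ∑ s ∈ (entPr M).powerset \ G, Real.negMulLog (q s) ≤
      (1 - p) * (n * Real.log 2) + Real.negMulLog (1 - p) := by
    rw [← hc]
    refine ent_part _ q (fun s _ => hq0 s) ?_
    have h3 : (((entPr M).powerset \ G).card : ℝ) ≤ (entPr M).powerset.card := by
      exact_mod_cast Finset.card_le_card Finset.sdiff_subset
    refine h3.trans ?_
    rw [Finset.card_powerset, ent_card_pr, hn, ← Real.log_pow, Real.exp_log (by positivity)]
    push_cast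
    exact le_rfl
  have h4 : Hent P ε M = ∑ s ∈ (entPr M).powerset \ G, Real.negMulLog (q s) +
      ∑ s ∈ G, Real.negMulLog (q s) := by
    rw [Finset.sum_sdiff hGs]
    rfl
  have h5 : Real.negMulLog p + Real.negMulLog (1 - p) ≤ Real.log 2 := by
    rw [← Real.binEntropy_eq_negMulLog_add_negMulLog_one_sub]
    exact Real.binEntropy_le_log_two
  rw [h4]
  nlinarith [h1, h2, h5]

/-- `P (the strategy wins at ≥ η log N of the scales 2^k ≤ 4 N) → 0`: the expected number of such `k` is
`∑_{2^k ≤ 4N} P(K_(2^k) ≥ exp (η π(2^k)))`, each term tends to `0` as `k → ∞` by `prob_win_le` (`π(2^k) → ∞`), so the sum is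
`o(log N)` (Cesàro); Markov. -/
theorem tendsto_often {K : ℕ → SS → ℝ} (hK : IsStrategy (fun _ => 1 / 2) K) {Ω : Type*}
    [MeasurableSpace Ω] {P : Measure Ω} [IsProbabilityMeasure P] {ε : ℕ → Ω → ℤˣ}
    (hε : ∀ p, Measurable (ε p))
    (hH : Tendsto (fun M : ℕ => Hent P ε M / Nat.primeCounting M) atTop (𝓝 (Real.log 2)))
    {η : ℝ} (hη : 0 < η) :
    Tendsto (fun N : ℕ => P.real {ω | Often η N fun k =>
      Real.exp (η * Nat.primeCounting (2 ^ k)) ≤ K (2 ^ k) (fun p => ε p ω)}) atTop (𝓝 0) := by
  classical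
  -- the winning events at the scales `2 ^ k`
  set W : ℕ → Set Ω := fun k =>
    {ω | Real.exp (η * Nat.primeCounting (2 ^ k)) ≤ K (2 ^ k) (fun p => ε p ω)} with hW
  have hWm : ∀ k, MeasurableSet (W k) := fun k => ent_win_meas hK hε _ _
  have hw0 : ∀ k, 0 ≤ P.real (W k) := fun _ => measureReal_nonneg
  have hp2 : Tendsto (fun k : ℕ => 2 ^ k) atTop atTop :=
    tendsto_pow_atTop_atTop_of_one_lt one_lt_two
  have hpi : Tendsto (fun k : ℕ => (Nat.primeCounting (2 ^ k) : ℝ)) atTop atTop :=
    tendsto_natCast_atTop_atTop.comp (Nat.tendsto_primeCounting.comp hp2)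
  have hwt : Tendsto (fun k => P.real (W k)) atTop (𝓝 0) := by
    have h1 : Tendsto (fun k : ℕ => (Real.log 2 - Hent P ε (2 ^ k) / Nat.primeCounting (2 ^ k) +
        Real.log 2 / Nat.primeCounting (2 ^ k)) / η) atTop (𝓝 0) := by
      have h2 := (((tendsto_const_nhds (x := Real.log 2)).sub (hH.comp hp2)).add
        (hpi.const_div_atTop (Real.log 2))).div_const η
      simpa using h2
    refine tendsto_of_tendsto_of_tendsto_of_le_of_le' tendsto_const_nhds h1
      (Eventually.of_forall hw0) ?_
    filter_upwards [hpi.eventually_gt_atTop 0] with k hk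
    have h2 := prob_win_le hK hε hη (2 ^ k) (P := P)
    rw [le_div_iff₀ hη]
    have h3 : P.real (W k) * η * Nat.primeCounting (2 ^ k) ≤
        Nat.primeCounting (2 ^ k) * Real.log 2 - Hent P ε (2 ^ k) + Real.log 2 := by
      rw [mul_assoc]; exact h2
    have h4 : (Real.log 2 - Hent P ε (2 ^ k) / Nat.primeCounting (2 ^ k) +
        Real.log 2 / Nat.primeCounting (2 ^ k)) = (Nat.primeCounting (2 ^ k) * Real.log 2 -
          Hent P ε (2 ^ k) + Real.log 2) / Nat.primeCounting (2 ^ k) := by
      field_simp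
    rw [h4, le_div_iff₀ hk]
    exact h3
  -- Cesàro
  set m : ℕ → ℕ := fun N => Nat.log 2 (4 * N) + 1 with hm
  have hmt : Tendsto m atTop atTop := by
    rw [tendsto_atTop]
    intro b
    filter_upwards [eventually_ge_atTop (2 ^ b)] with N hN
    have h1 : 2 ^ b ≤ 4 * N := by omega
    have h2 : b ≤ Nat.log 2 (4 * N) := Nat.le_log_of_pow_le one_lt_two h1
    exact h2.trans (Nat.le_succ _)
  have hces : Tendsto (fun N => ((m N : ℕ) : ℝ)⁻¹ * ∑ i ∈ Finset.range (m N), P.real (W i)) atTop
      (𝓝 0) := (Filter.Tendsto.cesaro hwt).comp hmt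
  have hces2 : Tendsto (fun N => (((m N : ℕ) : ℝ)⁻¹ * ∑ i ∈ Finset.range (m N), P.real (W i)) *
      (5 / η)) atTop (𝓝 0) := by
    have := hces.mul_const (5 / η)
    simpa using this
  refine tendsto_of_tendsto_of_tendsto_of_le_of_le' tendsto_const_nhds hces2
    (Eventually.of_forall fun _ => measureReal_nonneg) ?_
  filter_upwards [eventually_ge_atTop 3] with N hN
  have hN0 : (0 : ℝ) < N := by exact_mod_cast (by omega : 0 < N)
  have hlog1 : 1 ≤ Real.log N := by
    rw [Real.le_log_iff_exp_le hN0]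
    have : (3 : ℝ) ≤ N := by exact_mod_cast hN
    exact (Real.exp_one_lt_d9.le.trans (by norm_num)).trans this
  -- the number of scales
  have hmle : ((m N : ℕ) : ℝ) ≤ 5 * Real.log N := by
    have h1 : 2 ^ Nat.log 2 (4 * N) ≤ 4 * N := Nat.pow_log_le_self 2 (by omega)
    have h2 : ((2 : ℝ)) ^ Nat.log 2 (4 * N) ≤ 4 * N := by exact_mod_cast h1
    have h3 := Real.log_le_log (by positivity) h2
    rw [Real.log_pow, Real.log_mul (by norm_num) hN0.ne'] at h3
    have h4 : Real.log 4 = 2 * Real.log 2 := by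
      rw [show (4 : ℝ) = 2 ^ 2 by norm_num, Real.log_pow]; norm_num
    rw [h4] at h3
    have h5 := Real.log_two_gt_d9
    have h6 : (0 : ℝ) < Real.log 2 := Real.log_pos (by norm_num)
    have h7 : ((Nat.log 2 (4 * N) : ℕ) : ℝ) ≤ 2 + 2 * Real.log N := by
      have h8 : ((Nat.log 2 (4 * N) : ℕ) : ℝ) * Real.log 2 ≤ (2 + 2 * Real.log N) * Real.log 2 := by
        nlinarith
      exact le_of_mul_le_mul_right h8 h6
    rw [hm]
    push_cast
    linarith
  -- Markov
  set f : Ω → ℝ := fun ω => ∑ k ∈ Finset.range (m N), (W k).indicator (fun _ => (1 : ℝ)) ω with hf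
  have hfi : ∀ k, Integrable ((W k).indicator fun _ => (1 : ℝ)) P := fun k =>
    (integrable_const (1 : ℝ)).indicator (hWm k)
  have hfint : Integrable f P := integrable_finsetSum _ fun k _ => hfi k
  have hfI : ∫ ω, f ω ∂P = ∑ k ∈ Finset.range (m N), P.real (W k) := by
    rw [hf, integral_finsetSum _ fun k _ => hfi k]
    refine Finset.sum_congr rfl fun k _ => ?_
    rw [integral_indicator (hWm k)]
    simp
  have hmark := mul_meas_ge_le_integral_of_nonneg (μ := P) (f := f)
    (Eventually.of_forall fun ω => Finset.sum_nonneg fun k _ =>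
      Set.indicator_nonneg (fun _ _ => zero_le_one) _) hfint (η * Real.log N)
  rw [hfI] at hmark
  have hsub : {ω | Often η N fun k => Real.exp (η * Nat.primeCounting (2 ^ k)) ≤
      K (2 ^ k) (fun p => ε p ω)} ⊆ {ω | η * Real.log N ≤ f ω} := by
    rintro ω ⟨s, hs1, hs2⟩
    change η * Real.log N ≤ f ω
    refine hs1.trans ?_
    have h1 : (s.card : ℝ) = ∑ k ∈ s, (W k).indicator (fun _ => (1 : ℝ)) ω := by
      rw [Finset.card_eq_sum_ones, Nat.cast_sum]
      refine Finset.sum_congr rfl fun k hk => ?_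
      have : ω ∈ W k := (hs2 k hk).2
      rw [Set.indicator_of_mem this, Nat.cast_one]
    rw [h1, hf]
    refine Finset.sum_le_sum_of_subset_of_nonneg ?_ fun k _ _ =>
      Set.indicator_nonneg (fun _ _ => zero_le_one) _
    intro k hk
    rw [Finset.mem_range, hm]
    exact Nat.lt_succ_of_le (Nat.le_log_of_pow_le one_lt_two (hs2 k hk).1)
  have h1 : P.real {ω | Often η N fun k => Real.exp (η * Nat.primeCounting (2 ^ k)) ≤
      K (2 ^ k) (fun p => ε p ω)} ≤ P.real {ω | η * Real.log N ≤ f ω} := measureReal_mono hsub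
  have hm0 : (0 : ℝ) < (m N : ℕ) := by exact_mod_cast Nat.succ_pos _
  have hS0 : 0 ≤ ∑ k ∈ Finset.range (m N), P.real (W k) := Finset.sum_nonneg fun k _ => hw0 k
  have hlog0 : 0 < Real.log N := by linarith
  calc _ ≤ P.real {ω | η * Real.log N ≤ f ω} := h1
    _ ≤ (∑ k ∈ Finset.range (m N), P.real (W k)) / (η * Real.log N) := by
        rw [le_div_iff₀ (by positivity), mul_comm]
        exact hmark
    _ ≤ _ := by
        rw [div_le_iff₀ (by positivity)]
        have h2 : ((m N : ℕ) : ℝ)⁻¹ * (∑ i ∈ Finset.range (m N), P.real (W i)) * (5 / η) *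
            (η * Real.log N) = (∑ i ∈ Finset.range (m N), P.real (W i)) *
              (5 * Real.log N / (m N : ℕ)) := by
          field_simp
        rw [h2]
        exact le_mul_of_one_le_right hS0 ((one_le_div hm0).2 hmle)

end Pool.Agent.Lib.P4a7640B
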