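import Mathlib
import Pool.Agent.Lib.P4a7640B.EntP
import Pool.Agent.Lib.P4a7640B.AsDens
import Pool.Agent.Lib.P4a7640B.DepE

/-!
# Random signs of almost full entropy, almost surely

`∑_k P(win at 2^k) / k < ∞` by `prob_win_le`, so a.s. the number of the winning `k ≤ n` is `o(n)` (`ae_dens`).
-/

open MeasureTheory Filter Topology

namespace Pool.Agent.Lib.P4a7640B

open Pool.Agent.Lib.P4a7640

theorem ae_not_often {K : ℕ → SS → ℝ} (hK : IsStrategy (fun _ => 1 / 2) K) {Ω : Type*}
    [MeasurableSpace Ω] {P : Measure Ω} [IsProbabilityMeasure P] {ε : ℕ → Ω → ℤˣ}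
    (hε : ∀ p, Measurable (ε p))
    (hH : Summable fun k : ℕ => (Real.log 2 - Hent P ε (2 ^ k) / Nat.primeCounting (2 ^ k)) / k)
    {η : ℝ} (hη : 0 < η) :
    ∀ᵐ ω ∂P, ∀ᶠ N : ℕ in atTop, ¬ Often η N fun k =>
      Real.exp (η * Nat.primeCounting (2 ^ k)) ≤ K (2 ^ k) (fun p => ε p ω) := by
  classical
  set W : ℕ → Set Ω := fun k =>
    {ω | Real.exp (η * Nat.primeCounting (2 ^ k)) ≤ K (2 ^ k) (fun p => ε p ω)} with hW
  set E : ℕ → Set Ω := fun k => toMeasurable P (W k) with hE
  have hEm : ∀ k, MeasurableSet (E k) := fun k => measurableSet_toMeasurable _ _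
  have hEW : ∀ k, P.real (E k) = P.real (W k) := fun k => by
    simp only [hE, Measure.real, measure_toMeasurable]
  have hsum : Summable fun k : ℕ => P.real (E k) / ((k : ℝ) + 1) := by
    have hs2 : Summable fun k : ℕ => 1 / (k : ℝ) ^ 2 := Real.summable_one_div_nat_pow.2 (by norm_num)
    have hs := (hH.add hs2).mul_left (1 / η)
    refine Summable.of_norm_bounded_eventually_nat hs ?_
    filter_upwards [dep_pi_large one_pos, eventually_ge_atTop 1] with k hk hk1
    rw [one_mul] at hk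
    have hk0 : (0 : ℝ) < k := by exact_mod_cast hk1
    have hpi : (k : ℝ) ≤ Nat.primeCounting (2 ^ k) := by
      have := Real.exp_pos (3 / 5 * (k : ℝ))
      linarith
    have hpi0 : (0 : ℝ) < Nat.primeCounting (2 ^ k) := lt_of_lt_of_le hk0 hpi
    rw [Real.norm_of_nonneg (by positivity), hEW]
    have h1 : P.real (W k) * (η * Nat.primeCounting (2 ^ k)) ≤
        Nat.primeCounting (2 ^ k) * Real.log 2 - Hent P ε (2 ^ k) + Real.log 2 :=
      prob_win_le hK hε hη (2 ^ k) (P := P)
    have hl2 : Real.log 2 ≤ 1 := by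
      have := Real.log_two_lt_d9
      linarith
    have h2 : P.real (W k) ≤ 1 / η * (Real.log 2 - Hent P ε (2 ^ k) / Nat.primeCounting (2 ^ k) +
        1 / k) := by
      have e1 : 1 / η * (Real.log 2 - Hent P ε (2 ^ k) / Nat.primeCounting (2 ^ k) + 1 / k) =
          (Real.log 2 - Hent P ε (2 ^ k) / Nat.primeCounting (2 ^ k) + 1 / k) *
            Nat.primeCounting (2 ^ k) / (η * Nat.primeCounting (2 ^ k)) := by
        field_simp
      rw [e1, le_div_iff₀ (by positivity)]
      have e2 : (Real.log 2 - Hent P ε (2 ^ k) / Nat.primeCounting (2 ^ k) + 1 / k) *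
          Nat.primeCounting (2 ^ k) = Nat.primeCounting (2 ^ k) * Real.log 2 - Hent P ε (2 ^ k) +
            Nat.primeCounting (2 ^ k) / k := by
        field_simp
      rw [e2]
      have e3 : (1 : ℝ) ≤ Nat.primeCounting (2 ^ k) / k := by
        rw [le_div_iff₀ hk0, one_mul]
        exact hpi
      linarith
    have h3 : P.real (W k) / ((k : ℝ) + 1) ≤ P.real (W k) / k :=
      div_le_div_of_nonneg_left measureReal_nonneg hk0 (by linarith)
    refine h3.trans ?_
    rw [div_le_iff₀ hk0]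
    refine h2.trans (le_of_eq ?_)
    field_simp
  filter_upwards [ae_dens P hEm hsum] with ω hω
  have hmt : Tendsto (fun N : ℕ => Nat.log 2 (4 * N) + 1) atTop atTop := by
    rw [tendsto_atTop]
    intro b
    filter_upwards [eventually_ge_atTop (2 ^ b)] with N hN
    have h1 : 2 ^ b ≤ 4 * N := by omega
    have h2 : b ≤ Nat.log 2 (4 * N) := Nat.le_log_of_pow_le one_lt_two h1
    exact h2.trans (Nat.le_succ _)
  filter_upwards [(hω.comp hmt).eventually_lt_const (show 0 < η / 5 by positivity),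
    eventually_ge_atTop 3] with N hN hN3
  rintro ⟨s, hs1, hs2⟩
  have hN0 : (0 : ℝ) < N := by exact_mod_cast (by omega : 0 < N)
  have hlog1 : 1 ≤ Real.log N := by
    rw [Real.le_log_iff_exp_le hN0]
    have : (3 : ℝ) ≤ N := by exact_mod_cast hN3
    exact (Real.exp_one_lt_d9.le.trans (by norm_num)).trans this
  have hmle : ((Nat.log 2 (4 * N) + 1 : ℕ) : ℝ) ≤ 5 * Real.log N := by
    have h1 : 2 ^ Nat.log 2 (4 * N) ≤ 4 * N := Nat.pow_log_le_self 2 (by omega)
    have h2 : ((2 : ℝ)) ^ Nat.log 2 (4 * N) ≤ 4 * N := by exact_mod_cast h1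
    have h3 := Real.log_le_log (by positivity) h2
    rw [Real.log_pow, Real.log_mul (by norm_num) hN0.ne'] at h3
    have h4 : Real.log 4 = 2 * Real.log 2 := by
      rw [show (4 : ℝ) = 2 ^ 2 by norm_num, Real.log_pow]; norm_num
    rw [h4] at h3
    have h5 := Real.log_two_gt_d9
    have h6 : (0 : ℝ) < Real.log 2 := Real.log_pos (by norm_num)
    have h7 : ((Nat.log 2 (4 * N) : ℕ) : ℝ) ≤ 2 + 2 * Real.log N := by
      have h8 : ((Nat.log 2 (4 * N) : ℕ) : ℝ) * Real.log 2 ≤ (2 + 2 * Real.log N) * Real.log 2 := by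
        nlinarith
      exact le_of_mul_le_mul_right h8 h6
    push_cast
    linarith
  have hcard : s.card ≤ ((Finset.range (Nat.log 2 (4 * N) + 1)).filter fun j => ω ∈ E j).card := by
    apply Finset.card_le_card
    intro k hk
    rw [Finset.mem_filter, Finset.mem_range]
    exact ⟨Nat.lt_succ_of_le (Nat.le_log_of_pow_le one_lt_two (hs2 k hk).1),
      subset_toMeasurable _ _ (hs2 k hk).2⟩
  have hcard' : (s.card : ℝ) ≤
      (((Finset.range (Nat.log 2 (4 * N) + 1)).filter fun j => ω ∈ E j).card : ℝ) := by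
    exact_mod_cast hcard
  have hm0 : (0 : ℝ) < ((Nat.log 2 (4 * N) + 1 : ℕ) : ℝ) := by exact_mod_cast Nat.succ_pos _
  simp only [Function.comp] at hN
  rw [div_lt_iff₀ hm0] at hN
  have h9 : η / 5 * ((Nat.log 2 (4 * N) + 1 : ℕ) : ℝ) ≤ η / 5 * (5 * Real.log N) :=
    mul_le_mul_of_nonneg_left hmle (by positivity)
  linarith

end Pool.Agent.Lib.P4a7640B
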