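import Mathlib
import Pool.Agent.Lib.P4a7640B.Par

/-!
# A multiplicative function is a periodic sign pattern times a completely multiplicative one, up to small density

Model: `van_mult` in `P4a7640Ces/Sqf.lean`: `h n = f n * rnd f n` is multiplicative with `h p = 1` at all primes; with
`χ = 1` mod 1, `B = ∅`, `PP h χ y y` is `QQ y y`-periodic and equals `h n` unless `BI B y y n = 1`
(`P4a7640/Stable.lean`, `Sub.lean`, `Periodic.lean`), and the exceptions have density `≤ C (y (1/2)^y + 1/y)`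
(`sum_BI_le` with `j = 0` and `2N` in place of `N`, `EB_le`). `R = QQ y y`, `S = {a < R : the value on the class of a is
-1}`. (Or directly: `h` is determined by `n` mod `R = ∏_{p ≤ y} p^(y+1)` unless `p^(y+1) ∣ n` for some `p ≤ y` or
`p^2 ∣ n` for some `p > y`.)
-/

open Filter Topology

namespace Pool.Agent.Lib.P4a7640B

open Pool.Agent.Lib.P4a7640 Pool.Agent.Lib.P4a7640N Pool.Agent.Lib.P4a7640Ces

private lemma perU_unit (u : ℤˣ) (hu : u ≠ -1) : u = 1 := by
  rcases Int.units_eq_one_or u with h | h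
  · exact h
  · exact absurd h hu

private lemma perU_sg {u v : ℤˣ} (h : sg u = sg v) : u = v := by
  rcases Int.units_eq_one_or u with hu | hu <;> rcases Int.units_eq_one_or v with hv | hv <;>
    subst hu <;> subst hv <;> first | rfl | (exfalso; norm_num [sg] at h)

theorem exists_periodic {f : ℕ → ℤˣ} (hf : MultS f) {δ : ℝ} (hδ : 0 < δ) :
    ∃ (R : ℕ) (S : Finset ℕ), ∀ᶠ N : ℕ in atTop,
      ((((Finset.Icc 1 (2 * N)).filter fun n => f n ≠ uS R S n * rnd f n).card : ℕ) : ℝ) ≤ δ * N := by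
  classical
  set g : ℕ → ℤˣ := rnd f with hg
  have hgm : MultS g := fun m n hm hn _ => rnd_mul _ hm.ne' hn.ne'
  have hh : MultS fun n => f n * g n := hf.mul hgm
  set h : ℕ → ℤˣ := fun n => f n * g n with hhd
  set χ : DirichletCharacter ℂ 1 := 1 with hχ
  set B : ℕ → Prop := fun p => sgC (h p) ≠ χ (p : ZMod 1) with hB
  have hχ1 : ∀ a : ZMod 1, χ a = 1 := by
    intro a
    rw [hχ, MulChar.one_apply]
    exact isUnit_of_subsingleton _
  have hBp : ∀ p : ℕ, p.Prime → ¬ B p := by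
    intro p hp
    rw [hB]
    simp only [not_not]
    have e1 : h p = 1 := by
      show f p * rnd f p = 1
      rw [rnd_prime _ hp]
      exact Int.units_mul_self _
    rw [e1, hχ1]
    simp [sgC]
  have hPS : ∀ y N : ℕ, PS B y N = 0 := PS_zero hBp
  have l2 : Tendsto (fun y : ℕ => (y : ℝ) * (1 / 2) ^ y) atTop (𝓝 0) :=
    tendsto_self_mul_const_pow_of_lt_one (r := 1 / 2) (by norm_num) (by norm_num)
  have l3 : Tendsto (fun y : ℕ => 1 / (y : ℝ)) atTop (𝓝 0) :=
    tendsto_natCast_atTop_atTop.const_div_atTop 1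
  have l5 : Tendsto (fun y : ℕ => 2 * ((y : ℝ) * (1 / 2) ^ y + 1 / (y : ℝ))) atTop (𝓝 0) := by
    have := (l2.add l3).const_mul 2
    simpa using this
  obtain ⟨y, hy1, hy2⟩ := ((l5.eventually (eventually_lt_nhds hδ)).and
    (eventually_ge_atTop 1)).exists
  set Q : ℕ := QQ y y with hQ
  have hQ0 : 0 < Q := QQ_pos y y
  refine ⟨Q, (Finset.range Q).filter fun a => h (Nat.gcd a Q) = -1, ?_⟩
  filter_upwards [eventually_ge_atTop 1, eventually_ge_atTop y] with N e2 e3
  have hPP : ∀ n, PP h χ y y n = sg (h (Nat.gcd n Q)) := by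
    intro n
    unfold PP
    rw [hχ1, Complex.one_re, mul_one]
  have huS : ∀ n, uS Q ((Finset.range Q).filter fun a => h (Nat.gcd a Q) = -1) n =
      h (Nat.gcd n Q) := by
    intro n
    have hgc : Nat.gcd (n % Q) Q = Nat.gcd n Q := by
      rw [Nat.gcd_comm n Q, Nat.gcd_rec Q n]
    unfold uS
    by_cases h1 : h (Nat.gcd n Q) = -1
    · rw [if_pos (Finset.mem_filter.mpr ⟨Finset.mem_range.mpr (Nat.mod_lt _ hQ0), by
        rw [hgc]; exact h1⟩), h1]
    · rw [if_neg (fun h2 => h1 (by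
        have h3 := (Finset.mem_filter.mp h2).2
        rwa [hgc] at h3))]
      exact (perU_unit _ h1).symm
  have hgood : ∀ n, 0 < n → ¬ Pool.Agent.Lib.P4a7640.Bad B y y n →
      f n = uS Q ((Finset.range Q).filter fun a => h (Nat.gcd a Q) = -1) n * g n := by
    intro n hn hb
    have h1 := PP_eq_of_not_bad hh χ hn hb
    rw [hPP] at h1
    have h2 : h (Nat.gcd n Q) = h n := perU_sg h1
    rw [huS, h2]
    show f n = f n * g n * g n
    rw [mul_assoc, Int.units_mul_self, mul_one]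
  have hcard : ((((Finset.Icc 1 (2 * N)).filter fun n => f n ≠
      uS Q ((Finset.range Q).filter fun a => h (Nat.gcd a Q) = -1) n * g n).card : ℕ) : ℝ) ≤
      ∑ n ∈ Finset.Icc 1 (2 * N), BI B y y (n + 0) := by
    rw [Finset.card_eq_sum_ones, Finset.sum_filter]
    push_cast
    refine Finset.sum_le_sum fun n hn => ?_
    rw [Finset.mem_Icc] at hn
    rw [add_zero]
    by_cases hb : Pool.Agent.Lib.P4a7640.Bad B y y n
    · have : BI B y y n = 1 := by
        unfold BI
        rw [if_pos hb]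
      rw [this]
      split_ifs <;> norm_num
    · rw [if_neg (fun h1 => h1 (hgood n (by omega) hb))]
      exact BI_nonneg B y y n
  refine hcard.trans ?_
  have h5 := sum_BI_le B y y (2 * N) 0
  have h6 := EB_le B (show 0 < y by omega) (show y ≤ 2 * N + 0 by omega)
  rw [hPS, add_zero] at h6
  have hN0 : (0 : ℝ) ≤ N := Nat.cast_nonneg N
  push_cast at h5 h6 ⊢
  simp only [add_zero] at h5 h6 ⊢
  have h7 : (2 * (N : ℝ)) * EB B y y (2 * N) ≤ (2 * (N : ℝ)) * ((y : ℝ) * (1 / 2) ^ y + 1 / (y : ℝ)) :=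
    mul_le_mul_of_nonneg_left h6 (by positivity)
  have h8 : (2 * (N : ℝ)) * ((y : ℝ) * (1 / 2) ^ y + 1 / (y : ℝ)) =
      2 * ((y : ℝ) * (1 / 2) ^ y + 1 / (y : ℝ)) * N := by ring
  have h9 : 2 * ((y : ℝ) * (1 / 2) ^ y + 1 / (y : ℝ)) * N ≤ δ * N :=
    mul_le_mul_of_nonneg_right hy1.le hN0
  linarith

end Pool.Agent.Lib.P4a7640B
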