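import Mathlib
import Pool.Agent.Lib.P4a7640B.Par

/-!
# Chowla's conjecture implies aperiodicity and the Bernoulli system

`ChowlaU (fun _ => 1) f` gives vanishing ordinary correlations for every fixed nonempty set of shifts. Ordinary
averages tending to `0` imply logarithmic averages tending to `0` (Abel summation), that is `Vanish f`, and then
`Vanish.aperiodic` and `fairAlong_of_vanish` apply.
-/

open Filter Topology

namespace Pool.Agent.Lib.P4a7640B

open Pool.Agent.Lib.P4a7640 Pool.Agent.Lib.P4a7640N Pool.Agent.Lib.P4a7640Ces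

/-- Abel summation -/
lemma sys_abel (a : ℕ → ℝ) (N : ℕ) :
    ∑ n ∈ Finset.Icc 1 N, a n / n = (∑ n ∈ Finset.Icc 1 N, a n) / ((N : ℝ) + 1) +
      ∑ i ∈ Finset.range N, (∑ n ∈ Finset.Icc 1 (i + 1), a n) / (((i : ℝ) + 1) * ((i : ℝ) + 2)) := by
  induction N with
  | zero => simp
  | succ N ih =>
    rw [Finset.sum_Icc_succ_top (by omega), ih, Finset.sum_range_succ,
      Finset.sum_Icc_succ_top (by omega : 1 ≤ N + 1)]
    have h1 : ((N : ℝ) + 1) ≠ 0 := by positivity
    have h2 : ((N : ℝ) + 2) ≠ 0 := by positivity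
    have h3 : ((N : ℝ) + 1 + 1) ≠ 0 := by positivity
    push_cast
    field_simp
    ring

/-- ordinary averages tending to `0` give logarithmic averages tending to `0` -/
lemma sys_log_of_nat {a : ℕ → ℝ}
    (h : Tendsto (fun N : ℕ => (∑ n ∈ Finset.Icc 1 N, a n) / (N : ℝ)) atTop (𝓝 0)) :
    Tendsto (LA a) atTop (𝓝 0) := by
  set S : ℕ → ℝ := fun N => ∑ n ∈ Finset.Icc 1 N, a n with hS
  have hlog : Tendsto (fun N : ℕ => Real.log (N : ℝ)) atTop atTop :=
    Real.tendsto_log_atTop.comp tendsto_natCast_atTop_atTop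
  have hsum : Tendsto (fun n : ℕ => ∑ i ∈ Finset.range n, 1 / ((i : ℝ) + 1)) atTop atTop :=
    Real.tendsto_sum_range_one_div_nat_succ_atTop
  -- the terms of the Abel sum
  have ho : (fun i : ℕ => S (i + 1) / (((i : ℝ) + 1) * ((i : ℝ) + 2))) =o[atTop]
      fun i : ℕ => 1 / ((i : ℝ) + 1) := by
    rw [Asymptotics.isLittleO_iff_tendsto]
    · have h1 : Tendsto (fun i : ℕ => S (i + 1) / ((i + 1 : ℕ) : ℝ)) atTop (𝓝 0) :=
        h.comp (tendsto_add_atTop_nat 1)
      refine squeeze_zero_norm (fun i => ?_) (tendsto_norm_zero.comp h1)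
      have e : S (i + 1) / (((i : ℝ) + 1) * ((i : ℝ) + 2)) / (1 / ((i : ℝ) + 1)) =
          S (i + 1) / ((i : ℝ) + 2) := by
        have h1 : ((i : ℝ) + 1) ≠ 0 := by positivity
        have h2 : ((i : ℝ) + 2) ≠ 0 := by positivity
        field_simp
      rw [e]
      simp only [Function.comp, norm_div]
      refine div_le_div_of_nonneg_left (norm_nonneg _) ?_ ?_
      · rw [norm_pos_iff]
        positivity
      · rw [Real.norm_of_nonneg (by positivity), Real.norm_of_nonneg (by positivity)]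
        push_cast
        linarith
    · intro i hi
      exfalso
      have : (0 : ℝ) < 1 / ((i : ℝ) + 1) := by positivity
      exact this.ne' hi
  have ho2 := ho.sum_range (fun i => by positivity) hsum
  have hO : (fun n : ℕ => ∑ i ∈ Finset.range n, 1 / ((i : ℝ) + 1)) =O[atTop]
      fun n : ℕ => Real.log (n : ℝ) := by
    refine Asymptotics.IsBigO.of_bound 2 ?_
    filter_upwards [hlog.eventually_ge_atTop 1] with n hn
    have h1 := harmonic_le_one_add_log n
    have h2 : ((harmonic n : ℚ) : ℝ) = ∑ i ∈ Finset.range n, 1 / ((i : ℝ) + 1) := by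
      unfold harmonic
      push_cast
      refine Finset.sum_congr rfl fun i _ => ?_
      rw [one_div]
    rw [h2] at h1
    rw [Real.norm_of_nonneg (Finset.sum_nonneg fun i _ => by positivity),
      Real.norm_of_nonneg (by linarith)]
    linarith
  have ho3 := ho2.trans_isBigO hO
  have t1 : Tendsto (fun N : ℕ => (∑ i ∈ Finset.range N,
      S (i + 1) / (((i : ℝ) + 1) * ((i : ℝ) + 2))) / Real.log (N : ℝ)) atTop (𝓝 0) :=
    ho3.tendsto_div_nhds_zero
  have t2 : Tendsto (fun N : ℕ => S N / ((N : ℝ) + 1) / Real.log (N : ℝ)) atTop (𝓝 0) := by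
    refine squeeze_zero_norm' ?_ (tendsto_norm_zero.comp h)
    filter_upwards [hlog.eventually_ge_atTop 1, eventually_gt_atTop 0] with N hN hN0
    have hNR : (0 : ℝ) < N := by exact_mod_cast hN0
    simp only [Function.comp, norm_div]
    rw [Real.norm_of_nonneg (show (0 : ℝ) ≤ (N : ℝ) + 1 by positivity),
      Real.norm_of_nonneg (show (0 : ℝ) ≤ Real.log N by linarith),
      Real.norm_of_nonneg (show (0 : ℝ) ≤ (N : ℝ) by positivity), div_div]
    refine div_le_div_of_nonneg_left (norm_nonneg _) hNR ?_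
    nlinarith
  have t3 := t2.add t1
  rw [add_zero] at t3
  refine t3.congr fun N => ?_
  unfold LA
  rw [sys_abel, add_div]

/-- vanishing correlations for every fixed nonempty set of shifts -/
lemma sys_vanish {f : ℕ → ℤˣ} (h : ChowlaU (fun _ => 1) f) : Vanish f := by
  intro H hH
  apply sys_log_of_nat
  rw [Metric.tendsto_nhds]
  intro ε hε
  filter_upwards [h H.card (ε / 2) (Finset.card_pos.mpr hH) (by positivity),
    eventually_ge_atTop (H.sup id), eventually_gt_atTop 0] with N h1 h2 h3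
  have hNR : (0 : ℝ) < N := by exact_mod_cast h3
  have h4 := h1 H (fun x hx => by
    rw [Finset.mem_range]
    have : x ≤ H.sup id := Finset.le_sup (f := id) hx
    omega) rfl
  have h5 : ∑ n ∈ Finset.Icc 1 N, prodSeq f H n =
      ∑ n ∈ Finset.Icc 1 N, (1 : ℝ) * ∏ h ∈ H, ((f (n + h) : ℤ) : ℝ) := by
    refine Finset.sum_congr rfl fun n _ => ?_
    rw [one_mul]
    rfl
  rw [Real.dist_eq, sub_zero, abs_div, abs_of_pos hNR, div_lt_iff₀ hNR, h5]
  refine lt_of_le_of_lt h4 ?_
  nlinarith

theorem sys_of_chowlaU {f : ℕ → ℤˣ} (hf : MultS f) (h : ChowlaU (fun _ => 1) f) :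
    Aperiodic f ∧ FairSystem f :=
  ⟨(sys_vanish h).aperiodic hf, fairAlong_of_vanish le_rfl (sys_vanish h)⟩

end Pool.Agent.Lib.P4a7640B
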