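import Mathlib
import Pool.Agent.Lib.P4a7640B.CoreF
import Pool.Agent.Lib.P4a7640B.PerU
import Pool.Agent.Lib.P4a7640B.Bet
import Pool.Agent.Lib.P4a7640B.Sys

/-!
# One betting strategy beats every counterexample, with families of weights
-/

open MeasureTheory Filter Topology

namespace Pool.Agent.Lib.P4a7640B

open Pool.Agent.Lib.P4a7640 Pool.Agent.Lib.P4a7640N Pool.Agent.Lib.P4a7640Ces Pool.Agent.Lib.P4a7640N2

/-- from `rnd f` and periodic sign patterns to `f` -/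
lemma sum_close {f : ℕ → ℤˣ} {w : ℕ → ℝ} (hw : ∀ n, |w n| ≤ 1) {R : ℕ}
    {S H : Finset ℕ} {N : ℕ} {δ : ℝ} (hH : H ⊆ Finset.range (N + 1))
    (hE : ((((Finset.Icc 1 (2 * N)).filter fun n => f n ≠ uS R S n * rnd f n).card : ℕ) : ℝ) ≤ δ) :
    |∑ n ∈ Finset.Icc 1 N, w n * ∏ h ∈ H, ((f (n + h) : ℤ) : ℝ) -
      ∑ n ∈ Finset.Icc 1 N, (w n * prodSeq (uS R S) H n) * prodSeq (rnd f) H n| ≤
      2 * H.card * δ := by
  classical
  set E := (Finset.Icc 1 (2 * N)).filter fun n => f n ≠ uS R S n * rnd f n with hEd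
  have hpt : ∀ n ∈ Finset.Icc 1 N, |w n * ∏ h ∈ H, ((f (n + h) : ℤ) : ℝ) -
      (w n * prodSeq (uS R S) H n) * prodSeq (rnd f) H n| ≤
      ∑ h ∈ H, (if n + h ∈ E then (2 : ℝ) else 0) := by
    intro n hn
    rw [Finset.mem_Icc] at hn
    have e1 : ∏ h ∈ H, ((f (n + h) : ℤ) : ℝ) = prodSeq f H n := rfl
    have hnn : ∀ h ∈ H, 0 ≤ (if n + h ∈ E then (2 : ℝ) else 0) := by
      intro h _
      split_ifs <;> norm_num
    rw [mul_assoc, e1, ← mul_sub, abs_mul]
    by_cases hall : ∀ h ∈ H, n + h ∉ E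
    · have h1 : prodSeq f H n = prodSeq (uS R S) H n * prodSeq (rnd f) H n := by
        rw [← prodSeq_mul_fun]
        unfold prodSeq
        refine Finset.prod_congr rfl fun h hh => ?_
        have h2 := hall h hh
        have h3 := hH hh
        rw [Finset.mem_range] at h3
        rw [hEd, Finset.mem_filter, Finset.mem_Icc] at h2
        have h4 : f (n + h) = uS R S (n + h) * rnd f (n + h) := by
          by_contra hcon
          exact h2 ⟨⟨by omega, by omega⟩, hcon⟩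
        rw [h4]
      rw [h1, sub_self, abs_zero, mul_zero]
      exact Finset.sum_nonneg hnn
    · push Not at hall
      obtain ⟨h, hh, hE2⟩ := hall
      calc |w n| * |prodSeq f H n - prodSeq (uS R S) H n * prodSeq (rnd f) H n| ≤ 1 * 2 := by
            apply mul_le_mul (hw n) _ (abs_nonneg _) zero_le_one
            refine (abs_sub _ _).trans ?_
            rw [abs_mul, abs_prodSeq, abs_prodSeq, abs_prodSeq]
            norm_num
        _ = (if n + h ∈ E then (2 : ℝ) else 0) := by rw [if_pos hE2]; ring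
        _ ≤ _ := Finset.single_le_sum hnn hh
  rw [← Finset.sum_sub_distrib]
  refine (Finset.abs_sum_le_sum_abs _ _).trans ((Finset.sum_le_sum hpt).trans ?_)
  rw [Finset.sum_comm]
  have hcard : ∀ h ∈ H, ∑ n ∈ Finset.Icc 1 N, (if n + h ∈ E then (2 : ℝ) else 0) ≤ 2 * δ := by
    intro h _
    rw [← Finset.sum_filter, Finset.sum_const, nsmul_eq_mul, mul_comm]
    apply mul_le_mul_of_nonneg_left _ (by norm_num)
    refine le_trans ?_ hE
    have h1 : ((Finset.Icc 1 N).filter fun n => n + h ∈ E).card ≤ E.card :=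
      Finset.card_le_card_of_injOn (fun n => n + h) (fun n hn => by
        rw [Finset.mem_coe, Finset.mem_filter] at hn
        exact hn.2) (fun _ _ _ _ hab => Nat.add_right_cancel hab)
    exact_mod_cast h1
  refine (Finset.sum_le_sum hcard).trans (le_of_eq ?_)
  rw [Finset.sum_const, nsmul_eq_mul]
  ring

lemma subExp_succ {A : ℕ → ℕ} (hA : SubExp A) : SubExp fun N => A N + 1 := by
  intro δ hδ
  have h1 : Tendsto (fun N : ℕ => (N : ℝ) ^ (δ / 2)) atTop atTop :=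
    (tendsto_rpow_atTop (by positivity)).comp tendsto_natCast_atTop_atTop
  filter_upwards [hA (δ / 2) (by positivity), h1.eventually_ge_atTop 2] with N h2 h3
  push_cast
  have h4 : (N : ℝ) ^ δ = (N : ℝ) ^ (δ / 2) * (N : ℝ) ^ (δ / 2) := by
    rcases Nat.eq_zero_or_pos N with rfl | hN
    · rw [Nat.cast_zero, Real.zero_rpow hδ.ne', Real.zero_rpow (by positivity), mul_zero]
    · rw [← Real.rpow_add (by exact_mod_cast hN)]
      congr 1
      ring
  have h5 : (N : ℝ) ^ (δ / 2) + 1 ≤ (N : ℝ) ^ δ := by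
    rw [h4]
    nlinarith
  have h6 : 1 ≤ Real.exp ((N : ℝ) ^ (δ / 2)) := Real.one_le_exp (by positivity)
  have h7 : (2 : ℝ) ≤ Real.exp 1 := by
    have := Real.add_one_le_exp (1 : ℝ)
    linarith
  calc (A N : ℝ) + 1 ≤ Real.exp ((N : ℝ) ^ (δ / 2)) * 2 := by linarith
    _ ≤ Real.exp ((N : ℝ) ^ (δ / 2)) * Real.exp 1 := by gcongr
    _ = Real.exp ((N : ℝ) ^ (δ / 2) + 1) := (Real.exp_add _ _).symm
    _ ≤ Real.exp ((N : ℝ) ^ δ) := Real.exp_le_exp.mpr h5

/-- one betting strategy beats every counterexample -/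
theorem strategyF {θ : ℕ → ℝ} (hθ0 : ∀ p, 0 ≤ θ p) (hθ1 : ∀ p, θ p ≤ 1) {k : ℕ} {c : ℝ} (hc : 0 < c)
    (hk : ∀ᶠ N : ℕ in atTop, c ≤ ∑ p ∈ (Finset.Icc 1 N).filter
      (fun p : ℕ => p.Prime ∧ N < p ^ k), min (θ p) (1 - θ p) / (p : ℝ))
    (g : ℕ → ℕ → ℤˣ) {A : ℕ → ℕ} (hA : SubExp A) {w : ℕ → ℕ → ℕ → ℝ}
    (hw : ∀ N a n, |w N a n| ≤ 1) :
    ∃ K : ℕ → SS → ℝ, IsStrategy θ K ∧ ∀ (r : ℕ) (ε : ℝ), 0 < r → 0 < ε → ∃ η : ℝ, 0 < η ∧
      ∀ (x : SS) (i : ℕ) (f : ℕ → ℤˣ), MultS f → SlowTo f (fun p => g i p * x p) →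
        Dev A w r ε f → ∃ᶠ M : ℕ in atTop, Real.exp (η * Nat.primeCounting M) ≤ K M x := by
  -- the window at the scales `rt k N`
  have hi : ∀ᶠ N : ℕ in atTop, c ≤ MS (fun p => min (θ p) (1 - θ p)) (rt k N) N := by
    filter_upwards [hk] with N hN
    refine hN.trans ?_
    rw [MS_window]
    apply Finset.sum_le_sum_of_subset_of_nonneg
    · intro p hp
      rw [Finset.mem_filter] at hp ⊢
      refine ⟨hp.1, hp.2.1, lt_of_lt_of_le hp.2.2 ?_⟩
      exact Nat.pow_le_pow_right hp.2.1.pos (Nat.lt_two_pow_self).le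
    · intro p _ _
      exact div_nonneg (le_min (hθ0 p) (by linarith [hθ1 p])) (Nat.cast_nonneg p)
  -- the weights, with the weight `1`
  set v : ℕ → ℕ → ℕ → ℝ := fun N a => if a = 0 then fun _ => 1 else w N (a - 1) with hv
  have hv1 : ∀ N a n, |v N a n| ≤ 1 := by
    intro N a n
    simp only [hv]
    split_ifs with h
    · simp
    · exact hw _ _ _
  choose J t ht hcore using fun r m : ℕ => coreF hθ0 hθ1 hc hi (r := r + 1) (Nat.succ_pos r)
    (ε := 1 / ((m : ℝ) + 1)) (by positivity)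
  choose η hη huni using fun r m : ℕ => uniF (r := r + 1) (Nat.succ_pos r) (J r m) (ht r m)
    (subExp_succ hA)
  set W : ℕ → Finset ℕ → ℕ → ℕ → Finset ℕ → ℕ → ℝ := fun R S N a H n =>
    v N a n * prodSeq (uS R S) H n with hW
  have hW1 : ∀ R S N a H n, |W R S N a H n| ≤ 1 := by
    intro R S N a H n
    simp only [hW]
    rw [abs_mul, abs_prodSeq, mul_one]
    exact hv1 N a n
  set B : ℕ × ℕ × ℕ × ℕ × Finset ℕ → ℕ → Set SS := fun q k =>
    BadF θ (fun N => A N + 1) (W q.2.2.2.1 q.2.2.2.2) (g q.2.2.1) (q.1 + 1)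
      (J q.1 q.2.1) (t q.1 q.2.1) k with hB
  obtain ⟨K, hK, hwin⟩ := exists_strategy_rate hθ0 hθ1 B (fun q k => DepOn_BadF _ _ _ _ _ _ _ _)
    (fun q => η q.1 q.2.1) (fun q => hη q.1 q.2.1) (fun q => by
      filter_upwards [huni q.1 q.2.1] with k hk x
      exact hk θ hθ0 hθ1 _ (hW1 _ _) _ x)
  refine ⟨K, hK, fun r ε hr hε => ?_⟩
  obtain ⟨r, rfl⟩ : ∃ r', r = r' + 1 := ⟨r - 1, by omega⟩
  obtain ⟨m, hm⟩ := exists_nat_one_div_lt (show 0 < ε / 2 by positivity)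
  have hηp := hη r m
  refine ⟨η r m / 32, by positivity, fun x i f hf hslow hdev => ?_⟩
  by_contra hx
  have hδ : 0 < ε / (4 * ((r + 1 : ℕ) : ℝ)) := by positivity
  obtain ⟨R, S, hRS⟩ := exists_periodic hf hδ
  have hnot : ∀ᶠ k : ℕ in atTop, x ∉ BadF θ (fun N => A N + 1) (W R S) (g i) (r + 1)
      (J r m) (t r m) k := by
    by_contra hcon
    rw [not_eventually] at hcon
    refine hx (hwin (r, m, i, R, S) x (hcon.mono fun k hk => ?_))
    rw [not_not] at hk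
    exact hk
  have h1 := hcore r m (fun N => A N + 1) (W R S) (hW1 R S) (g i) x f hslow hnot
  have key : ∀ᶠ N : ℕ in atTop, ∀ a < A N + 1, ∀ H : Finset ℕ, H ⊆ Finset.range (N + 1) →
      H.card = r + 1 → |∑ n ∈ Finset.Icc 1 N, v N a n * ∏ h ∈ H, ((f (n + h) : ℤ) : ℝ)| ≤ ε * N := by
    filter_upwards [h1, hRS] with N h2 h3 a ha H hH hcard
    have h4 := h2 a ha H hH hcard
    have h5 := sum_close (f := f) (hv1 N a) hH h3
    rw [hcard] at h5
    have h6 : 2 * ((r + 1 : ℕ) : ℝ) * (ε / (4 * ((r + 1 : ℕ) : ℝ)) * N) = ε / 2 * N := by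
      field_simp
      ring
    rw [h6] at h5
    have h7 : |∑ n ∈ Finset.Icc 1 N, (v N a n * prodSeq (uS R S) H n) * prodSeq (rnd f) H n| ≤
        ε / 2 * N := by
      refine h4.trans ?_
      exact mul_le_mul_of_nonneg_right hm.le (Nat.cast_nonneg N)
    rw [abs_le] at h5 h7 ⊢
    constructor <;> linarith [h5.1, h5.2, h7.1, h7.2]
  obtain ⟨N, ⟨H, hH, hcard, u, hu, hlt⟩, hN⟩ := (hdev.and_eventually key).exists
  rcases hu with rfl | ⟨a, ha, rfl⟩
  · have := hN 0 (Nat.succ_pos _) H hH hcard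
    simp only [hv, if_true] at this
    exact absurd this (not_le.mpr hlt)
  · have := hN (a + 1) (by omega) H hH hcard
    simp only [hv, Nat.succ_ne_zero, if_false, Nat.add_sub_cancel] at this
    exact absurd this (not_le.mpr hlt)

/-- uniform Chowla implies the rest -/
lemma good_of_not_dev {A : ℕ → ℕ} {w : ℕ → ℕ → ℕ → ℝ} {f : ℕ → ℤˣ} (hf : MultS f)
    (h : ∀ (r : ℕ) (ε : ℝ), 0 < r → 0 < ε → ¬ Dev A w r ε f) : Good A w f := by
  refine ⟨h, sys_of_chowlaU hf ?_⟩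
  intro r ε hr hε
  have h1 := h r ε hr hε
  unfold Dev at h1
  rw [not_frequently] at h1
  filter_upwards [h1] with N hN H hH hcard
  by_contra hcon
  push Not at hcon
  exact hN ⟨H, hH, hcard, fun _ => 1, Or.inl rfl, hcon⟩

end Pool.Agent.Lib.P4a7640B
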