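import Mathlib
import Pool.Agent.Lib.P4a7640B.ParP
import Pool.Agent.Lib.P4a7640B.PerP
import Pool.Agent.Lib.P4a7640B.CoreP
import Pool.Agent.Lib.P4a7640B.BetE
import Pool.Agent.Lib.P4a7640B.FinF

/-!
# One betting strategy, uniformly and at a positive proportion of the scales
-/

open MeasureTheory Filter Topology

namespace Pool.Agent.Lib.P4a7640B

open Pool.Agent.Lib.P4a7640 Pool.Agent.Lib.P4a7640N Pool.Agent.Lib.P4a7640Ces Pool.Agent.Lib.P4a7640N2

/-- close at the scale `N` implies few exceptions beyond `rt (J + 1) N` -/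
lemma ES_of_near {η s : ℝ} {J N : ℕ} (hN : 1 ≤ N) (hηs : η ≤ s) (hηJ : η ≤ (1 / 2) ^ (J + 1))
    {f y : SS} (h : Near η N f y) : ES f y (rt (J + 1) N) (2 * N) ≤ s := by
  refine le_trans ?_ (h.trans hηs)
  unfold ES
  apply Finset.sum_le_sum_of_subset_of_nonneg
  · intro p hp
    rw [Finset.mem_filter, Finset.mem_Ioc] at hp
    obtain ⟨⟨h1, h2⟩, h3, h4⟩ := hp
    rw [Finset.mem_filter, Finset.mem_Icc]
    refine ⟨⟨h3.one_le, h2⟩, h3, ?_, h4⟩
    rw [rt_lt_iff] at h1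
    have hN' : (1 : ℝ) ≤ N := by exact_mod_cast hN
    have h5 : (N : ℝ) < (p : ℝ) ^ (2 ^ (J + 1)) := by exact_mod_cast h1
    have h6 : (N : ℝ) ^ ((1 / 2 : ℝ) ^ (J + 1)) < ((p : ℝ) ^ (2 ^ (J + 1))) ^ ((1 / 2 : ℝ) ^ (J + 1)) :=
      Real.rpow_lt_rpow (by positivity) h5 (by positivity)
    have h7 : ((p : ℝ) ^ (2 ^ (J + 1))) ^ ((1 / 2 : ℝ) ^ (J + 1)) = p := by
      rw [← Real.rpow_natCast, ← Real.rpow_mul (Nat.cast_nonneg p)]
      have : ((2 ^ (J + 1) : ℕ) : ℝ) * (1 / 2 : ℝ) ^ (J + 1) = 1 := by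
        push_cast
        rw [← mul_pow]
        norm_num
      rw [this, Real.rpow_one]
    rw [h7] at h6
    exact lt_of_le_of_lt (Real.rpow_le_rpow_of_exponent_le hN' hηJ) h6
  · intro p _ _
    positivity

/-- one betting strategy wins at a positive proportion of the scales below every scale at which a
multiplicative function has a large correlation -/
theorem strategyP {θ : ℕ → ℝ} (hθ0 : ∀ p, 0 ≤ θ p) (hθ1 : ∀ p, θ p ≤ 1) {k : ℕ} {c : ℝ} (hc : 0 < c)
    (hk : ∀ᶠ N : ℕ in atTop, c ≤ ∑ p ∈ (Finset.Icc 1 N).filter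
      (fun p : ℕ => p.Prime ∧ N < p ^ k), min (θ p) (1 - θ p) / (p : ℝ))
    (g : ℕ → ℕ → ℤˣ) {A : ℕ → ℕ} (hA : SubExp A) {w : ℕ → ℕ → ℕ → ℝ}
    (hw : ∀ N a n, |w N a n| ≤ 1) :
    ∃ K : ℕ → SS → ℝ, IsStrategy θ K ∧ ∀ (r : ℕ) (ε : ℝ), 0 < r → 0 < ε → ∃ η : ℝ, 0 < η ∧
      ∀ i : ℕ, ∀ᶠ N : ℕ in atTop, ∀ (x : SS) (f : ℕ → ℤˣ), MultS f →
        Near η N f (fun p => g i p * x p) → DevN A w r ε N f →
        Often η N fun k => Real.exp (η * Nat.primeCounting (2 ^ k)) ≤ K (2 ^ k) x := by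
  classical
  -- the window at the scales `rt k N`
  have hi : ∀ᶠ N : ℕ in atTop, c ≤ MS (fun p => min (θ p) (1 - θ p)) (rt k N) N := by
    filter_upwards [hk] with N hN
    refine hN.trans ?_
    rw [MS_window]
    apply Finset.sum_le_sum_of_subset_of_nonneg
    · intro p hp
      rw [Finset.mem_filter] at hp ⊢
      refine ⟨hp.1, hp.2.1, lt_of_lt_of_le hp.2.2 ?_⟩
      exact Nat.pow_le_pow_right hp.2.1.pos (Nat.lt_two_pow_self).le
    · intro p _ _
      exact div_nonneg (le_min (hθ0 p) (by linarith [hθ1 p])) (Nat.cast_nonneg p)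
  -- the weights, with the weight `1`
  set v : ℕ → ℕ → ℕ → ℝ := fun N a => if a = 0 then fun _ => 1 else w N (a - 1) with hv
  have hv1 : ∀ N a n, |v N a n| ≤ 1 := by
    intro N a n
    simp only [hv]
    split_ifs with h
    · simp
    · exact hw _ _ _
  choose J t s κ ht hs hκ hcore using fun r m : ℕ => coreP hθ0 hθ1 hc hi (r := r + 1)
    (Nat.succ_pos r) (ε := 1 / ((m : ℝ) + 1)) (by positivity)
  choose η hη huni using fun r m : ℕ => uniF (r := r + 1) (Nat.succ_pos r) (J r m) (ht r m)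
    (subExp_succ hA)
  set W : ℕ → Finset ℕ → ℕ → ℕ → Finset ℕ → ℕ → ℝ := fun R S N a H n =>
    v N a n * prodSeq (uS R S) H n with hW
  have hW1 : ∀ R S N a H n, |W R S N a H n| ≤ 1 := by
    intro R S N a H n
    simp only [hW]
    rw [abs_mul, abs_prodSeq, mul_one]
    exact hv1 N a n
  set B : ℕ × ℕ × ℕ × ℕ × Finset ℕ → ℕ → Set SS := fun q k =>
    BadF θ (fun N => A N + 1) (W q.2.2.2.1 q.2.2.2.2) (g q.2.2.1) (q.1 + 1)
      (J q.1 q.2.1) (t q.1 q.2.1) k with hB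
  obtain ⟨K, hK, hwin⟩ := exists_strategyE hθ0 hθ1 B (fun q k => DepOn_BadF _ _ _ _ _ _ _ _)
    (fun q => η q.1 q.2.1) (fun q => hη q.1 q.2.1) (fun q => by
      filter_upwards [huni q.1 q.2.1] with k hk x
      exact hk θ hθ0 hθ1 _ (hW1 _ _) _ x)
  refine ⟨K, hK, fun r ε hr hε => ?_⟩
  obtain ⟨r, rfl⟩ : ∃ r', r = r' + 1 := ⟨r - 1, by omega⟩
  obtain ⟨m, hm⟩ := exists_nat_one_div_lt (show 0 < ε / 2 by positivity)
  have hηp := hη r m
  have hsp := hs r m
  have hκp := hκ r m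
  have hδ : 0 < ε / (4 * ((r + 1 : ℕ) : ℝ)) := by positivity
  obtain ⟨R, hR⟩ := exists_periodic_unif hδ
  refine ⟨min (min (η r m / 32) (κ r m)) (min (s r m) ((1 / 2) ^ (J r m + 1))), by positivity,
    fun i => ?_⟩
  set η' : ℝ := min (min (η r m / 32) (κ r m)) (min (s r m) ((1 / 2) ^ (J r m + 1))) with hη'
  have e1 : η' ≤ η r m / 32 := (min_le_left _ _).trans (min_le_left _ _)
  have e2 : η' ≤ κ r m := (min_le_left _ _).trans (min_le_right _ _)
  have e3 : η' ≤ s r m := (min_le_right _ _).trans (min_le_left _ _)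
  have e4 : η' ≤ (1 / 2) ^ (J r m + 1) := (min_le_right _ _).trans (min_le_right _ _)
  have hfin : ∀ᶠ k : ℕ in atTop, ∀ S ∈ (Finset.range R).powerset, ∀ x ∈ B (r, m, i, R, S) k,
      Real.exp (η r m / 32 * Nat.primeCounting (2 ^ (k + 1))) ≤ K (2 ^ (k + 1)) x := by
    rw [Filter.eventually_all_finset]
    intro S _
    exact hwin (r, m, i, R, S)
  obtain ⟨k₁, hk₁⟩ := eventually_atTop.1 hfin
  filter_upwards [hcore r m, hR, eventually_ge_atTop 1,
    (core_tendsto_k0 (J r m)).eventually_ge_atTop k₁] with N h1 h2 hN1 hkN x f hf hnear hdev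
  obtain ⟨S, hS, h3⟩ := h2 f hf
  have hES := ES_of_near hN1 e3 e4 hnear
  obtain ⟨H, hH, hcard, u, hu, hlt⟩ := hdev
  -- the large correlation of `rnd f`
  obtain ⟨a, ha, hbig⟩ : ∃ a < A N + 1, 1 / ((m : ℝ) + 1) * N <
      |∑ n ∈ Finset.Icc 1 N, W R S N a H n * prodSeq (rnd f) H n| := by
    obtain ⟨a, ha, rfl⟩ : ∃ a < A N + 1, u = v N a := by
      rcases hu with rfl | ⟨a, ha, rfl⟩
      · exact ⟨0, Nat.succ_pos _, by simp [hv]⟩
      · exact ⟨a + 1, by omega, by simp [hv]⟩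
    refine ⟨a, ha, ?_⟩
    have h5 := sum_close (f := f) (hv1 N a) hH h3
    rw [hcard] at h5
    have h6 : 2 * ((r + 1 : ℕ) : ℝ) * (ε / (4 * ((r + 1 : ℕ) : ℝ)) * N) = ε / 2 * N := by
      field_simp
      ring
    rw [h6] at h5
    have hN' : (0 : ℝ) < N := by exact_mod_cast hN1
    have h7 : 1 / ((m : ℝ) + 1) * N < ε / 2 * N := mul_lt_mul_of_pos_right hm hN'
    simp only [hW]
    by_contra hcon
    push Not at hcon
    have h8 := abs_sub_abs_le_abs_sub (∑ n ∈ Finset.Icc 1 N, v N a n * ∏ h ∈ H, ((f (n + h) : ℤ) : ℝ))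
      (∑ n ∈ Finset.Icc 1 N, (v N a n * prodSeq (uS R S) H n) * prodSeq (rnd f) H n)
    linarith
  have h9 := h1 (fun N => A N + 1) (W R S) (hW1 R S) (g i) x f hES a ha H hH hcard hbig
  -- the winning scales
  refine ⟨((Finset.Ico (k0 (J r m) N) (KN N)).filter fun k =>
    x ∈ BadF θ (fun N => A N + 1) (W R S) (g i) (r + 1) (J r m) (t r m) k).image (· + 1), ?_, ?_⟩
  · rw [Finset.card_image_of_injective _ (add_left_injective 1)]
    refine le_trans ?_ h9
    apply mul_le_mul_of_nonneg_right e2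
    exact Real.log_natCast_nonneg N
  · intro k' hk'
    rw [Finset.mem_image] at hk'
    obtain ⟨k, hk, rfl⟩ := hk'
    rw [Finset.mem_filter, Finset.mem_Ico] at hk
    obtain ⟨⟨hk2, hk3⟩, hk4⟩ := hk
    constructor
    · have h10 : 2 ^ (KN N - 1) < 2 * N :=
        (Nat.lt_clog_iff_pow_lt one_lt_two).1 (by
          show KN N - 1 < KN N
          omega)
      have h11 : 2 ^ (k + 1) ≤ 2 ^ (KN N - 1) * 2 := by
        rw [← pow_succ]
        exact Nat.pow_le_pow_right (by norm_num) (by omega)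
      omega
    · refine le_trans ?_ (hk₁ k (hkN.trans hk2) S (Finset.mem_powerset.2 hS) x hk4)
      apply Real.exp_le_exp.2
      exact mul_le_mul_of_nonneg_right e1 (Nat.cast_nonneg _)

end Pool.Agent.Lib.P4a7640B
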