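import Mathlib
import Pool.Agent.Lib.P4a7640B.Par

/-!
# Dependent random signs against a betting strategy

By induction on `M`: `∫ K M (fun p => ε p ω) ∂P ≤ ∏_{p ≤ M} (1 + ρ p)`, where the integral is written as
the finite sum `Dep_Z` over the patterns (finsets of the primes `≤ M` with sign `-1`).
Then Markov: `P (exp (η π(M)) ≤ K M) ≤ exp (-η π(M) + ∑_{p ≤ M, prime} ρ p) ≤ exp (-η π(M) / 2)` for large `M`,
and Borel-Cantelli along the primes.
-/

open MeasureTheory Filter Topology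

namespace Pool.Agent.Lib.P4a7640B

open Pool.Agent.Lib.P4a7640 Pool.Agent.Lib.P4a7640N Pool.Agent.Lib.P4a7640Ces

/-- the sign pattern with the sign `-1` exactly on `A` -/
private def depS (A : Finset ℕ) : SS := fun p => if p ∈ A then -1 else 1

/-- the primes `≤ M` -/
private def depPr (M : ℕ) : Finset ℕ := (Finset.Icc 1 M).filter Nat.Prime

/-- the event that the signs at the primes `≤ M` are those of the pattern of `A` -/
private def depEv {Ω : Type*} (ε : ℕ → Ω → ℤˣ) (M : ℕ) (A : Finset ℕ) : Set Ω :=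
  {ω | ∀ q : ℕ, q.Prime → q ≤ M → ε q ω = depS A q}

private noncomputable def depZ {Ω : Type*} [MeasurableSpace Ω] (P : Measure Ω) (ε : ℕ → Ω → ℤˣ)
    (K : ℕ → SS → ℝ) (M : ℕ) : ℝ :=
  ∑ A ∈ (depPr M).powerset, P.real (depEv ε M A) * K M (depS A)

private lemma depPr_succ_of_prime {M : ℕ} (h : (M + 1).Prime) :
    depPr (M + 1) = insert (M + 1) (depPr M) := by
  ext q
  simp only [depPr, Finset.mem_filter, Finset.mem_Icc, Finset.mem_insert]
  constructor
  · rintro ⟨⟨h1, h2⟩, h3⟩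
    by_cases hq : q = M + 1
    · exact Or.inl hq
    · exact Or.inr ⟨⟨h1, by omega⟩, h3⟩
  · rintro (rfl | ⟨⟨h1, h2⟩, h3⟩)
    · exact ⟨⟨by omega, le_rfl⟩, h⟩
    · exact ⟨⟨h1, by omega⟩, h3⟩

private lemma depPr_succ_of_not_prime {M : ℕ} (h : ¬ (M + 1).Prime) :
    depPr (M + 1) = depPr M := by
  ext q
  simp only [depPr, Finset.mem_filter, Finset.mem_Icc]
  constructor
  · rintro ⟨⟨h1, h2⟩, h3⟩
    have hq : q ≠ M + 1 := by rintro rfl; exact h h3
    exact ⟨⟨h1, by omega⟩, h3⟩
  · rintro ⟨⟨h1, h2⟩, h3⟩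
    exact ⟨⟨h1, by omega⟩, h3⟩

private lemma not_mem_depPr (M : ℕ) : M + 1 ∉ depPr M := by
  simp [depPr]

private lemma depS_update {A : Finset ℕ} {p : ℕ} (hp : p ∉ A) :
    Function.update (depS A) p 1 = depS A := by
  funext q
  by_cases hq : q = p
  · subst hq; simp [depS, hp]
  · simp [Function.update_of_ne hq]

private lemma depS_update_neg (A : Finset ℕ) (p : ℕ) :
    Function.update (depS A) p (-1) = depS (insert p A) := by
  funext q
  by_cases hq : q = p
  · subst hq; simp [depS]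
  · simp [depS, hq]

private lemma depZ_zero {θ : ℕ → ℝ} {K : ℕ → SS → ℝ} (hK : IsStrategy θ K) {Ω : Type*}
    [MeasurableSpace Ω] {P : Measure Ω} [IsProbabilityMeasure P] (ε : ℕ → Ω → ℤˣ) :
    depZ P ε K 0 = 1 := by
  have h0 : depPr 0 = ∅ := by simp [depPr]
  have hE : depEv ε 0 ∅ = Set.univ := by
    ext ω
    simp only [depEv, Set.mem_ofPred_eq, Set.mem_univ, iff_true]
    intro q hq hq0
    have := hq.pos
    omega
  simp only [depZ, h0, Finset.powerset_empty, Finset.sum_singleton, hE, hK.1, mul_one]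
  simp

private lemma depZ_nonneg {θ : ℕ → ℝ} {K : ℕ → SS → ℝ} (hK : IsStrategy θ K) {Ω : Type*}
    [MeasurableSpace Ω] {P : Measure Ω} (ε : ℕ → Ω → ℤˣ) (M : ℕ) : 0 ≤ depZ P ε K M :=
  Finset.sum_nonneg fun _ _ => mul_nonneg measureReal_nonneg (hK.2.1 _ _)

private lemma depZ_succ_of_not_prime {θ : ℕ → ℝ} {K : ℕ → SS → ℝ} (hK : IsStrategy θ K) {Ω : Type*}
    [MeasurableSpace Ω] {P : Measure Ω} (ε : ℕ → Ω → ℤˣ) {M : ℕ} (h : ¬ (M + 1).Prime) :
    depZ P ε K (M + 1) = depZ P ε K M := by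
  unfold depZ
  rw [depPr_succ_of_not_prime h]
  refine Finset.sum_congr rfl fun A _ => ?_
  have hE : depEv ε (M + 1) A = depEv ε M A := by
    ext ω
    simp only [depEv, Set.mem_ofPred_eq]
    constructor
    · intro H q hq hqM
      exact H q hq (by omega)
    · intro H q hq hqM
      have hq' : q ≠ M + 1 := by rintro rfl; exact h hq
      exact H q hq (by omega)
  rw [hE, hK.2.2.2.1 M _ h]

private lemma depZ_succ_of_prime {θ : ℕ → ℝ} {K : ℕ → SS → ℝ} (hK : IsStrategy θ K) {Ω : Type*}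
    [MeasurableSpace Ω] {P : Measure Ω} {ε : ℕ → Ω → ℤˣ} {ρ : ℕ → ℝ}
    (hP : ∀ p : ℕ, p.Prime → ∀ s : SS, ∀ u : ℤˣ,
      P.real {ω | (∀ q : ℕ, q.Prime → q < p → ε q ω = s q) ∧ ε p ω = u} ≤
        (1 + ρ p) * (if u = 1 then 1 - θ p else θ p) *
          P.real {ω | ∀ q : ℕ, q.Prime → q < p → ε q ω = s q}) {M : ℕ} (h : (M + 1).Prime) :
    depZ P ε K (M + 1) ≤ (1 + ρ (M + 1)) * depZ P ε K M := by
  unfold depZ
  rw [depPr_succ_of_prime h, Finset.sum_powerset_insert (not_mem_depPr M), ← Finset.sum_add_distrib,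
    Finset.mul_sum]
  refine Finset.sum_le_sum fun A hA => ?_
  have hA' : M + 1 ∉ A := fun hc => not_mem_depPr M (Finset.mem_powerset.mp hA hc)
  have hE0 : depEv ε M A = {ω | ∀ q : ℕ, q.Prime → q < M + 1 → ε q ω = depS A q} := by
    ext ω
    simp only [depEv, Set.mem_ofPred_eq, Nat.lt_succ_iff]
  have hE1 : depEv ε (M + 1) A =
      {ω | (∀ q : ℕ, q.Prime → q < M + 1 → ε q ω = depS A q) ∧ ε (M + 1) ω = 1} := by
    ext ω
    simp only [depEv, Set.mem_ofPred_eq]
    constructor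
    · intro H
      refine ⟨fun q hq hqM => H q hq hqM.le, ?_⟩
      rw [H (M + 1) h le_rfl]
      simp [depS, hA']
    · rintro ⟨H1, H2⟩ q hq hqM
      by_cases hq' : q = M + 1
      · subst hq'
        rw [H2]
        simp [depS, hA']
      · exact H1 q hq (by omega)
  have hE2 : depEv ε (M + 1) (insert (M + 1) A) =
      {ω | (∀ q : ℕ, q.Prime → q < M + 1 → ε q ω = depS A q) ∧ ε (M + 1) ω = -1} := by
    ext ω
    simp only [depEv, Set.mem_ofPred_eq]
    constructor
    · intro H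
      refine ⟨fun q hq hqM => ?_, ?_⟩
      · rw [H q hq hqM.le]
        simp [depS, hqM.ne]
      · rw [H (M + 1) h le_rfl]
        simp [depS]
    · rintro ⟨H1, H2⟩ q hq hqM
      by_cases hq' : q = M + 1
      · subst hq'
        rw [H2]
        simp [depS]
      · rw [H1 q hq (by omega)]
        simp [depS, hq']
  have hk1 : K (M + 1) (depS A) = K (M + 1) (Function.update (depS A) (M + 1) 1) := by
    rw [depS_update hA']
  have hk2 : K (M + 1) (depS (insert (M + 1) A)) =
      K (M + 1) (Function.update (depS A) (M + 1) (-1)) := by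
    rw [depS_update_neg]
  have hfair := hK.2.2.2.2 (M + 1) (depS A) h
  rw [Nat.add_sub_cancel] at hfair
  have h1 := hP (M + 1) h (depS A) 1
  have h2 := hP (M + 1) h (depS A) (-1)
  rw [if_pos rfl] at h1
  rw [if_neg (by decide)] at h2
  rw [← hE1, ← hE0] at h1
  rw [← hE2, ← hE0] at h2
  rw [hk1, hk2]
  have hK1 := hK.2.1 (M + 1) (Function.update (depS A) (M + 1) 1)
  have hK2 := hK.2.1 (M + 1) (Function.update (depS A) (M + 1) (-1))
  calc P.real (depEv ε (M + 1) A) * K (M + 1) (Function.update (depS A) (M + 1) 1) +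
        P.real (depEv ε (M + 1) (insert (M + 1) A)) *
          K (M + 1) (Function.update (depS A) (M + 1) (-1))
      ≤ ((1 + ρ (M + 1)) * (1 - θ (M + 1)) * P.real (depEv ε M A)) *
          K (M + 1) (Function.update (depS A) (M + 1) 1) +
        ((1 + ρ (M + 1)) * θ (M + 1) * P.real (depEv ε M A)) *
          K (M + 1) (Function.update (depS A) (M + 1) (-1)) :=
        add_le_add (mul_le_mul_of_nonneg_right h1 hK1) (mul_le_mul_of_nonneg_right h2 hK2)
    _ = (1 + ρ (M + 1)) * (P.real (depEv ε M A) *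
          ((1 - θ (M + 1)) * K (M + 1) (Function.update (depS A) (M + 1) 1) +
            θ (M + 1) * K (M + 1) (Function.update (depS A) (M + 1) (-1)))) := by ring
    _ = (1 + ρ (M + 1)) * (P.real (depEv ε M A) * K M (depS A)) := by rw [hfair]

private lemma depZ_le {θ : ℕ → ℝ} {K : ℕ → SS → ℝ} (hK : IsStrategy θ K) {Ω : Type*}
    [MeasurableSpace Ω] {P : Measure Ω} [IsProbabilityMeasure P] {ε : ℕ → Ω → ℤˣ} {ρ : ℕ → ℝ}
    (hP : ∀ p : ℕ, p.Prime → ∀ s : SS, ∀ u : ℤˣ,
      P.real {ω | (∀ q : ℕ, q.Prime → q < p → ε q ω = s q) ∧ ε p ω = u} ≤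
        (1 + ρ p) * (if u = 1 then 1 - θ p else θ p) *
          P.real {ω | ∀ q : ℕ, q.Prime → q < p → ε q ω = s q}) (M : ℕ) :
    depZ P ε K M ≤ Real.exp (∑ p ∈ depPr M, ρ p) := by
  induction M with
  | zero =>
    rw [depZ_zero hK]
    have h0 : depPr 0 = ∅ := by simp [depPr]
    simp [h0]
  | succ M ih =>
    by_cases h : (M + 1).Prime
    · rw [depPr_succ_of_prime h, Finset.sum_insert (not_mem_depPr M), Real.exp_add]
      refine (depZ_succ_of_prime hK hP h).trans ?_
      refine mul_le_mul ?_ ih (depZ_nonneg hK ε M) (Real.exp_pos _).le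
      have := Real.add_one_le_exp (ρ (M + 1))
      linarith
    · rw [depZ_succ_of_not_prime hK ε h, depPr_succ_of_not_prime h]
      exact ih

/-- Markov's inequality -/
private lemma dep_markov {θ : ℕ → ℝ} {K : ℕ → SS → ℝ} (hK : IsStrategy θ K) {Ω : Type*}
    [MeasurableSpace Ω] {P : Measure Ω} [IsProbabilityMeasure P] (ε : ℕ → Ω → ℤˣ) (M : ℕ) {c : ℝ}
    (hc : 0 < c) : P.real {ω | c ≤ K M (fun p => ε p ω)} * c ≤ depZ P ε K M := by
  classical
  set T := (depPr M).powerset.filter fun A => c ≤ K M (depS A) with hT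
  have hsub : {ω | c ≤ K M (fun p => ε p ω)} ⊆ ⋃ A ∈ T, depEv ε M A := by
    intro ω hω
    simp only [Set.mem_ofPred_eq] at hω
    set A := (depPr M).filter fun p => ε p ω = -1 with hA
    have hs : ∀ p : ℕ, p.Prime → p ≤ M → ε p ω = depS A p := by
      intro p hp hpM
      have hmem : p ∈ depPr M := by
        simp only [depPr, Finset.mem_filter, Finset.mem_Icc]
        exact ⟨⟨hp.one_lt.le, hpM⟩, hp⟩
      rcases Int.units_eq_one_or (ε p ω) with h1 | h1
      · have hp' : p ∉ A := by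
          simp only [hA, Finset.mem_filter, not_and]
          intro _
          rw [h1]
          decide
        simp [depS, hp', h1]
      · have hp' : p ∈ A := by
          simp only [hA, Finset.mem_filter]
          exact ⟨hmem, h1⟩
        simp [depS, hp', h1]
    have hKe : K M (fun p => ε p ω) = K M (depS A) := hK.2.2.1 M _ _ hs
    simp only [Set.mem_iUnion]
    refine ⟨A, ?_, fun q hq hqM => hs q hq hqM⟩
    simp only [hT, Finset.mem_filter, Finset.mem_powerset]
    exact ⟨Finset.filter_subset _ _, hKe ▸ hω⟩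
  calc P.real {ω | c ≤ K M (fun p => ε p ω)} * c
      ≤ (∑ A ∈ T, P.real (depEv ε M A)) * c := by
        refine mul_le_mul_of_nonneg_right ?_ hc.le
        exact (measureReal_mono hsub (measure_ne_top _ _)).trans (measureReal_biUnion_finset_le _ _)
    _ = ∑ A ∈ T, P.real (depEv ε M A) * c := Finset.sum_mul _ _ _
    _ ≤ ∑ A ∈ T, P.real (depEv ε M A) * K M (depS A) := by
        refine Finset.sum_le_sum fun A hA => ?_
        exact mul_le_mul_of_nonneg_left (Finset.mem_filter.mp hA).2 measureReal_nonneg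
    _ ≤ depZ P ε K M := by
        refine Finset.sum_le_sum_of_subset_of_nonneg (Finset.filter_subset _ _) fun A _ _ => ?_
        exact mul_nonneg measureReal_nonneg (hK.2.1 _ _)

private lemma dep_pi_nth (j : ℕ) : Nat.primeCounting (Nat.nth Nat.Prime j) = j + 1 := by
  rw [Nat.primeCounting, Nat.primeCounting']
  exact Nat.count_nth_succ_of_infinite Nat.infinite_setOfPred_prime j

/-- `K` changes only at the primes -/
private lemma dep_const {θ : ℕ → ℝ} {K : ℕ → SS → ℝ} (hK : IsStrategy θ K) (x : SS) {M j : ℕ}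
    (hM : Nat.primeCounting M = j + 1) : K M x = K (Nat.nth Nat.Prime j) x := by
  have hle : Nat.nth Nat.Prime j ≤ M := by
    have : j < Nat.count Nat.Prime (M + 1) := by
      have h := hM
      rw [Nat.primeCounting, Nat.primeCounting'] at h
      omega
    have h2 := Nat.nth_lt_of_lt_count this
    omega
  have key : ∀ n, Nat.nth Nat.Prime j ≤ n → n ≤ M → K n x = K (Nat.nth Nat.Prime j) x := by
    intro n hn
    induction n, hn using Nat.le_induction with
    | base => intro _; rfl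
    | succ n hn ih =>
      intro hnM
      rw [← ih (by omega)]
      refine hK.2.2.2.1 n x fun hpr => ?_
      have h0 : Nat.count Nat.Prime (n + 1 + 1) = Nat.count Nat.Prime (n + 1) + 1 := by
        rw [Nat.count_succ, if_pos hpr]
      have h1 : Nat.primeCounting (n + 1) = Nat.primeCounting n + 1 := h0
      have h2 : Nat.primeCounting (n + 1) ≤ Nat.primeCounting M := Nat.monotone_primeCounting hnM
      have h3 : Nat.primeCounting (Nat.nth Nat.Prime j) ≤ Nat.primeCounting n :=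
        Nat.monotone_primeCounting hn
      rw [dep_pi_nth] at h3
      omega
  exact key M hle le_rfl

theorem ae_not_wins {θ : ℕ → ℝ} (hθ0 : ∀ p, 0 ≤ θ p) (hθ1 : ∀ p, θ p ≤ 1) {K : ℕ → SS → ℝ}
    (hK : IsStrategy θ K) {Ω : Type*} [MeasurableSpace Ω] {P : Measure Ω} [IsProbabilityMeasure P]
    {ε : ℕ → Ω → ℤˣ} (hε : ∀ p, Measurable (ε p)) {ρ : ℕ → ℝ} (hρ0 : ∀ p, 0 ≤ ρ p)
    (hρ : ∀ δ : ℝ, 0 < δ → ∀ᶠ M : ℕ in atTop,
      ∑ p ∈ (Finset.Icc 1 M).filter Nat.Prime, ρ p ≤ δ * Nat.primeCounting M)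
    (hP : ∀ p : ℕ, p.Prime → ∀ s : SS, ∀ u : ℤˣ,
      P.real {ω | (∀ q : ℕ, q.Prime → q < p → ε q ω = s q) ∧ ε p ω = u} ≤
        (1 + ρ p) * (if u = 1 then 1 - θ p else θ p) *
          P.real {ω | ∀ q : ℕ, q.Prime → q < p → ε q ω = s q}) :
    ∀ᵐ ω ∂P, ¬ Wins K (fun p => ε p ω) := by
  have hnth : Tendsto (fun j => Nat.nth Nat.Prime j) atTop atTop :=
    (Nat.nth_strictMono Nat.infinite_setOfPred_prime).tendsto_atTop
  have main : ∀ m : ℕ, ∀ᵐ ω ∂P, ∀ᶠ j : ℕ in atTop,
      ω ∉ {ω | Real.exp (1 / ((m : ℝ) + 1) * ((j : ℝ) + 1)) ≤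
        K (Nat.nth Nat.Prime j) (fun p => ε p ω)} := by
    intro m
    set η : ℝ := 1 / ((m : ℝ) + 1) with hη
    have hηpos : 0 < η := by positivity
    refine ae_eventually_notMem ?_
    have hsum : Summable fun j : ℕ => P.real {ω | Real.exp (η * ((j : ℝ) + 1)) ≤
        K (Nat.nth Nat.Prime j) (fun p => ε p ω)} := by
      have hgeo : Summable fun j : ℕ => Real.exp (-(η / 2)) ^ (j + 1) := by
        have := summable_geometric_of_lt_one (Real.exp_pos (-(η / 2))).le
          (Real.exp_lt_one_iff.mpr (by linarith))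
        exact (summable_nat_add_iff 1).mpr this
      refine Summable.of_norm_bounded_eventually_nat hgeo ?_
      filter_upwards [hnth.eventually (hρ (η / 2) (by positivity))] with j hj
      rw [Real.norm_of_nonneg measureReal_nonneg]
      have h1 := dep_markov hK ε (P := P) (Nat.nth Nat.Prime j)
        (Real.exp_pos (η * ((j : ℝ) + 1)))
      have h2 := depZ_le hK hP (Nat.nth Nat.Prime j)
      rw [dep_pi_nth] at hj
      have h3 : Real.exp (∑ p ∈ depPr (Nat.nth Nat.Prime j), ρ p) ≤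
          Real.exp (η / 2 * ((j : ℝ) + 1)) := by
        refine Real.exp_le_exp.mpr ?_
        have : ((j + 1 : ℕ) : ℝ) = (j : ℝ) + 1 := by push_cast; ring
        rw [this] at hj
        exact hj
      have h4 : Real.exp (η / 2 * ((j : ℝ) + 1)) =
          Real.exp (-(η / 2)) ^ (j + 1) * Real.exp (η * ((j : ℝ) + 1)) := by
        rw [← Real.exp_nat_mul, ← Real.exp_add]
        congr 1
        push_cast
        ring
      have h5 : P.real {ω | Real.exp (η * ((j : ℝ) + 1)) ≤
          K (Nat.nth Nat.Prime j) (fun p => ε p ω)} * Real.exp (η * ((j : ℝ) + 1)) ≤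
          Real.exp (-(η / 2)) ^ (j + 1) * Real.exp (η * ((j : ℝ) + 1)) := by
        rw [← h4]
        exact h1.trans (h2.trans h3)
      exact le_of_mul_le_mul_right h5 (Real.exp_pos _)
    refine ne_of_eq_of_ne (tsum_congr fun j => ?_) hsum.tsum_ofReal_ne_top
    exact (ofReal_measureReal (measure_ne_top _ _)).symm
  filter_upwards [ae_all_iff.mpr main] with ω hω
  rintro ⟨η, hη, hfreq⟩
  obtain ⟨m, hm⟩ := exists_nat_one_div_lt hη
  obtain ⟨J, hJ⟩ := eventually_atTop.mp (hω m)
  obtain ⟨M, hMJ, hMK⟩ := (frequently_atTop.mp hfreq) (Nat.nth Nat.Prime J)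
  have hpi : J + 1 ≤ Nat.primeCounting M := by
    rw [← dep_pi_nth J]
    exact Nat.monotone_primeCounting hMJ
  obtain ⟨j, hj⟩ : ∃ j, Nat.primeCounting M = j + 1 :=
    ⟨Nat.primeCounting M - 1, by omega⟩
  have hjJ : J ≤ j := by omega
  refine hJ j hjJ ?_
  show Real.exp (1 / ((m : ℝ) + 1) * ((j : ℝ) + 1)) ≤ K (Nat.nth Nat.Prime j) (fun p => ε p ω)
  rw [← dep_const hK (fun p => ε p ω) hj]
  refine le_trans (Real.exp_le_exp.mpr ?_) hMK
  rw [hj]
  push_cast
  exact mul_le_mul_of_nonneg_right hm.le (by positivity)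

end Pool.Agent.Lib.P4a7640B
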