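import Mathlib
import Pool.Agent.Lib.P4a7640N.Bdd
import Pool.Agent.Lib.P4a7640B.FinF
import Pool.Agent.Lib.P4a7640B.Dep
import Pool.Agent.Lib.P4a7640B.Dim

/-!
# One betting strategy beats every counterexample: assembly
-/

open MeasureTheory Filter Topology

namespace Pool.Agent.Lib.P4a7640B

open Pool.Agent.Lib.P4a7640 Pool.Agent.Lib.P4a7640N Pool.Agent.Lib.P4a7640Ces Pool.Agent.Lib.P4a7640N2

/-- the strategy -/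
theorem main_strategy {θ : ℕ → ℝ} (hθ : ∀ p, 0 ≤ θ p ∧ θ p ≤ 1)
    (hk : (∃ δ : ℝ, 0 < δ ∧ ∀ p : ℕ, p.Prime → δ ≤ θ p ∧ θ p ≤ 1 - δ) ∨
      ∃ (k : ℕ) (c : ℝ), 0 < c ∧ ∀ᶠ N : ℕ in atTop, c ≤ ∑ p ∈ (Finset.Icc 1 N).filter
        (fun p : ℕ => p.Prime ∧ N < p ^ k), min (θ p) (1 - θ p) / (p : ℝ))
    (g : ℕ → ℕ → ℤˣ) {A : ℕ → ℕ} (hA : SubExp A) {w : ℕ → ℕ → ℕ → ℝ}
    (hw : ∀ N a n, |w N a n| ≤ 1) :
    ∃ K : ℕ → SS → ℝ, IsStrategy θ K ∧ (∃ x : SS, ∀ M, K M x ≤ 1) ∧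
      (∀ (r : ℕ) (ε : ℝ), 0 < r → 0 < ε → ∃ η : ℝ, 0 < η ∧
        ∀ (x : SS) (i : ℕ) (f : ℕ → ℤˣ), MultS f → SlowTo f (fun p => g i p * x p) →
          Dev A w r ε f → ∃ᶠ M : ℕ in atTop, Real.exp (η * Nat.primeCounting M) ≤ K M x) ∧
      ∀ (x : SS) (i : ℕ) (f : ℕ → ℤˣ), MultS f → SlowTo f (fun p => g i p * x p) →
        Good A w f ∨ Wins K x := by
  have hk' : ∃ (k : ℕ) (c : ℝ), 0 < c ∧ ∀ᶠ N : ℕ in atTop, c ≤ ∑ p ∈ (Finset.Icc 1 N).filter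
      (fun p : ℕ => p.Prime ∧ N < p ^ k), min (θ p) (1 - θ p) / (p : ℝ) := by
    rcases hk with ⟨δ, hδ, hb⟩ | hk
    · exact slow_of_bdd (m := fun p => min (θ p) (1 - θ p)) hδ
        fun p hp => le_min (hb p hp).1 (by linarith [(hb p hp).2])
    · exact hk
  obtain ⟨k, c, hc, hk⟩ := hk'
  obtain ⟨K, hK, h⟩ := strategyF (fun p => (hθ p).1) (fun p => (hθ p).2) hc hk g hA hw
  refine ⟨K, hK, exists_greedy (fun p => (hθ p).1) (fun p => (hθ p).2) hK, h,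
    fun x i f hf hs => ?_⟩
  by_cases hgood : ∀ (r : ℕ) (ε : ℝ), 0 < r → 0 < ε → ¬ Dev A w r ε f
  · exact Or.inl (good_of_not_dev hf hgood)
  · right
    push Not at hgood
    obtain ⟨r, ε, hr, hε, hdev⟩ := hgood
    obtain ⟨η, hη, h1⟩ := h r ε hr hε
    exact ⟨η, hη, h1 x i f hf hs hdev⟩

/-- the dimension -/
theorem main_dim {θ : ℕ → ℝ} (hhalf : ∀ p, θ p = 1 / 2) {K : ℕ → SS → ℝ} (hK : IsStrategy θ K)
    {η : ℝ} (hη : 0 < η) {S : Set SS}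
    (h : ∀ x ∈ S, ∃ᶠ M : ℕ in atTop, Real.exp (η * Nat.primeCounting M) ≤ K M x) :
    dimH (code '' S) < 1 := by
  have e : θ = fun _ => 1 / 2 := funext hhalf
  rw [e] at hK
  exact lt_of_le_of_lt (dimH_mono (Set.image_mono fun x hx => h x hx)) (dim_wins hK hη)

end Pool.Agent.Lib.P4a7640B
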