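import Mathlib
import Pool.Agent.Lib.P4a7640B.ParP

/-!
# From a strategy for fair coins to a predictor

`b p x = K p (x with x p = 1) / K (p-1) x - 1` (a function of `x q`, `q < p`), and `0` if `K (p-1) x = 0`;
`|b| ≤ 1` because `K ≥ 0` and the fairness identity (`K (p-1) x = 0` forces both values `K p` to be `0`), and
`K p x = K (p-1) x * (1 + b p x * x p) ≤ K (p-1) x * exp (b p x * x p)`; induction on `M`.
-/

open Filter Topology

namespace Pool.Agent.Lib.P4a7640B

open Pool.Agent.Lib.P4a7640

open Classical in
/-- the predictor given by a strategy for fair coins -/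
private noncomputable def predB (K : ℕ → SS → ℝ) (p : ℕ) (x : SS) : ℝ :=
  if p.Prime ∧ K (p - 1) x ≠ 0 then K p (Function.update x p 1) / K (p - 1) x - 1 else 0

private lemma pred_fair {K : ℕ → SS → ℝ} (hK : IsStrategy (fun _ => 1 / 2) K) {p : ℕ} (hp : p.Prime)
    (x : SS) : K p (Function.update x p 1) + K p (Function.update x p (-1)) = 2 * K (p - 1) x := by
  have h := hK.2.2.2.2 p x hp
  simp only at h
  linarith

private lemma pred_abs {K : ℕ → SS → ℝ} (hK : IsStrategy (fun _ => 1 / 2) K) (p : ℕ) (x : SS) :
    |predB K p x| ≤ 1 := by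
  unfold predB
  split_ifs with h
  · have h0 : 0 < K (p - 1) x := lt_of_le_of_ne (hK.2.1 _ _) (Ne.symm h.2)
    have h1 := pred_fair hK h.1 x
    have h2 := hK.2.1 p (Function.update x p 1)
    have h3 := hK.2.1 p (Function.update x p (-1))
    have h4 : 0 ≤ K p (Function.update x p 1) / K (p - 1) x := div_nonneg h2 h0.le
    have h5 : K p (Function.update x p 1) / K (p - 1) x ≤ 2 := by
      rw [div_le_iff₀ h0]
      linarith
    rw [abs_le]
    constructor <;> linarith
  · simp

private lemma pred_dep {K : ℕ → SS → ℝ} (hK : IsStrategy (fun _ => 1 / 2) K) (p : ℕ) (x y : SS)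
    (h : ∀ q : ℕ, q.Prime → q < p → x q = y q) : predB K p x = predB K p y := by
  by_cases hp : p.Prime
  · have h1 : K (p - 1) x = K (p - 1) y :=
      hK.2.2.1 _ _ _ fun q hq hqp => h q hq (by have := hp.pos; omega)
    have h2 : K p (Function.update x p 1) = K p (Function.update y p 1) := by
      refine hK.2.2.1 _ _ _ fun q hq hqp => ?_
      by_cases hqp' : q = p
      · subst hqp'
        rw [Function.update_self, Function.update_self]
      · rw [Function.update_of_ne hqp', Function.update_of_ne hqp']
        exact h q hq (lt_of_le_of_ne hqp hqp')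
    unfold predB
    rw [h1, h2]
  · unfold predB
    rw [if_neg (fun h' => hp h'.1), if_neg (fun h' => hp h'.1)]

private lemma pred_step {K : ℕ → SS → ℝ} (hK : IsStrategy (fun _ => 1 / 2) K) {p : ℕ} (hp : p.Prime)
    (x : SS) : K p x ≤ K (p - 1) x * Real.exp (predB K p x * ((x p : ℤ) : ℝ)) := by
  have h0 := hK.2.1 (p - 1) x
  have hfair := pred_fair hK hp x
  have h2 := hK.2.1 p (Function.update x p 1)
  have h3 := hK.2.1 p (Function.update x p (-1))
  have hx : K p x = K p (Function.update x p (x p)) := by rw [Function.update_eq_self]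
  have key : K p x = K (p - 1) x * (predB K p x * ((x p : ℤ) : ℝ) + 1) := by
    by_cases hz : K (p - 1) x = 0
    · have e1 : K p (Function.update x p 1) = 0 := by rw [hz] at hfair; linarith
      have e2 : K p (Function.update x p (-1)) = 0 := by rw [hz] at hfair; linarith
      rw [hz, zero_mul, hx]
      rcases Int.units_eq_one_or (x p) with h | h
      · rw [h, e1]
      · rw [h, e2]
    · have hb : predB K p x = K p (Function.update x p 1) / K (p - 1) x - 1 := by
        unfold predB
        rw [if_pos ⟨hp, hz⟩]
      have hb' : K (p - 1) x * predB K p x = K p (Function.update x p 1) - K (p - 1) x := by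
        rw [hb]
        field_simp
      rcases Int.units_eq_one_or (x p) with h | h
      · rw [hx, h]
        push_cast
        linarith
      · rw [hx, h]
        push_cast
        linarith
  rw [key]
  exact mul_le_mul_of_nonneg_left (Real.add_one_le_exp _) h0

private lemma pred_gain_succ (b : ℕ → SS → ℝ) (x : SS) (M : ℕ) :
    gain b x (M + 1) = gain b x M +
      if (M + 1).Prime then b (M + 1) x * ((x (M + 1) : ℤ) : ℝ) else 0 := by
  unfold gain
  rw [Finset.sum_filter, Finset.sum_filter, Finset.sum_Icc_succ_top (by omega)]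

theorem exists_predictor {K : ℕ → SS → ℝ} (hK : IsStrategy (fun _ => 1 / 2) K) :
    ∃ b : ℕ → SS → ℝ, IsPredictor b ∧ ∀ x M, K M x ≤ Real.exp (gain b x M) := by
  refine ⟨predB K, ⟨pred_abs hK, pred_dep hK⟩, fun x M => ?_⟩
  induction M with
  | zero =>
    rw [hK.1 x]
    simp [gain]
  | succ M ih =>
    rw [pred_gain_succ]
    by_cases hp : (M + 1).Prime
    · rw [if_pos hp, Real.exp_add]
      refine (pred_step hK hp x).trans ?_
      rw [Nat.add_sub_cancel]
      exact mul_le_mul_of_nonneg_right ih (Real.exp_pos _).le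
    · rw [if_neg hp, add_zero, hK.2.2.2.1 M x hp]
      exact ih

end Pool.Agent.Lib.P4a7640B
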