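import Mathlib
import Pool.Agent.Lib.P4a7640B.MainF
import Pool.Agent.Lib.P4a7640B.FinP
import Pool.Agent.Lib.P4a7640B.Pred
import Pool.Agent.Lib.P4a7640B.EntA

/-!
# One predictor beats every counterexample: assembly
-/

open MeasureTheory Filter Topology

namespace Pool.Agent.Lib.P4a7640B

open Pool.Agent.Lib.P4a7640 Pool.Agent.Lib.P4a7640N Pool.Agent.Lib.P4a7640Ces Pool.Agent.Lib.P4a7640N2

/-- in the slow class implies close at every large scale -/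
lemma near_of_slow {f y : ℕ → ℤˣ} (h : SlowTo f y) {η : ℝ} (hη : 0 < η) :
    ∀ᶠ N : ℕ in atTop, Near η N f y := by
  obtain ⟨J, hJ⟩ := exists_pow_lt_of_lt_one hη (show (1 / 2 : ℝ) < 1 by norm_num)
  filter_upwards [slow_U h J hη, eventually_ge_atTop 1] with N hN hN1
  unfold Near
  refine le_trans ?_ hN
  unfold ES
  apply Finset.sum_le_sum_of_subset_of_nonneg
  · intro p hp
    rw [Finset.mem_filter, Finset.mem_Icc] at hp
    obtain ⟨⟨h1, h2⟩, h3, h4, h5⟩ := hp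
    rw [Finset.mem_filter, Finset.mem_Ioc]
    refine ⟨⟨?_, h2⟩, h3, h5⟩
    rw [rt_lt_iff]
    have hN' : (1 : ℝ) ≤ N := by exact_mod_cast hN1
    have h6 : (N : ℝ) ^ ((1 / 2 : ℝ) ^ J) < p :=
      lt_of_le_of_lt (Real.rpow_le_rpow_of_exponent_le hN' hJ.le) h4
    have h7 : ((N : ℝ) ^ ((1 / 2 : ℝ) ^ J)) ^ (2 ^ J) < (p : ℝ) ^ (2 ^ J) :=
      pow_lt_pow_left₀ h6 (by positivity) (by positivity)
    have h8 : ((N : ℝ) ^ ((1 / 2 : ℝ) ^ J)) ^ (2 ^ J) = N := by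
      rw [← Real.rpow_natCast, ← Real.rpow_mul (Nat.cast_nonneg N)]
      have : (1 / 2 : ℝ) ^ J * ((2 ^ J : ℕ) : ℝ) = 1 := by
        push_cast
        rw [← mul_pow]
        norm_num
      rw [this, Real.rpow_one]
    rw [h8] at h7
    exact_mod_cast h7
  · intro p _ _
    positivity

lemma often_mono {η η' : ℝ} {N : ℕ} {P Q : ℕ → Prop} (h : Often η N P) (hη : η' ≤ η)
    (hPQ : ∀ k, P k → Q k) : Often η' N Q := by
  obtain ⟨s, hs, hP⟩ := h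
  exact ⟨s, (mul_le_mul_of_nonneg_right hη (Real.log_natCast_nonneg N)).trans hs,
    fun k hk => ⟨(hP k hk).1, hPQ k (hP k hk).2⟩⟩

/-- winning at a positive proportion of the scales below infinitely many `N` is winning infinitely often -/
lemma freq_of_often {η : ℝ} (hη : 0 < η) {P : ℕ → Prop}
    (h : ∃ᶠ N : ℕ in atTop, Often η N fun k => P (2 ^ k)) : ∃ᶠ M : ℕ in atTop, P M := by
  rw [frequently_atTop]
  intro m
  have h1 : Tendsto (fun N : ℕ => η * Real.log N) atTop atTop :=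
    (Real.tendsto_log_atTop.comp tendsto_natCast_atTop_atTop).const_mul_atTop hη
  obtain ⟨N, ⟨s, hs, hP⟩, hN⟩ := (h.and_eventually (h1.eventually_gt_atTop (m : ℝ))).exists
  have h2 : m < s.card := by
    have : (m : ℝ) < s.card := lt_of_lt_of_le hN hs
    exact_mod_cast this
  obtain ⟨k, hk, hmk⟩ : ∃ k ∈ s, m ≤ k := by
    by_contra hcon
    push Not at hcon
    have h3 : s ⊆ Finset.range m := fun k hk => Finset.mem_range.2 (hcon k hk)
    have h4 := Finset.card_le_card h3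
    rw [Finset.card_range] at h4
    omega
  exact ⟨2 ^ k, hmk.trans (Nat.lt_two_pow_self).le, (hP k hk).2⟩

/-- the strategy -/
theorem mainP_strategy {θ : ℕ → ℝ} (hθ : ∀ p, 0 ≤ θ p ∧ θ p ≤ 1)
    (hk : (∃ δ : ℝ, 0 < δ ∧ ∀ p : ℕ, p.Prime → δ ≤ θ p ∧ θ p ≤ 1 - δ) ∨
      ∃ (k : ℕ) (c : ℝ), 0 < c ∧ ∀ᶠ N : ℕ in atTop, c ≤ ∑ p ∈ (Finset.Icc 1 N).filter
        (fun p : ℕ => p.Prime ∧ N < p ^ k), min (θ p) (1 - θ p) / (p : ℝ))
    (g : ℕ → ℕ → ℤˣ) {A : ℕ → ℕ} (hA : SubExp A) {w : ℕ → ℕ → ℕ → ℝ}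
    (hw : ∀ N a n, |w N a n| ≤ 1) :
    ∃ K : ℕ → SS → ℝ, IsStrategy θ K ∧ (∃ x : SS, ∀ M, K M x ≤ 1) ∧
      (∀ (r : ℕ) (ε : ℝ), 0 < r → 0 < ε → ∃ η : ℝ, 0 < η ∧
        ∀ i : ℕ, ∀ᶠ N : ℕ in atTop, ∀ (x : SS) (f : ℕ → ℤˣ), MultS f →
          Near η N f (fun p => g i p * x p) → DevN A w r ε N f →
          Often η N fun k => Real.exp (η * Nat.primeCounting (2 ^ k)) ≤ K (2 ^ k) x) ∧
      ∀ (x : SS) (i : ℕ) (f : ℕ → ℤˣ), MultS f → SlowTo f (fun p => g i p * x p) →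
        Good A w f ∨ Wins K x := by
  have hk' : ∃ (k : ℕ) (c : ℝ), 0 < c ∧ ∀ᶠ N : ℕ in atTop, c ≤ ∑ p ∈ (Finset.Icc 1 N).filter
      (fun p : ℕ => p.Prime ∧ N < p ^ k), min (θ p) (1 - θ p) / (p : ℝ) := by
    rcases hk with ⟨δ, hδ, hb⟩ | hk
    · exact slow_of_bdd (m := fun p => min (θ p) (1 - θ p)) hδ
        fun p hp => le_min (hb p hp).1 (by linarith [(hb p hp).2])
    · exact hk
  obtain ⟨k, c, hc, hk⟩ := hk'
  obtain ⟨K, hK, h⟩ := strategyP (fun p => (hθ p).1) (fun p => (hθ p).2) hc hk g hA hw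
  refine ⟨K, hK, exists_greedy (fun p => (hθ p).1) (fun p => (hθ p).2) hK, h,
    fun x i f hf hs => ?_⟩
  by_cases hgood : ∀ (r : ℕ) (ε : ℝ), 0 < r → 0 < ε → ¬ Dev A w r ε f
  · exact Or.inl (good_of_not_dev hf hgood)
  · right
    push Not at hgood
    obtain ⟨r, ε, hr, hε, hdev⟩ := hgood
    obtain ⟨η, hη, h1⟩ := h r ε hr hε
    refine ⟨η, hη, freq_of_often hη (P := fun M => Real.exp (η * Nat.primeCounting M) ≤ K M x) ?_⟩
    have h2 : ∃ᶠ N : ℕ in atTop, DevN A w r ε N f := hdev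
    exact (h2.and_eventually ((h1 i).and (near_of_slow hs hη))).mono
      fun N hN => hN.2.1 x f hf hN.2.2 hN.1

/-- at most exponential growth along the slow class -/
lemma freq_wins_of_dev {K : ℕ → SS → ℝ} {A : ℕ → ℕ} {w : ℕ → ℕ → ℕ → ℝ} {r : ℕ} {ε η : ℝ} (hη : 0 < η)
    {y x : SS} {f : ℕ → ℤˣ}
    (h : ∀ᶠ N : ℕ in atTop, ∀ (x : SS) (f : ℕ → ℤˣ), MultS f →
      Near η N f (fun p => y p * x p) → DevN A w r ε N f →
      Often η N fun k => Real.exp (η * Nat.primeCounting (2 ^ k)) ≤ K (2 ^ k) x)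
    (hf : MultS f) (hs : SlowTo f (fun p => y p * x p)) (hdev : Dev A w r ε f) :
    ∃ᶠ N : ℕ in atTop, Often η N fun k =>
      Real.exp (η * Nat.primeCounting (2 ^ k)) ≤ K (2 ^ k) x := by
  have h2 : ∃ᶠ N : ℕ in atTop, DevN A w r ε N f := hdev
  exact (h2.and_eventually (h.and (near_of_slow hs hη))).mono
    fun N hN => hN.2.1 x f hf hN.2.2 hN.1

/-- random signs of almost full entropy: almost surely everything is good -/
theorem mainP_ae {K : ℕ → SS → ℝ} (hK : IsStrategy (fun _ => 1 / 2) K) {g : ℕ → ℕ → ℤˣ}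
    {A : ℕ → ℕ} {w : ℕ → ℕ → ℕ → ℝ}
    (h : ∀ (r : ℕ) (ε : ℝ), 0 < r → 0 < ε → ∃ η : ℝ, 0 < η ∧
        ∀ i : ℕ, ∀ᶠ N : ℕ in atTop, ∀ (x : SS) (f : ℕ → ℤˣ), MultS f →
          Near η N f (fun p => g i p * x p) → DevN A w r ε N f →
          Often η N fun k => Real.exp (η * Nat.primeCounting (2 ^ k)) ≤ K (2 ^ k) x)
    {Ω : Type*} [MeasurableSpace Ω] {P : Measure Ω} [IsProbabilityMeasure P] {ε : ℕ → Ω → ℤˣ}
    (hε : ∀ p, Measurable (ε p))
    (hH : Summable fun k : ℕ => (Real.log 2 - Hent P ε (2 ^ k) / Nat.primeCounting (2 ^ k)) / k) :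
    ∀ᵐ ω ∂P, ∀ (i : ℕ) (f : ℕ → ℤˣ), MultS f → SlowTo f (fun p => g i p * ε p ω) →
      Good A w f := by
  have h1 : ∀ᵐ ω ∂P, ∀ m : ℕ, ∀ᶠ N : ℕ in atTop, ¬ Often (1 / ((m : ℝ) + 1)) N fun k =>
      Real.exp (1 / ((m : ℝ) + 1) * Nat.primeCounting (2 ^ k)) ≤ K (2 ^ k) (fun p => ε p ω) :=
    ae_all_iff.2 fun m => ae_not_often hK hε hH (by positivity)
  filter_upwards [h1] with ω hω i f hf hs
  refine good_of_not_dev hf fun r δ hr hδ hdev => ?_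
  obtain ⟨η, hη, h2⟩ := h r δ hr hδ
  have h3 := freq_wins_of_dev (x := fun p => ε p ω) hη (h2 i) hf hs hdev
  obtain ⟨m, hm⟩ := exists_nat_one_div_lt hη
  obtain ⟨N, hN1, hN2⟩ := (h3.and_eventually (hω m)).exists
  refine hN2 (often_mono hN1 hm.le fun k hk => le_trans ?_ hk)
  exact Real.exp_le_exp.2 (mul_le_mul_of_nonneg_right hm.le (Nat.cast_nonneg _))

/-- random signs of full entropy: large correlations have small probability -/
theorem mainP_prob {K : ℕ → SS → ℝ} (hK : IsStrategy (fun _ => 1 / 2) K) {y : ℕ → ℤˣ}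
    {A : ℕ → ℕ} {w : ℕ → ℕ → ℕ → ℝ} {r : ℕ} {δ η : ℝ} (hη : 0 < η)
    (h : ∀ᶠ N : ℕ in atTop, ∀ (x : SS) (f : ℕ → ℤˣ), MultS f →
      Near η N f (fun p => y p * x p) → DevN A w r δ N f →
      Often η N fun k => Real.exp (η * Nat.primeCounting (2 ^ k)) ≤ K (2 ^ k) x)
    {Ω : Type*} [MeasurableSpace Ω] {P : Measure Ω} [IsProbabilityMeasure P] {ε : ℕ → Ω → ℤˣ}
    (hε : ∀ p, Measurable (ε p))
    (hH : Tendsto (fun M : ℕ => Hent P ε M / Nat.primeCounting M) atTop (𝓝 (Real.log 2))) :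
    Tendsto (fun N : ℕ => P.real {ω | ∃ f : ℕ → ℤˣ, MultS f ∧
      Near η N f (fun p => y p * ε p ω) ∧ DevN A w r δ N f}) atTop (𝓝 0) := by
  refine squeeze_zero' (Eventually.of_forall fun N => measureReal_nonneg) ?_
    (tendsto_often hK hε hH hη)
  filter_upwards [h] with N hN
  refine measureReal_mono ?_ (measure_ne_top _ _)
  rintro ω ⟨f, hf, h1, h2⟩
  exact hN _ f hf h1 h2

end Pool.Agent.Lib.P4a7640B
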