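import Mathlib
import Pool.Agent.Lib.P4a7640B.MainP

/-!
# Good functions close to given ones

At the constant odds `t` the strategy `denK` doubles the capital at every sign `-1`; it wins exponentially if the
proportion of the signs `-1` at the primes `≤ M` is at least `2t` for infinitely many `M`. The greedy signs for the average
of `denK` and the strategy `K` of `mainP_strategy` beat both.
-/

open MeasureTheory Filter Topology

namespace Pool.Agent.Lib.P4a7640B

open Pool.Agent.Lib.P4a7640 Pool.Agent.Lib.P4a7640N Pool.Agent.Lib.P4a7640Ces Pool.Agent.Lib.P4a7640N2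

/-- the strategy that bets on `-1` at every prime -/
private noncomputable def denK (t : ℝ) (M : ℕ) (x : SS) : ℝ :=
  ∏ p ∈ (Finset.Icc 1 M).filter Nat.Prime, (if x p = 1 then (1 - 2 * t) / (1 - t) else 2)

private lemma den_filter_succ_prime {M : ℕ} (h : (M + 1).Prime) :
    (Finset.Icc 1 (M + 1)).filter Nat.Prime = insert (M + 1) ((Finset.Icc 1 M).filter Nat.Prime) := by
  ext p
  simp only [Finset.mem_filter, Finset.mem_Icc, Finset.mem_insert]
  constructor
  · rintro ⟨⟨h1, h2⟩, h3⟩
    rcases Nat.lt_or_ge p (M + 1) with h4 | h4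
    · exact Or.inr ⟨⟨h1, by omega⟩, h3⟩
    · exact Or.inl (by omega)
  · rintro (rfl | ⟨⟨h1, h2⟩, h3⟩)
    · exact ⟨⟨by omega, le_rfl⟩, h⟩
    · exact ⟨⟨h1, by omega⟩, h3⟩

private lemma den_filter_succ_not {M : ℕ} (h : ¬ (M + 1).Prime) :
    (Finset.Icc 1 (M + 1)).filter Nat.Prime = (Finset.Icc 1 M).filter Nat.Prime := by
  ext p
  simp only [Finset.mem_filter, Finset.mem_Icc]
  constructor
  · rintro ⟨⟨h1, h2⟩, h3⟩
    rcases Nat.lt_or_ge p (M + 1) with h4 | h4
    · exact ⟨⟨h1, by omega⟩, h3⟩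
    · have : p = M + 1 := by omega
      exact absurd (this ▸ h3) h
  · rintro ⟨⟨h1, h2⟩, h3⟩
    exact ⟨⟨h1, by omega⟩, h3⟩

private lemma den_notMem (M : ℕ) : M + 1 ∉ (Finset.Icc 1 M).filter Nat.Prime := by
  simp

private lemma denK_strategy {t : ℝ} (ht0 : 0 < t) (ht : t ≤ 1 / 8) :
    IsStrategy (fun _ => t) (denK t) := by
  have hpos : ∀ (x : SS) (p : ℕ), 0 ≤ (if x p = 1 then (1 - 2 * t) / (1 - t) else 2) := by
    intro x p
    split_ifs
    · exact div_nonneg (by linarith) (by linarith)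
    · norm_num
  refine ⟨fun x => ?_, fun n x => Finset.prod_nonneg fun p _ => hpos x p, fun n x y h => ?_,
    fun n x hn => ?_, fun p x hp => ?_⟩
  · simp [denK]
  · unfold denK
    refine Finset.prod_congr rfl fun p hp => ?_
    rw [Finset.mem_filter, Finset.mem_Icc] at hp
    rw [h p hp.2 hp.1.2]
  · unfold denK
    rw [den_filter_succ_not hn]
  · obtain ⟨m, rfl⟩ : ∃ m, p = m + 1 := ⟨p - 1, by have := hp.one_lt; omega⟩
    rw [Nat.add_sub_cancel]
    unfold denK
    rw [den_filter_succ_prime hp, Finset.prod_insert (den_notMem m),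
      Finset.prod_insert (den_notMem m)]
    have h1 : ∀ u : ℤˣ, ∏ q ∈ (Finset.Icc 1 m).filter Nat.Prime,
        (if Function.update x (m + 1) u q = 1 then (1 - 2 * t) / (1 - t) else 2) =
        ∏ q ∈ (Finset.Icc 1 m).filter Nat.Prime, (if x q = 1 then (1 - 2 * t) / (1 - t) else 2) := by
      intro u
      refine Finset.prod_congr rfl fun q hq => ?_
      rw [Finset.mem_filter, Finset.mem_Icc] at hq
      rw [Function.update_of_ne (by omega)]
    rw [h1, h1, Function.update_self, Function.update_self, if_pos rfl, if_neg (by decide)]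
    have h2 : (1 - t) * ((1 - 2 * t) / (1 - t)) = 1 - 2 * t :=
      mul_div_cancel₀ _ (by linarith)
    set D := ∏ q ∈ (Finset.Icc 1 m).filter Nat.Prime, (if x q = 1 then (1 - 2 * t) / (1 - t) else 2)
    calc (1 - t) * ((1 - 2 * t) / (1 - t) * D) + t * (2 * D) =
        ((1 - t) * ((1 - 2 * t) / (1 - t))) * D + 2 * t * D := by ring
      _ = D := by rw [h2]; ring

/-- many signs `-1` make the capital large -/
private lemma denK_large {t : ℝ} (ht0 : 0 < t) (ht : t ≤ 1 / 8) {M : ℕ} {x : SS}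
    (h : 2 * t * Nat.primeCounting M <
      (((Finset.Icc 1 M).filter fun p : ℕ => p.Prime ∧ x p = -1).card : ℝ)) :
    Real.exp (t / 20 * Nat.primeCounting M) ≤ denK t M x := by
  classical
  set T := (Finset.Icc 1 M).filter Nat.Prime with hT
  have hcardT : T.card = Nat.primeCounting M := by
    rw [hT, Nat.primeCounting, Nat.primeCounting', Nat.count_eq_card_filter_range]
    congr 1
    ext p
    simp only [Finset.mem_filter, Finset.mem_Icc, Finset.mem_range]
    constructor
    · rintro ⟨⟨_, h2⟩, h3⟩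
      exact ⟨by omega, h3⟩
    · rintro ⟨h2, h3⟩
      exact ⟨⟨h3.one_lt.le, by omega⟩, h3⟩
  have hneg : (T.filter fun p => ¬ x p = 1) = (Finset.Icc 1 M).filter fun p : ℕ => p.Prime ∧ x p = -1 := by
    ext p
    simp only [hT, Finset.mem_filter]
    constructor
    · rintro ⟨⟨h1, h2⟩, h3⟩
      rcases Int.units_eq_one_or (x p) with h4 | h4
      · exact absurd h4 h3
      · exact ⟨h1, h2, h4⟩
    · rintro ⟨h1, h2, h3⟩
      exact ⟨⟨h1, h2⟩, by rw [h3]; decide⟩
  set s := (T.filter fun p => ¬ x p = 1).card with hs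
  set a : ℝ := (1 - 2 * t) / (1 - t) with ha
  have ha0 : 0 < a := div_pos (by linarith) (by linarith)
  have hK : denK t M x = a ^ (T.filter fun p => x p = 1).card * 2 ^ s := by
    unfold denK
    rw [Finset.prod_ite, Finset.prod_const, Finset.prod_const]
  have hsum : (T.filter fun p => x p = 1).card + s = T.card :=
    Finset.card_filter_add_card_filter_not _
  set n := Nat.primeCounting M with hn
  have hs1 : 2 * t * n < (s : ℝ) := by
    rw [hneg] at hs
    rw [hs]
    exact h
  have hla : -(4 / 3 * t) ≤ Real.log a := by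
    have h1 : 1 - a⁻¹ ≤ Real.log a := Real.one_sub_inv_le_log_of_pos ha0
    have h2 : 1 - a⁻¹ = -(t / (1 - 2 * t)) := by
      rw [ha, inv_div]
      have h0 : (1 - 2 * t) ≠ 0 := by linarith
      have e1 : 1 - (1 - t) / (1 - 2 * t) = ((1 - 2 * t) - (1 - t)) / (1 - 2 * t) := by
        rw [eq_div_iff h0, sub_mul, div_mul_cancel₀ _ h0, one_mul]
      rw [e1, ← neg_div]
      congr 1
      ring
    have h3 : t / (1 - 2 * t) ≤ 4 / 3 * t := by
      rw [div_le_iff₀ (by linarith)]
      nlinarith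
    linarith
  have hla0 : Real.log a ≤ 0 := by
    apply Real.log_nonpos ha0.le
    rw [ha, div_le_one (by linarith)]
    linarith
  rw [hK, ← Real.exp_log (show (0 : ℝ) < a ^ (T.filter fun p => x p = 1).card * 2 ^ s by positivity)]
  apply Real.exp_le_exp.2
  rw [Real.log_mul (by positivity) (by positivity), Real.log_pow, Real.log_pow]
  have hl2 := Real.log_two_gt_d9
  have hm : (((T.filter fun p => x p = 1).card : ℕ) : ℝ) ≤ n := by
    have : (T.filter fun p => x p = 1).card ≤ n := by omega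
    exact_mod_cast this
  have h5 : (n : ℝ) * -(4 / 3 * t) ≤ (((T.filter fun p => x p = 1).card : ℕ) : ℝ) * Real.log a := by
    have e1 : (n : ℝ) * Real.log a ≤ (((T.filter fun p => x p = 1).card : ℕ) : ℝ) * Real.log a :=
      mul_le_mul_of_nonpos_right hm hla0
    have e2 : (n : ℝ) * -(4 / 3 * t) ≤ (n : ℝ) * Real.log a :=
      mul_le_mul_of_nonneg_left hla (Nat.cast_nonneg _)
    linarith
  have h6 : 2 * t * n * 0.6931 ≤ (s : ℝ) * Real.log 2 := by
    have e0 : (0 : ℝ) ≤ 2 * t * n := by positivity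
    calc 2 * t * n * 0.6931 ≤ 2 * t * n * Real.log 2 :=
          mul_le_mul_of_nonneg_left (by linarith) e0
      _ ≤ (s : ℝ) * Real.log 2 := mul_le_mul_of_nonneg_right hs1.le (by linarith)
  have h7 : (0 : ℝ) ≤ t * n := by positivity
  nlinarith

/-- the average of two strategies -/
private lemma den_avg {θ : ℕ → ℝ} {K L : ℕ → SS → ℝ} (hK : IsStrategy θ K) (hL : IsStrategy θ L) :
    IsStrategy θ fun n x => (K n x + L n x) / 2 := by
  obtain ⟨a1, a2, a3, a4, a5⟩ := hK
  obtain ⟨b1, b2, b3, b4, b5⟩ := hL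
  refine ⟨fun x => ?_, fun n x => ?_, fun n x y h => ?_, fun n x hn => ?_, fun p x hp => ?_⟩
  · simp only [a1, b1]
    norm_num
  · have := a2 n x
    have := b2 n x
    positivity
  · simp only
    rw [a3 n x y h, b3 n x y h]
  · simp only
    rw [a4 n x hn, b4 n x hn]
  · have h1 := a5 p x hp
    have h2 := b5 p x hp
    simp only
    rw [← h1, ← h2]
    ring

/-- arbitrarily close to given functions there are good ones -/
theorem exists_good {g : ℕ → ℕ → ℤˣ} {A : ℕ → ℕ} (hA : SubExp A) {w : ℕ → ℕ → ℕ → ℝ}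
    (hw : ∀ N a n, |w N a n| ≤ 1) {δ : ℝ} (hδ : 0 < δ) :
    ∃ x : ℕ → ℤˣ, (∀ᶠ M : ℕ in atTop,
      (((Finset.Icc 1 M).filter fun p : ℕ => p.Prime ∧ x p = -1).card : ℝ) ≤
        δ * Nat.primeCounting M) ∧
      ∀ (i : ℕ) (f : ℕ → ℤˣ), MultS f → SlowTo f (fun p => g i p * x p) → Good A w f := by
  set t : ℝ := min (δ / 2) (1 / 8) with ht
  have ht0 : 0 < t := lt_min (by positivity) (by norm_num)
  have ht8 : t ≤ 1 / 8 := min_le_right _ _
  have htδ : 2 * t ≤ δ := by
    have := min_le_left (δ / 2) (1 / 8)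
    linarith
  obtain ⟨K, hK, -, -, h⟩ := mainP_strategy (θ := fun _ => t)
    (fun _ => ⟨ht0.le, by linarith⟩) (Or.inl ⟨t, ht0, fun _ _ => ⟨le_rfl, by linarith⟩⟩) g hA hw
  obtain ⟨x, hx⟩ := exists_greedy (fun _ => ht0.le) (fun _ => by linarith)
    (den_avg hK (denK_strategy ht0 ht8))
  have hpit : Tendsto (fun M : ℕ => (Nat.primeCounting M : ℝ)) atTop atTop :=
    tendsto_natCast_atTop_atTop.comp Nat.tendsto_primeCounting
  have hexp : ∀ c : ℝ, 0 < c → ∀ᶠ M : ℕ in atTop, 2 < Real.exp (c * Nat.primeCounting M) :=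
    fun c hc => (Real.tendsto_exp_atTop.comp (hpit.const_mul_atTop hc)).eventually_gt_atTop 2
  have hK2 : ∀ M, K M x ≤ 2 := by
    intro M
    have h1 : (K M x + denK t M x) / 2 ≤ 1 := hx M
    have h2 := (denK_strategy ht0 ht8).2.1 M x
    linarith
  have hL2 : ∀ M, denK t M x ≤ 2 := by
    intro M
    have h1 : (K M x + denK t M x) / 2 ≤ 1 := hx M
    have h2 := hK.2.1 M x
    linarith
  refine ⟨x, ?_, fun i f hf hs => ?_⟩
  · filter_upwards [hexp (t / 20) (by positivity)] with M hM
    by_contra hcon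
    push Not at hcon
    have h1 : 2 * t * Nat.primeCounting M <
        (((Finset.Icc 1 M).filter fun p : ℕ => p.Prime ∧ x p = -1).card : ℝ) :=
      lt_of_le_of_lt (mul_le_mul_of_nonneg_right htδ (Nat.cast_nonneg _)) hcon
    have h2 := denK_large ht0 ht8 h1
    linarith [hL2 M]
  · refine (h x i f hf hs).resolve_right ?_
    rintro ⟨η, hη, hw⟩
    obtain ⟨M, h1, h2⟩ := (hw.and_eventually (hexp η hη)).exists
    linarith [hK2 M]

end Pool.Agent.Lib.P4a7640B
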