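import Mathlib
import Pool.Agent.Lib.P4a7640B.Dim

/-!
# The sequences on which a strategy for fair coins wins exponentially: an explicit bound for the Hausdorff dimension

`code x = ∑_j [x(p_j) = -1] 2^(-j-1)`, `p_0 = 2, p_1 = 3, ...`. For a prime `M = p_(n-1)`, `n = π(M)`, the patterns `s` of the
signs at the primes `≤ M` with `K M s ≥ exp (η n)` number at most `2^n exp (-η n)` (the average of `K M` over the `2^n`
patterns is `K 0 = 1`: induction with the martingale identity at `θ = 1/2`), and the codes of the sequences with the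
pattern `s` lie in a closed interval of length `2^(-n)`. So `{x | ∃ᶠ M, exp (η π(M)) ≤ K M x}` is covered, for every
`n₀`, by the intervals with `n ≥ n₀` (`K` changes only at primes, so `M` may be taken prime for `M ≥ 2`), and
`∑_n 2^n exp (-η n) 2^(-n d) < ∞` for `1 - η / log 2 < d < 1`: `μH[d] = 0`, so `dimH ≤ d < 1`.
-/

open MeasureTheory Filter Topology

namespace Pool.Agent.Lib.P4a7640B

open Pool.Agent.Lib.P4a7640 Pool.Agent.Lib.P4a7640N Pool.Agent.Lib.P4a7640Ces

/-- the primes `≤ M` -/
private def dimP (M : ℕ) : Finset ℕ := (Finset.range (M + 1)).filter Nat.Prime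

/-- the sequence with the sign `-1` exactly on `D` -/
private def dimX (D : Finset ℕ) : SS := fun p => if p ∈ D then -1 else 1

private lemma dim_pc_succ (b : ℕ) : Nat.primeCounting (b + 1) =
    Nat.primeCounting b + if (b + 1).Prime then 1 else 0 := by
  simp only [Nat.primeCounting, Nat.primeCounting', Nat.count_succ]

private lemma dim_sum {K : ℕ → SS → ℝ} (hK : IsStrategy (fun _ => 1 / 2) K) (M : ℕ) :
    ∑ D ∈ (dimP M).powerset, K M (dimX D) = 2 ^ Nat.primeCounting M := by
  obtain ⟨h0, hnn, hdep, hnp, hmart⟩ := hK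
  induction M with
  | zero =>
    have : dimP 0 = ∅ := by
      ext p; simp [dimP]; rintro rfl; exact Nat.not_prime_zero
    rw [this]; simp [h0]
  | succ M ih =>
    by_cases hp : (M + 1).Prime
    · have hins : dimP (M + 1) = insert (M + 1) (dimP M) := by
        ext p
        simp only [dimP, Finset.mem_filter, Finset.mem_range, Finset.mem_insert]
        constructor
        · rintro ⟨h1, h2⟩
          by_cases h : p = M + 1
          · exact Or.inl h
          · exact Or.inr ⟨by omega, h2⟩
        · rintro (h | ⟨h1, h2⟩)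
          · subst h; exact ⟨by omega, hp⟩
          · exact ⟨by omega, h2⟩
      have hnot : M + 1 ∉ dimP M := by simp [dimP]
      rw [hins, Finset.sum_powerset_insert hnot, ← Finset.sum_add_distrib, dim_pc_succ, if_pos hp,
        pow_succ, ← ih, Finset.sum_mul]
      apply Finset.sum_congr rfl
      intro D hD
      have hDn : M + 1 ∉ D := fun h => hnot (Finset.mem_powerset.1 hD h)
      have e1 : Function.update (dimX D) (M + 1) 1 = dimX D := by
        funext p
        by_cases h : p = M + 1
        · subst h; simp [dimX, hDn]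
        · simp [h]
      have e2 : Function.update (dimX D) (M + 1) (-1) = dimX (insert (M + 1) D) := by
        funext p
        by_cases h : p = M + 1
        · subst h; simp [dimX]
        · simp [h, dimX]
      have := hmart (M + 1) (dimX D) hp
      rw [e1, e2] at this
      simp only [Nat.add_sub_cancel] at this
      linarith
    · have hins : dimP (M + 1) = dimP M := by
        ext p
        simp only [dimP, Finset.mem_filter, Finset.mem_range]
        constructor
        · rintro ⟨h1, h2⟩
          by_cases h : p = M + 1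
          · subst h; exact absurd h2 hp
          · exact ⟨by omega, h2⟩
        · rintro ⟨h1, h2⟩
          exact ⟨by omega, h2⟩
      rw [hins, dim_pc_succ, if_neg hp, add_zero, ← ih]
      exact Finset.sum_congr rfl fun D _ => hnp M _ hp

open scoped Classical in
/-- the patterns on which the capital is large -/
private noncomputable def dimG (K : ℕ → SS → ℝ) (η : ℝ) (M : ℕ) : Finset (Finset ℕ) :=
  (dimP M).powerset.filter fun D => Real.exp (η * Nat.primeCounting M) ≤ K M (dimX D)

private lemma dim_card {K : ℕ → SS → ℝ} (hK : IsStrategy (fun _ => 1 / 2) K) (η : ℝ) (M : ℕ) :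
    ((dimG K η M).card : ℝ) ≤ 2 ^ Nat.primeCounting M * Real.exp (-(η * Nat.primeCounting M)) := by
  classical
  have h1 : ((dimG K η M).card : ℝ) * Real.exp (η * Nat.primeCounting M) ≤
      2 ^ Nat.primeCounting M := by
    rw [← dim_sum hK M, ← nsmul_eq_mul, ← Finset.sum_const]
    calc ∑ _D ∈ dimG K η M, Real.exp (η * Nat.primeCounting M)
        ≤ ∑ D ∈ dimG K η M, K M (dimX D) := by
          apply Finset.sum_le_sum
          intro D hD
          exact (Finset.mem_filter.1 hD).2
      _ ≤ ∑ D ∈ (dimP M).powerset, K M (dimX D) := by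
          apply Finset.sum_le_sum_of_subset_of_nonneg
          · exact Finset.filter_subset _ _
          · intro D _ _; exact hK.2.1 M _
  rw [Real.exp_neg]
  rw [← div_eq_mul_inv, le_div_iff₀ (Real.exp_pos _)]
  exact h1

private lemma dim_const {K : ℕ → SS → ℝ} (hK : IsStrategy (fun _ => 1 / 2) K) (x : SS) {a b : ℕ}
    (hab : a ≤ b) : Nat.primeCounting b = Nat.primeCounting a → K b x = K a x := by
  induction b, hab using Nat.le_induction with
  | base => intro _; rfl
  | succ b hb ih =>
    intro h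
    have h1 := dim_pc_succ b
    have h2 : Nat.primeCounting a ≤ Nat.primeCounting b := Nat.monotone_primeCounting hb
    by_cases hp : (b + 1).Prime
    · rw [if_pos hp] at h1; omega
    · rw [if_neg hp] at h1
      rw [hK.2.2.2.1 b x hp]
      exact ih (by omega)

private lemma dim_inf : (Set.ofPred Nat.Prime).Infinite := Nat.infinite_setOfPred_prime

private lemma dim_pc_nth (n : ℕ) : Nat.primeCounting (Nat.nth Nat.Prime n) = n + 1 := by
  simp only [Nat.primeCounting, Nat.primeCounting']
  exact Nat.count_nth_succ_of_infinite dim_inf n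

private lemma dim_nth_le (M n : ℕ) (h : n + 1 ≤ Nat.primeCounting M) : Nat.nth Nat.Prime n ≤ M := by
  have : n < Nat.count Nat.Prime (M + 1) := by
    simpa [Nat.primeCounting, Nat.primeCounting'] using h
  exact Nat.lt_succ_iff.1 (Nat.nth_lt_of_lt_count this)

private lemma dim_summ (x : SS) :
    Summable fun j : ℕ => (if x (Nat.nth Nat.Prime j) = 1 then (0 : ℝ) else 1) / 2 ^ (j + 1) := by
  have hg : Summable fun j : ℕ => ((1 : ℝ) / 2) ^ (j + 1) :=
    (summable_nat_add_iff 1).2 (summable_geometric_of_lt_one (by norm_num) (by norm_num))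
  refine Summable.of_nonneg_of_le (fun j => ?_) (fun j => ?_) hg
  · split_ifs <;> positivity
  · rw [one_div, inv_pow]
    split_ifs
    · simp
    · simp

private lemma dim_code {x : SS} {D : Finset ℕ} {n : ℕ} (hD : D ⊆ dimP (Nat.nth Nat.Prime n))
    (h : ∀ p : ℕ, p.Prime → p ≤ Nat.nth Nat.Prime n → x p = dimX D p) :
    code x ∈ Set.Icc (code (dimX D)) (code (dimX D) + (1 / 2) ^ (n + 1)) := by
  have hs1 := dim_summ x
  have hs2 := dim_summ (dimX D)
  have hgeo : HasSum (fun j : ℕ => if j ≤ n then (0 : ℝ) else ((1 : ℝ) / 2) ^ (j + 1))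
      ((1 / 2) ^ (n + 1)) := by
    have h0 : HasSum (fun j : ℕ => ((1 : ℝ) / 2) ^ (j + (n + 1) + 1)) ((1 / 2) ^ (n + 1)) := by
      have := (hasSum_geometric_two).mul_left (((1 : ℝ) / 2) ^ (n + 2))
      have e : ((1 : ℝ) / 2) ^ (n + 2) * 2 = (1 / 2) ^ (n + 1) := by
        rw [pow_succ]; ring
      rw [e] at this
      refine this.congr_fun ?_ |> fun h => h
      intro j
      ring
    rw [← hasSum_nat_add_iff' (n + 1)]
    have e2 : ∑ i ∈ Finset.range (n + 1), (if i ≤ n then (0 : ℝ) else ((1 : ℝ) / 2) ^ (i + 1)) = 0 := by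
      apply Finset.sum_eq_zero
      intro i hi
      rw [if_pos (by have := Finset.mem_range.1 hi; omega)]
    rw [e2, sub_zero]
    have e3 : (fun j : ℕ => if j + (n + 1) ≤ n then (0 : ℝ) else ((1 : ℝ) / 2) ^ (j + (n + 1) + 1)) =
        fun j : ℕ => ((1 : ℝ) / 2) ^ (j + (n + 1) + 1) := by
      funext j
      rw [if_neg (by omega)]
    rw [e3]
    exact h0
  have hpr : ∀ j : ℕ, (Nat.nth Nat.Prime j).Prime := fun j => Nat.nth_mem_of_infinite dim_inf j
  have hle : ∀ j : ℕ, j ≤ n → Nat.nth Nat.Prime j ≤ Nat.nth Nat.Prime n := fun j hj =>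
    Nat.nth_monotone dim_inf hj
  have hgt : ∀ j : ℕ, ¬ j ≤ n → dimX D (Nat.nth Nat.Prime j) = 1 := by
    intro j hj
    have hlt : Nat.nth Nat.Prime n < Nat.nth Nat.Prime j :=
      Nat.nth_strictMono dim_inf (not_le.1 hj)
    have : Nat.nth Nat.Prime j ∉ D := by
      intro hm
      have := hD hm
      simp only [dimP, Finset.mem_filter, Finset.mem_range] at this
      omega
    simp [dimX, this]
  constructor
  · unfold code
    apply Summable.tsum_le_tsum _ hs2 hs1
    intro j
    by_cases hj : j ≤ n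
    · rw [h _ (hpr j) (hle j hj)]
    · rw [hgt j hj]
      simp only [if_true, zero_div]
      split_ifs <;> positivity
  · unfold code
    rw [← hgeo.tsum_eq, ← hs2.tsum_add hgeo.summable]
    apply Summable.tsum_le_tsum _ hs1 (hs2.add hgeo.summable)
    intro j
    by_cases hj : j ≤ n
    · rw [h _ (hpr j) (hle j hj), if_pos hj, add_zero]
    · rw [hgt j hj, if_neg hj]
      simp only [if_true, zero_div, zero_add, one_div, inv_pow]
      split_ifs
      · simp
      · simp

theorem dim_winsE {K : ℕ → SS → ℝ} (hK : IsStrategy (fun _ => 1 / 2) K) {η : ℝ} (hη : 0 < η) :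
    dimH (code '' {x : SS | ∃ᶠ M : ℕ in atTop, Real.exp (η * Nat.primeCounting M) ≤ K M x}) ≤
      ENNReal.ofReal (1 - min (1 / 2) (η / 2)) := by
  classical
  set A : Set SS := {x : SS | ∃ᶠ M : ℕ in atTop, Real.exp (η * Nat.primeCounting M) ≤ K M x} with hA
  set δ : ℝ := min (1 / 2) (η / 2) with hδ
  have hδ0 : 0 < δ := lt_min (by norm_num) (by linarith)
  have hδ1 : δ ≤ 1 / 2 := min_le_left _ _
  have hδ2 : δ ≤ η / 2 := min_le_right _ _
  set d : NNReal := ⟨1 - δ, by linarith⟩ with hd
  have hdr : (d : ℝ) = 1 - δ := rfl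
  have hd1 : (d : ENNReal) < 1 := by
    rw [ENNReal.coe_lt_one_iff, ← NNReal.coe_lt_coe, hdr, NNReal.coe_one]
    linarith
  have hde : (d : ENNReal) = ENNReal.ofReal (1 - δ) := by
    rw [← hdr, ENNReal.ofReal_coe_nnreal]
  rw [← hde]
  refine dimH_le_of_hausdorffMeasure_ne_top (d := d) ?_
  -- the ratio of the geometric series
  set q : ℝ := 2 * Real.exp (-η) * (1 / 2) ^ (d : ℝ) with hq
  have hq0 : 0 < q := by positivity
  have hq1 : q < 1 := by
    have h2 : (2 : ℝ) = Real.exp (Real.log 2) := (Real.exp_log (by norm_num)).symm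
    have h3 : ((1 : ℝ) / 2) ^ (d : ℝ) = Real.exp (-(Real.log 2) * (1 - δ)) := by
      rw [hdr, Real.rpow_def_of_pos (by norm_num)]
      congr 2
      rw [one_div, Real.log_inv]
    have h4 : q = Real.exp (δ * Real.log 2 - η) := by
      rw [hq, h3]
      conv_lhs => rw [h2]
      rw [Real.log_exp, ← Real.exp_add, ← Real.exp_add]
      congr 1; ring
    rw [h4, ← Real.exp_zero]
    apply Real.exp_lt_exp.2
    have hl : Real.log 2 < 1 := by
      have := Real.log_two_lt_d9; linarith
    have hl0 : 0 < Real.log 2 := Real.log_pos (by norm_num)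
    nlinarith
  have hcardb : ∀ N : ℕ, ((dimG K η (Nat.nth Nat.Prime N)).card : ENNReal) *
      (ENNReal.ofReal ((1 / 2) ^ (N + 1))) ^ (d : ℝ) ≤ ENNReal.ofReal q ^ (N + 1) := by
    intro N
    have hc := dim_card hK η (Nat.nth Nat.Prime N)
    rw [dim_pc_nth] at hc
    rw [ENNReal.ofReal_rpow_of_pos (by positivity), ← ENNReal.ofReal_natCast,
      ← ENNReal.ofReal_mul (by positivity), ← ENNReal.ofReal_pow hq0.le]
    apply ENNReal.ofReal_le_ofReal
    have e1 : (((1 : ℝ) / 2) ^ (N + 1)) ^ (d : ℝ) = (((1 : ℝ) / 2) ^ (d : ℝ)) ^ (N + 1) := by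
      rw [← Real.rpow_natCast, ← Real.rpow_mul (by norm_num), mul_comm, Real.rpow_mul (by norm_num),
        Real.rpow_natCast]
    have e2 : Real.exp (-(η * ((N + 1 : ℕ) : ℝ))) = Real.exp (-η) ^ (N + 1) := by
      rw [← Real.exp_nat_mul]
      congr 1; ring
    rw [e1, hq, mul_pow, mul_pow]
    rw [e2] at hc
    exact mul_le_mul_of_nonneg_right hc (by positivity)
  -- the coverings
  let ι : ℕ → Type := fun n₀ => Σ m : ℕ, {D : Finset ℕ // D ∈ dimG K η (Nat.nth Nat.Prime (n₀ + m))}
  let t : ∀ n₀ : ℕ, ι n₀ → Set ℝ := fun n₀ i =>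
    Set.Icc (code (dimX i.2.1)) (code (dimX i.2.1) + (1 / 2) ^ (n₀ + i.1 + 1))
  have hdiam : ∀ n₀ (i : ι n₀), Metric.ediam (t n₀ i) = ENNReal.ofReal ((1 / 2) ^ (n₀ + i.1 + 1)) := by
    intro n₀ i
    simp only [t, Real.ediam_Icc, add_sub_cancel_left]
  have hr : Tendsto (fun n₀ : ℕ => ENNReal.ofReal ((1 / 2) ^ n₀)) atTop (𝓝 0) := by
    rw [← ENNReal.ofReal_zero]
    exact ENNReal.tendsto_ofReal (tendsto_pow_atTop_nhds_zero_of_lt_one (by norm_num) (by norm_num))
  have hle := Measure.hausdorffMeasure_le_liminf_tsum (d : ℝ) (code '' A) (l := atTop)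
    (fun n₀ : ℕ => ENNReal.ofReal ((1 / 2) ^ n₀)) hr t
    (Eventually.of_forall fun n₀ i => by
      rw [hdiam]
      apply ENNReal.ofReal_le_ofReal
      exact pow_le_pow_of_le_one (by norm_num) (by norm_num) (by omega))
    (Eventually.of_forall fun n₀ => by
      rintro _ ⟨x, hx, rfl⟩
      obtain ⟨M, hM, hKM⟩ := (frequently_atTop.1 hx) (Nat.nth Nat.Prime n₀)
      have hpc : n₀ + 1 ≤ Nat.primeCounting M := by
        rw [← dim_pc_nth n₀]; exact Nat.monotone_primeCounting hM
      obtain ⟨m, hm⟩ : ∃ m, Nat.primeCounting M = n₀ + m + 1 := ⟨Nat.primeCounting M - n₀ - 1, by omega⟩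
      have hPM : Nat.nth Nat.Prime (n₀ + m) ≤ M := dim_nth_le M _ (by omega)
      have hKP : K M x = K (Nat.nth Nat.Prime (n₀ + m)) x :=
        dim_const hK x hPM (by rw [dim_pc_nth]; omega)
      set P := Nat.nth Nat.Prime (n₀ + m) with hP
      set D : Finset ℕ := (dimP P).filter fun p => x p = -1 with hD
      have hagree : ∀ p : ℕ, p.Prime → p ≤ P → x p = dimX D p := by
        intro p hp hpP
        have hmem : p ∈ dimP P := by
          simp only [dimP, Finset.mem_filter, Finset.mem_range]
          exact ⟨by omega, hp⟩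
        rcases Int.units_eq_one_or (x p) with h | h
        · have : p ∉ D := by
            simp [hD, h]
          simp [dimX, this, h]
        · have : p ∈ D := by
            simp [hD, h, hmem]
          simp [dimX, this, h]
      have hDG : D ∈ dimG K η P := by
        simp only [dimG, Finset.mem_filter, Finset.mem_powerset]
        refine ⟨Finset.filter_subset _ _, ?_⟩
        rw [← hK.2.2.1 P x (dimX D) hagree, ← hKP, hP, dim_pc_nth, ← hm]
        exact hKM
      refine Set.mem_iUnion.2 ⟨⟨m, ⟨D, hDG⟩⟩, ?_⟩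
      exact dim_code (Finset.filter_subset _ _) hagree)
  have hsum : ∀ n₀ : ℕ, ∑' i : ι n₀, Metric.ediam (t n₀ i) ^ (d : ℝ) ≤
      ENNReal.ofReal q ^ n₀ * (1 - ENNReal.ofReal q)⁻¹ := by
    intro n₀
    simp only [hdiam]
    rw [ENNReal.tsum_sigma']
    simp only [tsum_fintype, Finset.sum_const, Finset.card_univ, Fintype.card_coe, nsmul_eq_mul]
    calc ∑' m : ℕ, ((dimG K η (Nat.nth Nat.Prime (n₀ + m))).card : ENNReal) *
          (ENNReal.ofReal ((1 / 2) ^ (n₀ + m + 1))) ^ (d : ℝ)
        ≤ ∑' m : ℕ, ENNReal.ofReal q ^ n₀ * ENNReal.ofReal q ^ m := by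
          apply ENNReal.tsum_le_tsum
          intro m
          refine (hcardb (n₀ + m)).trans ?_
          rw [← pow_add]
          exact pow_le_pow_right_of_le_one' (ENNReal.ofReal_le_one.2 hq1.le) (by omega)
      _ = ENNReal.ofReal q ^ n₀ * (1 - ENNReal.ofReal q)⁻¹ := by
          rw [ENNReal.tsum_mul_left, ENNReal.tsum_geometric]
  have hQ1 : ENNReal.ofReal q < 1 := by
    rw [← ENNReal.ofReal_one]
    exact (ENNReal.ofReal_lt_ofReal_iff (by norm_num)).2 hq1
  have hlim : Tendsto (fun n₀ : ℕ => ENNReal.ofReal q ^ n₀ * (1 - ENNReal.ofReal q)⁻¹) atTop (𝓝 0) := by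
    have h1 := ENNReal.tendsto_pow_atTop_nhds_zero_of_lt_one hQ1
    have h2 : (1 - ENNReal.ofReal q)⁻¹ ≠ ⊤ := by
      rw [ENNReal.inv_ne_top]
      exact (tsub_pos_of_lt hQ1).ne'
    have := ENNReal.Tendsto.mul_const (b := (1 - ENNReal.ofReal q)⁻¹) h1 (Or.inr h2)
    simpa using this
  have hz : μH[(d : ℝ)] (code '' A) = 0 := by
    refine le_antisymm (hle.trans ?_) bot_le
    calc liminf (fun n₀ => ∑' i : ι n₀, Metric.ediam (t n₀ i) ^ (d : ℝ)) atTop
        ≤ liminf (fun n₀ : ℕ => ENNReal.ofReal q ^ n₀ * (1 - ENNReal.ofReal q)⁻¹) atTop :=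
          liminf_le_liminf (Eventually.of_forall hsum)
      _ = 0 := hlim.liminf_eq
  rw [hz]
  exact ENNReal.zero_ne_top

end Pool.Agent.Lib.P4a7640B
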