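import Mathlib
import Pool.Agent.Lib.P4a7640B.EntP

/-!
# Random signs of almost full entropy against a strategy: an explicit bound for the probability
-/

open MeasureTheory Filter Topology

namespace Pool.Agent.Lib.P4a7640B

open Pool.Agent.Lib.P4a7640

/-- Markov's inequality for the number of events (no measurability is needed) -/
lemma often_markov {Ω : Type*} [MeasurableSpace Ω] {P : Measure Ω} [IsProbabilityMeasure P]
    (E : ℕ → Set Ω) {η : ℝ} (hη : 0 < η) {N : ℕ} (hN : 2 ≤ N) :
    P.real {ω | Often η N fun k => ω ∈ E k} ≤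
      (∑ k ∈ Finset.range (Nat.log 2 (4 * N) + 1), P.real (E k)) / (η * Real.log N) := by
  classical
  set W : ℕ → Set Ω := fun k => toMeasurable P (E k) with hW
  have hWm : ∀ k, MeasurableSet (W k) := fun k => measurableSet_toMeasurable _ _
  have hWE : ∀ k, P.real (W k) = P.real (E k) := fun k => by
    simp only [hW, Measure.real, measure_toMeasurable]
  have hlog : 0 < Real.log N := Real.log_pos (by exact_mod_cast (by omega : 1 < N))
  set f : Ω → ℝ := fun ω => ∑ k ∈ Finset.range (Nat.log 2 (4 * N) + 1),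
    (W k).indicator (fun _ => (1 : ℝ)) ω with hf
  have hfi : ∀ k, Integrable ((W k).indicator fun _ => (1 : ℝ)) P := fun k =>
    (integrable_const (1 : ℝ)).indicator (hWm k)
  have hfint : Integrable f P := integrable_finsetSum _ fun k _ => hfi k
  have hfI : ∫ ω, f ω ∂P = ∑ k ∈ Finset.range (Nat.log 2 (4 * N) + 1), P.real (E k) := by
    rw [hf, integral_finsetSum _ fun k _ => hfi k]
    refine Finset.sum_congr rfl fun k _ => ?_
    rw [integral_indicator (hWm k), ← hWE]
    simp
  have hmark := mul_meas_ge_le_integral_of_nonneg (μ := P) (f := f)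
    (Eventually.of_forall fun ω => Finset.sum_nonneg fun k _ =>
      Set.indicator_nonneg (fun _ _ => zero_le_one) _) hfint (η * Real.log N)
  rw [hfI] at hmark
  have hsub : {ω | Often η N fun k => ω ∈ E k} ⊆ {ω | η * Real.log N ≤ f ω} := by
    rintro ω ⟨s, hs1, hs2⟩
    change η * Real.log N ≤ f ω
    refine hs1.trans ?_
    have h1 : (s.card : ℝ) = ∑ k ∈ s, (W k).indicator (fun _ => (1 : ℝ)) ω := by
      rw [Finset.card_eq_sum_ones, Nat.cast_sum]
      refine Finset.sum_congr rfl fun k hk => ?_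
      have : ω ∈ W k := subset_toMeasurable _ _ (hs2 k hk).2
      rw [Set.indicator_of_mem this, Nat.cast_one]
    rw [h1, hf]
    refine Finset.sum_le_sum_of_subset_of_nonneg ?_ fun k _ _ =>
      Set.indicator_nonneg (fun _ _ => zero_le_one) _
    intro k hk
    rw [Finset.mem_range]
    exact Nat.lt_succ_of_le (Nat.le_log_of_pow_le one_lt_two (hs2 k hk).1)
  have h1 : P.real {ω | Often η N fun k => ω ∈ E k} ≤ P.real {ω | η * Real.log N ≤ f ω} :=
    measureReal_mono hsub
  refine h1.trans ?_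
  rw [le_div_iff₀ (by positivity), mul_comm]
  exact hmark

theorem often_le {K : ℕ → SS → ℝ} (hK : IsStrategy (fun _ => 1 / 2) K) {Ω : Type*}
    [MeasurableSpace Ω] {P : Measure Ω} [IsProbabilityMeasure P] {ε : ℕ → Ω → ℤˣ}
    (hε : ∀ p, Measurable (ε p)) {δ : ℝ} (hδ : 0 < δ)
    (hH : ∀ᶠ M : ℕ in atTop, (Real.log 2 - δ) * Nat.primeCounting M ≤ Hent P ε M)
    {η : ℝ} (hη : 0 < η) :
    ∀ᶠ N : ℕ in atTop, P.real {ω | Often η N fun k =>
      Real.exp (η * Nat.primeCounting (2 ^ k)) ≤ K (2 ^ k) (fun p => ε p ω)} ≤ 2 * δ / η ^ 2 := by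
  have hp2 : Tendsto (fun k : ℕ => 2 ^ k) atTop atTop :=
    tendsto_pow_atTop_atTop_of_one_lt one_lt_two
  have hpi : Tendsto (fun k : ℕ => (Nat.primeCounting (2 ^ k) : ℝ)) atTop atTop :=
    tendsto_natCast_atTop_atTop.comp (Nat.tendsto_primeCounting.comp hp2)
  set E : ℕ → Set Ω := fun k =>
    {ω | Real.exp (η * Nat.primeCounting (2 ^ k)) ≤ K (2 ^ k) (fun p => ε p ω)} with hE
  -- each probability
  have h1 : ∀ᶠ k : ℕ in atTop, P.real (E k) ≤ 11 / 10 * δ / η := by
    filter_upwards [hp2.eventually hH, hpi.eventually_gt_atTop 0,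
      hpi.eventually_ge_atTop (10 / δ)] with k h2 h3 h4
    have h5 := prob_win_le hK hε hη (2 ^ k) (P := P)
    rw [le_div_iff₀ hη]
    have h6 : P.real (E k) * η * Nat.primeCounting (2 ^ k) ≤
        11 / 10 * δ * Nat.primeCounting (2 ^ k) := by
      have h7 : Real.log 2 ≤ 1 := by
        have := Real.log_two_lt_d9
        linarith
      have h8 : 10 ≤ δ * Nat.primeCounting (2 ^ k) := by
        rw [div_le_iff₀ hδ] at h4
        linarith
      have h9 : P.real (E k) * (η * Nat.primeCounting (2 ^ k)) ≤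
        Nat.primeCounting (2 ^ k) * Real.log 2 - Hent P ε (2 ^ k) + Real.log 2 := h5
      nlinarith
    exact le_of_mul_le_mul_right h6 h3
  obtain ⟨k₁, hk₁⟩ := eventually_atTop.1 h1
  have hlogt : Tendsto (fun N : ℕ => Real.log N) atTop atTop :=
    Real.tendsto_log_atTop.comp tendsto_natCast_atTop_atTop
  filter_upwards [eventually_ge_atTop 2, hlogt.eventually_ge_atTop
    (3 * ((k₁ : ℝ) * η / δ + 5))] with N hN hlog
  refine (often_markov E hη hN).trans ?_
  have hN0 : (0 : ℝ) < N := by exact_mod_cast (by omega : 0 < N)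
  have hlog0 : 0 < Real.log N := Real.log_pos (by exact_mod_cast (by omega : 1 < N))
  -- the number of scales
  have hm : ((Nat.log 2 (4 * N) + 1 : ℕ) : ℝ) ≤ 3 / 2 * Real.log N + 3 := by
    have g1 : 2 ^ Nat.log 2 (4 * N) ≤ 4 * N := Nat.pow_log_le_self 2 (by omega)
    have g2 : ((2 : ℝ)) ^ Nat.log 2 (4 * N) ≤ 4 * N := by exact_mod_cast g1
    have g3 := Real.log_le_log (by positivity) g2
    rw [Real.log_pow, Real.log_mul (by norm_num) hN0.ne'] at g3
    have g4 : Real.log 4 = 2 * Real.log 2 := by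
      rw [show (4 : ℝ) = 2 ^ 2 by norm_num, Real.log_pow]; norm_num
    rw [g4] at g3
    have g5 := Real.log_two_gt_d9
    have g7 : ((Nat.log 2 (4 * N) : ℕ) : ℝ) ≤ 2 + 3 / 2 * Real.log N := by
      have g8 : ((Nat.log 2 (4 * N) : ℕ) : ℝ) * Real.log 2 ≤
          (2 + 3 / 2 * Real.log N) * Real.log 2 := by nlinarith
      exact le_of_mul_le_mul_right g8 (Real.log_pos (by norm_num))
    push_cast
    linarith
  have hsum : ∑ k ∈ Finset.range (Nat.log 2 (4 * N) + 1), P.real (E k) ≤
      k₁ + (3 / 2 * Real.log N + 3) * (11 / 10 * δ / η) := by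
    have g1 : ∀ k ∈ Finset.range (Nat.log 2 (4 * N) + 1), P.real (E k) ≤
        (if k < k₁ then (1 : ℝ) else 0) + 11 / 10 * δ / η := by
      intro k _
      split_ifs with hk
      · have : P.real (E k) ≤ 1 := measureReal_le_one
        have h0 : 0 ≤ 11 / 10 * δ / η := by positivity
        linarith
      · rw [zero_add]
        exact hk₁ k (not_lt.1 hk)
    refine (Finset.sum_le_sum g1).trans ?_
    rw [Finset.sum_add_distrib, Finset.sum_const, Finset.card_range, nsmul_eq_mul]
    apply add_le_add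
    · rw [← Finset.sum_filter, Finset.sum_const, nsmul_eq_mul, mul_one]
      have : ((Finset.range (Nat.log 2 (4 * N) + 1)).filter fun k => k < k₁).card ≤ k₁ := by
        refine (Finset.card_le_card (t := Finset.range k₁) ?_).trans (Finset.card_range k₁).le
        intro k hk
        rw [Finset.mem_filter] at hk
        exact Finset.mem_range.2 hk.2
      exact_mod_cast this
    · exact mul_le_mul_of_nonneg_right hm (by positivity)
  rw [div_le_iff₀ (by positivity)]
  refine hsum.trans ?_
  have e1 : 2 * δ / η ^ 2 * (η * Real.log N) = 2 * (δ / η) * Real.log N := by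
    field_simp
  rw [e1]
  have e2 : 11 / 10 * δ / η = 11 / 10 * (δ / η) := by ring
  rw [e2]
  have hd : 0 < δ / η := by positivity
  have e3 : (k₁ : ℝ) = (k₁ : ℝ) * η / δ * (δ / η) := by field_simp
  have e4 : (k₁ : ℝ) * η / δ + 5 ≤ Real.log N / 3 := by linarith
  have e5 : ((k₁ : ℝ) * η / δ + 5) * (δ / η) ≤ Real.log N / 3 * (δ / η) :=
    mul_le_mul_of_nonneg_right e4 hd.le
  nlinarith

end Pool.Agent.Lib.P4a7640B
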