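import Mathlib
import Pool.Agent.Lib.P4a7640B.UniF

/-!
# The bad events for families of weights, with an explicit rate
-/

open Filter Topology

namespace Pool.Agent.Lib.P4a7640B

open Pool.Agent.Lib.P4a7640 Pool.Agent.Lib.P4a7640N Pool.Agent.Lib.P4a7640Ces

open UniAux

theorem uniE {r : ℕ} (hr : 0 < r) (J : ℕ) {t : ℝ} (ht : 0 < t) {A : ℕ → ℕ} (hA : SubExp A) :
    ∀ᶠ k : ℕ in atTop, ∀ θ : ℕ → ℝ, (∀ p, 0 ≤ θ p) → (∀ p, θ p ≤ 1) →
      ∀ W : ℕ → ℕ → Finset ℕ → ℕ → ℝ, (∀ N a H n, |W N a H n| ≤ 1) → ∀ g x : SS,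
      AVL θ (DL (2 ^ k) (2 ^ (k + 1))) (ind (BadF θ A W g r J t k)) x ≤
        Real.exp (-(t ^ 2 / (2048 * (r : ℝ) ^ 2) * 2 ^ k / k)) := by
  have hr0 : (0 : ℝ) < r := by exact_mod_cast hr
  obtain ⟨η, hη⟩ : ∃ η : ℝ, η = t ^ 2 / (1024 * (r : ℝ) ^ 2) := ⟨_, rfl⟩
  have hη0 : 0 < η := by
    rw [hη]
    positivity
  have hη2 : t ^ 2 / (2048 * (r : ℝ) ^ 2) = η / 2 := by
    rw [hη]
    field_simp
    norm_num
  rw [hη2]
  filter_upwards [large r J hη0, eventually_ge_atTop 1, uniF_family J hA,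
    uniF_large (η := η / 2) (by positivity)] with k hk hk1 hfam hlar
  intro θ hθ0 hθ1 W hW g x
  classical
  obtain ⟨E, hE⟩ : ∃ E : (ℕ × Finset ℕ × Finset ℕ) × ℕ → Set SS, E = fun i =>
      {y | t / ((k : ℝ) + 1) ≤ |GB θ (FF (W i.1.1 i.2) g i.1.2.1 i.1.2.2 i.1.1) k (KN i.1.1 - k) y -
        GB θ (FF (W i.1.1 i.2) g i.1.2.1 i.1.2.2 i.1.1) (k + 1) (KN i.1.1 - (k + 1)) y|} := ⟨_, rfl⟩
  obtain ⟨s, hs⟩ : ∃ s : Finset (ℕ × Finset ℕ × Finset ℕ), s = (idx r J k).filter fun i =>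
      1 ≤ i.1 ∧ (k0 J i.1 ≤ k ∧ k < KN i.1) ∧ i.2.1 ⊆ Finset.range (i.1 + 1) := ⟨_, rfl⟩
  obtain ⟨S, hS⟩ : ∃ S : Finset ((ℕ × Finset ℕ × Finset ℕ) × ℕ), S = s ×ˢ
      Finset.range ⌊Real.exp (Real.sqrt 2 ^ k)⌋₊ := ⟨_, rfl⟩
  have hsub : BadF θ A W g r J t k ⊆ ⋃ i ∈ S, E i := by
    rintro y ⟨N, hN1, hN2, hN3, a, ha, H, hH1, hH2, D, hD1, hy⟩
    rw [Set.mem_iUnion₂]
    refine ⟨((N, H, D), a), ?_, ?_⟩
    · rw [hS, Finset.mem_product]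
      constructor
      · rw [hs, Finset.mem_filter]
        refine ⟨?_, hN1, ⟨hN2, hN3⟩, hH1⟩
        unfold idx
        rw [Finset.mem_product, Finset.mem_product, Finset.mem_range, Finset.mem_powersetCard,
          Finset.mem_powerset]
        have hlt := lt_Bk hN2
        refine ⟨hlt, ⟨hH1.trans ?_, hH2⟩, hD1.trans ?_⟩
        · intro a ha
          rw [Finset.mem_range] at ha ⊢
          omega
        · exact Finset.Icc_subset_Icc_right (rt_le_sqrt hN2)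
      · rw [Finset.mem_range]
        exact lt_of_lt_of_le ha (Nat.le_floor (hfam N hN2 hN3))
    · rw [hE]
      exact hy
  have hX : 0 < t / ((k : ℝ) + 1) := by positivity
  have hone : ∀ i ∈ S, AVL θ (DL (2 ^ k) (2 ^ (k + 1))) (ind (E i)) x ≤
      2 * Real.exp (-((t / ((k : ℝ) + 1)) ^ 2 * k * 2 ^ k / (128 * (r : ℝ) ^ 2))) := by
    intro i hi
    rw [hS, Finset.mem_product] at hi
    have hi' := hi.1
    rw [hs, Finset.mem_filter] at hi'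
    obtain ⟨hi0, hi1, hi2, hi3⟩ := hi'
    unfold idx at hi0
    rw [Finset.mem_product, Finset.mem_product, Finset.mem_powersetCard] at hi0
    rw [hE]
    exact one_block hθ0 hθ1 (W := W i.1.1 i.2) (hW _ _) g hr hi1 hk1 hi2.2 i.1.2.2 hi3 hi0.2.1.2 hX x
  obtain ⟨M, hM⟩ : ∃ M : ℕ, M = (r + 1) * ((k + 1) * 2 ^ J) + Nat.sqrt (2 ^ k) := ⟨_, rfl⟩
  rw [← hM] at hk
  have hcard : (S.card : ℝ) ≤ 2 ^ M * Real.exp (Real.sqrt 2 ^ k) := by
    rw [hS, Finset.card_product, Finset.card_range]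
    push_cast
    have h1 : (s.card : ℝ) ≤ 2 ^ M := by
      have h1 : s.card ≤ 2 ^ M := by
        rw [hs, hM]
        exact (Finset.card_filter_le _ _).trans (card_idx r J k)
      exact_mod_cast h1
    exact mul_le_mul h1 (Nat.floor_le (Real.exp_pos _).le) (Nat.cast_nonneg _) (by positivity)
  have h2M : (2 : ℝ) ^ M * 2 ≤ Real.exp ((M : ℝ) + 1) := by
    have h2 : (2 : ℝ) ≤ Real.exp 1 := by
      have := Real.add_one_le_exp (1 : ℝ)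
      linarith
    rw [← pow_succ, ← Nat.cast_succ, ← Real.exp_one_pow]
    exact pow_le_pow_left₀ (by norm_num) h2 _
  have hexpo := expo hr hk1 ht
  rw [← hη] at hexpo
  have hhalf : η / 2 * 2 ^ k / k = (η * 2 ^ k / k) / 2 := by ring
  calc AVL θ (DL (2 ^ k) (2 ^ (k + 1))) (ind (BadF θ A W g r J t k)) x
      ≤ AVL θ (DL (2 ^ k) (2 ^ (k + 1))) (ind (⋃ i ∈ S, E i)) x :=
        AVL_ind_mono hθ0 hθ1 _ hsub x
    _ ≤ ∑ i ∈ S, AVL θ (DL (2 ^ k) (2 ^ (k + 1))) (ind (E i)) x :=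
        AVL_ind_biUnion hθ0 hθ1 _ S E x
    _ ≤ ∑ _i ∈ S, 2 * Real.exp (-((t / ((k : ℝ) + 1)) ^ 2 * k * 2 ^ k /
          (128 * (r : ℝ) ^ 2))) := Finset.sum_le_sum hone
    _ = S.card * (2 * Real.exp (-((t / ((k : ℝ) + 1)) ^ 2 * k * 2 ^ k /
          (128 * (r : ℝ) ^ 2)))) := by rw [Finset.sum_const, nsmul_eq_mul]
    _ ≤ (2 ^ M * Real.exp (Real.sqrt 2 ^ k)) * (2 * Real.exp (-(2 * (η * 2 ^ k / k)))) := by
        gcongr
    _ = (2 ^ M * 2) * Real.exp (Real.sqrt 2 ^ k) * Real.exp (-(2 * (η * 2 ^ k / k))) := by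
        generalize Real.exp (Real.sqrt 2 ^ k) = e1
        generalize Real.exp (-(2 * (η * 2 ^ k / k))) = e2
        ring
    _ ≤ Real.exp ((M : ℝ) + 1) * Real.exp (Real.sqrt 2 ^ k) *
        Real.exp (-(2 * (η * 2 ^ k / k))) := by gcongr
    _ = Real.exp (((M : ℝ) + 1) + Real.sqrt 2 ^ k + -(2 * (η * 2 ^ k / k))) := by
        rw [← Real.exp_add, ← Real.exp_add]
    _ ≤ Real.exp (-(η / 2 * 2 ^ k / k)) := by
        apply Real.exp_le_exp.mpr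
        rw [hhalf] at hlar ⊢
        linarith


end Pool.Agent.Lib.P4a7640B
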