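import Mathlib
import Pool.Agent.Lib.P4a7640B.FinP
import Pool.Agent.Lib.P4a7640B.UniE
import Pool.Agent.Lib.P4a7640B.CoreE

/-!
# One betting strategy for fair coins, with an explicit rate
-/

open MeasureTheory Filter Topology

namespace Pool.Agent.Lib.P4a7640B

open Pool.Agent.Lib.P4a7640 Pool.Agent.Lib.P4a7640N Pool.Agent.Lib.P4a7640Ces Pool.Agent.Lib.P4a7640N2

/-- one betting strategy for fair coins wins with the rate `c ε ^ 3 / r ^ 2`, `c` absolute, at a positive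
proportion of the scales below every scale at which a multiplicative function has a large correlation -/
theorem strategyE : ∃ c : ℝ, 0 < c ∧ c ≤ 1 ∧ ∀ (g : ℕ → ℕ → ℤˣ) {A : ℕ → ℕ}, SubExp A →
    ∀ {w : ℕ → ℕ → ℕ → ℝ}, (∀ N a n, |w N a n| ≤ 1) →
    ∃ K : ℕ → SS → ℝ, IsStrategy (fun _ => 1 / 2) K ∧ ∀ (r : ℕ) (ε : ℝ), 0 < r → 0 < ε → ε ≤ 1 →
      ∀ i : ℕ, ∀ᶠ N : ℕ in atTop, ∀ (x : SS) (f : ℕ → ℤˣ), MultS f →
        Near (c * ε ^ 3 / r ^ 2) N f (fun p => g i p * x p) → DevN A w r ε N f →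
        Often (c * ε ^ 3 / r ^ 2) N fun k =>
          Real.exp (c * ε ^ 3 / r ^ 2 * Nat.primeCounting (2 ^ k)) ≤ K (2 ^ k) x := by
  classical
  obtain ⟨c, hc, hcore0⟩ := coreE
  refine ⟨min (c / 4194304) 1, lt_min (by positivity) one_pos, min_le_right _ _, ?_⟩
  intro g A hA w hw
  have hθ0 : ∀ p : ℕ, (0 : ℝ) ≤ (fun _ : ℕ => (1 / 2 : ℝ)) p := fun _ => by norm_num
  have hθ1 : ∀ p : ℕ, (fun _ : ℕ => (1 / 2 : ℝ)) p ≤ 1 := fun _ => by norm_num
  -- the weights, with the weight `1`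
  set v : ℕ → ℕ → ℕ → ℝ := fun N a => if a = 0 then fun _ => 1 else w N (a - 1) with hv
  have hv1 : ∀ N a n, |v N a n| ≤ 1 := by
    intro N a n
    simp only [hv]
    split_ifs with h
    · simp
    · exact hw _ _ _
  have hm1 : ∀ m : ℕ, 1 / ((m : ℝ) + 1) ≤ 1 := fun m => by
    rw [div_le_one (by positivity)]
    have : (0 : ℝ) ≤ m := Nat.cast_nonneg m
    linarith
  choose J t s κ ht _ _ ht2 hs hκ hJ hcore using fun r m : ℕ => hcore0 (r + 1) (1 / ((m : ℝ) + 1))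
    (Nat.succ_pos r) (by positivity) (hm1 m)
  set W : ℕ → Finset ℕ → ℕ → ℕ → Finset ℕ → ℕ → ℝ := fun R S N a H n =>
    v N a n * prodSeq (uS R S) H n with hW
  have hW1 : ∀ R S N a H n, |W R S N a H n| ≤ 1 := by
    intro R S N a H n
    simp only [hW]
    rw [abs_mul, abs_prodSeq, mul_one]
    exact hv1 N a n
  set B : ℕ × ℕ × ℕ × ℕ × Finset ℕ → ℕ → Set SS := fun q k =>
    BadF (fun _ => 1 / 2) (fun N => A N + 1) (W q.2.2.2.1 q.2.2.2.2) (g q.2.2.1) (q.1 + 1)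
      (J q.1 q.2.1) (t q.1 q.2.1) k with hB
  set η : ℕ → ℕ → ℝ := fun r m => t r m ^ 2 / (2048 * ((r + 1 : ℕ) : ℝ) ^ 2) with hη
  have hηp : ∀ r m, 0 < η r m := fun r m => by
    have := ht r m
    simp only [hη]
    positivity
  obtain ⟨K, hK, hwin⟩ := exists_strategyE hθ0 hθ1 B (fun q k => DepOn_BadF _ _ _ _ _ _ _ _)
    (fun q => η q.1 q.2.1) (fun q => hηp q.1 q.2.1) (fun q => by
      filter_upwards [uniE (r := q.1 + 1) (Nat.succ_pos _) (J q.1 q.2.1) (ht q.1 q.2.1)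
        (subExp_succ hA)] with k hk x
      exact hk _ hθ0 hθ1 _ (hW1 _ _) _ x)
  refine ⟨K, hK, fun r ε hr hε hε1 i => ?_⟩
  obtain ⟨r, rfl⟩ : ∃ r', r = r' + 1 := ⟨r - 1, by omega⟩
  -- `ε / 4 ≤ 1 / (m + 1) < ε / 2`
  obtain ⟨m, hm, hm4⟩ : ∃ m : ℕ, 1 / ((m : ℝ) + 1) < ε / 2 ∧ ε / 4 ≤ 1 / ((m : ℝ) + 1) := by
    refine ⟨⌊2 / ε⌋₊, ?_, ?_⟩
    · have h1 := Nat.lt_floor_add_one (2 / ε)
      rw [div_lt_div_iff₀ (by positivity) (by norm_num), one_mul]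
      rw [div_lt_iff₀ hε] at h1
      linarith
    · have h1 : ((⌊2 / ε⌋₊ : ℕ) : ℝ) ≤ 2 / ε := Nat.floor_le (by positivity)
      rw [div_le_div_iff₀ (by norm_num) (by positivity), one_mul]
      have h2 : ((⌊2 / ε⌋₊ : ℕ) : ℝ) * ε ≤ 2 := by
        rw [le_div_iff₀ hε] at h1
        exact h1
      nlinarith
  have hr0 : (0 : ℝ) < ((r + 1 : ℕ) : ℝ) := by exact_mod_cast Nat.succ_pos r
  set η' : ℝ := min (c / 4194304) 1 * ε ^ 3 / ((r + 1 : ℕ) : ℝ) ^ 2 with hη'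
  have hη'0 : 0 < η' := by
    have : 0 < min (c / 4194304) 1 := lt_min (by positivity) one_pos
    rw [hη']
    positivity
  -- the comparison of the constants
  have hcube : ε ^ 3 / 64 ≤ (1 / ((m : ℝ) + 1)) ^ 3 := by
    have := pow_le_pow_left₀ (by positivity) hm4 3
    calc ε ^ 3 / 64 = (ε / 4) ^ 3 := by ring
      _ ≤ _ := this
  have hbase : η' ≤ c * (1 / ((m : ℝ) + 1)) ^ 3 / (65536 * ((r + 1 : ℕ) : ℝ) ^ 2) := by
    rw [hη', div_le_div_iff₀ (by positivity) (by positivity)]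
    have h1 : min (c / 4194304) 1 * ε ^ 3 ≤ c / 65536 * (ε ^ 3 / 64) := by
      have : min (c / 4194304) 1 * ε ^ 3 ≤ c / 4194304 * ε ^ 3 :=
        mul_le_mul_of_nonneg_right (min_le_left _ _) (by positivity)
      refine this.trans (le_of_eq ?_)
      ring
    have h2 : c / 65536 * (ε ^ 3 / 64) ≤ c / 65536 * (1 / ((m : ℝ) + 1)) ^ 3 :=
      mul_le_mul_of_nonneg_left hcube (by positivity)
    have h3 := h1.trans h2
    have h4 : (0 : ℝ) ≤ 65536 * ((r + 1 : ℕ) : ℝ) ^ 2 := by positivity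
    calc min (c / 4194304) 1 * ε ^ 3 * (65536 * ((r + 1 : ℕ) : ℝ) ^ 2) ≤
        c / 65536 * (1 / ((m : ℝ) + 1)) ^ 3 * (65536 * ((r + 1 : ℕ) : ℝ) ^ 2) :=
          mul_le_mul_of_nonneg_right h3 h4
      _ = c * (1 / ((m : ℝ) + 1)) ^ 3 * ((r + 1 : ℕ) : ℝ) ^ 2 := by ring
  have hbase2 : η' ≤ c * (1 / ((m : ℝ) + 1)) ^ 3 / ((r + 1 : ℕ) : ℝ) ^ 2 := by
    refine hbase.trans ?_
    apply div_le_div_of_nonneg_left (by positivity) (by positivity)
    have : (0 : ℝ) ≤ ((r + 1 : ℕ) : ℝ) ^ 2 := by positivity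
    linarith
  have e1 : η' ≤ η r m / 32 := by
    refine hbase.trans ?_
    simp only [hη]
    rw [div_div, div_le_div_iff₀ (by positivity) (by positivity)]
    have h1 := ht2 r m
    have h4 : (0 : ℝ) ≤ 65536 * ((r + 1 : ℕ) : ℝ) ^ 2 := by positivity
    calc c * (1 / ((m : ℝ) + 1)) ^ 3 * (2048 * ((r + 1 : ℕ) : ℝ) ^ 2 * 32) =
        c * (1 / ((m : ℝ) + 1)) ^ 3 * (65536 * ((r + 1 : ℕ) : ℝ) ^ 2) := by ring
      _ ≤ t r m ^ 2 * (65536 * ((r + 1 : ℕ) : ℝ) ^ 2) := mul_le_mul_of_nonneg_right h1 h4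
  have e2 : η' ≤ κ r m := hbase2.trans (hκ r m)
  have e3 : η' ≤ s r m := hbase2.trans (hs r m)
  have e4 : η' ≤ (1 / 2) ^ (J r m + 1) := hbase2.trans (hJ r m)
  have hδ : 0 < ε / (4 * ((r + 1 : ℕ) : ℝ)) := by positivity
  obtain ⟨R, hR⟩ := exists_periodic_unif hδ
  have hfin : ∀ᶠ k : ℕ in atTop, ∀ S ∈ (Finset.range R).powerset, ∀ x ∈ B (r, m, i, R, S) k,
      Real.exp (η r m / 32 * Nat.primeCounting (2 ^ (k + 1))) ≤ K (2 ^ (k + 1)) x := by
    rw [Filter.eventually_all_finset]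
    intro S _
    exact hwin (r, m, i, R, S)
  obtain ⟨k₁, hk₁⟩ := eventually_atTop.1 hfin
  filter_upwards [hcore r m, hR, eventually_ge_atTop 1,
    (core_tendsto_k0 (J r m)).eventually_ge_atTop k₁] with N h1 h2 hN1 hkN x f hf hnear hdev
  obtain ⟨S, hS, h3⟩ := h2 f hf
  have hES := ES_of_near hN1 e3 e4 hnear
  obtain ⟨H, hH, hcard, u, hu, hlt⟩ := hdev
  -- the large correlation of `rnd f`
  obtain ⟨a, ha, hbig⟩ : ∃ a < A N + 1, 1 / ((m : ℝ) + 1) * N <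
      |∑ n ∈ Finset.Icc 1 N, W R S N a H n * prodSeq (rnd f) H n| := by
    obtain ⟨a, ha, rfl⟩ : ∃ a < A N + 1, u = v N a := by
      rcases hu with rfl | ⟨a, ha, rfl⟩
      · exact ⟨0, Nat.succ_pos _, by simp [hv]⟩
      · exact ⟨a + 1, by omega, by simp [hv]⟩
    refine ⟨a, ha, ?_⟩
    have h5 := sum_close (f := f) (hv1 N a) hH h3
    rw [hcard] at h5
    have h6 : 2 * ((r + 1 : ℕ) : ℝ) * (ε / (4 * ((r + 1 : ℕ) : ℝ)) * N) = ε / 2 * N := by
      field_simp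
      ring
    rw [h6] at h5
    have hN' : (0 : ℝ) < N := by exact_mod_cast hN1
    have h7 : 1 / ((m : ℝ) + 1) * N < ε / 2 * N := mul_lt_mul_of_pos_right hm hN'
    simp only [hW]
    by_contra hcon
    push Not at hcon
    have h8 := abs_sub_abs_le_abs_sub (∑ n ∈ Finset.Icc 1 N, v N a n * ∏ h ∈ H, ((f (n + h) : ℤ) : ℝ))
      (∑ n ∈ Finset.Icc 1 N, (v N a n * prodSeq (uS R S) H n) * prodSeq (rnd f) H n)
    linarith
  have h9 := h1 (fun N => A N + 1) (W R S) (hW1 R S) (g i) x f hES a ha H hH hcard hbig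
  -- the winning scales
  refine ⟨((Finset.Ico (k0 (J r m) N) (KN N)).filter fun k =>
    x ∈ BadF (fun _ => 1 / 2) (fun N => A N + 1) (W R S) (g i) (r + 1) (J r m) (t r m) k).image
      (· + 1), ?_, ?_⟩
  · rw [Finset.card_image_of_injective _ (add_left_injective 1)]
    refine le_trans ?_ h9
    apply mul_le_mul_of_nonneg_right e2
    exact Real.log_natCast_nonneg N
  · intro k' hk'
    rw [Finset.mem_image] at hk'
    obtain ⟨k, hk, rfl⟩ := hk'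
    rw [Finset.mem_filter, Finset.mem_Ico] at hk
    obtain ⟨⟨hk2, hk3⟩, hk4⟩ := hk
    constructor
    · have h10 : 2 ^ (KN N - 1) < 2 * N :=
        (Nat.lt_clog_iff_pow_lt one_lt_two).1 (by
          show KN N - 1 < KN N
          omega)
      have h11 : 2 ^ (k + 1) ≤ 2 ^ (KN N - 1) * 2 := by
        rw [← pow_succ]
        exact Nat.pow_le_pow_right (by norm_num) (by omega)
      omega
    · refine le_trans ?_ (hk₁ k (hkN.trans hk2) S (Finset.mem_powerset.2 hS) x hk4)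
      apply Real.exp_le_exp.2
      exact mul_le_mul_of_nonneg_right e1 (Nat.cast_nonneg _)

end Pool.Agent.Lib.P4a7640B
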