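import Mathlib
import Pool.Agent.Lib.P4a7640B.MainP
import Pool.Agent.Lib.P4a7640B.FinE
import Pool.Agent.Lib.P4a7640B.DimE
import Pool.Agent.Lib.P4a7640B.EntQ
import Pool.Agent.Lib.P4a7640B.DepE

/-!
# One predictor beats every counterexample: assembly with explicit rates
-/

open MeasureTheory Filter Topology

namespace Pool.Agent.Lib.P4a7640B

open Pool.Agent.Lib.P4a7640 Pool.Agent.Lib.P4a7640N Pool.Agent.Lib.P4a7640Ces Pool.Agent.Lib.P4a7640N2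

lemma near_mono {η η' : ℝ} (h : η ≤ η') {N : ℕ} (hN : 1 ≤ N) {f y : ℕ → ℤˣ} (hn : Near η N f y) :
    Near η' N f y := by
  unfold Near at *
  refine le_trans ?_ (hn.trans h)
  apply Finset.sum_le_sum_of_subset_of_nonneg
  · intro p hp
    rw [Finset.mem_filter] at hp ⊢
    refine ⟨hp.1, hp.2.1, ?_, hp.2.2.2⟩
    exact lt_of_le_of_lt (Real.rpow_le_rpow_of_exponent_le (by exact_mod_cast hN) h) hp.2.2.1
  · intro p _ _
    positivity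

/-- everything for fair coins -/
theorem main_fair : ∃ c : ℝ, 0 < c ∧ ∀ (g : ℕ → ℕ → ℤˣ) (A : ℕ → ℕ), SubExp A →
    ∀ w : ℕ → ℕ → ℕ → ℝ, (∀ N a n, |w N a n| ≤ 1) →
    ∃ K : ℕ → SS → ℝ, IsStrategy (fun _ => 1 / 2) K ∧
      (∀ (r : ℕ) (ε : ℝ), 0 < r → 0 < ε → ε ≤ 1 → ∀ i : ℕ, ∀ᶠ N : ℕ in atTop,
        ∀ (x : SS) (f : ℕ → ℤˣ), MultS f →
          Near (c * ε ^ 3 / r ^ 2) N f (fun p => g i p * x p) → DevN A w r ε N f →
          Often (c * ε ^ 3 / r ^ 2) N fun k =>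
            Real.exp (c * ε ^ 3 / r ^ 2 * Nat.primeCounting (2 ^ k)) ≤ K (2 ^ k) x) ∧
      (∀ (r : ℕ) (ε : ℝ), 0 < r → 0 < ε → ε ≤ 1 →
        dimH (code '' {x | ∃ (i : ℕ) (f : ℕ → ℤˣ), MultS f ∧ SlowTo f (fun p => g i p * x p) ∧
          Dev A w r ε f}) ≤ ENNReal.ofReal (1 - c * ε ^ 3 / r ^ 2)) := by
  obtain ⟨c, hc, hc1, h⟩ := strategyE
  refine ⟨c / 2, by positivity, fun g A hA w hw => ?_⟩
  obtain ⟨K, hK, hK1⟩ := h g hA hw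
  have hle : ∀ (r : ℕ) (ε : ℝ), 0 < ε → c / 2 * ε ^ 3 / (r : ℝ) ^ 2 ≤ c * ε ^ 3 / (r : ℝ) ^ 2 := by
    intro r ε hε
    apply div_le_div_of_nonneg_right _ (by positivity)
    have : 0 < c * ε ^ 3 := by positivity
    linarith
  refine ⟨K, hK, fun r ε hr hε hε1 i => ?_, fun r ε hr hε hε1 => ?_⟩
  · filter_upwards [hK1 r ε hr hε hε1 i, eventually_ge_atTop 1] with N hN hN1 x f hf hn hd
    refine often_mono (hN x f hf (near_mono (hle r ε hε) hN1 hn) hd) (hle r ε hε) fun k hk => ?_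
    refine le_trans ?_ hk
    exact Real.exp_le_exp.2 (mul_le_mul_of_nonneg_right (hle r ε hε) (Nat.cast_nonneg _))
  · have hr' : (1 : ℝ) ≤ r := by exact_mod_cast hr
    have hη : 0 < c * ε ^ 3 / (r : ℝ) ^ 2 := by positivity
    have h1 : c * ε ^ 3 / (r : ℝ) ^ 2 ≤ 1 := by
      rw [div_le_one (by positivity)]
      have e1 : c * ε ^ 3 ≤ 1 * 1 := mul_le_mul hc1 (pow_le_one₀ hε.le hε1) (by positivity) (by norm_num)
      have e2 : (1 : ℝ) ≤ (r : ℝ) ^ 2 := one_le_pow₀ hr'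
      linarith
    have h2 := dim_winsE hK hη
    have e3 : 1 - min (1 / 2) (c * ε ^ 3 / (r : ℝ) ^ 2 / 2) = 1 - c / 2 * ε ^ 3 / (r : ℝ) ^ 2 := by
      rw [min_eq_right (by linarith)]
      ring
    rw [e3] at h2
    refine le_trans (dimH_mono (Set.image_mono ?_)) h2
    rintro x ⟨i, f, hf, hs, hd⟩
    exact freq_of_often hη (P := fun M => Real.exp (c * ε ^ 3 / (r : ℝ) ^ 2 * Nat.primeCounting M) ≤ K M x)
      (freq_wins_of_dev hη (hK1 r ε hr hε hε1 i) hf hs hd)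

/-- `ε` may be replaced by a smaller number -/
lemma DevN_mono {A : ℕ → ℕ} {w : ℕ → ℕ → ℕ → ℝ} {r : ℕ} {ε ε' : ℝ} (h : ε' ≤ ε) {N : ℕ} {f : ℕ → ℤˣ}
    (hd : DevN A w r ε N f) : DevN A w r ε' N f := by
  obtain ⟨H, h1, h2, v, h3, h4⟩ := hd
  exact ⟨H, h1, h2, v, h3, lt_of_le_of_lt (mul_le_mul_of_nonneg_right h (Nat.cast_nonneg N)) h4⟩

/-- from `ε ≤ 1` to all `ε` -/
lemma rate_all {c : ℝ} (hc : 0 < c) {g : ℕ → ℕ → ℤˣ} {A : ℕ → ℕ} {w : ℕ → ℕ → ℕ → ℝ}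
    {K : ℕ → SS → ℝ}
    (h : ∀ (r : ℕ) (ε : ℝ), 0 < r → 0 < ε → ε ≤ 1 → ∀ i : ℕ, ∀ᶠ N : ℕ in atTop,
        ∀ (x : SS) (f : ℕ → ℤˣ), MultS f →
          Near (c * ε ^ 3 / r ^ 2) N f (fun p => g i p * x p) → DevN A w r ε N f →
          Often (c * ε ^ 3 / r ^ 2) N fun k =>
            Real.exp (c * ε ^ 3 / r ^ 2 * Nat.primeCounting (2 ^ k)) ≤ K (2 ^ k) x) :
    ∀ (r : ℕ) (ε : ℝ), 0 < r → 0 < ε → ∃ η : ℝ, 0 < η ∧
        ∀ i : ℕ, ∀ᶠ N : ℕ in atTop, ∀ (x : SS) (f : ℕ → ℤˣ), MultS f →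
          Near η N f (fun p => g i p * x p) → DevN A w r ε N f →
          Often η N fun k => Real.exp (η * Nat.primeCounting (2 ^ k)) ≤ K (2 ^ k) x := by
  intro r ε hr hε
  have hr' : (0 : ℝ) < r := by exact_mod_cast hr
  have hm : 0 < min ε 1 := lt_min hε one_pos
  refine ⟨c * (min ε 1) ^ 3 / r ^ 2, by positivity, fun i => ?_⟩
  filter_upwards [h r (min ε 1) hr hm (min_le_right _ _) i] with N hN x f hf hn hd
  exact hN x f hf hn (DevN_mono (min_le_left _ _) hd)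

/-- the alternative -/
lemma good_or {g : ℕ → ℕ → ℤˣ} {A : ℕ → ℕ} {w : ℕ → ℕ → ℕ → ℝ} {K : ℕ → SS → ℝ}
    (h : ∀ (r : ℕ) (ε : ℝ), 0 < r → 0 < ε → ∃ η : ℝ, 0 < η ∧
        ∀ i : ℕ, ∀ᶠ N : ℕ in atTop, ∀ (x : SS) (f : ℕ → ℤˣ), MultS f →
          Near η N f (fun p => g i p * x p) → DevN A w r ε N f →
          Often η N fun k => Real.exp (η * Nat.primeCounting (2 ^ k)) ≤ K (2 ^ k) x)
    (x : SS) (i : ℕ) {f : ℕ → ℤˣ} (hf : MultS f) (hs : SlowTo f (fun p => g i p * x p)) :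
    Good A w f ∨ Wins K x := by
  by_cases hgood : ∀ (r : ℕ) (ε : ℝ), 0 < r → 0 < ε → ¬ Dev A w r ε f
  · exact Or.inl (good_of_not_dev hf hgood)
  · right
    push Not at hgood
    obtain ⟨r, ε, hr, hε, hdev⟩ := hgood
    obtain ⟨η, hη, h1⟩ := h r ε hr hε
    exact ⟨η, hη, freq_of_often hη (P := fun M => Real.exp (η * Nat.primeCounting M) ≤ K M x)
      (freq_wins_of_dev hη (h1 i) hf hs hdev)⟩

/-- random signs of almost full entropy: the probability of a large correlation -/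
theorem mainE_prob {K : ℕ → SS → ℝ} (hK : IsStrategy (fun _ => 1 / 2) K) {y : ℕ → ℤˣ}
    {A : ℕ → ℕ} {w : ℕ → ℕ → ℕ → ℝ} {r : ℕ} {e η : ℝ} (hη : 0 < η)
    (h : ∀ᶠ N : ℕ in atTop, ∀ (x : SS) (f : ℕ → ℤˣ), MultS f →
      Near η N f (fun p => y p * x p) → DevN A w r e N f →
      Often η N fun k => Real.exp (η * Nat.primeCounting (2 ^ k)) ≤ K (2 ^ k) x)
    {Ω : Type*} [MeasurableSpace Ω] {P : Measure Ω} [IsProbabilityMeasure P] {ε : ℕ → Ω → ℤˣ}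
    (hε : ∀ p, Measurable (ε p)) {δ : ℝ} (hδ : 0 < δ)
    (hH : ∀ᶠ M : ℕ in atTop, (Real.log 2 - δ) * Nat.primeCounting M ≤ Hent P ε M) :
    ∀ᶠ N : ℕ in atTop, P.real {ω | ∃ f : ℕ → ℤˣ, MultS f ∧
      Near η N f (fun p => y p * ε p ω) ∧ DevN A w r e N f} ≤ 2 * δ / η ^ 2 := by
  filter_upwards [h, often_le hK hε hδ hH hη] with N hN hN2
  refine (measureReal_mono ?_ (measure_ne_top _ _)).trans hN2
  rintro ω ⟨f, hf, h1, h2⟩
  exact hN _ f hf h1 h2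

/-- dependent random signs of small conditional bias: the probability of a large correlation -/
theorem mainE_exp {θ : ℕ → ℝ} {K : ℕ → SS → ℝ} (hK : IsStrategy θ K) {y : ℕ → ℤˣ}
    {A : ℕ → ℕ} {w : ℕ → ℕ → ℕ → ℝ} {r : ℕ} {e η : ℝ} (hη : 0 < η)
    (h : ∀ᶠ N : ℕ in atTop, ∀ (x : SS) (f : ℕ → ℤˣ), MultS f →
      Near η N f (fun p => y p * x p) → DevN A w r e N f →
      Often η N fun k => Real.exp (η * Nat.primeCounting (2 ^ k)) ≤ K (2 ^ k) x)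
    {Ω : Type*} [MeasurableSpace Ω] {P : Measure Ω} [IsProbabilityMeasure P] {ε : ℕ → Ω → ℤˣ}
    {ρ : ℕ → ℝ} (hρ : ∀ δ : ℝ, 0 < δ → ∀ᶠ M : ℕ in atTop,
      ∑ p ∈ (Finset.Icc 1 M).filter Nat.Prime, ρ p ≤ δ * Nat.primeCounting M)
    (hP : ∀ p : ℕ, p.Prime → ∀ s : SS, ∀ u : ℤˣ,
      P.real {ω | (∀ q : ℕ, q.Prime → q < p → ε q ω = s q) ∧ ε p ω = u} ≤
        (1 + ρ p) * (if u = 1 then 1 - θ p else θ p) *
          P.real {ω | ∀ q : ℕ, q.Prime → q < p → ε q ω = s q}) :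
    ∀ᶠ N : ℕ in atTop, P.real {ω | ∃ f : ℕ → ℤˣ, MultS f ∧
      Near η N f (fun p => y p * ε p ω) ∧ DevN A w r e N f} ≤ Real.exp (-(N : ℝ) ^ (η / 2)) := by
  filter_upwards [h, often_exp hK hρ hP hη] with N hN hN2
  refine (measureReal_mono ?_ (measure_ne_top _ _)).trans hN2
  rintro ω ⟨f, hf, h1, h2⟩
  exact hN _ f hf h1 h2

end Pool.Agent.Lib.P4a7640B
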